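import Mathlib

open Finset

namespace Pool.Agent.H.MP_3e6494_nt.PV

variable {q : ℕ} [hq : Fact q.Prime]

/-- norm of the standard additive character minus one -/
lemma norm_std_sub_one (a : ZMod q) :
    ‖ZMod.stdAddChar a - (1 : ℂ)‖ = 2 * Real.sin (Real.pi * a.val / q) := by
  have hq0 : (0 : ℝ) < q := by exact_mod_cast hq.out.pos
  have h1 : ZMod.stdAddChar a
      = Complex.exp (Complex.I * ((2 * Real.pi * a.val / q : ℝ) : ℂ)) := by
    have : a = ((a.val : ℤ) : ZMod q) := by simp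
    conv_lhs => rw [this]
    rw [ZMod.stdAddChar_coe]
    congr 1
    push_cast
    ring
  rw [h1, Complex.norm_exp_I_mul_ofReal_sub_one]
  have h2 : 2 * Real.pi * a.val / q / 2 = Real.pi * a.val / q := by ring
  rw [h2, Real.norm_of_nonneg]
  have hval : (a.val : ℝ) ≤ q := by exact_mod_cast (ZMod.val_lt a).le
  have : 0 ≤ Real.sin (Real.pi * a.val / q) := by
    apply Real.sin_nonneg_of_nonneg_of_le_pi
    · positivity
    · rw [div_le_iff₀ hq0]
      exact mul_le_mul_of_nonneg_left hval Real.pi_pos.le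
  linarith

lemma sin_lower {x : ℝ} (h0 : 0 ≤ x) (h1 : x ≤ 1) : 2 * min x (1 - x) ≤ Real.sin (Real.pi * x) := by
  rcases le_total x (1 / 2) with h | h
  · have h2 := Real.mul_le_sin (x := Real.pi * x) (by positivity)
      (by nlinarith [Real.pi_pos])
    have h3 : 2 / Real.pi * (Real.pi * x) = 2 * x := by
      field_simp
    rw [h3] at h2
    exact le_trans (by linarith [min_le_left x (1 - x)]) h2
  · have h2 := Real.mul_le_sin (x := Real.pi * (1 - x)) (by
      have := Real.pi_pos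
      nlinarith)
      (by nlinarith [Real.pi_pos])
    have h3 : 2 / Real.pi * (Real.pi * (1 - x)) = 2 * (1 - x) := by
      field_simp
    rw [h3] at h2
    have h4 : Real.sin (Real.pi * (1 - x)) = Real.sin (Real.pi * x) := by
      have : Real.pi * (1 - x) = Real.pi - Real.pi * x := by ring
      rw [this, Real.sin_pi_sub]
    rw [h4] at h2
    exact le_trans (by linarith [min_le_right x (1 - x)]) h2

lemma geom_bound (a : ZMod q) (ha : a ≠ 0) (N : ℕ) :
    ‖∑ n ∈ range N, (ZMod.stdAddChar (a * (n : ZMod q)) : ℂ)‖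
      ≤ (q : ℝ) / 2 * (1 / a.val + 1 / (q - a.val : ℕ)) := by
  have hq0 : (0 : ℝ) < q := by exact_mod_cast hq.out.pos
  set z : ℂ := ZMod.stdAddChar a with hz
  have hz1 : z ≠ 1 := by
    intro h
    apply ha
    have : (ZMod.stdAddChar a : ℂ) = ZMod.stdAddChar (0 : ZMod q) := by
      rw [← hz, h, AddChar.map_zero_eq_one]
    exact ZMod.injective_stdAddChar this
  have hzn : ∀ n : ℕ, (ZMod.stdAddChar (a * (n : ZMod q)) : ℂ) = z ^ n := by
    intro n
    rw [mul_comm, ← nsmul_eq_mul, AddChar.map_nsmul_eq_pow]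
  simp_rw [hzn]
  have hval0 : 0 < a.val := by
    rcases Nat.eq_zero_or_pos a.val with h | h
    · exact absurd ((ZMod.val_eq_zero a).1 h) ha
    · exact h
  have hvalq : a.val < q := ZMod.val_lt a
  have hnz : ‖z‖ = 1 := by
    rw [hz]; exact AddChar.norm_apply _ _
  have hsub : (0 : ℝ) < ‖z - 1‖ := norm_pos_iff.2 (sub_ne_zero.2 hz1)
  rw [geom_sum_eq hz1, norm_div, div_le_iff₀ hsub]
  have hnum : ‖z ^ N - 1‖ ≤ 2 := by
    calc ‖z ^ N - 1‖ ≤ ‖z ^ N‖ + ‖(1 : ℂ)‖ := norm_sub_le _ _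
      _ = 2 := by rw [norm_pow, hnz]; norm_num
  refine hnum.trans ?_
  have hden : ‖z - 1‖ ≥ 4 * min ((a.val : ℝ) / q) (1 - a.val / q) := by
    rw [hz, norm_std_sub_one]
    have h5 := sin_lower (x := (a.val : ℝ) / q) (by positivity)
      (by rw [div_le_one hq0]; exact_mod_cast hvalq.le)
    have h6 : Real.pi * ((a.val : ℝ) / q) = Real.pi * a.val / q := by ring
    rw [h6] at h5
    linarith
  have hb : (0 : ℝ) < ((q - a.val : ℕ) : ℝ) := by
    exact_mod_cast Nat.sub_pos_of_lt hvalq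
  have ha' : (0 : ℝ) < (a.val : ℝ) := by exact_mod_cast hval0
  have hcast : ((q - a.val : ℕ) : ℝ) = (q : ℝ) - a.val := by
    rw [Nat.cast_sub hvalq.le]
  have hmin : 4 * min ((a.val : ℝ) / q) (1 - a.val / q)
      ≥ 2 / ((q : ℝ) / 2 * (1 / a.val + 1 / (q - a.val : ℕ))) := by
    rw [ge_iff_le, div_le_iff₀ (by positivity)]
    rcases min_choice ((a.val : ℝ) / q) (1 - a.val / q) with h | h
    · rw [h]
      have : 4 * ((a.val : ℝ) / q) * ((q : ℝ) / 2 * (1 / a.val + 1 / ((q - a.val : ℕ) : ℝ)))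
          = 2 + 2 * (a.val / ((q - a.val : ℕ) : ℝ)) := by
        field_simp
        try ring
      rw [this]
      have : 0 ≤ (a.val : ℝ) / ((q - a.val : ℕ) : ℝ) := by positivity
      linarith
    · rw [h]
      have h7 : (1 - (a.val : ℝ) / q) = ((q - a.val : ℕ) : ℝ) / q := by
        rw [hcast]; field_simp
      rw [h7]
      have : 4 * (((q - a.val : ℕ) : ℝ) / q) * ((q : ℝ) / 2 * (1 / a.val + 1 / ((q - a.val : ℕ) : ℝ)))
          = 2 + 2 * (((q - a.val : ℕ) : ℝ) / a.val) := by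
        field_simp
        try ring
      rw [this]
      have : 0 ≤ ((q - a.val : ℕ) : ℝ) / a.val := by positivity
      linarith
  have h8 : 2 / ((q : ℝ) / 2 * (1 / a.val + 1 / (q - a.val : ℕ))) ≤ ‖z - 1‖ := hmin.le.trans hden
  have hpos : (0 : ℝ) < (q : ℝ) / 2 * (1 / a.val + 1 / (q - a.val : ℕ)) := by positivity
  rw [div_le_iff₀ hpos] at h8
  linarith

lemma sum_zmod_eq (g : ZMod q → ℝ) :
    ∑ a ∈ (univ : Finset (ZMod q)).filter (fun a => a ≠ 0), g a
      = ∑ i ∈ Finset.Ico 1 q, g (i : ZMod q) := by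
  refine Finset.sum_nbij' (fun a => a.val) (fun i => (i : ZMod q)) ?_ ?_ ?_ ?_ ?_
  · intro a ha
    rw [Finset.mem_filter] at ha
    rw [Finset.mem_Ico]
    refine ⟨?_, ZMod.val_lt a⟩
    rcases Nat.eq_zero_or_pos a.val with h | h
    · exact absurd ((ZMod.val_eq_zero a).1 h) ha.2
    · exact h
  · intro i hi
    rw [Finset.mem_Ico] at hi
    rw [Finset.mem_filter]
    refine ⟨Finset.mem_univ _, ?_⟩
    intro h
    rw [ZMod.natCast_eq_zero_iff] at h
    exact absurd (Nat.le_of_dvd (by omega) h) (by omega)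
  · intro a _
    simp
  · intro i hi
    rw [Finset.mem_Ico] at hi
    exact ZMod.val_cast_of_lt hi.2
  · intro a _
    simp

lemma sum_inv_le : ∑ a ∈ (univ : Finset (ZMod q)).filter (fun a => a ≠ 0),
    (1 / (a.val : ℝ) + 1 / ((q - a.val : ℕ) : ℝ)) ≤ 2 * (1 + Real.log q) := by
  have hq1 : 1 < q := hq.out.one_lt
  rw [sum_zmod_eq]
  have h1 : ∑ i ∈ Finset.Ico 1 q, (1 / (((i : ZMod q)).val : ℝ)
      + 1 / ((q - ((i : ZMod q)).val : ℕ) : ℝ))
      = ∑ i ∈ Finset.Ico 1 q, (1 / (i : ℝ) + 1 / ((q - i : ℕ) : ℝ)) := by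
    apply Finset.sum_congr rfl
    intro i hi
    rw [Finset.mem_Ico] at hi
    rw [ZMod.val_cast_of_lt hi.2]
  rw [h1, Finset.sum_add_distrib]
  have h2 : ∑ i ∈ Finset.Ico 1 q, 1 / ((q - i : ℕ) : ℝ) = ∑ i ∈ Finset.Ico 1 q, 1 / (i : ℝ) := by
    refine Finset.sum_nbij' (fun i => q - i) (fun i => q - i) ?_ ?_ ?_ ?_ ?_
    · intro i hi; rw [Finset.mem_Ico] at *; omega
    · intro i hi; rw [Finset.mem_Ico] at *; omega
    · intro i hi; rw [Finset.mem_Ico] at *; omega
    · intro i hi; rw [Finset.mem_Ico] at *; omega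
    · intro i hi; rfl
  rw [h2]
  have h3 : ∑ i ∈ Finset.Ico 1 q, 1 / (i : ℝ) ≤ 1 + Real.log q := by
    have h4 := harmonic_le_one_add_log (q - 1)
    have h5 : ((harmonic (q - 1) : ℚ) : ℝ) = ∑ i ∈ Finset.Ico 1 q, 1 / (i : ℝ) := by
      rw [harmonic_eq_sum_Icc]
      push_cast
      have : Finset.Icc 1 (q - 1) = Finset.Ico 1 q := by
        ext i; rw [Finset.mem_Icc, Finset.mem_Ico]; omega
      rw [this]
      apply Finset.sum_congr rfl
      intro i _
      rw [one_div]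
    rw [h5] at h4
    refine h4.trans ?_
    have : Real.log ((q - 1 : ℕ) : ℝ) ≤ Real.log q := by
      apply Real.log_le_log
      · exact_mod_cast (by omega : 0 < q - 1)
      · exact_mod_cast (Nat.sub_le q 1)
    linarith
  linarith

/-- a nontrivial character modulo a prime is primitive -/
lemma isPrimitive {χ : DirichletCharacter ℂ q} (hχ : χ ≠ 1) : χ.IsPrimitive := by
  rw [DirichletCharacter.isPrimitive_def]
  have h1 : χ.conductor ∣ q := DirichletCharacter.conductor_dvd_level χ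
  rcases (Nat.dvd_prime hq.out).1 h1 with h | h
  · exact absurd ((DirichletCharacter.eq_one_iff_conductor_eq_one).2 h) hχ
  · exact h

lemma norm_gaussSum {χ : DirichletCharacter ℂ q} (hχ : χ ≠ 1) :
    ‖gaussSum χ (ZMod.stdAddChar : AddChar (ZMod q) ℂ)‖ = Real.sqrt q := by
  have h1 := gaussSum_mul_gaussSum_eq_card hχ (ZMod.isPrimitive_stdAddChar q)
  rw [← star_gaussSum_eq] at h1
  have h2 : ‖gaussSum χ (ZMod.stdAddChar : AddChar (ZMod q) ℂ)‖ ^ 2 = q := by
    have h3 := congrArg (fun z : ℂ => ‖z‖) h1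
    simp only [norm_mul, norm_star, ZMod.card, Complex.norm_natCast] at h3
    rw [sq]; exact h3
  rw [← h2, Real.sqrt_sq (norm_nonneg _)]

/-- Polya-Vinogradov inequality for a prime modulus -/
theorem polya_vinogradov {χ : DirichletCharacter ℂ q} (hχ : χ ≠ 1) (N : ℕ) :
    ‖∑ n ∈ range N, χ (n : ZMod q)‖ ≤ Real.sqrt q * (1 + Real.log q) := by
  have hq0 : (0 : ℝ) < q := by exact_mod_cast hq.out.pos
  have hχi : χ⁻¹ ≠ 1 := by simpa using hχ
  set τ := gaussSum χ⁻¹ (ZMod.stdAddChar : AddChar (ZMod q) ℂ) with hτ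
  have hτn : ‖τ‖ = Real.sqrt q := norm_gaussSum hχi
  have h1 : ∀ n : ZMod q, χ n * τ = ∑ a : ZMod q, χ⁻¹ a * ZMod.stdAddChar (n * a) := by
    intro n
    have h2 := gaussSum_mulShift_of_isPrimitive (ZMod.stdAddChar : AddChar (ZMod q) ℂ)
      (isPrimitive hχi) n
    rw [inv_inv] at h2
    rw [hτ, ← h2, gaussSum]
    rfl
  have h3 : (∑ n ∈ range N, χ (n : ZMod q)) * τ
      = ∑ a ∈ (univ : Finset (ZMod q)).filter (fun a => a ≠ 0),
        χ⁻¹ a * ∑ n ∈ range N, (ZMod.stdAddChar (a * (n : ZMod q)) : ℂ) := by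
    rw [Finset.sum_mul]
    simp_rw [h1]
    rw [Finset.sum_comm]
    rw [← Finset.sum_filter_add_sum_filter_not univ (fun a : ZMod q => a ≠ 0)]
    have h4 : ∑ a ∈ (univ : Finset (ZMod q)).filter (fun a => ¬ (a ≠ 0)),
        ∑ n ∈ range N, χ⁻¹ a * (ZMod.stdAddChar ((n : ZMod q) * a) : ℂ) = 0 := by
      apply Finset.sum_eq_zero
      intro a ha
      rw [Finset.mem_filter, not_not] at ha
      rw [ha.2]
      have : χ⁻¹ (0 : ZMod q) = 0 := MulChar.map_zero χ⁻¹
      simp [this]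
    rw [h4, add_zero]
    apply Finset.sum_congr rfl
    intro a _
    rw [Finset.mul_sum]
    apply Finset.sum_congr rfl
    intro n _
    rw [mul_comm (n : ZMod q) a]
  have h5 : ‖(∑ n ∈ range N, χ (n : ZMod q)) * τ‖ ≤ (q : ℝ) * (1 + Real.log q) := by
    rw [h3]
    calc ‖∑ a ∈ (univ : Finset (ZMod q)).filter (fun a => a ≠ 0),
        χ⁻¹ a * ∑ n ∈ range N, (ZMod.stdAddChar (a * (n : ZMod q)) : ℂ)‖
        ≤ ∑ a ∈ (univ : Finset (ZMod q)).filter (fun a => a ≠ 0),
          (q : ℝ) / 2 * (1 / a.val + 1 / (q - a.val : ℕ)) := by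
          refine norm_sum_le_of_le _ ?_
          intro a ha
          rw [Finset.mem_filter] at ha
          rw [norm_mul]
          calc ‖χ⁻¹ a‖ * ‖∑ n ∈ range N, (ZMod.stdAddChar (a * (n : ZMod q)) : ℂ)‖
              ≤ 1 * ‖∑ n ∈ range N, (ZMod.stdAddChar (a * (n : ZMod q)) : ℂ)‖ := by
                apply mul_le_mul_of_nonneg_right (DirichletCharacter.norm_le_one _ _)
                  (norm_nonneg _)
            _ ≤ _ := by rw [one_mul]; exact geom_bound a ha.2 N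
      _ = (q : ℝ) / 2 * ∑ a ∈ (univ : Finset (ZMod q)).filter (fun a => a ≠ 0),
          (1 / (a.val : ℝ) + 1 / ((q - a.val : ℕ) : ℝ)) := by
          rw [Finset.mul_sum]
      _ ≤ (q : ℝ) / 2 * (2 * (1 + Real.log q)) := by
          apply mul_le_mul_of_nonneg_left sum_inv_le (by positivity)
      _ = _ := by ring
  rw [norm_mul, hτn] at h5
  have hs : 0 < Real.sqrt q := Real.sqrt_pos.2 hq0
  have h6 : (q : ℝ) = Real.sqrt q * Real.sqrt q := (Real.mul_self_sqrt hq0.le).symm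
  have h7 : ‖∑ n ∈ range N, χ (n : ZMod q)‖ * Real.sqrt q
      ≤ (Real.sqrt q * (1 + Real.log q)) * Real.sqrt q := by
    calc _ ≤ (q : ℝ) * (1 + Real.log q) := h5
      _ = (Real.sqrt q * Real.sqrt q) * (1 + Real.log q) := by rw [← h6]
      _ = _ := by ring
  exact le_of_mul_le_mul_right h7 hs

end Pool.Agent.H.MP_3e6494_nt.PV
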