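import Mathlib
import Pool.Agent.H.MP_3e6494_nt.helper50.PV

open Finset MeasureTheory Set Filter Topology Asymptotics

set_option linter.unusedSectionVars false

namespace Pool.Agent.H.MP_3e6494_nt.Approx

variable {q : ℕ} [hq : Fact q.Prime]

/-- partial sums of a character, as a function of a real variable -/
noncomputable def S (χ : DirichletCharacter ℂ q) (t : ℝ) : ℂ :=
  ∑ k ∈ Finset.Icc 1 ⌊t⌋₊, χ (k : ZMod q)

/-- the Polya-Vinogradov bound -/
noncomputable def B (q : ℕ) : ℝ := Real.sqrt q * (1 + Real.log q)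

lemma B_nonneg : 0 ≤ B q := by
  unfold B
  have : 0 ≤ Real.log q := Real.log_natCast_nonneg q
  positivity

lemma sum_Icc_eq (χ : DirichletCharacter ℂ q) (n : ℕ) :
    ∑ k ∈ Finset.Icc 1 n, χ (k : ZMod q) = ∑ k ∈ Finset.range (n + 1), χ (k : ZMod q) := by
  have h0 : χ ((0 : ℕ) : ZMod q) = 0 := by
    have : (0 : ZMod q) = 0 := rfl
    simpa using MulChar.map_zero χ
  rw [Finset.sum_range_succ', h0, add_zero]
  rw [Finset.range_eq_Ico, Finset.sum_Ico_add' (fun k : ℕ => χ (k : ZMod q)) 0 n 1]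
  apply Finset.sum_congr _ (fun _ _ => rfl)
  ext k; simp only [Finset.mem_Icc, Finset.mem_Ico]; omega

lemma norm_S_le {χ : DirichletCharacter ℂ q} (hχ : χ ≠ 1) (t : ℝ) : ‖S χ t‖ ≤ B q := by
  unfold S
  rw [sum_Icc_eq]
  exact PV.polya_vinogradov hχ _

lemma measurable_S (χ : DirichletCharacter ℂ q) : Measurable (S χ) := by
  have h : S χ = (fun n : ℕ => ∑ k ∈ Finset.Icc 1 n, χ (k : ZMod q)) ∘ (fun t : ℝ => ⌊t⌋₊) := by
    ext t; rfl
  rw [h]
  exact (measurable_from_nat).comp Nat.measurable_floor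

lemma S_zero {χ : DirichletCharacter ℂ q} {t : ℝ} (ht : t < 1) : S χ t = 0 := by
  unfold S
  rw [Nat.floor_eq_zero.2 ht]
  simp

lemma differentiableAt_mellin {χ : DirichletCharacter ℂ q} (hχ : χ ≠ 1) {s : ℂ} (hs : s.re < 0) :
    DifferentiableAt ℂ (mellin (S χ)) s := by
  refine mellin_differentiableAt_of_isBigO_rpow (a := 0) (b := s.re - 1) ?_ ?_ hs ?_ (by linarith)
  · apply LocallyIntegrable.locallyIntegrableOn
    intro x
    refine ⟨Set.Icc (x - 1) (x + 1), Icc_mem_nhds (by linarith) (by linarith), ?_⟩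
    refine Measure.integrableOn_of_bounded (M := B q) ?_ (measurable_S χ).aestronglyMeasurable ?_
    · rw [Real.volume_Icc]; exact ENNReal.ofReal_ne_top
    · exact Eventually.of_forall fun t => norm_S_le hχ t
  · simp only [neg_zero, Real.rpow_zero]
    exact Asymptotics.IsBigO.of_bound (B q) (Eventually.of_forall fun t => by simpa using norm_S_le hχ t)
  · apply Asymptotics.IsBigO.of_bound 0
    have : Set.Ioo (0 : ℝ) 1 ∈ 𝓝[>] (0 : ℝ) := Ioo_mem_nhdsGT one_pos
    filter_upwards [this] with t ht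
    rw [S_zero ht.2]
    simp

lemma mellin_eq (χ : DirichletCharacter ℂ q) (s : ℂ) :
    mellin (S χ) (-s) = ∫ t in Set.Ioi (1 : ℝ), S χ t * (t : ℂ) ^ (-(s + 1)) := by
  unfold mellin
  have h1 : Set.Ioi (0 : ℝ) = Set.Ioo 0 1 ∪ Set.Ici 1 := by
    ext t; simp only [Set.mem_Ioi, Set.mem_union, Set.mem_Ioo, Set.mem_Ici]
    constructor
    · intro h; rcases lt_or_ge t 1 with h' | h'
      · left; exact ⟨h, h'⟩
      · right; exact h'
    · rintro (h | h)
      · exact h.1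
      · linarith
  have h2 : ∫ t in Set.Ioi (0 : ℝ), (t : ℂ) ^ (-s - 1) • S χ t
      = ∫ t in Set.Ici (1 : ℝ), (t : ℂ) ^ (-s - 1) • S χ t := by
    apply setIntegral_eq_of_subset_of_forall_diff_eq_zero measurableSet_Ioi
    · intro t ht
      rw [Set.mem_Ici] at ht
      rw [Set.mem_Ioi]; linarith
    · intro t ht
      rw [Set.mem_sdiff, Set.mem_Ici, not_le] at ht
      rw [S_zero ht.2, smul_zero]
  rw [h2, integral_Ici_eq_integral_Ioi]
  apply setIntegral_congr_fun measurableSet_Ioi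
  intro t _
  simp only [smul_eq_mul]
  rw [mul_comm]
  congr 2
  ring

lemma LFunction_eq_mellin {χ : DirichletCharacter ℂ q} (hχ : χ ≠ 1) {s : ℂ} (hs : 0 < s.re) :
    χ.LFunction s = s * mellin (S χ) (-s) := by
  have hopen : IsOpen {s : ℂ | 0 < s.re} := isOpen_lt continuous_const Complex.continuous_re
  have hconv : IsPreconnected {s : ℂ | 0 < s.re} :=
    (convex_halfSpace_re_gt 0).isPreconnected
  have hf : AnalyticOnNhd ℂ (fun s => χ.LFunction s) {s : ℂ | 0 < s.re} :=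
    (DirichletCharacter.differentiable_LFunction hχ).differentiableOn.analyticOnNhd hopen
  have hg : AnalyticOnNhd ℂ (fun s => s * mellin (S χ) (-s)) {s : ℂ | 0 < s.re} := by
    apply DifferentiableOn.analyticOnNhd _ hopen
    intro z hz
    apply DifferentiableAt.differentiableWithinAt
    apply DifferentiableAt.mul differentiableAt_id
    have h1 : DifferentiableAt ℂ (mellin (S χ)) (-z) := by
      apply differentiableAt_mellin hχ
      have : 0 < z.re := hz
      simp; exact this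
    exact DifferentiableAt.comp z (g := mellin (S χ)) (f := fun w => -w) h1 (differentiableAt_id.neg)
  have h2 : (2 : ℂ) ∈ {s : ℂ | 0 < s.re} := by simp
  have heq : (fun s => χ.LFunction s) =ᶠ[𝓝 (2 : ℂ)] (fun s => s * mellin (S χ) (-s)) := by
    have hopen1 : IsOpen {s : ℂ | 1 < s.re} := isOpen_lt continuous_const Complex.continuous_re
    have h3 : {s : ℂ | 1 < s.re} ∈ 𝓝 (2 : ℂ) := hopen1.mem_nhds (by simp)
    filter_upwards [h3] with z hz
    have hz1 : 1 < z.re := hz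
    rw [DirichletCharacter.LFunction_eq_LSeries χ hz1]
    rw [LSeries_eq_mul_integral (fun n : ℕ => χ (n : ZMod q)) (r := 0) le_rfl (by linarith)
      (DirichletCharacter.LSeriesSummable_of_one_lt_re χ hz1)]
    · rw [mellin_eq]
      rfl
    · apply Asymptotics.IsBigO.of_bound (B q)
      apply Eventually.of_forall
      intro n
      have := norm_S_le hχ (n : ℝ)
      unfold S at this
      rw [Nat.floor_natCast] at this
      simpa using this
  exact hf.eqOn_of_preconnected_of_eventuallyEq hg hconv h2 heq hs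

/-- integral representation at the central point -/
lemma LFunction_half {χ : DirichletCharacter ℂ q} (hχ : χ ≠ 1) :
    χ.LFunction (1 / 2) = (1 / 2) * ∫ t in Set.Ioi (1 : ℝ), S χ t * ((t ^ (-(3 / 2) : ℝ) : ℝ) : ℂ) := by
  rw [LFunction_eq_mellin hχ (by norm_num), mellin_eq]
  congr 1
  apply setIntegral_congr_fun measurableSet_Ioi
  intro t ht
  have ht0 : (0 : ℝ) ≤ t := by
    rw [Set.mem_Ioi] at ht; linarith
  simp only
  rw [Complex.ofReal_cpow ht0]
  congr 2
  push_cast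
  ring

lemma integrableOn_S {χ : DirichletCharacter ℂ q} (hχ : χ ≠ 1) {a : ℝ} (ha : 0 < a) :
    IntegrableOn (fun t => S χ t * ((t ^ (-(3 / 2) : ℝ) : ℝ) : ℂ)) (Set.Ioi a) := by
  have h1 : IntegrableOn (fun t : ℝ => B q * t ^ (-(3 / 2) : ℝ)) (Set.Ioi a) :=
    (integrableOn_Ioi_rpow_of_lt (by norm_num) ha).const_mul _
  refine Integrable.mono' h1 ?_ ?_
  · apply AEStronglyMeasurable.mul
    · exact (measurable_S χ).aestronglyMeasurable
    · apply Measurable.aestronglyMeasurable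
      exact Complex.measurable_ofReal.comp (measurable_id.pow_const _)
  · rw [ae_restrict_iff' measurableSet_Ioi]
    apply Eventually.of_forall
    intro t ht
    have ht0 : 0 < t := lt_trans ha ht
    rw [norm_mul, Complex.norm_real, Real.norm_of_nonneg (Real.rpow_nonneg ht0.le _)]
    exact mul_le_mul_of_nonneg_right (norm_S_le hχ t) (Real.rpow_nonneg ht0.le _)

/-- the truncated central series -/
noncomputable def D (χ : DirichletCharacter ℂ q) (X : ℕ) : ℂ :=
  ∑ n ∈ Finset.Icc 1 X, χ (n : ZMod q) * (((n : ℝ) ^ (-(1 / 2) : ℝ) : ℝ) : ℂ)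

lemma D_eq (χ : DirichletCharacter ℂ q) (X : ℕ) (hX : 1 ≤ X) :
    D χ X = (((X : ℝ) ^ (-(1 / 2) : ℝ) : ℝ) : ℂ) * S χ X
      + (1 / 2) * ∫ t in Set.Ioc (1 : ℝ) X, S χ t * ((t ^ (-(3 / 2) : ℝ) : ℝ) : ℂ) := by
  have h0 : χ ((0 : ℕ) : ZMod q) = 0 := by simpa using MulChar.map_zero χ
  have hIcc : ∀ n : ℕ, ∀ g : ℕ → ℂ, g 0 = 0 → ∑ k ∈ Finset.Icc 0 n, g k = ∑ k ∈ Finset.Icc 1 n, g k := by
    intro n g hg
    have : Finset.Icc 0 n = insert 0 (Finset.Icc 1 n) := by
      ext k; simp only [Finset.mem_Icc, Finset.mem_insert]; omega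
    rw [this, Finset.sum_insert (by simp), hg, zero_add]
  have hderiv : ∀ t : ℝ, 0 < t → HasDerivAt (fun t : ℝ => ((t ^ (-(1 / 2) : ℝ) : ℝ) : ℂ))
      (((-(1 / 2) * t ^ (-(3 / 2) : ℝ) : ℝ)) : ℂ) t := by
    intro t ht
    have h1 := (Real.hasDerivAt_rpow_const (x := t) (p := -(1 / 2)) (Or.inl ht.ne'))
    have h2 : (-(1 / 2) : ℝ) - 1 = -(3 / 2) := by norm_num
    rw [h2] at h1
    exact h1.ofReal_comp
  have hA := sum_mul_eq_sub_integral_mul₀' (fun n : ℕ => χ (n : ZMod q)) h0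
    (f := fun t : ℝ => ((t ^ (-(1 / 2) : ℝ) : ℝ) : ℂ)) X
    (fun t ht => (hderiv t (by linarith [ht.1])).differentiableAt) (by
      have hc : ContinuousOn (fun t : ℝ => (((-(1 / 2) * t ^ (-(3 / 2) : ℝ) : ℝ)) : ℂ))
          (Set.Icc (1 : ℝ) X) := by
        apply Complex.continuous_ofReal.comp_continuousOn
        apply ContinuousOn.mul continuousOn_const
        apply ContinuousOn.rpow_const continuousOn_id
        intro t ht
        left
        simp only [id]
        linarith [ht.1]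
      refine IntegrableOn.congr_fun (hc.integrableOn_Icc) ?_ measurableSet_Icc
      intro t ht
      exact (hderiv t (by linarith [ht.1])).deriv.symm)
  have h1 : D χ X = ∑ k ∈ Finset.Icc 0 X, (((k : ℝ) ^ (-(1 / 2) : ℝ) : ℝ) : ℂ) * χ (k : ZMod q) := by
    rw [hIcc X _ (by rw [h0, mul_zero])]
    unfold D
    apply Finset.sum_congr rfl
    intro k _
    rw [mul_comm]
  rw [h1, hA, hIcc X _ h0]
  have h2 : S χ X = ∑ k ∈ Finset.Icc 1 X, χ (k : ZMod q) := by
    unfold S; rw [Nat.floor_natCast]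
  rw [← h2]
  rw [sub_eq_add_neg]
  congr 1
  rw [← integral_neg, ← integral_const_mul]
  apply setIntegral_congr_fun measurableSet_Ioc
  intro t ht
  simp only
  rw [(hderiv t (by linarith [ht.1])).deriv]
  have h3 : ∑ k ∈ Finset.Icc 0 ⌊t⌋₊, χ (k : ZMod q) = S χ t := by
    rw [hIcc _ _ h0]; rfl
  rw [h3]
  push_cast
  ring

/-- approximation of the central value by the truncated series -/
theorem approx {χ : DirichletCharacter ℂ q} (hχ : χ ≠ 1) (X : ℕ) (hX : 1 ≤ X) :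
    ‖χ.LFunction (1 / 2) - D χ X‖ ≤ 2 * B q / Real.sqrt X := by
  have hX1 : (1 : ℝ) ≤ X := by exact_mod_cast hX
  have hX0 : (0 : ℝ) < X := by linarith
  rw [LFunction_half hχ, D_eq χ X hX]
  have hsplit : ∫ t in Set.Ioi (1 : ℝ), S χ t * ((t ^ (-(3 / 2) : ℝ) : ℝ) : ℂ)
      = (∫ t in Set.Ioc (1 : ℝ) X, S χ t * ((t ^ (-(3 / 2) : ℝ) : ℝ) : ℂ))
        + ∫ t in Set.Ioi (X : ℝ), S χ t * ((t ^ (-(3 / 2) : ℝ) : ℝ) : ℂ) := by
    rw [← Set.Ioc_union_Ioi_eq_Ioi hX1]
    apply setIntegral_union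
    · rw [Set.disjoint_left]
      intro t ht ht'
      exact absurd ht.2 (not_le.2 ht')
    · exact measurableSet_Ioi
    · exact (integrableOn_S hχ one_pos).mono_set Set.Ioc_subset_Ioi_self
    · exact integrableOn_S hχ hX0
  rw [hsplit]
  have h1 : (1 / 2 : ℂ) * ((∫ t in Set.Ioc (1 : ℝ) X, S χ t * ((t ^ (-(3 / 2) : ℝ) : ℝ) : ℂ))
        + ∫ t in Set.Ioi (X : ℝ), S χ t * ((t ^ (-(3 / 2) : ℝ) : ℝ) : ℂ))
      - ((((X : ℝ) ^ (-(1 / 2) : ℝ) : ℝ) : ℂ) * S χ X
      + (1 / 2) * ∫ t in Set.Ioc (1 : ℝ) X, S χ t * ((t ^ (-(3 / 2) : ℝ) : ℝ) : ℂ))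
      = (1 / 2 : ℂ) * (∫ t in Set.Ioi (X : ℝ), S χ t * ((t ^ (-(3 / 2) : ℝ) : ℝ) : ℂ))
        - (((X : ℝ) ^ (-(1 / 2) : ℝ) : ℝ) : ℂ) * S χ X := by ring
  rw [h1]
  have hrp : (X : ℝ) ^ (-(1 / 2) : ℝ) = 1 / Real.sqrt X := by
    rw [Real.rpow_neg hX0.le, ← Real.sqrt_eq_rpow, one_div]
  have hI : ‖∫ t in Set.Ioi (X : ℝ), S χ t * ((t ^ (-(3 / 2) : ℝ) : ℝ) : ℂ)‖
      ≤ 2 * B q / Real.sqrt X := by
    calc ‖∫ t in Set.Ioi (X : ℝ), S χ t * ((t ^ (-(3 / 2) : ℝ) : ℝ) : ℂ)‖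
        ≤ ∫ t in Set.Ioi (X : ℝ), B q * t ^ (-(3 / 2) : ℝ) := by
          apply norm_integral_le_of_norm_le
          · exact (integrableOn_Ioi_rpow_of_lt (by norm_num) hX0).const_mul _
          · rw [ae_restrict_iff' measurableSet_Ioi]
            apply Eventually.of_forall
            intro t ht
            have ht0 : 0 < t := lt_trans hX0 ht
            rw [norm_mul, Complex.norm_real, Real.norm_of_nonneg (Real.rpow_nonneg ht0.le _)]
            exact mul_le_mul_of_nonneg_right (norm_S_le hχ t) (Real.rpow_nonneg ht0.le _)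
      _ = B q * (2 * (X : ℝ) ^ (-(1 / 2) : ℝ)) := by
          rw [integral_const_mul, integral_Ioi_rpow_of_lt (by norm_num) hX0]
          have : (-(3 / 2) : ℝ) + 1 = -(1 / 2) := by norm_num
          rw [this]
          congr 1
          ring
      _ = _ := by rw [hrp]; ring
  calc ‖(1 / 2 : ℂ) * (∫ t in Set.Ioi (X : ℝ), S χ t * ((t ^ (-(3 / 2) : ℝ) : ℝ) : ℂ))
        - (((X : ℝ) ^ (-(1 / 2) : ℝ) : ℝ) : ℂ) * S χ X‖
      ≤ ‖(1 / 2 : ℂ) * (∫ t in Set.Ioi (X : ℝ), S χ t * ((t ^ (-(3 / 2) : ℝ) : ℝ) : ℂ))‖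
        + ‖(((X : ℝ) ^ (-(1 / 2) : ℝ) : ℝ) : ℂ) * S χ X‖ := norm_sub_le _ _
    _ ≤ (1 / 2) * (2 * B q / Real.sqrt X) + (1 / Real.sqrt X) * B q := by
        apply add_le_add
        · rw [norm_mul]
          have : ‖(1 / 2 : ℂ)‖ = 1 / 2 := by norm_num
          rw [this]
          exact mul_le_mul_of_nonneg_left hI (by norm_num)
        · rw [norm_mul, Complex.norm_real, hrp, Real.norm_of_nonneg (by positivity)]
          exact mul_le_mul_of_nonneg_left (norm_S_le hχ _) (by positivity)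
    _ = _ := by ring

end Pool.Agent.H.MP_3e6494_nt.Approx
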