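import Mathlib
import Pool.Agent.H.MP_3e6494_nt.helper50.Approx

open Finset

set_option linter.unusedSectionVars false

namespace Pool.Agent.H.MP_3e6494_nt.Class

open scoped Classical in
/-- the members of a subgroup of characters, as a finite set -/
noncomputable def mem {q : ℕ} [Fact q.Prime] (H : Subgroup (DirichletCharacter ℂ q)) :
    Finset (DirichletCharacter ℂ q) :=
  Finset.univ.filter (fun χ => χ ∈ H)

variable {q : ℕ} [hq : Fact q.Prime]

lemma mem_mem {H : Subgroup (DirichletCharacter ℂ q)} {χ : DirichletCharacter ℂ q} :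
    χ ∈ mem H ↔ χ ∈ H := by
  unfold mem; simp

lemma card_mem (H : Subgroup (DirichletCharacter ℂ q)) : (mem H).card = Nat.card H :=
  (Nat.subtype_card (mem H) (fun _ => mem_mem)).symm

/-- the common kernel of the characters in `H` -/
def K (H : Subgroup (DirichletCharacter ℂ q)) : Subgroup (ZMod q)ˣ where
  carrier := {x | ∀ χ ∈ H, χ x = 1}
  one_mem' := by intro χ _; simp
  mul_mem' := by
    intro a b ha hb χ hχ
    rw [Units.val_mul, map_mul, ha χ hχ, hb χ hχ, one_mul]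
  inv_mem' := by
    intro a ha χ hχ
    have h1 := ha χ hχ
    have h2 : χ ((a⁻¹ : (ZMod q)ˣ) : ZMod q) * χ (a : ZMod q) = 1 := by
      rw [← map_mul, ← Units.val_mul, inv_mul_cancel, Units.val_one, map_one]
    rw [h1, mul_one] at h2
    exact h2

lemma mem_K {H : Subgroup (DirichletCharacter ℂ q)} {x : (ZMod q)ˣ} :
    x ∈ K H ↔ ∀ χ ∈ H, χ x = 1 := Iff.rfl

open scoped Classical in
lemma sum_char (H : Subgroup (DirichletCharacter ℂ q)) (z : (ZMod q)ˣ) :
    ∑ χ ∈ mem H, χ (z : ZMod q) = if z ∈ K H then ((mem H).card : ℂ) else 0 := by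
  split_ifs with hz
  · rw [Finset.sum_congr rfl (fun χ hχ => hz χ (mem_mem.1 hχ))]
    simp
  · rw [mem_K] at hz
    push Not at hz
    obtain ⟨ψ, hψ, hψz⟩ := hz
    have h1 : ∑ χ ∈ mem H, χ (z : ZMod q) = ψ z * ∑ χ ∈ mem H, χ (z : ZMod q) := by
      rw [Finset.mul_sum]
      symm
      refine Finset.sum_nbij' (fun χ => ψ * χ) (fun χ => ψ⁻¹ * χ) ?_ ?_ ?_ ?_ ?_
      · intro χ hχ; exact mem_mem.2 (H.mul_mem hψ (mem_mem.1 hχ))
      · intro χ hχ; exact mem_mem.2 (H.mul_mem (H.inv_mem hψ) (mem_mem.1 hχ))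
      · intro χ _; simp
      · intro χ _; simp
      · intro χ _; simp [MulChar.mul_apply]
    have h2 : (1 - ψ z) * ∑ χ ∈ mem H, χ (z : ZMod q) = 0 := by
      rw [sub_mul, one_mul, ← h1, sub_self]
    rcases mul_eq_zero.1 h2 with h | h
    · exact absurd (sub_eq_zero.1 h).symm hψz
    · exact h

/-- the resonator attached to a weight on the unit group -/
noncomputable def R (ρ : (ZMod q)ˣ → ℝ) (χ : DirichletCharacter ℂ q) : ℂ :=
  ∑ x : (ZMod q)ˣ, (ρ x : ℂ) * χ (x : ZMod q)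

lemma conj_char (χ : DirichletCharacter ℂ q) (y : (ZMod q)ˣ) :
    (starRingEnd ℂ) (χ (y : ZMod q)) = χ ((y⁻¹ : (ZMod q)ˣ) : ZMod q) := by
  have h1 : χ ((y⁻¹ : (ZMod q)ˣ) : ZMod q) * χ (y : ZMod q) = 1 := by
    rw [← map_mul, ← Units.val_mul, inv_mul_cancel, Units.val_one, map_one]
  have h2 : ‖χ (y : ZMod q)‖ = 1 := DirichletCharacter.unit_norm_eq_one χ y
  have h3 : χ (y : ZMod q) * (starRingEnd ℂ) (χ (y : ZMod q)) = 1 := by
    rw [Complex.mul_conj, Complex.normSq_eq_norm_sq, h2]; norm_num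
  have h4 : χ (y : ZMod q) ≠ 0 := by
    intro h; rw [h, norm_zero] at h2; exact zero_ne_one h2
  apply mul_left_cancel₀ h4
  rw [h3, mul_comm, h1]

lemma normSq_R (ρ : (ZMod q)ˣ → ℝ) (χ : DirichletCharacter ℂ q) :
    ((‖R ρ χ‖ ^ 2 : ℝ) : ℂ) = ∑ x : (ZMod q)ˣ, ∑ y : (ZMod q)ˣ,
      ((ρ x * ρ y : ℝ) : ℂ) * χ ((x * y⁻¹ : (ZMod q)ˣ) : ZMod q) := by
  have h1 : ((‖R ρ χ‖ ^ 2 : ℝ) : ℂ) = R ρ χ * (starRingEnd ℂ) (R ρ χ) := by
    rw [Complex.mul_conj, Complex.normSq_eq_norm_sq]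
  rw [h1]
  unfold R
  rw [map_sum, Finset.sum_mul_sum]
  apply Finset.sum_congr rfl; intro x _
  apply Finset.sum_congr rfl; intro y _
  rw [map_mul, Complex.conj_ofReal, conj_char, Units.val_mul, map_mul]
  push_cast
  ring

open scoped Classical in
/-- orthogonality: twisted second moment of the resonator -/
lemma moment (H : Subgroup (DirichletCharacter ℂ q)) (ρ : (ZMod q)ˣ → ℝ) (z : (ZMod q)ˣ) :
    ∑ χ ∈ mem H, χ (z : ZMod q) * ((‖R ρ χ‖ ^ 2 : ℝ) : ℂ)
      = (((mem H).card * ∑ x : (ZMod q)ˣ, ∑ y : (ZMod q)ˣ,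
          (if z * x * y⁻¹ ∈ K H then ρ x * ρ y else 0) : ℝ) : ℂ) := by
  have h0 : ∀ χ ∈ mem H, χ (z : ZMod q) * ((‖R ρ χ‖ ^ 2 : ℝ) : ℂ)
      = ∑ x : (ZMod q)ˣ, ∑ y : (ZMod q)ˣ,
        ((ρ x * ρ y : ℝ) : ℂ) * χ ((z * x * y⁻¹ : (ZMod q)ˣ) : ZMod q) := by
    intro χ _
    rw [normSq_R, Finset.mul_sum]
    apply Finset.sum_congr rfl; intro x _
    rw [Finset.mul_sum]
    apply Finset.sum_congr rfl; intro y _
    have : χ ((z * x * y⁻¹ : (ZMod q)ˣ) : ZMod q)
        = χ (z : ZMod q) * χ ((x * y⁻¹ : (ZMod q)ˣ) : ZMod q) := by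
      rw [mul_assoc, Units.val_mul, map_mul]
    rw [this]; ring
  rw [Finset.sum_congr rfl h0, Finset.sum_comm, Complex.ofReal_mul, Complex.ofReal_natCast,
    Complex.ofReal_sum, Finset.mul_sum]
  apply Finset.sum_congr rfl; intro x _
  rw [Finset.sum_comm, Complex.ofReal_sum, Finset.mul_sum]
  apply Finset.sum_congr rfl; intro y _
  rw [← Finset.mul_sum, sum_char]
  split_ifs
  · ring
  · simp

open scoped Classical in
/-- the same for weights invariant under the common kernel -/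
lemma moment_inv (H : Subgroup (DirichletCharacter ℂ q)) (ρ : (ZMod q)ˣ → ℝ)
    (hρ : ∀ x y, x * y⁻¹ ∈ K H → ρ x = ρ y) (z : (ZMod q)ˣ) :
    ∑ x : (ZMod q)ˣ, ∑ y : (ZMod q)ˣ, (if z * x * y⁻¹ ∈ K H then ρ x * ρ y else 0)
      = Nat.card (K H) * ∑ x : (ZMod q)ˣ, ρ x * ρ (z * x) := by
  rw [Finset.mul_sum]
  apply Finset.sum_congr rfl; intro x _
  have h1 : ∀ y : (ZMod q)ˣ, (if z * x * y⁻¹ ∈ K H then ρ x * ρ y else 0)
      = if z * x * y⁻¹ ∈ K H then ρ x * ρ (z * x) else 0 := by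
    intro y
    split_ifs with h
    · rw [hρ _ _ h]
    · rfl
  simp_rw [h1]
  rw [← Finset.sum_filter, Finset.sum_const, nsmul_eq_mul]
  congr 1
  have h2 : (Finset.univ.filter (fun y : (ZMod q)ˣ => z * x * y⁻¹ ∈ K H)).card
      = Nat.card (K H) := by
    have h3 : Nat.card (K H) = (Finset.univ.filter (fun k : (ZMod q)ˣ => k ∈ K H)).card :=
      Nat.subtype_card _ (by intro k; simp)
    rw [h3]
    refine Finset.card_nbij' (fun y => z * x * y⁻¹) (fun k => k⁻¹ * (z * x)) ?_ ?_ ?_ ?_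
    · intro y hy; simpa using hy
    · intro k hk
      have : z * x * (k⁻¹ * (z * x))⁻¹ = k := by group
      rw [Finset.mem_coe, Finset.mem_filter] at hk ⊢
      rw [this]; exact ⟨Finset.mem_univ _, hk.2⟩
    · intro y _
      show (z * x * y⁻¹)⁻¹ * (z * x) = y
      group
    · intro k _
      show z * x * (k⁻¹ * (z * x))⁻¹ = k
      group
  exact_mod_cast h2

section weights

variable {ι : Type*} [DecidableEq ι]

open scoped Classical in
/-- the part of the family lying in the class of `x` -/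
noncomputable def fib (H : Subgroup (DirichletCharacter ℂ q)) (M : Finset ι)
    (u : ι → (ZMod q)ˣ) (x : (ZMod q)ˣ) : Finset ι :=
  M.filter (fun a => x * (u a)⁻¹ ∈ K H)

/-- the class weights -/
noncomputable def rho (H : Subgroup (DirichletCharacter ℂ q)) (M : Finset ι)
    (u : ι → (ZMod q)ˣ) (f : ι → ℝ) (x : (ZMod q)ˣ) : ℝ :=
  Real.sqrt (∑ a ∈ fib H M u x, f a ^ 2)

lemma rho_nonneg (H : Subgroup (DirichletCharacter ℂ q)) (M : Finset ι)
    (u : ι → (ZMod q)ˣ) (f : ι → ℝ) (x : (ZMod q)ˣ) : 0 ≤ rho H M u f x := Real.sqrt_nonneg _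

lemma rho_sq (H : Subgroup (DirichletCharacter ℂ q)) (M : Finset ι)
    (u : ι → (ZMod q)ˣ) (f : ι → ℝ) (x : (ZMod q)ˣ) :
    rho H M u f x ^ 2 = ∑ a ∈ fib H M u x, f a ^ 2 :=
  Real.sq_sqrt (Finset.sum_nonneg fun _ _ => sq_nonneg _)

lemma rho_inv (H : Subgroup (DirichletCharacter ℂ q)) (M : Finset ι)
    (u : ι → (ZMod q)ˣ) (f : ι → ℝ) (x y : (ZMod q)ˣ) (h : x * y⁻¹ ∈ K H) :
    rho H M u f x = rho H M u f y := by
  have : fib H M u x = fib H M u y := by
    ext a
    simp only [fib, Finset.mem_filter]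
    have h1 : x * (u a)⁻¹ = (x * y⁻¹) * (y * (u a)⁻¹) := by group
    rw [h1, (K H).mul_mem_cancel_left h]
  unfold rho
  rw [this]

open scoped Classical in
lemma card_class (H : Subgroup (DirichletCharacter ℂ q)) (z : (ZMod q)ˣ) :
    (Finset.univ.filter (fun x : (ZMod q)ˣ => x * z⁻¹ ∈ K H)).card = Nat.card (K H) := by
  have h3 : Nat.card (K H) = (Finset.univ.filter (fun k : (ZMod q)ˣ => k ∈ K H)).card :=
    Nat.subtype_card _ (by intro k; simp)
  rw [h3]
  refine Finset.card_nbij' (fun y => y * z⁻¹) (fun k => k * z) ?_ ?_ ?_ ?_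
  · intro y hy; simpa using hy
  · intro k hk
    rw [Finset.mem_coe, Finset.mem_filter] at hk ⊢
    refine ⟨Finset.mem_univ _, ?_⟩
    show k * z * z⁻¹ ∈ K H
    have : k * z * z⁻¹ = k := by group
    rw [this]; exact hk.2
  · intro y _
    show y * z⁻¹ * z = y
    group
  · intro k _
    show k * z * z⁻¹ = k
    group

open scoped Classical in
/-- summing a fibre sum over all classes -/
lemma sum_fib (H : Subgroup (DirichletCharacter ℂ q)) (T : Finset ι)
    (u : ι → (ZMod q)ˣ) (g : ι → ℝ) :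
    ∑ x : (ZMod q)ˣ, ∑ a ∈ T.filter (fun a => x * (u a)⁻¹ ∈ K H), g a
      = Nat.card (K H) * ∑ a ∈ T, g a := by
  simp_rw [Finset.sum_filter]
  rw [Finset.sum_comm, Finset.mul_sum]
  apply Finset.sum_congr rfl; intro a _
  rw [← Finset.sum_filter, Finset.sum_const, nsmul_eq_mul, card_class]

lemma sum_rho_sq (H : Subgroup (DirichletCharacter ℂ q)) (M : Finset ι)
    (u : ι → (ZMod q)ˣ) (f : ι → ℝ) :
    ∑ x : (ZMod q)ˣ, rho H M u f x ^ 2 = Nat.card (K H) * ∑ a ∈ M, f a ^ 2 := by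
  simp_rw [rho_sq]
  exact sum_fib H M u (fun a => f a ^ 2)

/-- the correlation of the class weights dominates that of the family -/
lemma corr (H : Subgroup (DirichletCharacter ℂ q)) (M : Finset ι)
    (u : ι → (ZMod q)ˣ) (f : ι → ℝ) (z : (ZMod q)ˣ) (T : Finset ι) (β : ι → ι)
    (hT : T ⊆ M) (hβ : ∀ a ∈ T, β a ∈ M) (hinj : Set.InjOn β T)
    (hu : ∀ a ∈ T, u (β a) = z * u a) :
    Nat.card (K H) * ∑ a ∈ T, f a * f (β a)
      ≤ ∑ x : (ZMod q)ˣ, rho H M u f x * rho H M u f (z * x) := by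
  classical
  rw [← sum_fib H T u (fun a => f a * f (β a))]
  apply Finset.sum_le_sum
  intro x _
  set Tx := T.filter (fun a => x * (u a)⁻¹ ∈ K H) with hTx
  calc ∑ a ∈ Tx, f a * f (β a)
      ≤ Real.sqrt (∑ a ∈ Tx, f a ^ 2) * Real.sqrt (∑ a ∈ Tx, f (β a) ^ 2) :=
        Real.sum_mul_le_sqrt_mul_sqrt _ _ _
    _ ≤ rho H M u f x * rho H M u f (z * x) := by
        apply mul_le_mul _ _ (Real.sqrt_nonneg _) (rho_nonneg _ _ _ _ _)
        · apply Real.sqrt_le_sqrt
          apply Finset.sum_le_sum_of_subset_of_nonneg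
          · intro a ha
            rw [hTx, Finset.mem_filter] at ha
            unfold fib
            rw [Finset.mem_filter]
            exact ⟨hT ha.1, ha.2⟩
          · intro _ _ _; positivity
        · apply Real.sqrt_le_sqrt
          rw [← Finset.sum_image (f := fun b => f b ^ 2) (g := β) (s := Tx) (by
            intro a ha b hb hab
            rw [hTx, Finset.mem_coe, Finset.mem_filter] at ha hb
            exact hinj ha.1 hb.1 hab)]
          apply Finset.sum_le_sum_of_subset_of_nonneg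
          · intro b hb
            rw [Finset.mem_image] at hb
            obtain ⟨a, ha, rfl⟩ := hb
            rw [hTx, Finset.mem_filter] at ha
            unfold fib
            rw [Finset.mem_filter, hu a ha.1]
            refine ⟨hβ a ha.1, ?_⟩
            have : z * x * (z * u a)⁻¹ = x * (u a)⁻¹ := by
              rw [mul_inv]
              rw [mul_comm z x, mul_assoc, mul_comm z⁻¹, ← mul_assoc z, mul_comm z, mul_assoc]
              simp
            rw [this]; exact ha.2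
          · intro _ _ _; positivity

/-- the value at the trivial character -/
lemma sum_rho_le (H : Subgroup (DirichletCharacter ℂ q)) (M : Finset ι)
    (u : ι → (ZMod q)ˣ) (f : ι → ℝ) :
    (∑ x : (ZMod q)ˣ, rho H M u f x) ^ 2
      ≤ (M.card * Nat.card (K H)) * (Nat.card (K H) * ∑ a ∈ M, f a ^ 2) := by
  classical
  rw [← sum_rho_sq H M u f]
  set U : Finset (ZMod q)ˣ := M.biUnion (fun a =>
    Finset.univ.filter (fun x : (ZMod q)ˣ => x * (u a)⁻¹ ∈ K H)) with hU
  have hUc : (U.card : ℝ) ≤ M.card * Nat.card (K H) := by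
    have : U.card ≤ M.card * Nat.card (K H) := by
      rw [hU]
      apply Finset.card_biUnion_le_card_mul
      intro a _
      rw [card_class]
    exact_mod_cast this
  have h1 : ∑ x : (ZMod q)ˣ, rho H M u f x = ∑ x ∈ U, rho H M u f x := by
    symm
    apply Finset.sum_subset (Finset.subset_univ _)
    intro x _ hx
    have : fib H M u x = ∅ := by
      rw [Finset.eq_empty_iff_forall_notMem]
      intro a ha
      apply hx
      unfold fib at ha
      rw [Finset.mem_filter] at ha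
      rw [hU, Finset.mem_biUnion]
      exact ⟨a, ha.1, by rw [Finset.mem_filter]; exact ⟨Finset.mem_univ _, ha.2⟩⟩
    unfold rho
    rw [this]; simp
  have h2 : (∑ x ∈ U, rho H M u f x) ^ 2 ≤ U.card * ∑ x ∈ U, rho H M u f x ^ 2 :=
    sq_sum_le_card_mul_sum_sq
  have h3 : ∑ x ∈ U, rho H M u f x ^ 2 ≤ ∑ x : (ZMod q)ˣ, rho H M u f x ^ 2 :=
    Finset.sum_le_sum_of_subset_of_nonneg (Finset.subset_univ _) (fun _ _ _ => sq_nonneg _)
  rw [h1]
  calc (∑ x ∈ U, rho H M u f x) ^ 2 ≤ U.card * ∑ x ∈ U, rho H M u f x ^ 2 := h2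
    _ ≤ (M.card * Nat.card (K H)) * ∑ x : (ZMod q)ˣ, rho H M u f x ^ 2 := by
        apply mul_le_mul hUc h3 (Finset.sum_nonneg fun _ _ => sq_nonneg _)
        positivity

end weights

section final

variable {ι τ : Type*} [DecidableEq ι] [DecidableEq τ]

/-- the unit defined by an integer prime to the modulus -/
noncomputable def un (q : ℕ) (n : ℕ) (h : n.Coprime q) : (ZMod q)ˣ := ZMod.unitOfCoprime n h

/-- sum of the weights of the truncated series at the trivial character -/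
lemma norm_D_one (X : ℕ) : ‖Approx.D (1 : DirichletCharacter ℂ q) X‖ ≤ 2 * Real.sqrt X := by
  have h1 : ∀ n : ℕ, ∑ k ∈ Finset.Icc 1 n, ((k : ℝ) ^ (-(1 / 2) : ℝ)) ≤ 2 * Real.sqrt n := by
    intro n
    induction n with
    | zero => simp
    | succ n ih =>
      rw [Finset.sum_Icc_succ_top (by omega)]
      have h2 : ((n + 1 : ℕ) : ℝ) ^ (-(1 / 2) : ℝ) = 1 / Real.sqrt ((n + 1 : ℕ) : ℝ) := by
        rw [Real.rpow_neg (by positivity), ← Real.sqrt_eq_rpow, one_div]
      rw [h2]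
      have ha : 0 < Real.sqrt ((n + 1 : ℕ) : ℝ) := Real.sqrt_pos.2 (by positivity)
      have hb : 0 ≤ Real.sqrt (n : ℝ) := Real.sqrt_nonneg _
      have hc : Real.sqrt ((n + 1 : ℕ) : ℝ) ^ 2 = n + 1 := by
        rw [Real.sq_sqrt (by positivity)]; push_cast; ring
      have hd : Real.sqrt (n : ℝ) ^ 2 = n := Real.sq_sqrt (by positivity)
      have h3 : 1 / Real.sqrt ((n + 1 : ℕ) : ℝ) ≤ 2 * (Real.sqrt ((n + 1 : ℕ) : ℝ) - Real.sqrt n) := by
        rw [div_le_iff₀ ha]
        nlinarith [sq_nonneg (Real.sqrt ((n + 1 : ℕ) : ℝ) - Real.sqrt n)]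
      linarith
  refine le_trans ?_ (h1 X)
  unfold Approx.D
  refine norm_sum_le_of_le _ ?_
  intro n _
  rw [norm_mul, Complex.norm_real, Real.norm_of_nonneg (by positivity)]
  calc ‖(1 : DirichletCharacter ℂ q) (n : ZMod q)‖ * (n : ℝ) ^ (-(1 / 2) : ℝ)
      ≤ 1 * (n : ℝ) ^ (-(1 / 2) : ℝ) :=
        mul_le_mul_of_nonneg_right (DirichletCharacter.norm_le_one _ _) (by positivity)
    _ = _ := one_mul _

/-- the resonance inequality for a subgroup of characters -/
theorem resonance (H : Subgroup (DirichletCharacter ℂ q)) (M : Finset ι) (u : ι → (ZMod q)ˣ)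
    (f : ι → ℝ) (hf : ∀ a ∈ M, 0 ≤ f a) (hpos : 0 < ∑ a ∈ M, f a ^ 2)
    (X : ℕ) (hX : 1 ≤ X) (𝒯 : Finset τ) (n : τ → ℕ)
    (hn1 : ∀ t ∈ 𝒯, 1 ≤ n t ∧ n t ≤ X) (hnc : ∀ t ∈ 𝒯, (n t).Coprime q)
    (hninj : Set.InjOn n 𝒯)
    (T : τ → Finset ι) (β : τ → ι → ι)
    (hT : ∀ t ∈ 𝒯, T t ⊆ M) (hβ : ∀ t ∈ 𝒯, ∀ a ∈ T t, β t a ∈ M)
    (hinj : ∀ t ∈ 𝒯, Set.InjOn (β t) (T t))
    (hu : ∀ t ∈ 𝒯, ∀ a ∈ T t, ((u (β t a) : (ZMod q)ˣ) : ZMod q) = (n t : ZMod q) * u a)
    (E : ℝ) (hE : E * ∑ a ∈ M, f a ^ 2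
      ≤ ∑ t ∈ 𝒯, ((n t : ℝ) ^ (-(1 / 2) : ℝ)) * ∑ a ∈ T t, f a * f (β t a))
    (V : ℝ) (hV : ∀ χ ∈ H, χ ≠ 1 → ‖χ.LFunction (1 / 2)‖ ≤ V) (hV0 : 0 ≤ V) :
    E ≤ V + 2 * Approx.B q / Real.sqrt X + 2 * Real.sqrt X * M.card / Nat.card H := by
  classical
  set F := ∑ a ∈ M, f a ^ 2 with hF
  set ρ := rho H M u f with hρ
  set κ : ℝ := ((Nat.card (K H) : ℕ) : ℝ) with hκ
  set h : ℝ := ((mem H).card : ℝ) with hh
  have hh' : h = Nat.card H := by rw [hh, card_mem]
  have hhpos : 0 < h := by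
    rw [hh]
    have : (mem H).Nonempty := ⟨1, mem_mem.2 H.one_mem⟩
    exact_mod_cast this.card_pos
  have hκpos : 0 < κ := by
    rw [hκ]; exact_mod_cast Nat.card_pos
  set W : DirichletCharacter ℂ q → ℝ := fun χ => ‖R ρ χ‖ ^ 2 with hW
  have hW0 : ∀ χ, 0 ≤ W χ := fun χ => sq_nonneg _
  -- twisted moments
  set c : (ZMod q)ˣ → ℝ := fun z => ∑ x : (ZMod q)ˣ, ρ x * ρ (z * x) with hc
  have hc0 : ∀ z, 0 ≤ c z := fun z => Finset.sum_nonneg fun x _ =>
    mul_nonneg (rho_nonneg _ _ _ _ _) (rho_nonneg _ _ _ _ _)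
  have hmom : ∀ z : (ZMod q)ˣ, ∑ χ ∈ mem H, χ (z : ZMod q) * ((W χ : ℝ) : ℂ)
      = ((h * (κ * c z) : ℝ) : ℂ) := by
    intro z
    rw [hW, moment, moment_inv H ρ (rho_inv H M u f)]
  -- total mass
  have hmass : ∑ χ ∈ mem H, W χ = h * (κ * (κ * F)) := by
    have h1 := hmom 1
    simp only [Units.val_one, map_one, one_mul] at h1
    have h2 : c 1 = κ * F := by
      rw [hc]
      simp only [one_mul]
      rw [← sum_rho_sq H M u f]
      apply Finset.sum_congr rfl; intro x _; rw [hρ]; ring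
    rw [h2] at h1
    exact_mod_cast h1
  -- value at the trivial character
  have hone : W 1 ≤ (M.card * κ) * (κ * F) := by
    have h1 : R ρ (1 : DirichletCharacter ℂ q) = ((∑ x : (ZMod q)ˣ, ρ x : ℝ) : ℂ) := by
      unfold R
      push_cast
      apply Finset.sum_congr rfl; intro x _
      rw [MulChar.one_apply_coe]; ring
    rw [hW]
    simp only
    rw [h1, Complex.norm_real, Real.norm_eq_abs, sq_abs]
    exact sum_rho_le H M u f
  -- main sum
  set P : ℂ := ∑ χ ∈ mem H, Approx.D χ X * ((W χ : ℝ) : ℂ) with hP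
  have hterm : ∀ m ∈ Finset.Icc 1 X, ∃ r : ℝ, 0 ≤ r ∧
      ∑ χ ∈ mem H, χ (m : ZMod q) * ((W χ : ℝ) : ℂ) = (r : ℂ) ∧
      ∀ t ∈ 𝒯, n t = m → h * (κ * (κ * ∑ a ∈ T t, f a * f (β t a))) ≤ r := by
    intro m _
    by_cases hm : m.Coprime q
    · refine ⟨h * (κ * c (ZMod.unitOfCoprime m hm)), by
        have := hc0 (ZMod.unitOfCoprime m hm); positivity, ?_, ?_⟩
      · have := hmom (ZMod.unitOfCoprime m hm)
        rw [ZMod.coe_unitOfCoprime] at this
        exact this
      · intro t ht htm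
        apply mul_le_mul_of_nonneg_left _ hhpos.le
        apply mul_le_mul_of_nonneg_left _ hκpos.le
        apply corr H M u f _ (T t) (β t) (hT t ht) (hβ t ht) (hinj t ht)
        intro a ha
        apply Units.ext
        rw [hu t ht a ha, Units.val_mul, ZMod.coe_unitOfCoprime, htm]
    · refine ⟨0, le_rfl, ?_, ?_⟩
      · have h0 : ∀ χ ∈ mem H, χ (m : ZMod q) * ((W χ : ℝ) : ℂ) = 0 := by
          intro χ _
          have : ¬ IsUnit (m : ZMod q) := by
            rw [ZMod.isUnit_iff_coprime]; exact hm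
          rw [MulChar.map_nonunit χ this, zero_mul]
        rw [Finset.sum_congr rfl h0]; simp
      · intro t ht htm
        exact absurd (htm ▸ hnc t ht) hm
  choose! r hr0 hreq hrle using hterm
  have hPeq : P = ((∑ m ∈ Finset.Icc 1 X, ((m : ℝ) ^ (-(1 / 2) : ℝ)) * r m : ℝ) : ℂ) := by
    rw [hP]
    unfold Approx.D
    simp_rw [Finset.sum_mul]
    rw [Finset.sum_comm]
    push_cast
    apply Finset.sum_congr rfl; intro m hm
    rw [← hreq m hm, Finset.mul_sum]
    apply Finset.sum_congr rfl; intro χ _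
    push_cast
    ring
  have hPlow : h * (κ * (κ * (E * F))) ≤ ∑ m ∈ Finset.Icc 1 X, ((m : ℝ) ^ (-(1 / 2) : ℝ)) * r m := by
    calc h * (κ * (κ * (E * F)))
        ≤ h * (κ * (κ * ∑ t ∈ 𝒯, ((n t : ℝ) ^ (-(1 / 2) : ℝ)) * ∑ a ∈ T t, f a * f (β t a))) := by
          apply mul_le_mul_of_nonneg_left _ hhpos.le
          apply mul_le_mul_of_nonneg_left _ hκpos.le
          apply mul_le_mul_of_nonneg_left hE hκpos.le
      _ = ∑ t ∈ 𝒯, ((n t : ℝ) ^ (-(1 / 2) : ℝ)) * (h * (κ * (κ * ∑ a ∈ T t, f a * f (β t a)))) := by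
          simp_rw [Finset.mul_sum]
          apply Finset.sum_congr rfl; intro t _
          apply Finset.sum_congr rfl; intro a _
          ring
      _ ≤ ∑ t ∈ 𝒯, ((n t : ℝ) ^ (-(1 / 2) : ℝ)) * r (n t) := by
          apply Finset.sum_le_sum; intro t ht
          apply mul_le_mul_of_nonneg_left _ (by positivity)
          exact hrle (n t) (Finset.mem_Icc.2 (hn1 t ht)) t ht rfl
      _ = ∑ m ∈ 𝒯.image n, ((m : ℝ) ^ (-(1 / 2) : ℝ)) * r m := by
          rw [Finset.sum_image hninj]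
      _ ≤ _ := by
          apply Finset.sum_le_sum_of_subset_of_nonneg
          · intro m hm
            rw [Finset.mem_image] at hm
            obtain ⟨t, ht, rfl⟩ := hm
            exact Finset.mem_Icc.2 (hn1 t ht)
          · intro m hm _
            exact mul_nonneg (by positivity) (hr0 m hm)
  have hPup : ‖P‖ ≤ (V + 2 * Approx.B q / Real.sqrt X) * (h * (κ * (κ * F)))
      + 2 * Real.sqrt X * ((M.card * κ) * (κ * F)) := by
    have h1 : P = Approx.D (1 : DirichletCharacter ℂ q) X * ((W 1 : ℝ) : ℂ)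
        + ∑ χ ∈ (mem H).erase 1, Approx.D χ X * ((W χ : ℝ) : ℂ) := by
      rw [hP, Finset.add_sum_erase (mem H) (fun χ => Approx.D χ X * ((W χ : ℝ) : ℂ))
        (mem_mem.2 H.one_mem)]
    rw [h1]
    calc ‖Approx.D (1 : DirichletCharacter ℂ q) X * ((W 1 : ℝ) : ℂ)
        + ∑ χ ∈ (mem H).erase 1, Approx.D χ X * ((W χ : ℝ) : ℂ)‖
        ≤ ‖Approx.D (1 : DirichletCharacter ℂ q) X * ((W 1 : ℝ) : ℂ)‖
          + ‖∑ χ ∈ (mem H).erase 1, Approx.D χ X * ((W χ : ℝ) : ℂ)‖ := norm_add_le _ _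
      _ ≤ 2 * Real.sqrt X * W 1
          + ∑ χ ∈ (mem H).erase 1, (V + 2 * Approx.B q / Real.sqrt X) * W χ := by
          apply add_le_add
          · rw [norm_mul, Complex.norm_real, Real.norm_of_nonneg (hW0 1)]
            exact mul_le_mul_of_nonneg_right (norm_D_one X) (hW0 1)
          · apply norm_sum_le_of_le
            intro χ hχ
            rw [Finset.mem_erase] at hχ
            rw [norm_mul, Complex.norm_real, Real.norm_of_nonneg (hW0 χ)]
            apply mul_le_mul_of_nonneg_right _ (hW0 χ)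
            have h2 := Approx.approx hχ.1 X hX
            have h3 := hV χ (mem_mem.1 hχ.2) hχ.1
            calc ‖Approx.D χ X‖ = ‖χ.LFunction (1 / 2) - (χ.LFunction (1 / 2) - Approx.D χ X)‖ := by
                  congr 1; ring
              _ ≤ ‖χ.LFunction (1 / 2)‖ + ‖χ.LFunction (1 / 2) - Approx.D χ X‖ := norm_sub_le _ _
              _ ≤ _ := add_le_add h3 h2
      _ ≤ _ := by
          rw [← Finset.mul_sum]
          have h4 : ∑ χ ∈ (mem H).erase 1, W χ ≤ h * (κ * (κ * F)) := by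
            rw [← hmass]
            exact Finset.sum_le_sum_of_subset_of_nonneg (Finset.erase_subset _ _)
              (fun _ _ _ => hW0 _)
          have h5 : 0 ≤ V + 2 * Approx.B q / Real.sqrt X := by
            have := Approx.B_nonneg (q := q)
            positivity
          have h6 : 0 ≤ 2 * Real.sqrt X := by positivity
          have h7 := mul_le_mul_of_nonneg_left h4 h5
          have h8 := mul_le_mul_of_nonneg_left hone h6
          linarith
  have hnorm : ∑ m ∈ Finset.Icc 1 X, ((m : ℝ) ^ (-(1 / 2) : ℝ)) * r m ≤ ‖P‖ := by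
    rw [hPeq, Complex.norm_real]
    exact le_abs_self _
  have hfin := (hPlow.trans hnorm).trans hPup
  have hden : 0 < h * (κ * (κ * F)) := by positivity
  rw [← hh']
  have e1 : h * (κ * (κ * (E * F))) = E * (h * (κ * (κ * F))) := by ring
  have e2 : 2 * Real.sqrt X * ((M.card * κ) * (κ * F))
      = (2 * Real.sqrt X * M.card / h) * (h * (κ * (κ * F))) := by
    field_simp
  rw [e1, e2, ← add_mul] at hfin
  exact le_of_mul_le_mul_right hfin hden

end final

end Pool.Agent.H.MP_3e6494_nt.Class
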