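import Mathlib
import Pool.Agent.H.MP_3e6494_nt.helper50.Class

/-!
Counting integers in a coset of a small multiplicative subgroup modulo `q`.
-/

open Finset

set_option linter.unusedSectionVars false

namespace Pool.Agent.H.MP_3e6494_nt.T3Cnt

/-- the divisor bound -/
theorem divisor_bound (ε : ℝ) (hε : 0 < ε) : ∃ C : ℝ, 1 ≤ C ∧ ∀ n : ℕ, n ≠ 0 →
    ((n.divisors).card : ℝ) ≤ C * (n : ℝ) ^ ε := by
  set K : ℝ := max 1 (1 / (ε * Real.log 2)) with hK
  have hl2 : 0 < Real.log 2 := Real.log_pos (by norm_num)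
  have hK1 : 1 ≤ K := le_max_left _ _
  set P0 : ℕ := ⌈(2 : ℝ) ^ (1 / ε)⌉₊ with hP0
  refine ⟨K ^ P0, one_le_pow₀ hK1, fun n hn => ?_⟩
  -- the local estimate
  have hloc : ∀ p : ℕ, p.Prime → ∀ v : ℕ,
      ((v + 1 : ℕ) : ℝ) ≤ (if p < P0 then K else 1) * ((p ^ v : ℕ) : ℝ) ^ ε := by
    intro p hp v
    have hp2 : (2 : ℝ) ≤ p := by exact_mod_cast hp.two_le
    have hp0 : (0 : ℝ) < p := by linarith
    have e1 : ((p ^ v : ℕ) : ℝ) ^ ε = ((p : ℝ) ^ ε) ^ v := by
      push_cast
      rw [← Real.rpow_natCast, ← Real.rpow_mul hp0.le, ← Real.rpow_natCast, ← Real.rpow_mul hp0.le,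
        mul_comm]
    rw [e1]
    split_ifs with h
    · have h1 : (2 : ℝ) ^ ε ≤ (p : ℝ) ^ ε := Real.rpow_le_rpow (by norm_num) hp2 hε.le
      have h2 : ((2 : ℝ) ^ ε) ^ v ≤ ((p : ℝ) ^ ε) ^ v := pow_le_pow_left₀ (by positivity) h1 v
      have h3 : 1 + v * (ε * Real.log 2) ≤ ((2 : ℝ) ^ ε) ^ v := by
        have h4 := Real.add_one_le_exp (v * (ε * Real.log 2))
        have h5 : ((2 : ℝ) ^ ε) ^ v = Real.exp (v * (ε * Real.log 2)) := by
          rw [Real.rpow_def_of_pos (by norm_num), ← Real.exp_nat_mul]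
          congr 1; ring
        rw [h5]; linarith
      have h6 : ((v + 1 : ℕ) : ℝ) ≤ K * (1 + v * (ε * Real.log 2)) := by
        have hK2 : 1 ≤ K * (ε * Real.log 2) := by
          have h7 : 1 / (ε * Real.log 2) ≤ K := le_max_right _ _
          rw [div_le_iff₀ (by positivity)] at h7
          exact h7
        push_cast
        have hv : (0 : ℝ) ≤ v := Nat.cast_nonneg v
        nlinarith
      refine h6.trans (mul_le_mul_of_nonneg_left (h3.trans h2) (by linarith))
    · push Not at h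
      rw [one_mul]
      have h1 : (2 : ℝ) ^ (1 / ε) ≤ p := (Nat.le_ceil _).trans (by exact_mod_cast h)
      have h2 : (2 : ℝ) ≤ (p : ℝ) ^ ε := by
        calc (2 : ℝ) = ((2 : ℝ) ^ (1 / ε)) ^ ε := by
              rw [← Real.rpow_mul (by norm_num), one_div, inv_mul_cancel₀ hε.ne', Real.rpow_one]
          _ ≤ (p : ℝ) ^ ε := Real.rpow_le_rpow (by positivity) h1 hε.le
      have h3 : (2 : ℝ) ^ v ≤ ((p : ℝ) ^ ε) ^ v := pow_le_pow_left₀ (by norm_num) h2 v
      have h4 : ((v + 1 : ℕ) : ℝ) ≤ (2 : ℝ) ^ v := by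
        have : v + 1 ≤ 2 ^ v := Nat.succ_le_of_lt Nat.lt_two_pow_self
        exact_mod_cast this
      exact h4.trans h3
  rw [Nat.card_divisors hn]
  push_cast
  calc ∏ p ∈ n.primeFactors, ((n.factorization p : ℝ) + 1)
      ≤ ∏ p ∈ n.primeFactors, ((if p < P0 then K else 1) *
          ((p ^ n.factorization p : ℕ) : ℝ) ^ ε) := by
        apply Finset.prod_le_prod
        · intro p _; positivity
        · intro p hp
          have := hloc p (Nat.prime_of_mem_primeFactors hp) (n.factorization p)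
          push_cast at this ⊢
          exact this
    _ = (∏ p ∈ n.primeFactors, (if p < P0 then K else 1)) *
          ∏ p ∈ n.primeFactors, ((p ^ n.factorization p : ℕ) : ℝ) ^ ε := Finset.prod_mul_distrib
    _ ≤ K ^ P0 * (n : ℝ) ^ ε := by
        have h1 : ∏ p ∈ n.primeFactors, ((p ^ n.factorization p : ℕ) : ℝ) ^ ε = (n : ℝ) ^ ε := by
          rw [Real.finset_prod_rpow _ _ (fun p _ => Nat.cast_nonneg _), ← Nat.cast_prod]
          congr 2
          exact Nat.prod_factorization_pow_eq_self hn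
        rw [h1]
        apply mul_le_mul_of_nonneg_right _ (by positivity)
        rw [← Finset.prod_filter, Finset.prod_const]
        apply pow_le_pow_right₀ hK1
        calc (n.primeFactors.filter (fun p => p < P0)).card ≤ (Finset.range P0).card := by
              apply Finset.card_le_card
              intro p hp
              rw [Finset.mem_filter] at hp
              exact Finset.mem_range.2 hp.2
          _ = P0 := Finset.card_range _

/-- the rank argument -/
theorem sum_le_of_count (A : Finset ℕ) (hA : ∀ m ∈ A, 0 < m) (κ : ℝ) (hκ : 0 ≤ κ)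
    (h : ∀ m ∈ A, ((A.filter (fun x => x ≤ m)).card : ℝ) ≤ κ * Real.sqrt m) :
    ∑ m ∈ A, ((m : ℝ) ^ (-(1 / 2) : ℝ)) ≤ κ * (1 + Real.log A.card) := by
  set ρ : ℕ → ℕ := fun m => (A.filter (fun x => x ≤ m)).card with hρ
  have hinj : Set.InjOn ρ A := by
    have key : ∀ m ∈ A, ∀ n ∈ A, m < n → ρ m < ρ n := by
      intro m hm n hn hmn
      apply Finset.card_lt_card
      rw [Finset.ssubset_iff_of_subset]
      · refine ⟨n, Finset.mem_filter.2 ⟨hn, le_rfl⟩, ?_⟩
        intro hc
        exact absurd (Finset.mem_filter.1 hc).2 (not_le.2 hmn)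
      · intro x hx
        rw [Finset.mem_filter] at hx ⊢
        exact ⟨hx.1, hx.2.trans hmn.le⟩
    intro m hm n hn hmn
    rcases lt_trichotomy m n with h1 | h1 | h1
    · exact absurd hmn (key m hm n hn h1).ne
    · exact h1
    · exact absurd hmn (key n hn m hm h1).ne'
  have hpos : ∀ m ∈ A, 1 ≤ ρ m := by
    intro m hm
    exact Finset.card_pos.2 ⟨m, Finset.mem_filter.2 ⟨hm, le_rfl⟩⟩
  have hle : ∀ m ∈ A, ρ m ≤ A.card := fun m _ => Finset.card_le_card (Finset.filter_subset _ _)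
  calc ∑ m ∈ A, ((m : ℝ) ^ (-(1 / 2) : ℝ)) ≤ ∑ m ∈ A, κ * (1 / (ρ m : ℝ)) := by
        apply Finset.sum_le_sum
        intro m hm
        have hm0 : (0 : ℝ) < m := by exact_mod_cast hA m hm
        have h1 : ((m : ℝ) ^ (-(1 / 2) : ℝ)) = 1 / Real.sqrt m := by
          rw [Real.rpow_neg hm0.le, ← Real.sqrt_eq_rpow, one_div]
        have h2 : (0 : ℝ) < ρ m := by exact_mod_cast hpos m hm
        have h3 := h m hm
        rw [h1, mul_one_div, div_le_div_iff₀ (Real.sqrt_pos.2 hm0) h2]
        rw [one_mul]; exact h3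
    _ = κ * ∑ i ∈ A.image ρ, 1 / (i : ℝ) := by
        rw [← Finset.mul_sum, Finset.sum_image hinj]
    _ ≤ κ * ∑ i ∈ Finset.Icc 1 A.card, 1 / (i : ℝ) := by
        apply mul_le_mul_of_nonneg_left _ hκ
        apply Finset.sum_le_sum_of_subset_of_nonneg
        · intro i hi
          rw [Finset.mem_image] at hi
          obtain ⟨m, hm, rfl⟩ := hi
          exact Finset.mem_Icc.2 ⟨hpos m hm, hle m hm⟩
        · intro i _ _; positivity
    _ ≤ κ * (1 + Real.log A.card) := by
        apply mul_le_mul_of_nonneg_left _ hκ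
        have h1 := harmonic_le_one_add_log A.card
        have h2 : ((harmonic A.card : ℚ) : ℝ) = ∑ i ∈ Finset.Icc 1 A.card, 1 / (i : ℝ) := by
          rw [harmonic_eq_sum_Icc]
          push_cast
          apply Finset.sum_congr rfl; intro i _; rw [one_div]
        rw [← h2]; exact h1

open Pool.Agent.H.MP_3e6494_nt.Class

variable {q : ℕ} [hq : Fact q.Prime]

lemma residue_count (x : ZMod q) (Y : ℕ) :
    ((Finset.Icc 1 Y).filter (fun m : ℕ => (m : ZMod q) = x)).card ≤ Y / q + 1 := by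
  have : ((Finset.Icc 1 Y).filter (fun m : ℕ => (m : ZMod q) = x)).card
      ≤ (Finset.range (Y / q + 1)).card := by
    apply Finset.card_le_card_of_injOn (fun m => m / q)
    · intro m hm
      rw [Finset.mem_coe, Finset.mem_filter, Finset.mem_Icc] at hm
      rw [Finset.mem_coe, Finset.mem_range]
      exact Nat.lt_succ_of_le (Nat.div_le_div_right hm.1.2)
    · intro m hm n hn hmn
      rw [Finset.mem_coe, Finset.mem_filter] at hm hn
      have h1 : (m : ZMod q) = (n : ZMod q) := hm.2.trans hn.2.symm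
      rw [ZMod.natCast_eq_natCast_iff] at h1
      have h2 : m % q = n % q := h1
      simp only at hmn
      rw [← Nat.div_add_mod m q, ← Nat.div_add_mod n q, hmn, h2]
  simpa using this

open scoped Classical in
/-- the integers up to `Y` in a coset of `K` -/
noncomputable def A (K : Subgroup (ZMod q)ˣ) (u : ℕ → (ZMod q)ˣ) (c : (ZMod q)ˣ) (Y : ℕ) : Finset ℕ :=
  (Finset.Icc 1 Y).filter (fun m => m.Coprime q ∧ u m * c ∈ K)

open scoped Classical in
lemma card_A_le (K : Subgroup (ZMod q)ˣ) (u : ℕ → (ZMod q)ˣ)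
    (hu : ∀ m : ℕ, m.Coprime q → ((u m : (ZMod q)ˣ) : ZMod q) = (m : ZMod q))
    (c : (ZMod q)ˣ) (Y : ℕ) : (A K u c Y).card ≤ Nat.card K * (Y / q + 1) := by
  have h1 : A K u c Y ⊆ ((Finset.univ : Finset (ZMod q)ˣ).filter (fun k => k ∈ K)).biUnion
      (fun k => (Finset.Icc 1 Y).filter (fun m : ℕ => (m : ZMod q) = ((k * c⁻¹ : (ZMod q)ˣ) : ZMod q))) := by
    intro m hm
    unfold A at hm
    rw [Finset.mem_filter] at hm
    rw [Finset.mem_biUnion]
    refine ⟨u m * c, Finset.mem_filter.2 ⟨Finset.mem_univ _, hm.2.2⟩, ?_⟩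
    rw [Finset.mem_filter]
    refine ⟨hm.1, ?_⟩
    rw [mul_inv_cancel_right, hu m hm.2.1]
  have h3 : Nat.card K = ((Finset.univ : Finset (ZMod q)ˣ).filter (fun k => k ∈ K)).card :=
    Nat.subtype_card _ (by intro k; simp)
  rw [h3]
  refine (Finset.card_le_card h1).trans ?_
  exact Finset.card_biUnion_le_card_mul _ _ _ (fun k _ => residue_count _ _)

open scoped Classical in
lemma card_A_sq_le (K : Subgroup (ZMod q)ˣ) (u : ℕ → (ZMod q)ˣ)
    (hu : ∀ m : ℕ, m.Coprime q → ((u m : (ZMod q)ˣ) : ZMod q) = (m : ZMod q))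
    (c : (ZMod q)ˣ) (Y D : ℕ) (hD : ∀ n ∈ Finset.Icc 1 (Y * Y), (n.divisors).card ≤ D) :
    (A K u c Y).card * (A K u c Y).card ≤ D * (Nat.card K * (Y * Y / q + 1)) := by
  rw [← Finset.card_product]
  have h1 : ((A K u c Y) ×ˢ (A K u c Y)).card ≤ D * (A K u (c * c) (Y * Y)).card := by
    apply Finset.card_le_mul_card_image_of_maps_to (f := fun x : ℕ × ℕ => x.1 * x.2)
    · intro x hx
      rw [Finset.mem_product] at hx
      unfold A at hx ⊢
      rw [Finset.mem_filter, Finset.mem_filter, Finset.mem_Icc, Finset.mem_Icc] at hx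
      obtain ⟨⟨⟨a1, a2⟩, a3, a4⟩, ⟨b1, b2⟩, b3, b4⟩ := hx
      rw [Finset.mem_filter, Finset.mem_Icc]
      have hc : (x.1 * x.2).Coprime q := Nat.Coprime.mul_left a3 b3
      refine ⟨⟨Nat.mul_pos a1 b1, Nat.mul_le_mul a2 b2⟩, hc, ?_⟩
      have e : u (x.1 * x.2) = u x.1 * u x.2 := by
        apply Units.ext
        rw [hu _ hc, Units.val_mul, hu _ a3, hu _ b3]
        push_cast; rfl
      rw [e, show u x.1 * u x.2 * (c * c) = (u x.1 * c) * (u x.2 * c) by
        rw [mul_mul_mul_comm]]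
      exact K.mul_mem a4 b4
    · intro n hn
      have hn' : n ∈ Finset.Icc 1 (Y * Y) := by
        unfold A at hn
        exact (Finset.mem_filter.1 hn).1
      refine le_trans ?_ (hD n hn')
      apply Finset.card_le_card_of_injOn (fun x : ℕ × ℕ => x.1)
      · intro x hx
        rw [Finset.mem_coe, Finset.mem_filter] at hx
        rw [Finset.mem_coe, Nat.mem_divisors]
        refine ⟨⟨x.2, hx.2.symm⟩, ?_⟩
        have := (Finset.mem_Icc.1 hn').1
        omega
      · intro x hx y hy hxy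
        rw [Finset.mem_coe, Finset.mem_filter] at hx hy
        simp only at hxy
        have h2 : x.1 * x.2 = x.1 * y.2 := by rw [hx.2, hxy, hy.2]
        have h3 : 0 < x.1 := by
          rcases Nat.eq_zero_or_pos x.1 with h | h
          · have h4 := hx.2
            rw [h, zero_mul] at h4
            have := (Finset.mem_Icc.1 hn').1
            omega
          · exact h
        exact Prod.ext hxy (Nat.eq_of_mul_eq_mul_left h3 h2)
  refine h1.trans (Nat.mul_le_mul_left _ (card_A_le K u hu _ _))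

open scoped Classical in
/-- the tail sum over a coset of a small subgroup -/
theorem tail (K : Subgroup (ZMod q)ˣ) (u : ℕ → (ZMod q)ˣ)
    (c : (ZMod q)ˣ) (Z X : ℕ) (κ : ℝ) (hκ : 0 ≤ κ)
    (h : ∀ Y : ℕ, Z < Y → Y ≤ X → ((A K u c Y).card : ℝ) ≤ κ * Real.sqrt Y) :
    ∑ m ∈ (Finset.Ioc Z X).filter (fun m => m.Coprime q ∧ u m * c ∈ K),
        ((m : ℝ) ^ (-(1 / 2) : ℝ)) ≤ κ * (1 + Real.log X) := by
  set S := (Finset.Ioc Z X).filter (fun m => m.Coprime q ∧ u m * c ∈ K) with hS
  have h1 := sum_le_of_count S (by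
    intro m hm
    rw [hS, Finset.mem_filter, Finset.mem_Ioc] at hm
    omega) κ hκ (by
    intro m hm
    rw [hS, Finset.mem_filter, Finset.mem_Ioc] at hm
    refine le_trans ?_ (h m hm.1.1 hm.1.2)
    have : (S.filter (fun x => x ≤ m)).card ≤ (A K u c m).card := by
      apply Finset.card_le_card
      intro x hx
      rw [Finset.mem_filter, hS, Finset.mem_filter, Finset.mem_Ioc] at hx
      unfold A
      rw [Finset.mem_filter, Finset.mem_Icc]
      exact ⟨⟨by omega, hx.2⟩, hx.1.2⟩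
    exact_mod_cast this)
  refine h1.trans (mul_le_mul_of_nonneg_left ?_ hκ)
  have h2 : S.card ≤ X := by
    calc S.card ≤ (Finset.Ioc Z X).card := Finset.card_le_card (Finset.filter_subset _ _)
      _ = X - Z := Nat.card_Ioc _ _
      _ ≤ X := Nat.sub_le _ _
  rcases Nat.eq_zero_or_pos S.card with h3 | h3
  · rw [h3]; simp only [Nat.cast_zero, Real.log_zero, add_zero]
    linarith [Real.log_natCast_nonneg X]
  · have h4 : Real.log S.card ≤ Real.log X :=
      Real.log_le_log (by exact_mod_cast h3) (by exact_mod_cast h2)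
    linarith

end Pool.Agent.H.MP_3e6494_nt.T3Cnt
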