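import Mathlib
import Pool.Agent.H.MP_3e6494_nt.helper50.Class

/-!
A resonance inequality on a coset of characters, for a family which is separated modulo the
common kernel.
-/

open Finset

set_option linter.unusedSectionVars false

namespace Pool.Agent.H.MP_3e6494_nt.T3Res

open Pool.Agent.H.MP_3e6494_nt.Class

variable {q : ℕ} [hq : Fact q.Prime] {α : Type*}

/-- the resonator -/
noncomputable def RS (S : Finset α) (r : α → (ZMod q)ˣ) (f : α → ℝ)
    (χ : DirichletCharacter ℂ q) : ℂ :=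
  ∑ a ∈ S, (f a : ℂ) * χ (r a : ZMod q)

open scoped Classical in
lemma twist (H : Subgroup (DirichletCharacter ℂ q)) (χ₀ : DirichletCharacter ℂ q)
    (S T : Finset α) (r : α → (ZMod q)ˣ) (f : α → ℝ) (z : (ZMod q)ˣ) :
    ∑ ψ ∈ mem H, (χ₀ * ψ) (z : ZMod q) * (RS S r f (χ₀ * ψ) *
        (starRingEnd ℂ) (RS T r f (χ₀ * ψ)))
      = ((mem H).card : ℂ) * ∑ a ∈ S, ∑ b ∈ T, (((f a * f b : ℝ)) : ℂ) *
          (if z * r a * (r b)⁻¹ ∈ K H then χ₀ ((z * r a * (r b)⁻¹ : (ZMod q)ˣ) : ZMod q) else 0) := by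
  have h0 : ∀ ψ ∈ mem H, (χ₀ * ψ) (z : ZMod q) * (RS S r f (χ₀ * ψ) *
        (starRingEnd ℂ) (RS T r f (χ₀ * ψ)))
      = ∑ a ∈ S, ∑ b ∈ T, (((f a * f b : ℝ)) : ℂ) *
          (χ₀ ((z * r a * (r b)⁻¹ : (ZMod q)ˣ) : ZMod q) *
            ψ ((z * r a * (r b)⁻¹ : (ZMod q)ˣ) : ZMod q)) := by
    intro ψ _
    unfold RS
    rw [map_sum, Finset.sum_mul_sum, Finset.mul_sum]
    apply Finset.sum_congr rfl; intro a _
    rw [Finset.mul_sum]
    apply Finset.sum_congr rfl; intro b _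
    rw [map_mul, Complex.conj_ofReal, conj_char]
    have e : χ₀ ((z * r a * (r b)⁻¹ : (ZMod q)ˣ) : ZMod q) *
            ψ ((z * r a * (r b)⁻¹ : (ZMod q)ˣ) : ZMod q)
        = (χ₀ * ψ) (z : ZMod q) * (χ₀ * ψ) (r a : ZMod q) * (χ₀ * ψ) ((r b)⁻¹ : (ZMod q)ˣ) := by
      rw [← MulChar.mul_apply, Units.val_mul, Units.val_mul, map_mul, map_mul]
    rw [e, Complex.ofReal_mul]
    ring
  rw [Finset.sum_congr rfl h0, Finset.sum_comm, Finset.mul_sum]
  apply Finset.sum_congr rfl; intro a _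
  rw [Finset.sum_comm, Finset.mul_sum]
  apply Finset.sum_congr rfl; intro b _
  rw [← Finset.mul_sum, ← Finset.mul_sum, sum_char]
  split_ifs with h
  · ring
  · rw [mul_zero, mul_zero, mul_zero]

lemma sum_norm_sq (H : Subgroup (DirichletCharacter ℂ q)) (χ₀ : DirichletCharacter ℂ q)
    (S : Finset α) (r : α → (ZMod q)ˣ) (f : α → ℝ)
    (hS : ∀ a ∈ S, ∀ b ∈ S, r a * (r b)⁻¹ ∈ K H → a = b) :
    ∑ ψ ∈ mem H, ‖RS S r f (χ₀ * ψ)‖ ^ 2 = (mem H).card * ∑ a ∈ S, f a ^ 2 := by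
  classical
  have h1 := twist H χ₀ S S r f 1
  have h2 : ∀ ψ ∈ mem H, (χ₀ * ψ) ((1 : (ZMod q)ˣ) : ZMod q) * (RS S r f (χ₀ * ψ) *
        (starRingEnd ℂ) (RS S r f (χ₀ * ψ))) = ((‖RS S r f (χ₀ * ψ)‖ ^ 2 : ℝ) : ℂ) := by
    intro ψ _
    rw [Units.val_one, map_one, one_mul, Complex.mul_conj, Complex.normSq_eq_norm_sq]
  rw [Finset.sum_congr rfl h2] at h1
  have h3 : ∑ a ∈ S, ∑ b ∈ S, (((f a * f b : ℝ)) : ℂ) *
          (if (1 : (ZMod q)ˣ) * r a * (r b)⁻¹ ∈ K H then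
            χ₀ (((1 : (ZMod q)ˣ) * r a * (r b)⁻¹ : (ZMod q)ˣ) : ZMod q) else 0)
      = ((∑ a ∈ S, f a ^ 2 : ℝ) : ℂ) := by
    rw [Complex.ofReal_sum]
    apply Finset.sum_congr rfl; intro a ha
    rw [Finset.sum_eq_single a]
    · rw [if_pos (by rw [one_mul, mul_inv_cancel]; exact (K H).one_mem)]
      rw [one_mul, mul_inv_cancel, Units.val_one, map_one, mul_one, sq]
    · intro b hb hba
      rw [if_neg, mul_zero]
      intro h
      rw [one_mul] at h
      exact hba (hS a ha b hb h).symm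
    · intro h; exact absurd ha h
  rw [h3] at h1
  have h4 : ((∑ ψ ∈ mem H, ‖RS S r f (χ₀ * ψ)‖ ^ 2 : ℝ) : ℂ)
      = (((mem H).card * ∑ a ∈ S, f a ^ 2 : ℝ) : ℂ) := by
    push_cast at h1 ⊢
    exact h1
  exact_mod_cast h4

lemma sum_le_sqrt (S : Finset α) (f : α → ℝ) {F N : ℝ} (hF : ∑ a ∈ S, f a ^ 2 = F)
    (hN : (S.card : ℝ) ≤ N) : ∑ a ∈ S, f a ≤ Real.sqrt N * Real.sqrt F := by
  have hF0 : 0 ≤ F := by rw [← hF]; exact Finset.sum_nonneg fun _ _ => sq_nonneg _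
  have hN0 : 0 ≤ N := le_trans (Nat.cast_nonneg _) hN
  rw [← Real.sqrt_mul hN0]
  apply Real.le_sqrt_of_sq_le
  calc (∑ a ∈ S, f a) ^ 2 ≤ S.card * ∑ a ∈ S, f a ^ 2 := sq_sum_le_card_mul_sum_sq
    _ ≤ N * F := by rw [hF]; exact mul_le_mul_of_nonneg_right hN hF0

lemma norm_RS_le (S : Finset α) (r : α → (ZMod q)ˣ) (f : α → ℝ) (hf : ∀ a, 0 ≤ f a)
    (χ : DirichletCharacter ℂ q) : ‖RS S r f χ‖ ≤ ∑ a ∈ S, f a := by
  unfold RS
  refine (norm_sum_le _ _).trans (Finset.sum_le_sum fun a _ => ?_)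
  rw [norm_mul, Complex.norm_real, Real.norm_of_nonneg (hf a), DirichletCharacter.unit_norm_eq_one,
    mul_one]

open scoped Classical in
/-- the coset resonance inequality -/
theorem resonance (H : Subgroup (DirichletCharacter ℂ q)) (χ₀ : DirichletCharacter ℂ q)
    (S T : Finset α) (r : α → (ZMod q)ˣ) (f : α → ℝ) (hf : ∀ a, 0 ≤ f a)
    (u : ℕ → (ZMod q)ˣ) (hu : ∀ m : ℕ, m.Coprime q → ((u m : (ZMod q)ˣ) : ZMod q) = (m : ZMod q))
    {F N : ℝ} (hF : 0 < F) (hFS : ∑ a ∈ S, f a ^ 2 = F) (hFT : ∑ a ∈ T, f a ^ 2 = F)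
    (hNS : (S.card : ℝ) ≤ N) (hNT : (T.card : ℝ) ≤ N)
    (hS : ∀ a ∈ S, ∀ b ∈ S, r a * (r b)⁻¹ ∈ K H → a = b)
    (hT : ∀ a ∈ T, ∀ b ∈ T, r a * (r b)⁻¹ ∈ K H → a = b)
    (X Z : ℕ) (hX : 1 ≤ X) (hZX : Z ≤ X)
    (hrel : ∀ m ∈ Finset.Icc 1 Z, m.Coprime q → ∀ a ∈ S, ∀ b ∈ T,
      u m * r a * (r b)⁻¹ ∈ K H → u m * r a = r b)
    {τ : ℝ} (hτ : ∀ c : (ZMod q)ˣ,
      ∑ m ∈ (Finset.Ioc Z X).filter (fun m => m.Coprime q ∧ u m * c ∈ K H),
        ((m : ℝ) ^ (-(1 / 2) : ℝ)) ≤ τ)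
    (𝒵 : Finset (ℕ × α × α))
    (h𝒵 : ∀ z ∈ 𝒵, z.1 ∈ Finset.Icc 1 Z ∧ z.1.Coprime q ∧ z.2.1 ∈ S ∧ z.2.2 ∈ T ∧
      u z.1 * r z.2.1 = r z.2.2)
    {E : ℝ} (hE : E * F ≤ ∑ z ∈ 𝒵, ((z.1 : ℝ) ^ (-(1 / 2) : ℝ)) * (f z.2.1 * f z.2.2))
    {V : ℝ} (hV : ∀ ψ ∈ H, χ₀ * ψ ≠ 1 → ‖(χ₀ * ψ).LFunction (1 / 2)‖ ≤ V) (hV0 : 0 ≤ V) :
    E ≤ V + 2 * Approx.B q / Real.sqrt X + τ * N + 2 * Real.sqrt X * N / Nat.card H := by
  set h : ℝ := ((mem H).card : ℝ) with hh
  have hh' : h = Nat.card H := by rw [hh, card_mem]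
  have hhpos : 0 < h := by
    rw [hh]
    have : (mem H).Nonempty := ⟨1, mem_mem.2 H.one_mem⟩
    exact_mod_cast this.card_pos
  have hN0 : 0 ≤ N := le_trans (Nat.cast_nonneg _) hNS
  have hτ0 : 0 ≤ τ := le_trans (Finset.sum_nonneg fun m _ => by positivity) (hτ 1)
  have hSsum := sum_le_sqrt S f hFS hNS
  have hTsum := sum_le_sqrt T f hFT hNT
  have hS0 : 0 ≤ ∑ a ∈ S, f a := Finset.sum_nonneg fun a _ => hf a
  have hT0 : 0 ≤ ∑ a ∈ T, f a := Finset.sum_nonneg fun a _ => hf a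
  have hST : (∑ a ∈ S, f a) * (∑ b ∈ T, f b) ≤ N * F := by
    calc (∑ a ∈ S, f a) * (∑ b ∈ T, f b)
        ≤ (Real.sqrt N * Real.sqrt F) * (Real.sqrt N * Real.sqrt F) := by gcongr
      _ = (Real.sqrt N * Real.sqrt N) * (Real.sqrt F * Real.sqrt F) := by ring
      _ = N * F := by rw [Real.mul_self_sqrt hN0, Real.mul_self_sqrt hF.le]
  set W : DirichletCharacter ℂ q → ℂ := fun ψ => RS S r f (χ₀ * ψ) *
        (starRingEnd ℂ) (RS T r f (χ₀ * ψ)) with hW
  set P : ℂ := ∑ ψ ∈ mem H, Approx.D (χ₀ * ψ) X * W ψ with hP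
  -- the twisted sums
  set I : ℕ → ℂ := fun m => ∑ ψ ∈ mem H, (χ₀ * ψ) (m : ZMod q) * W ψ with hI
  have hInc : ∀ m : ℕ, ¬ m.Coprime q → I m = 0 := by
    intro m hm
    rw [hI]
    apply Finset.sum_eq_zero
    intro ψ _
    have : ¬ IsUnit (m : ZMod q) := by
      rw [ZMod.isUnit_iff_coprime]; exact hm
    rw [MulChar.map_nonunit _ this, zero_mul]
  have hIc : ∀ m : ℕ, m.Coprime q → I m = (h : ℂ) * ∑ a ∈ S, ∑ b ∈ T, (((f a * f b : ℝ)) : ℂ) *
          (if u m * r a * (r b)⁻¹ ∈ K H then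
            χ₀ ((u m * r a * (r b)⁻¹ : (ZMod q)ˣ) : ZMod q) else 0) := by
    intro m hm
    rw [hI]
    simp only
    rw [← hu m hm]
    have := twist H χ₀ S T r f (u m)
    rw [hW]
    rw [this, hh]
    push_cast
    rfl
  -- short range
  have hshort : ∀ m ∈ Finset.Icc 1 Z,
      h * ∑ z ∈ 𝒵.filter (fun z => z.1 = m), f z.2.1 * f z.2.2 ≤ (I m).re := by
    intro m hm
    by_cases hmc : m.Coprime q
    · rw [hIc m hmc]
      have e1 : ∑ a ∈ S, ∑ b ∈ T, (((f a * f b : ℝ)) : ℂ) *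
          (if u m * r a * (r b)⁻¹ ∈ K H then
            χ₀ ((u m * r a * (r b)⁻¹ : (ZMod q)ˣ) : ZMod q) else 0)
          = ((∑ a ∈ S, ∑ b ∈ T, (if u m * r a = r b then f a * f b else 0) : ℝ) : ℂ) := by
        rw [Complex.ofReal_sum]
        apply Finset.sum_congr rfl; intro a ha
        rw [Complex.ofReal_sum]
        apply Finset.sum_congr rfl; intro b hb
        by_cases hk : u m * r a = r b
        · rw [if_pos hk, hk, mul_inv_cancel, if_pos (K H).one_mem, Units.val_one, map_one, mul_one]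
        · rw [if_neg hk, if_neg, mul_zero, Complex.ofReal_zero]
          intro hk'; exact hk (hrel m hm hmc a ha b hb hk')
      rw [e1, ← Complex.ofReal_mul, Complex.ofReal_re]
      apply mul_le_mul_of_nonneg_left _ hhpos.le
      rw [← Finset.sum_product']
      rw [← Finset.sum_filter]
      have hinj : Set.InjOn (fun z : ℕ × α × α => z.2)
          ((𝒵.filter (fun z => z.1 = m) : Finset (ℕ × α × α)) : Set (ℕ × α × α)) := by
        intro z hz w hw hzw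
        rw [Finset.mem_coe, Finset.mem_filter] at hz hw
        exact Prod.ext (hz.2.trans hw.2.symm) hzw
      rw [← Finset.sum_image (f := fun w : α × α => f w.1 * f w.2) hinj]
      apply Finset.sum_le_sum_of_subset_of_nonneg
      · intro w hw
        rw [Finset.mem_image] at hw
        obtain ⟨z, hz, rfl⟩ := hw
        rw [Finset.mem_filter] at hz
        obtain ⟨h1, h2, h3, h4, h5⟩ := h𝒵 z hz.1
        rw [Finset.mem_filter, Finset.mem_product]
        refine ⟨⟨h3, h4⟩, ?_⟩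
        rw [← hz.2]; exact h5
      · intro w _ _
        exact mul_nonneg (hf _) (hf _)
    · rw [hInc m hmc]
      have : 𝒵.filter (fun z => z.1 = m) = ∅ := by
        rw [Finset.filter_eq_empty_iff]
        intro z hz hzm
        exact hmc (hzm ▸ (h𝒵 z hz).2.1)
      rw [this]; simp
  -- long range
  have hlong : ∀ m ∈ Finset.Ioc Z X, ‖I m‖ ≤ h * ∑ a ∈ S, ∑ b ∈ T,
      (if m.Coprime q ∧ u m * (r a * (r b)⁻¹) ∈ K H then f a * f b else 0) := by
    intro m _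
    by_cases hmc : m.Coprime q
    · rw [hIc m hmc, norm_mul, Complex.norm_real, Real.norm_of_nonneg hhpos.le]
      apply mul_le_mul_of_nonneg_left _ hhpos.le
      refine (norm_sum_le _ _).trans (Finset.sum_le_sum fun a _ => ?_)
      refine (norm_sum_le _ _).trans (Finset.sum_le_sum fun b _ => ?_)
      rw [norm_mul, Complex.norm_real, Real.norm_of_nonneg (mul_nonneg (hf _) (hf _))]
      by_cases hk : u m * r a * (r b)⁻¹ ∈ K H
      · rw [if_pos hk, if_pos ⟨hmc, by rw [← mul_assoc]; exact hk⟩,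
          DirichletCharacter.unit_norm_eq_one, mul_one]
      · rw [if_neg hk, norm_zero, mul_zero]
        split_ifs
        · exact mul_nonneg (hf _) (hf _)
        · exact le_rfl
    · rw [hInc m hmc, norm_zero]
      apply mul_nonneg hhpos.le
      apply Finset.sum_nonneg; intro a _
      apply Finset.sum_nonneg; intro b _
      split_ifs
      · exact mul_nonneg (hf _) (hf _)
      · exact le_rfl
  have hPeq : P = ∑ m ∈ Finset.Icc 1 X, (((m : ℝ) ^ (-(1 / 2) : ℝ) : ℝ) : ℂ) * I m := by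
    rw [hP, hI]
    unfold Approx.D
    simp_rw [Finset.sum_mul, Finset.mul_sum]
    rw [Finset.sum_comm]
    apply Finset.sum_congr rfl; intro m _
    apply Finset.sum_congr rfl; intro ψ _
    ring
  have hsplit : Finset.Icc 1 X = Finset.Icc 1 Z ∪ Finset.Ioc Z X := by
    ext m; simp only [Finset.mem_Icc, Finset.mem_union, Finset.mem_Ioc]; omega
  have hdisj : Disjoint (Finset.Icc 1 Z) (Finset.Ioc Z X) := by
    rw [Finset.disjoint_left]; intro m h1 h2
    rw [Finset.mem_Icc] at h1; rw [Finset.mem_Ioc] at h2; omega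
  have hre : P.re = (∑ m ∈ Finset.Icc 1 Z, ((m : ℝ) ^ (-(1 / 2) : ℝ)) * (I m).re)
      + ∑ m ∈ Finset.Ioc Z X, ((m : ℝ) ^ (-(1 / 2) : ℝ)) * (I m).re := by
    rw [hPeq, hsplit, Finset.sum_union hdisj, Complex.add_re, Complex.re_sum, Complex.re_sum]
    congr 1
    · apply Finset.sum_congr rfl; intro m _; rw [Complex.re_ofReal_mul]
    · apply Finset.sum_congr rfl; intro m _; rw [Complex.re_ofReal_mul]
  have hlow1 : h * (E * F) ≤ ∑ m ∈ Finset.Icc 1 Z, ((m : ℝ) ^ (-(1 / 2) : ℝ)) * (I m).re := by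
    calc h * (E * F) ≤ h * ∑ z ∈ 𝒵, ((z.1 : ℝ) ^ (-(1 / 2) : ℝ)) * (f z.2.1 * f z.2.2) :=
          mul_le_mul_of_nonneg_left hE hhpos.le
      _ = h * ∑ m ∈ Finset.Icc 1 Z, ∑ z ∈ 𝒵.filter (fun z => z.1 = m),
            ((z.1 : ℝ) ^ (-(1 / 2) : ℝ)) * (f z.2.1 * f z.2.2) := by
          rw [Finset.sum_fiberwise_of_maps_to (fun z hz => (h𝒵 z hz).1)]
      _ = ∑ m ∈ Finset.Icc 1 Z, ((m : ℝ) ^ (-(1 / 2) : ℝ)) *
            (h * ∑ z ∈ 𝒵.filter (fun z => z.1 = m), f z.2.1 * f z.2.2) := by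
          rw [Finset.mul_sum]
          apply Finset.sum_congr rfl; intro m _
          rw [mul_left_comm]
          congr 1
          rw [Finset.mul_sum]
          apply Finset.sum_congr rfl; intro z hz
          rw [Finset.mem_filter] at hz
          rw [hz.2]
      _ ≤ _ := by
          apply Finset.sum_le_sum; intro m hm
          exact mul_le_mul_of_nonneg_left (hshort m hm) (by positivity)
  have hlow2 : -(h * (τ * (N * F))) ≤ ∑ m ∈ Finset.Ioc Z X, ((m : ℝ) ^ (-(1 / 2) : ℝ)) * (I m).re := by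
    have h1 : ∑ m ∈ Finset.Ioc Z X, ((m : ℝ) ^ (-(1 / 2) : ℝ)) * ‖I m‖ ≤ h * (τ * (N * F)) := by
      calc ∑ m ∈ Finset.Ioc Z X, ((m : ℝ) ^ (-(1 / 2) : ℝ)) * ‖I m‖
          ≤ ∑ m ∈ Finset.Ioc Z X, ((m : ℝ) ^ (-(1 / 2) : ℝ)) * (h * ∑ a ∈ S, ∑ b ∈ T,
            (if m.Coprime q ∧ u m * (r a * (r b)⁻¹) ∈ K H then f a * f b else 0)) := by
            apply Finset.sum_le_sum; intro m hm
            exact mul_le_mul_of_nonneg_left (hlong m hm) (by positivity)
        _ = h * ∑ a ∈ S, ∑ b ∈ T, (f a * f b) *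
              ∑ m ∈ (Finset.Ioc Z X).filter (fun m => m.Coprime q ∧ u m * (r a * (r b)⁻¹) ∈ K H),
                ((m : ℝ) ^ (-(1 / 2) : ℝ)) := by
            simp_rw [Finset.sum_filter, Finset.mul_sum]
            rw [Finset.sum_comm]
            apply Finset.sum_congr rfl; intro a _
            rw [Finset.sum_comm]
            apply Finset.sum_congr rfl; intro b _
            apply Finset.sum_congr rfl; intro m _
            split_ifs
            · ring
            · ring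
        _ ≤ h * ∑ a ∈ S, ∑ b ∈ T, (f a * f b) * τ := by
            apply mul_le_mul_of_nonneg_left _ hhpos.le
            apply Finset.sum_le_sum; intro a _
            apply Finset.sum_le_sum; intro b _
            exact mul_le_mul_of_nonneg_left (hτ _) (mul_nonneg (hf _) (hf _))
        _ = h * (((∑ a ∈ S, f a) * (∑ b ∈ T, f b)) * τ) := by
            rw [Finset.sum_mul_sum, Finset.sum_mul]
            congr 1
            apply Finset.sum_congr rfl; intro a _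
            rw [Finset.sum_mul]
        _ ≤ h * ((N * F) * τ) := by
            apply mul_le_mul_of_nonneg_left _ hhpos.le
            exact mul_le_mul_of_nonneg_right hST hτ0
        _ = _ := by ring
    have h2 : -(∑ m ∈ Finset.Ioc Z X, ((m : ℝ) ^ (-(1 / 2) : ℝ)) * ‖I m‖)
        ≤ ∑ m ∈ Finset.Ioc Z X, ((m : ℝ) ^ (-(1 / 2) : ℝ)) * (I m).re := by
      rw [← Finset.sum_neg_distrib]
      apply Finset.sum_le_sum; intro m _
      have h3 : -‖I m‖ ≤ (I m).re := (abs_le.1 (Complex.abs_re_le_norm (I m))).1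
      have h4 : 0 ≤ ((m : ℝ) ^ (-(1 / 2) : ℝ)) := by positivity
      nlinarith
    linarith
  have hlow : h * (E * F) - h * (τ * (N * F)) ≤ ‖P‖ := by
    have h1 := Complex.re_le_norm P
    rw [hre] at h1
    linarith
  -- the upper bound
  set A := V + 2 * Approx.B q / Real.sqrt X with hA
  have hA0 : 0 ≤ A := by
    have := Approx.B_nonneg (q := q)
    positivity
  have hup : ‖P‖ ≤ A * (h * F) + 2 * Real.sqrt X * (N * F) := by
    have h1 : ∀ ψ ∈ mem H, ‖Approx.D (χ₀ * ψ) X * W ψ‖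
        ≤ A * ((‖RS S r f (χ₀ * ψ)‖ ^ 2 + ‖RS T r f (χ₀ * ψ)‖ ^ 2) / 2)
          + (if χ₀ * ψ = 1 then 2 * Real.sqrt X * (N * F) else 0) := by
      intro ψ hψ
      have hWn : ‖W ψ‖ = ‖RS S r f (χ₀ * ψ)‖ * ‖RS T r f (χ₀ * ψ)‖ := by
        rw [hW]; simp only
        rw [norm_mul, RCLike.norm_conj]
      rw [norm_mul]
      split_ifs with h1
      · have h2 : ‖Approx.D (χ₀ * ψ) X‖ ≤ 2 * Real.sqrt X := by
          rw [h1]; exact norm_D_one X
        have h3 : ‖W ψ‖ ≤ N * F := by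
          rw [hWn]
          refine le_trans ?_ hST
          exact mul_le_mul (norm_RS_le S r f hf _) (norm_RS_le T r f hf _) (norm_nonneg _) hS0
        have h4 : 0 ≤ A * ((‖RS S r f (χ₀ * ψ)‖ ^ 2 + ‖RS T r f (χ₀ * ψ)‖ ^ 2) / 2) := by positivity
        have h5 : ‖Approx.D (χ₀ * ψ) X‖ * ‖W ψ‖ ≤ 2 * Real.sqrt X * (N * F) :=
          mul_le_mul h2 h3 (norm_nonneg _) (by positivity)
        linarith
      · have h2 := Approx.approx (χ := χ₀ * ψ) h1 X hX
        have h3 := hV ψ (mem_mem.1 hψ) h1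
        have h4 : ‖Approx.D (χ₀ * ψ) X‖ ≤ A := by
          have : Approx.D (χ₀ * ψ) X = (χ₀ * ψ).LFunction (1 / 2)
              - ((χ₀ * ψ).LFunction (1 / 2) - Approx.D (χ₀ * ψ) X) := by ring
          rw [this]
          refine (norm_sub_le _ _).trans ?_
          rw [hA]; linarith
        rw [add_zero]
        apply mul_le_mul h4 _ (norm_nonneg _) hA0
        rw [hWn]
        nlinarith [sq_nonneg (‖RS S r f (χ₀ * ψ)‖ - ‖RS T r f (χ₀ * ψ)‖)]
    calc ‖P‖ ≤ ∑ ψ ∈ mem H, ‖Approx.D (χ₀ * ψ) X * W ψ‖ := norm_sum_le _ _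
      _ ≤ ∑ ψ ∈ mem H, (A * ((‖RS S r f (χ₀ * ψ)‖ ^ 2 + ‖RS T r f (χ₀ * ψ)‖ ^ 2) / 2)
          + (if χ₀ * ψ = 1 then 2 * Real.sqrt X * (N * F) else 0)) := Finset.sum_le_sum h1
      _ = A * (((∑ ψ ∈ mem H, ‖RS S r f (χ₀ * ψ)‖ ^ 2)
            + (∑ ψ ∈ mem H, ‖RS T r f (χ₀ * ψ)‖ ^ 2)) / 2)
          + ∑ ψ ∈ mem H, (if χ₀ * ψ = 1 then 2 * Real.sqrt X * (N * F) else 0) := by
          rw [Finset.sum_add_distrib, ← Finset.mul_sum, ← Finset.sum_div, Finset.sum_add_distrib]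
      _ ≤ A * (h * F) + 2 * Real.sqrt X * (N * F) := by
          apply add_le_add
          · rw [sum_norm_sq H χ₀ S r f hS, sum_norm_sq H χ₀ T r f hT, hFS, hFT]
            apply le_of_eq; rw [← hh]; ring
          · have h2 : ∀ ψ ∈ mem H, (if χ₀ * ψ = 1 then 2 * Real.sqrt X * (N * F) else 0)
                ≤ (if ψ = χ₀⁻¹ then 2 * Real.sqrt X * (N * F) else 0) := by
              intro ψ _
              by_cases h3 : χ₀ * ψ = 1
              · rw [if_pos h3, if_pos (eq_inv_of_mul_eq_one_right h3)]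
              · rw [if_neg h3]
                split_ifs
                · positivity
                · exact le_rfl
            refine (Finset.sum_le_sum h2).trans ?_
            rw [Finset.sum_ite_eq']
            split_ifs
            · exact le_rfl
            · positivity
  have hfin := hlow.trans hup
  have h1 : h * F * (E - τ * N - A) ≤ 2 * Real.sqrt X * N * F := by nlinarith
  have h2 : E - τ * N - A ≤ 2 * Real.sqrt X * N / h := by
    rw [le_div_iff₀ hhpos]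
    have h3 : F * ((E - τ * N - A) * h) ≤ F * (2 * Real.sqrt X * N) := by nlinarith
    exact le_of_mul_le_mul_left h3 hF
  rw [← hh']
  rw [hA] at h2
  linarith

end Pool.Agent.H.MP_3e6494_nt.T3Res
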