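import Mathlib
import Pool.Agent.H.MP_3e6494_nt.helper50.Approx
import Pool.Agent.H.MP_3e6494_nt.helper50.Class

open Finset

set_option linter.unusedSectionVars false

namespace Pool.Agent.H.MP_3e6494_nt.ApproxQ

variable {q : ℕ} [hq : Fact q.Prime]

/-- the truncated central series over integers free of prime factors from `Q` -/
noncomputable def DQ (Q : Finset ℕ) (χ : DirichletCharacter ℂ q) (X : ℝ) : ℂ :=
  ∑ m ∈ (Finset.Icc 1 ⌊X⌋₊).filter (fun m => ∀ p ∈ Q, ¬ p ∣ m),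
    χ (m : ZMod q) * (((m : ℝ) ^ (-(1 / 2) : ℝ) : ℝ) : ℂ)

lemma one_le_B : 1 ≤ Approx.B q := by
  unfold Approx.B
  have h1 : (1 : ℝ) ≤ q := by exact_mod_cast hq.out.one_lt.le
  have h2 : 1 ≤ Real.sqrt q := Real.one_le_sqrt.2 h1
  have h3 : 0 ≤ Real.log q := Real.log_natCast_nonneg q
  nlinarith

lemma base {χ : DirichletCharacter ℂ q} (hχ : χ ≠ 1) (X : ℝ) (hX : 0 < X) :
    ‖χ.LFunction (1 / 2) - DQ ∅ χ X‖ ≤ 3 * Approx.B q / Real.sqrt X := by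
  have hB := one_le_B (q := q)
  have hD : DQ ∅ χ X = Approx.D χ ⌊X⌋₊ := by
    unfold DQ Approx.D
    simp
  rw [hD]
  rcases lt_or_ge X 1 with h | h
  · have h0 : ⌊X⌋₊ = 0 := Nat.floor_eq_zero.2 h
    have hD0 : Approx.D χ ⌊X⌋₊ = 0 := by rw [h0]; unfold Approx.D; simp
    rw [hD0, sub_zero]
    have h1 := Approx.approx hχ 1 le_rfl
    have hD1 : ‖Approx.D χ 1‖ ≤ 1 := by
      unfold Approx.D
      simp
    have h2 : ‖χ.LFunction (1 / 2)‖ ≤ 3 * Approx.B q := by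
      calc ‖χ.LFunction (1 / 2)‖ = ‖(χ.LFunction (1 / 2) - Approx.D χ 1) + Approx.D χ 1‖ := by
            congr 1; ring
        _ ≤ ‖χ.LFunction (1 / 2) - Approx.D χ 1‖ + ‖Approx.D χ 1‖ := norm_add_le _ _
        _ ≤ 2 * Approx.B q / Real.sqrt (1 : ℕ) + 1 := add_le_add h1 hD1
        _ ≤ _ := by
            rw [Nat.cast_one, Real.sqrt_one]; linarith
    refine h2.trans ?_
    have hs : Real.sqrt X ≤ 1 := by rw [Real.sqrt_le_one]; exact h.le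
    rw [le_div_iff₀ (Real.sqrt_pos.2 hX)]
    have : 0 ≤ 3 * Approx.B q := by linarith
    nlinarith [Real.sqrt_nonneg X]
  · have h0 : 1 ≤ ⌊X⌋₊ := (Nat.one_le_floor_iff _).2 h
    refine (Approx.approx hχ _ h0).trans ?_
    have hfl : X / 2 ≤ (⌊X⌋₊ : ℝ) := by
      have h1 := Nat.lt_floor_add_one X
      have h2 : (1 : ℝ) ≤ (⌊X⌋₊ : ℝ) := by exact_mod_cast h0
      linarith
    have hs1 : 0 < Real.sqrt X := Real.sqrt_pos.2 hX
    have hs2 : 0 < Real.sqrt (⌊X⌋₊ : ℝ) := Real.sqrt_pos.2 (by linarith)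
    have hs3 : (2 / 3) * Real.sqrt X ≤ Real.sqrt (⌊X⌋₊ : ℝ) := by
      apply Real.le_sqrt_of_sq_le
      rw [mul_pow, Real.sq_sqrt hX.le]
      linarith
    rw [div_le_div_iff₀ hs2 hs1]
    nlinarith

lemma DQ_insert (Q : Finset ℕ) (hQ : ∀ p ∈ Q, p.Prime) (p : ℕ) (hp : p.Prime) (hpQ : p ∉ Q)
    (χ : DirichletCharacter ℂ q) (X : ℝ) :
    DQ (insert p Q) χ X = DQ Q χ X
      - (χ (p : ZMod q) * (((p : ℝ) ^ (-(1 / 2) : ℝ) : ℝ) : ℂ)) * DQ Q χ (X / p) := by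
  have hp0 : 0 < p := hp.pos
  set g : ℕ → ℂ := fun m => χ (m : ZMod q) * (((m : ℝ) ^ (-(1 / 2) : ℝ) : ℝ) : ℂ) with hg
  have hgm : ∀ m, g (p * m) = g p * g m := by
    intro m
    rw [hg]
    simp only
    push_cast
    rw [map_mul, Real.mul_rpow (by positivity) (by positivity)]
    push_cast
    ring
  have h1 : (Finset.Icc 1 ⌊X⌋₊).filter (fun m => ∀ r ∈ Q, ¬ r ∣ m)
      = (Finset.Icc 1 ⌊X⌋₊).filter (fun m => ∀ r ∈ insert p Q, ¬ r ∣ m)
        ∪ ((Finset.Icc 1 ⌊X / p⌋₊).filter (fun m => ∀ r ∈ Q, ¬ r ∣ m)).image (fun m => p * m) := by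
    ext m
    simp only [Finset.mem_filter, Finset.mem_union, Finset.mem_image, Finset.mem_insert,
      Finset.mem_Icc, forall_eq_or_imp]
    constructor
    · rintro ⟨⟨hm1, hm2⟩, hm3⟩
      by_cases hpm : p ∣ m
      · right
        obtain ⟨m', rfl⟩ := hpm
        refine ⟨m', ⟨⟨?_, ?_⟩, ?_⟩, rfl⟩
        · rcases Nat.eq_zero_or_pos m' with h | h
          · subst h; simp at hm1
          · exact h
        · rw [Nat.floor_div_natCast, Nat.le_div_iff_mul_le hp0, mul_comm]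
          exact hm2
        · intro r hr hrm
          exact hm3 r hr (Dvd.dvd.mul_left hrm p)
      · left
        exact ⟨⟨hm1, hm2⟩, hpm, hm3⟩
    · rintro (⟨⟨hm1, hm2⟩, hm3, hm4⟩ | ⟨m', ⟨⟨hm1, hm2⟩, hm3⟩, rfl⟩)
      · exact ⟨⟨hm1, hm2⟩, hm4⟩
      · rw [Nat.floor_div_natCast, Nat.le_div_iff_mul_le hp0, mul_comm] at hm2
        refine ⟨⟨Nat.mul_pos hp0 hm1, hm2⟩, ?_⟩
        intro r hr hrm
        rcases (hQ r hr).dvd_mul.1 hrm with h | h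
        · have := (Nat.prime_dvd_prime_iff_eq (hQ r hr) hp).1 h
          exact hpQ (this ▸ hr)
        · exact hm3 r hr h
  have hdisj : Disjoint ((Finset.Icc 1 ⌊X⌋₊).filter (fun m => ∀ r ∈ insert p Q, ¬ r ∣ m))
      (((Finset.Icc 1 ⌊X / p⌋₊).filter (fun m => ∀ r ∈ Q, ¬ r ∣ m)).image (fun m => p * m)) := by
    rw [Finset.disjoint_left]
    intro m hm hm'
    rw [Finset.mem_filter] at hm
    rw [Finset.mem_image] at hm'
    obtain ⟨m', _, rfl⟩ := hm'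
    exact hm.2 p (Finset.mem_insert_self _ _) (dvd_mul_right _ _)
  have h2 : DQ Q χ X = DQ (insert p Q) χ X
      + ∑ m ∈ ((Finset.Icc 1 ⌊X / p⌋₊).filter (fun m => ∀ r ∈ Q, ¬ r ∣ m)).image (fun m => p * m),
        g m := by
    unfold DQ
    rw [h1, Finset.sum_union hdisj]
  rw [h2, Finset.sum_image (by
    intro a _ b _ hab
    exact Nat.eq_of_mul_eq_mul_left hp0 hab)]
  simp_rw [hgm]
  rw [← Finset.mul_sum]
  have h3 : ∑ m ∈ (Finset.Icc 1 ⌊X / p⌋₊).filter (fun m => ∀ r ∈ Q, ¬ r ∣ m), g m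
      = DQ Q χ (X / p) := rfl
  rw [h3]
  rw [hg]
  ring

theorem approxQ {χ : DirichletCharacter ℂ q} (hχ : χ ≠ 1) (Q : Finset ℕ)
    (hQ : ∀ p ∈ Q, p.Prime) : ∀ X : ℝ, 0 < X →
    ‖χ.LFunction (1 / 2) * ∏ p ∈ Q, (1 - χ (p : ZMod q) * (((p : ℝ) ^ (-(1 / 2) : ℝ) : ℝ) : ℂ))
      - DQ Q χ X‖ ≤ 2 ^ Q.card * (3 * Approx.B q / Real.sqrt X) := by
  induction Q using Finset.induction_on with
  | empty =>
    intro X hX
    simpa using base hχ X hX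
  | insert p Q hpQ ih =>
    intro X hX
    have hp : p.Prime := hQ p (Finset.mem_insert_self _ _)
    have hQ' : ∀ r ∈ Q, r.Prime := fun r hr => hQ r (Finset.mem_insert_of_mem hr)
    have hp0 : (0 : ℝ) < p := by exact_mod_cast hp.pos
    have ih1 := ih hQ' X hX
    have ih2 := ih hQ' (X / p) (by positivity)
    rw [DQ_insert Q hQ' p hp hpQ, Finset.prod_insert hpQ, Finset.card_insert_of_notMem hpQ]
    set LL := χ.LFunction (1 / 2) * ∏ p ∈ Q, (1 - χ (p : ZMod q) * (((p : ℝ) ^ (-(1 / 2) : ℝ) : ℝ) : ℂ))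
      with hLL
    set w := χ (p : ZMod q) * (((p : ℝ) ^ (-(1 / 2) : ℝ) : ℝ) : ℂ) with hw
    have e1 : χ.LFunction (1 / 2) * ((1 - w) *
        ∏ p ∈ Q, (1 - χ (p : ZMod q) * (((p : ℝ) ^ (-(1 / 2) : ℝ) : ℝ) : ℂ)))
        - (DQ Q χ X - w * DQ Q χ (X / p))
        = (LL - DQ Q χ X) - w * (LL - DQ Q χ (X / p)) := by
      rw [hLL]; ring
    rw [e1]
    have hwn : ‖w‖ ≤ (p : ℝ) ^ (-(1 / 2) : ℝ) := by
      rw [hw, norm_mul, Complex.norm_real, Real.norm_of_nonneg (by positivity)]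
      calc ‖χ (p : ZMod q)‖ * (p : ℝ) ^ (-(1 / 2) : ℝ) ≤ 1 * (p : ℝ) ^ (-(1 / 2) : ℝ) :=
            mul_le_mul_of_nonneg_right (DirichletCharacter.norm_le_one _ _) (by positivity)
        _ = _ := one_mul _
    have hpow : (p : ℝ) ^ (-(1 / 2) : ℝ) = 1 / Real.sqrt p := by
      rw [Real.rpow_neg hp0.le, ← Real.sqrt_eq_rpow, one_div]
    have hsp : 0 < Real.sqrt p := Real.sqrt_pos.2 hp0
    have hsx : 0 < Real.sqrt X := Real.sqrt_pos.2 hX
    calc ‖(LL - DQ Q χ X) - w * (LL - DQ Q χ (X / p))‖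
        ≤ ‖LL - DQ Q χ X‖ + ‖w * (LL - DQ Q χ (X / p))‖ := norm_sub_le _ _
      _ ≤ 2 ^ Q.card * (3 * Approx.B q / Real.sqrt X)
          + (1 / Real.sqrt p) * (2 ^ Q.card * (3 * Approx.B q / Real.sqrt (X / p))) := by
          apply add_le_add ih1
          rw [norm_mul]
          apply mul_le_mul (by rw [← hpow]; exact hwn) ih2 (norm_nonneg _) (by positivity)
      _ = 2 ^ (Q.card + 1) * (3 * Approx.B q / Real.sqrt X) := by
          rw [Real.sqrt_div' _ hp0.le]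
          field_simp
          ring

lemma norm_prod_le (χ : DirichletCharacter ℂ q) (Q : Finset ℕ) :
    ‖∏ p ∈ Q, (1 - χ (p : ZMod q) * (((p : ℝ) ^ (-(1 / 2) : ℝ) : ℝ) : ℂ))‖
      ≤ ∏ p ∈ Q, (1 + (p : ℝ) ^ (-(1 / 2) : ℝ)) := by
  rw [norm_prod]
  apply Finset.prod_le_prod
  · intro p _; exact norm_nonneg _
  · intro p _
    refine (norm_sub_le _ _).trans ?_
    rw [norm_one, norm_mul, Complex.norm_real, Real.norm_of_nonneg (by positivity)]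
    have : ‖χ (p : ZMod q)‖ * (p : ℝ) ^ (-(1 / 2) : ℝ) ≤ 1 * (p : ℝ) ^ (-(1 / 2) : ℝ) :=
      mul_le_mul_of_nonneg_right (DirichletCharacter.norm_le_one _ _) (by positivity)
    linarith

lemma norm_DQ_le (Q : Finset ℕ) (χ : DirichletCharacter ℂ q) (X : ℕ) :
    ‖DQ Q χ X‖ ≤ 2 * Real.sqrt X := by
  have h1 : ∀ n : ℕ, ∑ k ∈ Finset.Icc 1 n, ((k : ℝ) ^ (-(1 / 2) : ℝ)) ≤ 2 * Real.sqrt n := by
    intro n
    induction n with
    | zero => simp
    | succ n ih =>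
      rw [Finset.sum_Icc_succ_top (by omega)]
      have h2 : ((n + 1 : ℕ) : ℝ) ^ (-(1 / 2) : ℝ) = 1 / Real.sqrt ((n + 1 : ℕ) : ℝ) := by
        rw [Real.rpow_neg (by positivity), ← Real.sqrt_eq_rpow, one_div]
      rw [h2]
      have ha : 0 < Real.sqrt ((n + 1 : ℕ) : ℝ) := Real.sqrt_pos.2 (by positivity)
      have hb : 0 ≤ Real.sqrt (n : ℝ) := Real.sqrt_nonneg _
      have hc : Real.sqrt ((n + 1 : ℕ) : ℝ) ^ 2 = n + 1 := by
        rw [Real.sq_sqrt (by positivity)]; push_cast; ring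
      have hd : Real.sqrt (n : ℝ) ^ 2 = n := Real.sq_sqrt (by positivity)
      have h3 : 1 / Real.sqrt ((n + 1 : ℕ) : ℝ) ≤ 2 * (Real.sqrt ((n + 1 : ℕ) : ℝ) - Real.sqrt n) := by
        rw [div_le_iff₀ ha]
        nlinarith [sq_nonneg (Real.sqrt ((n + 1 : ℕ) : ℝ) - Real.sqrt n)]
      linarith
  refine le_trans ?_ (h1 X)
  unfold DQ
  rw [Nat.floor_natCast]
  calc ‖∑ m ∈ (Finset.Icc 1 X).filter (fun m => ∀ p ∈ Q, ¬ p ∣ m),
        χ (m : ZMod q) * (((m : ℝ) ^ (-(1 / 2) : ℝ) : ℝ) : ℂ)‖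
      ≤ ∑ m ∈ (Finset.Icc 1 X).filter (fun m => ∀ p ∈ Q, ¬ p ∣ m), (m : ℝ) ^ (-(1 / 2) : ℝ) := by
        refine norm_sum_le_of_le _ ?_
        intro n _
        rw [norm_mul, Complex.norm_real, Real.norm_of_nonneg (by positivity)]
        calc ‖χ (n : ZMod q)‖ * (n : ℝ) ^ (-(1 / 2) : ℝ)
            ≤ 1 * (n : ℝ) ^ (-(1 / 2) : ℝ) :=
              mul_le_mul_of_nonneg_right (DirichletCharacter.norm_le_one _ _) (by positivity)
          _ = _ := one_mul _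
    _ ≤ _ := Finset.sum_le_sum_of_subset_of_nonneg (Finset.filter_subset _ _)
        (fun _ _ _ => by positivity)

end Pool.Agent.H.MP_3e6494_nt.ApproxQ
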