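import Mathlib

open Finset

set_option linter.unusedSectionVars false

namespace Pool.Agent.H.MP_3e6494_nt.Greedy

variable {q : ℕ} [hq : Fact q.Prime]

/-- `(u, v)` is a nontrivial reduced fraction lying in the subgroup `K`, of height product `< B` -/
def Rel (K : Subgroup (ZMod q)ˣ) (B : ℕ) (x : ℕ × ℕ) : Prop :=
  1 ≤ x.1 ∧ 1 ≤ x.2 ∧ Nat.Coprime x.1 x.2 ∧ 1 < x.1 * x.2 ∧ x.1 * x.2 < B ∧
    ∃ k ∈ K, (x.1 : ZMod q) = (k : ZMod q) * x.2

lemma two_pow_card_primeFactors_le (n : ℕ) (hn : n ≠ 0) : 2 ^ n.primeFactors.card ≤ n := by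
  calc 2 ^ n.primeFactors.card = ∏ _p ∈ n.primeFactors, 2 := by rw [Finset.prod_const]
    _ ≤ ∏ p ∈ n.primeFactors, p := Finset.prod_le_prod' (fun p hp =>
        (Nat.prime_of_mem_primeFactors hp).two_le)
    _ ≤ n := Nat.le_of_dvd (Nat.pos_of_ne_zero hn) (Nat.prod_primeFactors_dvd n)

/-- a pairwise coprime family of relations has fewer than `ρ` members -/
lemma family_small (K : Subgroup (ZMod q)ˣ) (B ρ : ℕ) (hρ : Nat.card K < 2 ^ ρ)
    (hB : B ^ (2 * ρ) < q) (F : Finset (ℕ × ℕ)) (hF : ∀ x ∈ F, Rel K B x)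
    (hco : ∀ x ∈ F, ∀ y ∈ F, x ≠ y → Nat.Coprime (x.1 * x.2) (y.1 * y.2)) : F.card < ρ := by
  classical
  by_contra hcon
  push Not at hcon
  obtain ⟨G, hGF, hGc⟩ := Finset.exists_subset_card_eq hcon
  have hG : ∀ x ∈ G, Rel K B x := fun x hx => hF x (hGF hx)
  have hGco : ∀ x ∈ G, ∀ y ∈ G, x ≠ y → Nat.Coprime (x.1 * x.2) (y.1 * y.2) :=
    fun x hx y hy => hco x (hGF hx) y (hGF hy)
  have hBpos : 1 ≤ B := by
    rcases G.eq_empty_or_nonempty with h | ⟨x, hx⟩
    · rw [h, Finset.card_empty] at hGc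
      rw [← hGc] at hρ
      have : 0 < Nat.card K := Nat.card_pos
      omega
    · have := (hG x hx).2.2.2.2.1
      omega
  -- choice of the elements of K
  have hk : ∀ x : ℕ × ℕ, ∃ k : (ZMod q)ˣ, x ∈ G → (k ∈ K ∧ (x.1 : ZMod q) = (k : ZMod q) * x.2) := by
    intro x
    by_cases hx : x ∈ G
    · obtain ⟨k, hk, hk'⟩ := (hG x hx).2.2.2.2.2
      exact ⟨k, fun _ => ⟨hk, hk'⟩⟩
    · exact ⟨1, fun h => absurd h hx⟩
  choose kk hkk using hk
  -- sizes
  have hsz : ∀ I ⊆ G, (∏ x ∈ I, x.1) ≤ B ^ ρ ∧ (∏ x ∈ I, x.2) ≤ B ^ ρ ∧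
      0 < (∏ x ∈ I, x.1) ∧ 0 < (∏ x ∈ I, x.2) := by
    intro I hI
    have hIc : I.card ≤ ρ := by rw [← hGc]; exact Finset.card_le_card hI
    refine ⟨?_, ?_, ?_, ?_⟩
    · calc ∏ x ∈ I, x.1 ≤ ∏ _x ∈ I, B := Finset.prod_le_prod' (fun x hx => by
            have h := hG x (hI hx)
            have h1 := h.2.2.2.2.1
            have h2 := h.2.1
            have : x.1 ≤ x.1 * x.2 := Nat.le_mul_of_pos_right _ h2
            omega)
        _ = B ^ I.card := by rw [Finset.prod_const]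
        _ ≤ B ^ ρ := Nat.pow_le_pow_right hBpos hIc
    · calc ∏ x ∈ I, x.2 ≤ ∏ _x ∈ I, B := Finset.prod_le_prod' (fun x hx => by
            have h := hG x (hI hx)
            have h1 := h.2.2.2.2.1
            have h2 := h.1
            have : x.2 ≤ x.1 * x.2 := Nat.le_mul_of_pos_left _ h2
            omega)
        _ = B ^ I.card := by rw [Finset.prod_const]
        _ ≤ B ^ ρ := Nat.pow_le_pow_right hBpos hIc
    · exact Finset.prod_pos fun x hx => (hG x (hI hx)).1
    · exact Finset.prod_pos fun x hx => (hG x (hI hx)).2.1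
  -- the map from subsets to K is injective
  have hinj : Set.InjOn (fun I : Finset (ℕ × ℕ) => ∏ x ∈ I, kk x) (G.powerset : Set (Finset (ℕ × ℕ))) := by
    intro I hI I' hI' hII
    rw [Finset.mem_coe, Finset.mem_powerset] at hI hI'
    simp only at hII
    have hrel : ∀ I ⊆ G, ((∏ x ∈ I, x.1 : ℕ) : ZMod q)
        = ((∏ x ∈ I, kk x : (ZMod q)ˣ) : ZMod q) * ((∏ x ∈ I, x.2 : ℕ) : ZMod q) := by
      intro I hI
      rw [Units.coe_prod, Nat.cast_prod, Nat.cast_prod, ← Finset.prod_mul_distrib]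
      exact Finset.prod_congr rfl fun x hx => (hkk x (hI hx)).2
    have h1 := hrel I hI
    have h2 := hrel I' hI'
    have h3 : (((∏ x ∈ I, x.1) * (∏ x ∈ I', x.2) : ℕ) : ZMod q)
        = (((∏ x ∈ I', x.1) * (∏ x ∈ I, x.2) : ℕ) : ZMod q) := by
      rw [Nat.cast_mul, Nat.cast_mul, h1, h2, hII]; ring
    have s1 := hsz I hI
    have s2 := hsz I' hI'
    have hlt : ∀ a b : ℕ, a ≤ B ^ ρ → b ≤ B ^ ρ → a * b < q := by
      intro a b ha hb
      calc a * b ≤ B ^ ρ * B ^ ρ := Nat.mul_le_mul ha hb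
        _ = B ^ (2 * ρ) := by rw [two_mul, pow_add]
        _ < q := hB
    have h4 : (∏ x ∈ I, x.1) * (∏ x ∈ I', x.2) = (∏ x ∈ I', x.1) * (∏ x ∈ I, x.2) := by
      have e := (ZMod.natCast_eq_natCast_iff' _ _ _).1 h3
      rwa [Nat.mod_eq_of_lt (hlt _ _ s1.1 s2.2.1), Nat.mod_eq_of_lt (hlt _ _ s2.1 s1.2.1)] at e
    -- prime separation
    have key : ∀ J ⊆ G, ∀ J' ⊆ G, (∏ x ∈ J, x.1) * (∏ x ∈ J', x.2) = (∏ x ∈ J', x.1) * (∏ x ∈ J, x.2) →
        J ⊆ J' := by
      intro J hJ J' hJ' heq i hi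
      by_contra hi'
      have hR := hG i (hJ hi)
      obtain ⟨p, hp, hpd⟩ := Nat.exists_prime_and_dvd (show i.1 * i.2 ≠ 1 by
        have := hR.2.2.2.1; omega)
      have hnot : ∀ x ∈ G, x ≠ i → ¬ p ∣ x.1 * x.2 := by
        intro x hx hxi hpx
        have := hGco i (hJ hi) x hx (Ne.symm hxi)
        have h5 := Nat.dvd_gcd hpd hpx
        rw [this] at h5
        exact hp.one_lt.ne' (Nat.dvd_one.1 h5)
      rcases hp.dvd_mul.1 hpd with hpu | hpv
      · have hpv : ¬ p ∣ i.2 := by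
          intro h
          have h5 := Nat.dvd_gcd hpu h
          rw [hR.2.2.1] at h5
          exact hp.one_lt.ne' (Nat.dvd_one.1 h5)
        have h5 : p ∣ (∏ x ∈ J, x.1) * (∏ x ∈ J', x.2) :=
          Dvd.dvd.mul_right (hpu.trans (Finset.dvd_prod_of_mem (fun x : ℕ × ℕ => x.1) hi)) _
        rw [heq] at h5
        rcases hp.dvd_mul.1 h5 with h6 | h6
        · obtain ⟨x, hx, hpx⟩ := (Prime.dvd_finsetProd_iff hp.prime _).1 h6
          have hxi : x ≠ i := fun h => hi' (h ▸ hx)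
          exact hnot x (hJ' hx) hxi (Dvd.dvd.mul_right hpx _)
        · obtain ⟨x, hx, hpx⟩ := (Prime.dvd_finsetProd_iff hp.prime _).1 h6
          by_cases hxi : x = i
          · exact hpv (hxi ▸ hpx)
          · exact hnot x (hJ hx) hxi (Dvd.dvd.mul_left hpx _)
      · have hpu : ¬ p ∣ i.1 := by
          intro h
          have h5 := Nat.dvd_gcd h hpv
          rw [hR.2.2.1] at h5
          exact hp.one_lt.ne' (Nat.dvd_one.1 h5)
        have h5 : p ∣ (∏ x ∈ J', x.1) * (∏ x ∈ J, x.2) :=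
          Dvd.dvd.mul_left (hpv.trans (Finset.dvd_prod_of_mem (fun x : ℕ × ℕ => x.2) hi)) _
        rw [← heq] at h5
        rcases hp.dvd_mul.1 h5 with h6 | h6
        · obtain ⟨x, hx, hpx⟩ := (Prime.dvd_finsetProd_iff hp.prime _).1 h6
          by_cases hxi : x = i
          · exact hpu (hxi ▸ hpx)
          · exact hnot x (hJ hx) hxi (Dvd.dvd.mul_right hpx _)
        · obtain ⟨x, hx, hpx⟩ := (Prime.dvd_finsetProd_iff hp.prime _).1 h6
          have hxi : x ≠ i := fun h => hi' (h ▸ hx)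
          exact hnot x (hJ' hx) hxi (Dvd.dvd.mul_left hpx _)
    exact Finset.Subset.antisymm (key I hI I' hI' h4) (key I' hI' I hI h4.symm)
  have hmaps : ∀ I ∈ G.powerset, (∏ x ∈ I, kk x) ∈ Finset.univ.filter (fun k : (ZMod q)ˣ => k ∈ K) := by
    intro I hI
    rw [Finset.mem_powerset] at hI
    rw [Finset.mem_filter]
    refine ⟨Finset.mem_univ _, ?_⟩
    exact Subgroup.prod_mem K fun x hx => (hkk x (hI hx)).1
  have hcard := Finset.card_le_card_of_injOn _ hmaps hinj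
  have hKc : (Finset.univ.filter (fun k : (ZMod q)ˣ => k ∈ K)).card = Nat.card K :=
    (Nat.subtype_card _ (by intro k; simp)).symm
  rw [Finset.card_powerset, hGc, hKc] at hcard
  omega

/-- there is a small set of primes meeting every relation -/
theorem exists_Q (K : Subgroup (ZMod q)ˣ) (B ρ : ℕ) (hB1 : 1 ≤ B) (hρ : Nat.card K < 2 ^ ρ)
    (hB : B ^ (2 * ρ) < q) :
    ∃ Q : Finset ℕ, (∀ p ∈ Q, p.Prime) ∧ 2 ^ Q.card ≤ B ^ ρ ∧
      ∀ x : ℕ × ℕ, Rel K B x → ∃ p ∈ Q, p ∣ x.1 * x.2 := by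
  classical
  set All : Finset (ℕ × ℕ) := (Finset.range B ×ˢ Finset.range B).filter (fun x => Rel K B x) with hAll
  have hmemAll : ∀ x, Rel K B x → x ∈ All := by
    intro x hx
    rw [hAll, Finset.mem_filter, Finset.mem_product, Finset.mem_range, Finset.mem_range]
    have h1 := hx.2.2.2.2.1
    have h2 : x.1 ≤ x.1 * x.2 := Nat.le_mul_of_pos_right _ hx.2.1
    have h3 : x.2 ≤ x.1 * x.2 := Nat.le_mul_of_pos_left _ hx.1
    exact ⟨⟨by omega, by omega⟩, hx⟩
  set Fam : Finset (Finset (ℕ × ℕ)) := All.powerset.filter (fun F =>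
    ∀ x ∈ F, ∀ y ∈ F, x ≠ y → Nat.Coprime (x.1 * x.2) (y.1 * y.2)) with hFam
  have hne : Fam.Nonempty := ⟨∅, by rw [hFam, Finset.mem_filter]; simp⟩
  obtain ⟨F, hFmem, hFmax⟩ := Finset.exists_max_image Fam Finset.card hne
  rw [hFam, Finset.mem_filter, Finset.mem_powerset] at hFmem
  have hFrel : ∀ x ∈ F, Rel K B x := by
    intro x hx
    have := hFmem.1 hx
    rw [hAll, Finset.mem_filter] at this
    exact this.2
  have hFcard := family_small K B ρ hρ hB F hFrel hFmem.2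
  set Q := F.biUnion (fun x => (x.1 * x.2).primeFactors) with hQ
  refine ⟨Q, ?_, ?_, ?_⟩
  · intro p hp
    rw [hQ, Finset.mem_biUnion] at hp
    obtain ⟨x, _, hpx⟩ := hp
    exact Nat.prime_of_mem_primeFactors hpx
  · have h1 : Q.card ≤ ∑ x ∈ F, (x.1 * x.2).primeFactors.card := Finset.card_biUnion_le
    calc 2 ^ Q.card ≤ 2 ^ (∑ x ∈ F, (x.1 * x.2).primeFactors.card) :=
          Nat.pow_le_pow_right (by norm_num) h1
      _ = ∏ x ∈ F, 2 ^ (x.1 * x.2).primeFactors.card := by rw [Finset.prod_pow_eq_pow_sum]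
      _ ≤ ∏ _x ∈ F, B := Finset.prod_le_prod' (fun x hx => by
          have h := hFrel x hx
          have h2 := two_pow_card_primeFactors_le (x.1 * x.2) (by have := h.2.2.2.1; omega)
          have h3 := h.2.2.2.2.1
          omega)
      _ = B ^ F.card := by rw [Finset.prod_const]
      _ ≤ B ^ ρ := Nat.pow_le_pow_right hB1 hFcard.le
  · intro x hx
    by_contra hcon
    push Not at hcon
    have hxco : ∀ y ∈ F, Nat.Coprime (x.1 * x.2) (y.1 * y.2) := by
      intro y hy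
      rw [Nat.coprime_iff_gcd_eq_one]
      by_contra hg
      obtain ⟨p, hp, hpd⟩ := Nat.exists_prime_and_dvd hg
      have h1 := hpd.trans (Nat.gcd_dvd_left _ _)
      have h2 := hpd.trans (Nat.gcd_dvd_right _ _)
      refine hcon p ?_ h1
      rw [hQ, Finset.mem_biUnion]
      refine ⟨y, hy, ?_⟩
      rw [Nat.mem_primeFactors]
      exact ⟨hp, h2, by have := (hFrel y hy).2.2.2.1; omega⟩
    have hxF : x ∉ F := by
      intro h
      have h1 := hxco x h
      rw [Nat.coprime_self] at h1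
      have := hx.2.2.2.1
      omega
    have hins : insert x F ∈ Fam := by
      rw [hFam, Finset.mem_filter, Finset.mem_powerset]
      refine ⟨Finset.insert_subset (hmemAll x hx) hFmem.1, ?_⟩
      intro a ha b hb hab
      rw [Finset.mem_insert] at ha hb
      rcases ha with rfl | ha
      · rcases hb with rfl | hb
        · exact absurd rfl hab
        · exact hxco b hb
      · rcases hb with rfl | hb
        · exact (hxco a ha).symm
        · exact hFmem.2 a ha b hb hab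
    have := hFmax _ hins
    rw [Finset.card_insert_of_notMem hxF] at this
    omega

end Pool.Agent.H.MP_3e6494_nt.Greedy
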