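import Mathlib

open Finset

set_option linter.unusedSectionVars false

namespace Pool.Agent.H.MP_3e6494_nt.LocalProd

lemma pair_prod (P : Finset ℕ) (w : ℕ → Bool → Bool → ℝ) :
    ∑ A ∈ P.powerset, ∑ B ∈ P.powerset, ∏ p ∈ P, w p (decide (p ∈ A)) (decide (p ∈ B))
      = ∏ p ∈ P, (w p true true + w p true false + w p false true + w p false false) := by
  induction P using Finset.induction_on with
  | empty => simp
  | insert a P ha ih =>
    have h1 : ∀ A ∈ P.powerset, a ∉ A := fun A hA h => ha (Finset.mem_powerset.1 hA h)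
    have hpr : ∀ (A B A' B' : Finset ℕ), (∀ p ∈ P, (p ∈ A' ↔ p ∈ A)) → (∀ p ∈ P, (p ∈ B' ↔ p ∈ B)) →
        ∏ p ∈ P, w p (decide (p ∈ A')) (decide (p ∈ B')) = ∏ p ∈ P, w p (decide (p ∈ A)) (decide (p ∈ B)) := by
      intro A B A' B' hA hB
      apply Finset.prod_congr rfl
      intro p hp
      rw [decide_eq_decide.2 (hA p hp), decide_eq_decide.2 (hB p hp)]
    have hins : ∀ (A : Finset ℕ), ∀ p ∈ P, (p ∈ insert a A ↔ p ∈ A) := by
      intro A p hp
      rw [Finset.mem_insert]
      constructor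
      · rintro (h | h)
        · exact absurd (h ▸ hp) ha
        · exact h
      · exact Or.inr
    set G := ∑ A ∈ P.powerset, ∑ B ∈ P.powerset, ∏ p ∈ P, w p (decide (p ∈ A)) (decide (p ∈ B))
      with hG
    rw [Finset.prod_insert ha, ← ih, Finset.sum_powerset_insert ha]
    simp_rw [Finset.sum_powerset_insert ha, Finset.prod_insert ha]
    have e1 : ∑ A ∈ P.powerset, (∑ B ∈ P.powerset, w a (decide (a ∈ A)) (decide (a ∈ B)) *
          ∏ p ∈ P, w p (decide (p ∈ A)) (decide (p ∈ B)) +
        ∑ B ∈ P.powerset, w a (decide (a ∈ A)) (decide (a ∈ insert a B)) *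
          ∏ p ∈ P, w p (decide (p ∈ A)) (decide (p ∈ insert a B)))
        = w a false false * G + w a false true * G := by
      rw [Finset.sum_add_distrib, hG, Finset.mul_sum, Finset.mul_sum]
      congr 1
      · apply Finset.sum_congr rfl; intro A hA
        rw [Finset.mul_sum]
        apply Finset.sum_congr rfl; intro B hB
        rw [decide_eq_false (h1 A hA), decide_eq_false (h1 B hB)]
      · apply Finset.sum_congr rfl; intro A hA
        rw [Finset.mul_sum]
        apply Finset.sum_congr rfl; intro B hB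
        rw [decide_eq_false (h1 A hA), decide_eq_true (Finset.mem_insert_self a B),
          hpr A B A (insert a B) (fun _ _ => Iff.rfl) (hins B)]
    have e2 : ∑ A ∈ P.powerset, (∑ B ∈ P.powerset, w a (decide (a ∈ insert a A)) (decide (a ∈ B)) *
          ∏ p ∈ P, w p (decide (p ∈ insert a A)) (decide (p ∈ B)) +
        ∑ B ∈ P.powerset, w a (decide (a ∈ insert a A)) (decide (a ∈ insert a B)) *
          ∏ p ∈ P, w p (decide (p ∈ insert a A)) (decide (p ∈ insert a B)))
        = w a true false * G + w a true true * G := by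
      rw [Finset.sum_add_distrib, hG, Finset.mul_sum, Finset.mul_sum]
      congr 1
      · apply Finset.sum_congr rfl; intro A hA
        rw [Finset.mul_sum]
        apply Finset.sum_congr rfl; intro B hB
        rw [decide_eq_true (Finset.mem_insert_self a A), decide_eq_false (h1 B hB),
          hpr A B (insert a A) B (hins A) (fun _ _ => Iff.rfl)]
      · apply Finset.sum_congr rfl; intro A hA
        rw [Finset.mul_sum]
        apply Finset.sum_congr rfl; intro B hB
        rw [decide_eq_true (Finset.mem_insert_self a A), decide_eq_true (Finset.mem_insert_self a B),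
          hpr A B (insert a A) (insert a B) (hins A) (hins B)]
    rw [e1, e2]
    ring

variable (P : Finset ℕ) (f : ℕ → ℝ)

noncomputable def fS (S : Finset ℕ) : ℝ := ∏ p ∈ S, f p

def pr (S : Finset ℕ) : ℕ := ∏ p ∈ S, p

noncomputable def Main : ℝ := ∏ p ∈ P, (1 + f p ^ 2 + f p / Real.sqrt p)

noncomputable def Fin : ℝ := ∏ p ∈ P, (1 + f p ^ 2)

variable {P f}

lemma fS_nonneg (hf : ∀ p ∈ P, 0 ≤ f p) {S : Finset ℕ} (hS : S ⊆ P) : 0 ≤ fS f S :=
  Finset.prod_nonneg fun p hp => hf p (hS hp)

lemma sqrt_pr (S : Finset ℕ) : Real.sqrt (pr S) = ∏ p ∈ S, Real.sqrt p := by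
  unfold pr
  push_cast
  induction S using Finset.induction_on with
  | empty => simp
  | insert a S ha ih =>
    rw [Finset.prod_insert ha, Finset.prod_insert ha, Real.sqrt_mul (by positivity), ih]

lemma pr_pos (hP : ∀ p ∈ P, p.Prime) {S : Finset ℕ} (hS : S ⊆ P) : 0 < pr S :=
  Finset.prod_pos fun p hp => (hP p (hS hp)).pos

lemma prime_dvd_pr (hP : ∀ p ∈ P, p.Prime) {S : Finset ℕ} (hS : S ⊆ P) {p : ℕ} (hp : p.Prime) :
    p ∣ pr S ↔ p ∈ S := by
  constructor
  · intro h
    obtain ⟨r, hr, hpr⟩ := (Prime.dvd_finsetProd_iff hp.prime _).1 h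
    have := (Nat.prime_dvd_prime_iff_eq hp (hP r (hS hr))).1 hpr
    rw [this]; exact hr
  · intro h; exact Finset.dvd_prod_of_mem (fun p : ℕ => p) h

lemma pr_squarefree (hP : ∀ p ∈ P, p.Prime) {S : Finset ℕ} (hS : S ⊆ P) : Squarefree (pr S) := by
  have hS' : ∀ p ∈ S, p.Prime := fun p hp => hP p (hS hp)
  unfold pr
  induction S using Finset.induction_on with
  | empty => simp
  | insert a S ha ih =>
    rw [Finset.prod_insert ha]
    have h1 : S ⊆ P := (Finset.subset_insert a S).trans hS
    have h2 : ∀ p ∈ S, p.Prime := fun p hp => hS' p (Finset.mem_insert_of_mem hp)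
    rw [Nat.squarefree_mul_iff]
    refine ⟨?_, (hS' a (Finset.mem_insert_self _ _)).squarefree, ih h1 h2⟩
    apply Nat.Coprime.prod_right
    intro p hp
    rw [Nat.coprime_primes (hS' a (Finset.mem_insert_self _ _)) (h2 p hp)]
    rintro rfl
    exact ha hp

lemma primeFactors_pr (hP : ∀ p ∈ P, p.Prime) {S : Finset ℕ} (hS : S ⊆ P) :
    (pr S).primeFactors = S := Nat.primeFactors_prod fun p hp => hP p (hS hp)

/-- a divisor of a squarefree product of primes of `P` is such a product -/
lemma dvd_pr (hP : ∀ p ∈ P, p.Prime) {S : Finset ℕ} (hS : S ⊆ P) {v : ℕ} (hv : v ∣ pr S) :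
    v.primeFactors ⊆ S ∧ pr v.primeFactors = v := by
  constructor
  · intro p hp
    have h1 := Nat.dvd_of_mem_primeFactors hp
    exact (prime_dvd_pr hP hS (Nat.prime_of_mem_primeFactors hp)).1 (h1.trans hv)
  · unfold pr
    exact Nat.prod_primeFactors_of_squarefree ((pr_squarefree hP hS).squarefree_of_dvd hv)

/-- local conditions satisfied by a solution of `pr A * v ∣ pr B * u` -/
lemma local_cond (hP : ∀ p ∈ P, p.Prime) {A B : Finset ℕ} (hA : A ⊆ P) (hB : B ⊆ P) {u v : ℕ}
    (hcop : Nat.Coprime u v) (h : pr A * v ∣ pr B * u) :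
    v ∣ pr B ∧ (∀ p ∈ P, p ∣ v → p ∈ B ∧ p ∉ A) ∧ (∀ p ∈ P, ¬ p ∣ v → ¬ p ∣ u → p ∈ A → p ∈ B) := by
  have hvB : v ∣ pr B := by
    have h1 : v ∣ pr B * u := (Dvd.intro_left _ rfl).trans h
    exact hcop.symm.dvd_of_dvd_mul_right h1
  refine ⟨hvB, ?_, ?_⟩
  · intro p hp hpv
    have hpB : p ∈ B := (prime_dvd_pr hP hB (hP p hp)).1 (hpv.trans hvB)
    refine ⟨hpB, fun hpA => ?_⟩
    have hpu : ¬ p ∣ u := by
      intro hpu
      have := Nat.dvd_gcd hpu hpv
      rw [hcop] at this
      exact (hP p hp).one_lt.ne' (Nat.dvd_one.1 this)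
    have h2 : p * p ∣ pr B * u :=
      (Nat.mul_dvd_mul ((prime_dvd_pr hP hA (hP p hp)).2 hpA) hpv).trans h
    have h3 : Nat.Coprime (p * p) u := by
      have : Nat.Coprime p u := (Nat.Prime.coprime_iff_not_dvd (hP p hp)).2 hpu
      exact Nat.Coprime.mul_left this this
    have h4 : p * p ∣ pr B := h3.dvd_of_dvd_mul_right h2
    have h5 := (pr_squarefree hP hB) p h4
    exact (hP p hp).one_lt.ne' (Nat.isUnit_iff.1 h5)
  · intro p hp hpv hpu hpA
    have h1 : p ∣ pr B * u :=
      (((prime_dvd_pr hP hA (hP p hp)).2 hpA).mul_right v).trans h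
    rcases (hP p hp).dvd_mul.1 h1 with h2 | h2
    · exact (prime_dvd_pr hP hB (hP p hp)).1 h2
    · exact absurd h2 hpu

lemma prod_ite_subset {S : Finset ℕ} (hS : S ⊆ P) (g : ℕ → ℝ) :
    ∏ p ∈ P, (if p ∈ S then g p else 1) = ∏ p ∈ S, g p := by
  rw [Finset.prod_ite_mem, Finset.inter_eq_right.2 hS]

/-- the sum over all solutions of `m * pr A * v = pr B * u` -/
theorem T_bound (hP : ∀ p ∈ P, p.Prime) (hf : ∀ p ∈ P, 0 ≤ f p)
    (hf1 : ∀ p ∈ P, f p ≤ 1 / Real.sqrt (Real.sqrt p))
    (hf2 : ∀ p ∈ P, (1 + f p * Real.sqrt p) * (1 + f p / Real.sqrt p) ≤ Real.sqrt (Real.sqrt p))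
    (u v : ℕ) (hu : 0 < u) (hv : 0 < v) (hcop : Nat.Coprime u v) :
    ∑ A ∈ P.powerset, ∑ B ∈ P.powerset, (if pr A * v ∣ pr B * u then
        1 / Real.sqrt ((pr B * u / (pr A * v) : ℕ) : ℝ) * fS f A * fS f B else 0)
      ≤ 1 / Real.sqrt (Real.sqrt ((u * v : ℕ) : ℝ)) * Main P f := by
  classical
  have hMain0 : 0 ≤ Main P f := Finset.prod_nonneg fun p hp => by
    have := hf p hp; positivity
  have hu' : (0 : ℝ) < u := by exact_mod_cast hu
  have hv' : (0 : ℝ) < v := by exact_mod_cast hv
  by_cases hex : ∃ A ∈ P.powerset, ∃ B ∈ P.powerset, pr A * v ∣ pr B * u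
  swap
  · push Not at hex
    rw [Finset.sum_eq_zero (fun A hA => Finset.sum_eq_zero (fun B hB => by
      rw [if_neg (hex A hA B hB)]))]
    positivity
  obtain ⟨A0, hA0, B0, hB0, hdvd0⟩ := hex
  rw [Finset.mem_powerset] at hA0 hB0
  have hvB0 := (local_cond hP hA0 hB0 hcop hdvd0).1
  obtain ⟨hvP0, hvpr⟩ := dvd_pr hP hB0 hvB0
  have hvP : v.primeFactors ⊆ P := hvP0.trans hB0
  have hmemv : ∀ p ∈ P, (p ∈ v.primeFactors ↔ p ∣ v) := by
    intro p hp
    rw [Nat.mem_primeFactors]
    exact ⟨fun h => h.2.1, fun h => ⟨hP p hp, h, hv.ne'⟩⟩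
  set w : ℕ → Bool → Bool → ℝ := fun p α β =>
    if p ∣ v then (if β = true ∧ α = false then f p else 0)
    else if p ∣ u then (if α then f p * Real.sqrt p else 1) * (if β then f p / Real.sqrt p else 1)
    else (if α then (if β then f p ^ 2 else 0) else (if β then f p / Real.sqrt p else 1)) with hw
  have hw0 : ∀ p ∈ P, ∀ α β, 0 ≤ w p α β := by
    intro p hp α β
    have := hf p hp
    rw [hw]
    simp only
    split_ifs <;> positivity
  have hterm : ∀ A ∈ P.powerset, ∀ B ∈ P.powerset, (if pr A * v ∣ pr B * u then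
        1 / Real.sqrt ((pr B * u / (pr A * v) : ℕ) : ℝ) * fS f A * fS f B else 0)
        ≤ (1 / Real.sqrt u) * ∏ p ∈ P, w p (decide (p ∈ A)) (decide (p ∈ B)) := by
    intro A hA B hB
    rw [Finset.mem_powerset] at hA hB
    split_ifs with hdvd
    swap
    · exact mul_nonneg (by positivity) (Finset.prod_nonneg fun p hp => hw0 p hp _ _)
    obtain ⟨hvB, hlv, hlo⟩ := local_cond hP hA hB hcop hdvd
    have hprA : 0 < pr A := pr_pos hP hA
    have hprB : 0 < pr B := pr_pos hP hB
    have hprA' : (0 : ℝ) < pr A := by exact_mod_cast hprA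
    have hprB' : (0 : ℝ) < pr B := by exact_mod_cast hprB
    have hm : ((pr B * u / (pr A * v) : ℕ) : ℝ) = (pr B * u) / (pr A * v) := by
      rw [Nat.cast_div hdvd (by positivity)]
      push_cast
      ring
    rw [hm]
    have hprod : ∏ p ∈ P, w p (decide (p ∈ A)) (decide (p ∈ B))
        = (∏ p ∈ P, (if p ∈ A then f p * Real.sqrt p else 1)) *
          (∏ p ∈ P, (if p ∈ B then f p / Real.sqrt p else 1)) *
          ∏ p ∈ P, (if p ∈ v.primeFactors then Real.sqrt p else 1) := by
      rw [← Finset.prod_mul_distrib, ← Finset.prod_mul_distrib]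
      apply Finset.prod_congr rfl
      intro p hp
      have hsp : Real.sqrt (p : ℝ) ≠ 0 := by
        have : (0 : ℝ) < p := by exact_mod_cast (hP p hp).pos
        exact (Real.sqrt_pos.2 this).ne'
      rw [hw]
      simp only [hmemv p hp]
      by_cases hpv : p ∣ v
      · obtain ⟨h1, h2⟩ := hlv p hp hpv
        simp only [hpv, h1, h2, decide_true, decide_false, if_true, if_false, and_self]
        field_simp
      · by_cases hpu : p ∣ u
        · by_cases h1 : p ∈ A <;> by_cases h2 : p ∈ B <;> simp [hpv, hpu, h1, h2]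
        · by_cases h1 : p ∈ A
          · have h2 := hlo p hp hpv hpu h1
            simp only [hpv, hpu, h1, h2, decide_true, if_true, if_false]
            field_simp
          · by_cases h2 : p ∈ B <;> simp [hpv, hpu, h1, h2]
    rw [hprod, prod_ite_subset hA, prod_ite_subset hB, prod_ite_subset hvP,
      Finset.prod_mul_distrib, Finset.prod_div_distrib, ← sqrt_pr, ← sqrt_pr, ← sqrt_pr, hvpr]
    have e1 : Real.sqrt ((pr B : ℝ) * u / (pr A * v)) = Real.sqrt (pr B) * Real.sqrt u /
        (Real.sqrt (pr A) * Real.sqrt v) := by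
      rw [Real.sqrt_div (by positivity), Real.sqrt_mul (by positivity), Real.sqrt_mul (by positivity)]
    rw [e1]
    have n1 := (Real.sqrt_pos.2 hprA').ne'
    have n2 := (Real.sqrt_pos.2 hprB').ne'
    have n3 := (Real.sqrt_pos.2 hu').ne'
    have n4 := (Real.sqrt_pos.2 hv').ne'
    unfold fS
    apply le_of_eq
    field_simp
  have hsum : ∑ A ∈ P.powerset, ∑ B ∈ P.powerset, (if pr A * v ∣ pr B * u then
        1 / Real.sqrt ((pr B * u / (pr A * v) : ℕ) : ℝ) * fS f A * fS f B else 0)
      ≤ (1 / Real.sqrt u) * ∏ p ∈ P, (w p true true + w p true false + w p false true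
          + w p false false) := by
    rw [← pair_prod, Finset.mul_sum]
    apply Finset.sum_le_sum; intro A hA
    rw [Finset.mul_sum]
    apply Finset.sum_le_sum; intro B hB
    exact hterm A hA B hB
  refine hsum.trans ?_
  -- local comparison
  have hloc : ∏ p ∈ P, (w p true true + w p true false + w p false true + w p false false)
      ≤ (∏ p ∈ P, (1 + f p ^ 2 + f p / Real.sqrt p)) *
        ((∏ p ∈ P, (if p ∈ v.primeFactors then 1 / Real.sqrt (Real.sqrt p) else 1)) *
          ∏ p ∈ P, (if p ∈ u.primeFactors ∩ P then Real.sqrt (Real.sqrt p) else 1)) := by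
    rw [← Finset.prod_mul_distrib, ← Finset.prod_mul_distrib]
    apply Finset.prod_le_prod
    · intro p hp
      have := hw0 p hp
      have a1 := this true true; have a2 := this true false
      have a3 := this false true; have a4 := this false false
      linarith
    · intro p hp
      have hp0 : (0 : ℝ) < p := by exact_mod_cast (hP p hp).pos
      have hfp := hf p hp
      have hmu : p ∈ u.primeFactors ∩ P ↔ p ∣ u := by
        rw [Finset.mem_inter, Nat.mem_primeFactors]
        exact ⟨fun h => h.1.2.1, fun h => ⟨⟨hP p hp, h, hu.ne'⟩, hp⟩⟩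
      have hM1 : 1 ≤ 1 + f p ^ 2 + f p / Real.sqrt p := by
        have : 0 ≤ f p ^ 2 := sq_nonneg _
        have : 0 ≤ f p / Real.sqrt p := by positivity
        linarith
      rw [hw]
      simp only [hmemv p hp, hmu]
      by_cases hpv : p ∣ v
      · have hpu : ¬ p ∣ u := by
          intro hpu
          have := Nat.dvd_gcd hpu hpv
          rw [hcop] at this
          exact (hP p hp).one_lt.ne' (Nat.dvd_one.1 this)
        simp only [hpv, hpu, if_true, if_false]
        norm_num
        have h1 := hf1 p hp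
        have h2 : 0 ≤ 1 / Real.sqrt (Real.sqrt p) := by positivity
        rw [one_div] at h1 h2
        nlinarith
      · by_cases hpu : p ∣ u
        · simp only [hpv, hpu, if_true, if_false]
          norm_num
          have h1 := hf2 p hp
          have h2 : 0 ≤ Real.sqrt (Real.sqrt p) := Real.sqrt_nonneg _
          have h3 : f p * Real.sqrt p * (f p / Real.sqrt p) + f p * Real.sqrt p + f p / Real.sqrt p + 1
              = (1 + f p * Real.sqrt p) * (1 + f p / Real.sqrt p) := by ring
          rw [h3]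
          nlinarith
        · simp only [hpv, hpu, if_true, if_false]
          norm_num
          linarith
  have hfac : (∏ p ∈ P, (if p ∈ v.primeFactors then 1 / Real.sqrt (Real.sqrt p) else 1)) *
          ∏ p ∈ P, (if p ∈ u.primeFactors ∩ P then Real.sqrt (Real.sqrt p) else 1)
      ≤ 1 / Real.sqrt (Real.sqrt v) * Real.sqrt (Real.sqrt u) := by
    have hss : ∀ S : Finset ℕ, ∏ p ∈ S, Real.sqrt (Real.sqrt (p : ℝ)) = Real.sqrt (Real.sqrt (pr S)) := by
      intro S
      induction S using Finset.induction_on with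
      | empty => simp [pr]
      | insert a S ha ih =>
        rw [Finset.prod_insert ha, ih]
        unfold pr
        rw [Finset.prod_insert ha]
        push_cast
        rw [Real.sqrt_mul (by positivity), Real.sqrt_mul (by positivity)]
    rw [prod_ite_subset hvP, prod_ite_subset Finset.inter_subset_right, Finset.prod_div_distrib,
      Finset.prod_const_one, hss, hss, hvpr]
    apply mul_le_mul_of_nonneg_left _ (by positivity)
    apply Real.sqrt_le_sqrt
    apply Real.sqrt_le_sqrt
    have h1 : pr (u.primeFactors ∩ P) ≤ u := by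
      apply Nat.le_of_dvd hu
      refine dvd_trans ?_ (Nat.prod_primeFactors_dvd u)
      exact Finset.prod_dvd_prod_of_subset _ _ _ Finset.inter_subset_left
    exact_mod_cast h1
  have hsu : 0 < Real.sqrt (Real.sqrt (u : ℝ)) := Real.sqrt_pos.2 (Real.sqrt_pos.2 hu')
  have hsv : 0 < Real.sqrt (Real.sqrt (v : ℝ)) := Real.sqrt_pos.2 (Real.sqrt_pos.2 hv')
  calc (1 / Real.sqrt u) * ∏ p ∈ P, (w p true true + w p true false + w p false true
          + w p false false)
      ≤ (1 / Real.sqrt u) * (Main P f * (1 / Real.sqrt (Real.sqrt v) * Real.sqrt (Real.sqrt u))) := by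
        apply mul_le_mul_of_nonneg_left _ (by positivity)
        exact hloc.trans (mul_le_mul_of_nonneg_left hfac hMain0)
    _ = 1 / Real.sqrt (Real.sqrt ((u * v : ℕ) : ℝ)) * Main P f := by
        push_cast
        rw [Real.sqrt_mul (by positivity), Real.sqrt_mul (by positivity)]
        have e : Real.sqrt (u : ℝ) = Real.sqrt (Real.sqrt u) * Real.sqrt (Real.sqrt u) :=
          (Real.mul_self_sqrt (Real.sqrt_nonneg _)).symm
        have e' : (1 : ℝ) / Real.sqrt u = 1 / (Real.sqrt (Real.sqrt u) * Real.sqrt (Real.sqrt u)) := by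
          rw [← e]
        rw [e']
        field_simp

/-- the sum over all solutions of `pr A * v = pr B * u` -/
theorem T0_bound (hP : ∀ p ∈ P, p.Prime) (hf : ∀ p ∈ P, 0 ≤ f p)
    (hf1 : ∀ p ∈ P, f p ≤ 1 / Real.sqrt (Real.sqrt p))
    (u v : ℕ) (hu : 0 < u) (hv : 0 < v) (hcop : Nat.Coprime u v) :
    ∑ A ∈ P.powerset, ∑ B ∈ P.powerset, (if pr A * v = pr B * u then fS f A * fS f B else 0)
      ≤ 1 / Real.sqrt (Real.sqrt ((u * v : ℕ) : ℝ)) * Fin P f := by
  classical
  have hFin0 : 0 ≤ Fin P f := Finset.prod_nonneg fun p hp => by positivity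
  have hu' : (0 : ℝ) < u := by exact_mod_cast hu
  have hv' : (0 : ℝ) < v := by exact_mod_cast hv
  by_cases hex : ∃ A ∈ P.powerset, ∃ B ∈ P.powerset, pr A * v = pr B * u
  swap
  · push Not at hex
    rw [Finset.sum_eq_zero (fun A hA => Finset.sum_eq_zero (fun B hB => by
      rw [if_neg (hex A hA B hB)]))]
    positivity
  obtain ⟨A0, hA0, B0, hB0, heq0⟩ := hex
  rw [Finset.mem_powerset] at hA0 hB0
  have hvB0 : v ∣ pr B0 := hcop.symm.dvd_of_dvd_mul_right ((Dvd.intro_left _ rfl).trans heq0.dvd)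
  have huA0 : u ∣ pr A0 := hcop.dvd_of_dvd_mul_right ((Dvd.intro_left _ rfl).trans heq0.symm.dvd)
  obtain ⟨hvP0, hvpr⟩ := dvd_pr hP hB0 hvB0
  obtain ⟨huP0, hupr⟩ := dvd_pr hP hA0 huA0
  have hvP : v.primeFactors ⊆ P := hvP0.trans hB0
  have huP : u.primeFactors ⊆ P := huP0.trans hA0
  have hmemv : ∀ p ∈ P, (p ∈ v.primeFactors ↔ p ∣ v) := by
    intro p hp
    rw [Nat.mem_primeFactors]
    exact ⟨fun h => h.2.1, fun h => ⟨hP p hp, h, hv.ne'⟩⟩
  have hmemu : ∀ p ∈ P, (p ∈ u.primeFactors ↔ p ∣ u) := by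
    intro p hp
    rw [Nat.mem_primeFactors]
    exact ⟨fun h => h.2.1, fun h => ⟨hP p hp, h, hu.ne'⟩⟩
  have hnot : ∀ p ∈ P, p ∣ v → ¬ p ∣ u := by
    intro p hp hpv hpu
    have := Nat.dvd_gcd hpu hpv
    rw [hcop] at this
    exact (hP p hp).one_lt.ne' (Nat.dvd_one.1 this)
  set w : ℕ → Bool → Bool → ℝ := fun p α β =>
    if p ∣ v then (if β = true ∧ α = false then f p else 0)
    else if p ∣ u then (if α = true ∧ β = false then f p else 0)
    else (if α = β then (if α then f p ^ 2 else 1) else 0) with hw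
  have hw0 : ∀ p ∈ P, ∀ α β, 0 ≤ w p α β := by
    intro p hp α β
    have := hf p hp
    rw [hw]
    simp only
    split_ifs <;> positivity
  have hterm : ∀ A ∈ P.powerset, ∀ B ∈ P.powerset, (if pr A * v = pr B * u then
        fS f A * fS f B else 0)
        ≤ ∏ p ∈ P, w p (decide (p ∈ A)) (decide (p ∈ B)) := by
    intro A hA B hB
    rw [Finset.mem_powerset] at hA hB
    split_ifs with heq
    swap
    · exact Finset.prod_nonneg fun p hp => hw0 p hp _ _
    obtain ⟨hvB, hlv, hlo⟩ := local_cond hP hA hB hcop heq.dvd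
    obtain ⟨huA, hlu, hlo'⟩ := local_cond hP hB hA hcop.symm heq.symm.dvd
    have hprod : ∏ p ∈ P, w p (decide (p ∈ A)) (decide (p ∈ B))
        = (∏ p ∈ P, (if p ∈ A then f p else 1)) *
          (∏ p ∈ P, (if p ∈ B then f p else 1)) := by
      rw [← Finset.prod_mul_distrib]
      apply Finset.prod_congr rfl
      intro p hp
      rw [hw]
      simp only
      by_cases hpv : p ∣ v
      · obtain ⟨h1, h2⟩ := hlv p hp hpv
        simp [hpv, h1, h2]
      · by_cases hpu : p ∣ u
        · obtain ⟨h1, h2⟩ := hlu p hp hpu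
          simp [hpv, hpu, h1, h2]
        · by_cases h1 : p ∈ A
          · have h2 := hlo p hp hpv hpu h1
            simp [hpv, hpu, h1, h2, sq]
          · have h2 : p ∉ B := fun h => h1 (hlo' p hp hpu hpv h)
            simp [hpv, hpu, h1, h2]
    rw [hprod, prod_ite_subset hA, prod_ite_subset hB]
    exact le_rfl
  have hsum : ∑ A ∈ P.powerset, ∑ B ∈ P.powerset, (if pr A * v = pr B * u then
        fS f A * fS f B else 0)
      ≤ ∏ p ∈ P, (w p true true + w p true false + w p false true
          + w p false false) := by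
    rw [← pair_prod]
    apply Finset.sum_le_sum; intro A hA
    apply Finset.sum_le_sum; intro B hB
    exact hterm A hA B hB
  refine hsum.trans ?_
  have hloc : ∏ p ∈ P, (w p true true + w p true false + w p false true + w p false false)
      ≤ (∏ p ∈ P, (1 + f p ^ 2)) *
        ((∏ p ∈ P, (if p ∈ v.primeFactors then 1 / Real.sqrt (Real.sqrt p) else 1)) *
          ∏ p ∈ P, (if p ∈ u.primeFactors then 1 / Real.sqrt (Real.sqrt p) else 1)) := by
    rw [← Finset.prod_mul_distrib, ← Finset.prod_mul_distrib]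
    apply Finset.prod_le_prod
    · intro p hp
      have := hw0 p hp
      have a1 := this true true; have a2 := this true false
      have a3 := this false true; have a4 := this false false
      linarith
    · intro p hp
      have hp0 : (0 : ℝ) < p := by exact_mod_cast (hP p hp).pos
      have hfp := hf p hp
      have h1 := hf1 p hp
      have h2 : 0 ≤ 1 / Real.sqrt (Real.sqrt p) := by positivity
      have h3 : 0 ≤ f p ^ 2 := sq_nonneg _
      rw [one_div] at h1 h2
      rw [hw]
      simp only [hmemv p hp, hmemu p hp]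
      by_cases hpv : p ∣ v
      · have hpu := hnot p hp hpv
        simp only [hpv, hpu, if_true, if_false]
        norm_num
        nlinarith
      · by_cases hpu : p ∣ u
        · simp only [hpv, hpu, if_true, if_false]
          norm_num
          nlinarith
        · simp only [hpv, hpu, if_true, if_false]
          norm_num
          linarith
  have hss : ∀ S : Finset ℕ, ∏ p ∈ S, Real.sqrt (Real.sqrt (p : ℝ)) = Real.sqrt (Real.sqrt (pr S)) := by
    intro S
    induction S using Finset.induction_on with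
    | empty => simp [pr]
    | insert a S ha ih =>
      rw [Finset.prod_insert ha, ih]
      unfold pr
      rw [Finset.prod_insert ha]
      push_cast
      rw [Real.sqrt_mul (by positivity), Real.sqrt_mul (by positivity)]
  refine hloc.trans ?_
  rw [prod_ite_subset hvP, prod_ite_subset huP, Finset.prod_div_distrib, Finset.prod_div_distrib,
    Finset.prod_const_one, Finset.prod_const_one, hss, hss, hvpr, hupr]
  apply le_of_eq
  unfold Fin
  push_cast
  rw [Real.sqrt_mul (by positivity), Real.sqrt_mul (by positivity)]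
  field_simp

lemma sum_sq_eq : ∑ A ∈ P.powerset, fS f A ^ 2 = Fin P f := by
  unfold Fin fS
  rw [Finset.prod_one_add]
  apply Finset.sum_congr rfl
  intro A _
  rw [Finset.prod_pow]

lemma one_le_Fin : 1 ≤ Fin P f := by
  unfold Fin
  calc (1 : ℝ) = ∏ _p ∈ P, (1 : ℝ) := by rw [Finset.prod_const_one]
    _ ≤ ∏ p ∈ P, (1 + f p ^ 2) :=
      Finset.prod_le_prod (fun _ _ => by norm_num) (fun p _ => by linarith [sq_nonneg (f p)])

lemma Fin_le_Main (hf : ∀ p ∈ P, 0 ≤ f p) : Fin P f ≤ Main P f := by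
  unfold Fin Main
  apply Finset.prod_le_prod
  · intro p _; positivity
  · intro p hp
    have := hf p hp
    have : 0 ≤ f p / Real.sqrt p := by positivity
    linarith

/-- main term, truncated by Rankin's trick -/
theorem main_trunc (hP : ∀ p ∈ P, p.Prime) (hf : ∀ p ∈ P, 0 ≤ f p) (N : ℕ) (hN : 0 < N)
    (α : ℝ) (hα : 0 ≤ α)
    (hR : ∏ p ∈ P, (1 + (p : ℝ) ^ α * (f p ^ 2 + f p / Real.sqrt p)) ≤ (N : ℝ) ^ α * (Main P f / 2)) :
    Main P f / 2 ≤ ∑ A ∈ P.powerset, ∑ B ∈ P.powerset, (if A ⊆ B ∧ pr B ≤ N then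
        1 / Real.sqrt ((pr B / pr A : ℕ) : ℝ) * fS f A * fS f B else 0) := by
  classical
  -- the weight of a pair
  set w0 : ℕ → Bool → Bool → ℝ := fun p α β =>
    if α then (if β then f p ^ 2 else 0) else (if β then f p / Real.sqrt p else 1) with hw0
  have hw : ∀ A ∈ P.powerset, ∀ B ∈ P.powerset, ∏ p ∈ P, w0 p (decide (p ∈ A)) (decide (p ∈ B))
      = if A ⊆ B then 1 / Real.sqrt ((pr B / pr A : ℕ) : ℝ) * fS f A * fS f B else 0 := by
    intro A hA B hB
    rw [Finset.mem_powerset] at hA hB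
    split_ifs with hAB
    · have hprA : 0 < pr A := pr_pos hP hA
      have hprA' : (0 : ℝ) < pr A := by exact_mod_cast hprA
      have hprB' : (0 : ℝ) < pr B := by exact_mod_cast pr_pos hP hB
      have hdvd : pr A ∣ pr B := Finset.prod_dvd_prod_of_subset _ _ _ hAB
      have hprod : ∏ p ∈ P, w0 p (decide (p ∈ A)) (decide (p ∈ B))
        = (∏ p ∈ P, (if p ∈ A then f p * Real.sqrt p else 1)) *
          (∏ p ∈ P, (if p ∈ B then f p / Real.sqrt p else 1)) := by
        rw [← Finset.prod_mul_distrib]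
        apply Finset.prod_congr rfl
        intro p hp
        have hsp : Real.sqrt (p : ℝ) ≠ 0 := by
          have : (0 : ℝ) < p := by exact_mod_cast (hP p hp).pos
          exact (Real.sqrt_pos.2 this).ne'
        rw [hw0]
        by_cases h1 : p ∈ A
        · have h2 := hAB h1
          simp only [h1, h2, decide_true, if_true]
          field_simp
        · by_cases h2 : p ∈ B <;> simp [h1, h2]
      rw [hprod, prod_ite_subset hA, prod_ite_subset hB, Finset.prod_mul_distrib,
        Finset.prod_div_distrib, ← sqrt_pr, ← sqrt_pr, Nat.cast_div hdvd hprA'.ne',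
        Real.sqrt_div (by positivity)]
      have n1 := (Real.sqrt_pos.2 hprA').ne'
      have n2 := (Real.sqrt_pos.2 hprB').ne'
      unfold fS
      field_simp
    · obtain ⟨p, hpA, hpB⟩ := Finset.not_subset.1 hAB
      apply Finset.prod_eq_zero (hA hpA)
      rw [hw0]
      simp [hpA, hpB]
  have hfull : ∑ A ∈ P.powerset, ∑ B ∈ P.powerset,
      ∏ p ∈ P, w0 p (decide (p ∈ A)) (decide (p ∈ B)) = Main P f := by
    rw [pair_prod]
    unfold Main
    apply Finset.prod_congr rfl; intro p _
    rw [hw0]; simp; ring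
  -- the tail
  set w1 : ℕ → Bool → Bool → ℝ := fun p α' β =>
    (if β then (p : ℝ) ^ α else 1) * w0 p α' β with hw1
  have hfull1 : ∑ A ∈ P.powerset, ∑ B ∈ P.powerset,
      ∏ p ∈ P, w1 p (decide (p ∈ A)) (decide (p ∈ B))
      = ∏ p ∈ P, (1 + (p : ℝ) ^ α * (f p ^ 2 + f p / Real.sqrt p)) := by
    rw [pair_prod]
    apply Finset.prod_congr rfl; intro p _
    rw [hw1, hw0]; simp; ring
  have hw1eq : ∀ A ∈ P.powerset, ∀ B ∈ P.powerset, ∏ p ∈ P, w1 p (decide (p ∈ A)) (decide (p ∈ B))
      = (pr B : ℝ) ^ α * ∏ p ∈ P, w0 p (decide (p ∈ A)) (decide (p ∈ B)) := by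
    intro A hA B hB
    rw [Finset.mem_powerset] at hA hB
    rw [hw1]
    simp only
    rw [Finset.prod_mul_distrib]
    congr 1
    have h1 : ∀ p ∈ P, (if decide (p ∈ B) = true then (p : ℝ) ^ α else 1)
        = if p ∈ B then (p : ℝ) ^ α else 1 := by
      intro p _; by_cases h : p ∈ B <;> simp [h]
    rw [Finset.prod_congr rfl h1, prod_ite_subset hB]
    unfold pr
    rw [Nat.cast_prod, Real.finsetProd_rpow _ _ (fun p _ => by positivity)]
  have hw0nn : ∀ A ∈ P.powerset, ∀ B ∈ P.powerset,
      0 ≤ ∏ p ∈ P, w0 p (decide (p ∈ A)) (decide (p ∈ B)) := by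
    intro A _ B _
    apply Finset.prod_nonneg
    intro p hp
    have := hf p hp
    rw [hw0]
    simp only
    split_ifs <;> positivity
  have hNα : (0 : ℝ) < (N : ℝ) ^ α := Real.rpow_pos_of_pos (by exact_mod_cast hN) _
  have hpt : ∀ A ∈ P.powerset, ∀ B ∈ P.powerset,
      ∏ p ∈ P, w0 p (decide (p ∈ A)) (decide (p ∈ B))
      ≤ (if A ⊆ B ∧ pr B ≤ N then
        1 / Real.sqrt ((pr B / pr A : ℕ) : ℝ) * fS f A * fS f B else 0)
        + (1 / (N : ℝ) ^ α) * ∏ p ∈ P, w1 p (decide (p ∈ A)) (decide (p ∈ B)) := by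
    intro A hA B hB
    have hnn := hw0nn A hA B hB
    rw [hw1eq A hA B hB]
    by_cases hle : pr B ≤ N
    · have h1 : (if A ⊆ B ∧ pr B ≤ N then
        1 / Real.sqrt ((pr B / pr A : ℕ) : ℝ) * fS f A * fS f B else 0)
          = ∏ p ∈ P, w0 p (decide (p ∈ A)) (decide (p ∈ B)) := by
        rw [hw A hA B hB]
        simp [hle]
      rw [h1]
      have : 0 ≤ (1 / (N : ℝ) ^ α) * ((pr B : ℝ) ^ α
          * ∏ p ∈ P, w0 p (decide (p ∈ A)) (decide (p ∈ B))) := by positivity
      linarith
    · have h1 : (if A ⊆ B ∧ pr B ≤ N then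
        1 / Real.sqrt ((pr B / pr A : ℕ) : ℝ) * fS f A * fS f B else 0) = 0 := by
        simp [hle]
      rw [h1, zero_add]
      have h2 : (N : ℝ) ^ α ≤ (pr B : ℝ) ^ α := by
        apply Real.rpow_le_rpow (by positivity) _ hα
        push Not at hle
        exact_mod_cast hle.le
      have h3 : 1 ≤ (1 / (N : ℝ) ^ α) * (pr B : ℝ) ^ α := by
        rw [one_div_mul_eq_div, le_div_iff₀ hNα, one_mul]; exact h2
      calc ∏ p ∈ P, w0 p (decide (p ∈ A)) (decide (p ∈ B))
          = 1 * ∏ p ∈ P, w0 p (decide (p ∈ A)) (decide (p ∈ B)) := (one_mul _).symm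
        _ ≤ ((1 / (N : ℝ) ^ α) * (pr B : ℝ) ^ α)
            * ∏ p ∈ P, w0 p (decide (p ∈ A)) (decide (p ∈ B)) :=
            mul_le_mul_of_nonneg_right h3 hnn
        _ = _ := by ring
  have htot := Finset.sum_le_sum fun A hA => Finset.sum_le_sum fun B hB => hpt A hA B hB
  rw [hfull] at htot
  simp_rw [Finset.sum_add_distrib, ← Finset.mul_sum] at htot
  rw [hfull1] at htot
  have h4 : (1 / (N : ℝ) ^ α) * ∏ p ∈ P, (1 + (p : ℝ) ^ α * (f p ^ 2 + f p / Real.sqrt p))
      ≤ Main P f / 2 := by
    rw [one_div_mul_eq_div, div_le_iff₀ hNα, mul_comm]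
    exact hR
  linarith

end Pool.Agent.H.MP_3e6494_nt.LocalProd
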