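import Mathlib
import Pool.Agent.H.MP_3e6494_nt.helper50.ApproxQ
import Pool.Agent.H.MP_3e6494_nt.helper50.Greedy
import Pool.Agent.H.MP_3e6494_nt.helper50.LocalProd

open Finset

set_option linter.unusedSectionVars false

namespace Pool.Agent.H.MP_3e6494_nt.Coset

open LocalProd

variable {q : ℕ} [hq : Fact q.Prime]

/-- the class of an integer in the unit group (`1` if not prime to the modulus) -/
noncomputable def un (q n : ℕ) : (ZMod q)ˣ :=
  if h : n.Coprime q then ZMod.unitOfCoprime n h else 1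

lemma un_val {n : ℕ} (h : n.Coprime q) : ((un q n : (ZMod q)ˣ) : ZMod q) = n := by
  unfold un
  rw [dif_pos h, ZMod.coe_unitOfCoprime]

/-- the family of subsets of `P` of bounded product -/
def Fam (P : Finset ℕ) (N : ℕ) : Finset (Finset ℕ) := P.powerset.filter (fun S => pr S ≤ N)

/-- the resonator -/
noncomputable def RR (P : Finset ℕ) (f : ℕ → ℝ) (N : ℕ) (χ : DirichletCharacter ℂ q) : ℂ :=
  ∑ S ∈ Fam P N, ((fS f S : ℝ) : ℂ) * χ ((pr S : ℕ) : ZMod q)

lemma mem_Fam {P : Finset ℕ} {N : ℕ} {S : Finset ℕ} : S ∈ Fam P N ↔ S ⊆ P ∧ pr S ≤ N := by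
  unfold Fam; rw [Finset.mem_filter, Finset.mem_powerset]

lemma pr_coprime {P : Finset ℕ} (hP : ∀ p ∈ P, p.Prime ∧ p < q) {S : Finset ℕ} (hS : S ⊆ P) :
    (pr S).Coprime q := by
  unfold pr
  apply Nat.Coprime.prod_left
  intro p hp
  have := hP p (hS hp)
  rw [Nat.coprime_primes this.1 hq.out]
  exact this.2.ne

lemma normSq_RR {P : Finset ℕ} (hP : ∀ p ∈ P, p.Prime ∧ p < q) (f : ℕ → ℝ) (N : ℕ)
    (ψ : DirichletCharacter ℂ q) :
    ((‖RR P f N ψ‖ ^ 2 : ℝ) : ℂ) = ∑ A ∈ Fam P N, ∑ B ∈ Fam P N,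
      ((fS f A * fS f B : ℝ) : ℂ) * ψ ((un q (pr A) * (un q (pr B))⁻¹ : (ZMod q)ˣ) : ZMod q) := by
  have h1 : ((‖RR P f N ψ‖ ^ 2 : ℝ) : ℂ) = RR P f N ψ * (starRingEnd ℂ) (RR P f N ψ) := by
    rw [Complex.mul_conj, Complex.normSq_eq_norm_sq]
  rw [h1]
  unfold RR
  rw [map_sum, Finset.sum_mul_sum]
  apply Finset.sum_congr rfl; intro A hA
  apply Finset.sum_congr rfl; intro B hB
  have hA' := pr_coprime hP (mem_Fam.1 hA).1
  have hB' := pr_coprime hP (mem_Fam.1 hB).1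
  rw [map_mul, Complex.conj_ofReal, ← un_val hA', ← un_val hB', Class.conj_char, Units.val_mul,
    map_mul]
  push_cast
  ring

open scoped Classical in
lemma sum_coset (H : Subgroup (DirichletCharacter ℂ q)) (χ₀ : DirichletCharacter ℂ q)
    (z : (ZMod q)ˣ) :
    ∑ χ ∈ Class.mem H, (χ₀ * χ) (z : ZMod q)
      = if z ∈ Class.K H then ((Class.mem H).card : ℂ) * χ₀ z else 0 := by
  simp_rw [MulChar.mul_apply]
  rw [← Finset.mul_sum, Class.sum_char]
  split_ifs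
  · ring
  · ring

/-- the index set of triples -/
noncomputable def Idx (q : ℕ) (P Q : Finset ℕ) (N X : ℕ) : Finset (ℕ × Finset ℕ × Finset ℕ) :=
  ((Finset.Icc 1 X).filter (fun m => (∀ p ∈ Q, ¬ p ∣ m) ∧ m.Coprime q)) ×ˢ (Fam P N ×ˢ Fam P N)

noncomputable def zt (q : ℕ) (t : ℕ × Finset ℕ × Finset ℕ) : (ZMod q)ˣ :=
  un q t.1 * (un q (pr t.2.1) * (un q (pr t.2.2))⁻¹)

noncomputable def wt (f : ℕ → ℝ) (t : ℕ × Finset ℕ × Finset ℕ) : ℝ :=
  1 / Real.sqrt t.1 * (fS f t.2.1 * fS f t.2.2)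

open scoped Classical in
/-- expansion of the twisted moment over a coset -/
lemma total_eq (H : Subgroup (DirichletCharacter ℂ q)) (χ₀ : DirichletCharacter ℂ q)
    {P : Finset ℕ} (hP : ∀ p ∈ P, p.Prime ∧ p < q) (Q : Finset ℕ) (f : ℕ → ℝ) (N X : ℕ) :
    ∑ χ ∈ Class.mem H, ApproxQ.DQ Q (χ₀ * χ) X * ((‖RR P f N (χ₀ * χ)‖ ^ 2 : ℝ) : ℂ)
      = ((Class.mem H).card : ℂ) * ∑ t ∈ (Idx q P Q N X).filter (fun t => zt q t ∈ Class.K H),
          ((wt f t : ℝ) : ℂ) * χ₀ (zt q t : (ZMod q)ˣ) := by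
  have h1 : ∀ χ ∈ Class.mem H,
      ApproxQ.DQ Q (χ₀ * χ) X * ((‖RR P f N (χ₀ * χ)‖ ^ 2 : ℝ) : ℂ)
      = ∑ t ∈ Idx q P Q N X, ((wt f t : ℝ) : ℂ) * (χ₀ * χ) (zt q t : (ZMod q)ˣ) := by
    intro χ _
    rw [normSq_RR hP]
    unfold Idx
    rw [Finset.sum_product]
    have h2 : ApproxQ.DQ Q (χ₀ * χ) X
        = ∑ m ∈ (Finset.Icc 1 X).filter (fun m => (∀ p ∈ Q, ¬ p ∣ m) ∧ m.Coprime q),
          (χ₀ * χ) (m : ZMod q) * (((m : ℝ) ^ (-(1 / 2) : ℝ) : ℝ) : ℂ) := by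
      unfold ApproxQ.DQ
      rw [Nat.floor_natCast, ← Finset.filter_filter]
      symm
      apply Finset.sum_subset (Finset.filter_subset _ _)
      intro m hm hm'
      rw [Finset.mem_filter, not_and] at hm'
      have h3 := hm' hm
      have : ¬ IsUnit (m : ZMod q) := by
        rw [ZMod.isUnit_iff_coprime]; exact h3
      rw [MulChar.map_nonunit _ this, zero_mul]
    rw [h2, Finset.sum_mul]
    apply Finset.sum_congr rfl; intro m hm
    rw [Finset.mem_filter] at hm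
    rw [Finset.sum_product, Finset.mul_sum]
    apply Finset.sum_congr rfl; intro A _
    rw [Finset.mul_sum]
    apply Finset.sum_congr rfl; intro B _
    unfold zt wt
    simp only
    have h4 : (m : ℝ) ^ (-(1 / 2) : ℝ) = 1 / Real.sqrt m := by
      rw [Real.rpow_neg (by positivity), ← Real.sqrt_eq_rpow, one_div]
    have h5 : ∀ y : (ZMod q)ˣ, (χ₀ * χ) ((un q m * y : (ZMod q)ˣ) : ZMod q)
        = (χ₀ * χ) (m : ZMod q) * (χ₀ * χ) (y : ZMod q) := by
      intro y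
      rw [Units.val_mul, map_mul, un_val hm.2.2]
    rw [h4, h5]
    push_cast
    ring
  rw [Finset.sum_congr rfl h1, Finset.sum_comm, Finset.mul_sum, Finset.sum_filter]
  apply Finset.sum_congr rfl; intro t _
  rw [← Finset.mul_sum, sum_coset]
  split_ifs <;> ring

open scoped Classical in
/-- the total mass over a coset -/
lemma mass_eq (H : Subgroup (DirichletCharacter ℂ q)) (χ₀ : DirichletCharacter ℂ q)
    {P : Finset ℕ} (hP : ∀ p ∈ P, p.Prime ∧ p < q) (f : ℕ → ℝ) (N : ℕ) :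
    ((∑ χ ∈ Class.mem H, ‖RR P f N (χ₀ * χ)‖ ^ 2 : ℝ) : ℂ)
      = ((Class.mem H).card : ℂ) * ∑ t ∈ (Fam P N ×ˢ Fam P N).filter
          (fun t => un q (pr t.1) * (un q (pr t.2))⁻¹ ∈ Class.K H),
          ((fS f t.1 * fS f t.2 : ℝ) : ℂ) * χ₀ (un q (pr t.1) * (un q (pr t.2))⁻¹ : (ZMod q)ˣ) := by
  rw [Complex.ofReal_sum]
  have h1 : ∀ χ ∈ Class.mem H, ((‖RR P f N (χ₀ * χ)‖ ^ 2 : ℝ) : ℂ)
      = ∑ t ∈ Fam P N ×ˢ Fam P N, ((fS f t.1 * fS f t.2 : ℝ) : ℂ) *
        (χ₀ * χ) (un q (pr t.1) * (un q (pr t.2))⁻¹ : (ZMod q)ˣ) := by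
    intro χ _
    rw [normSq_RR hP, Finset.sum_product]
  rw [Finset.sum_congr rfl h1, Finset.sum_comm, Finset.mul_sum, Finset.sum_filter]
  apply Finset.sum_congr rfl; intro t _
  rw [← Finset.mul_sum, sum_coset]
  split_ifs <;> ring

lemma norm_unit (χ : DirichletCharacter ℂ q) (z : (ZMod q)ˣ) : ‖χ (z : ZMod q)‖ = 1 :=
  DirichletCharacter.unit_norm_eq_one χ z

section relations

variable {P Q : Finset ℕ} {f : ℕ → ℝ} {N X Z : ℕ} {K : Subgroup (ZMod q)ˣ}

lemma eq_of_cast_eq {a b : ℕ} (ha : a < q) (hb : b < q) (h : (a : ZMod q) = b) : a = b := by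
  have e := (ZMod.natCast_eq_natCast_iff' _ _ _).1 h
  rwa [Nat.mod_eq_of_lt ha, Nat.mod_eq_of_lt hb] at e

/-- all the solutions of `m a = k b` with small entries share one reduced fraction -/
lemma frac_of_class (hP : ∀ p ∈ P, p.Prime ∧ p < q) (hPQ : Disjoint P Q)
    (hQ : ∀ p ∈ Q, p.Prime) (hNZ : Z * N * N < q) (hN1 : 1 ≤ N) (hZ1 : 1 ≤ Z)
    (Bh : ℕ) (hrel : ∀ x : ℕ × ℕ, Greedy.Rel K Bh x → ∃ p ∈ Q, p ∣ x.1 * x.2)
    (k : (ZMod q)ˣ) (hkK : k ∈ K) (hk1 : k ≠ 1) (m₀ : ℕ) (A₀ B₀ : Finset ℕ)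
    (hm₀ : 1 ≤ m₀ ∧ m₀ ≤ Z) (hm₀Q : ∀ p ∈ Q, ¬ p ∣ m₀) (hm₀q : m₀.Coprime q)
    (hA₀ : A₀ ∈ Fam P N) (hB₀ : B₀ ∈ Fam P N)
    (hz₀ : un q m₀ * (un q (pr A₀) * (un q (pr B₀))⁻¹) = k) :
    ∃ u v : ℕ, 0 < u ∧ 0 < v ∧ Nat.Coprime u v ∧ Bh ≤ u * v ∧
      ∀ m : ℕ, ∀ A ∈ Fam P N, ∀ B ∈ Fam P N, 1 ≤ m → m ≤ Z → m.Coprime q →
        un q m * (un q (pr A) * (un q (pr B))⁻¹) = k → m * (pr A * v) = pr B * u := by
  have hP' : ∀ p ∈ P, p.Prime := fun p hp => (hP p hp).1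
  have hmemA₀ := mem_Fam.1 hA₀
  have hmemB₀ := mem_Fam.1 hB₀
  have ha0 : 0 < pr A₀ := pr_pos hP' hmemA₀.1
  have hb0 : 0 < pr B₀ := pr_pos hP' hmemB₀.1
  -- congruence attached to a solution
  have hcong : ∀ m : ℕ, ∀ A ∈ Fam P N, ∀ B ∈ Fam P N, m.Coprime q →
      un q m * (un q (pr A) * (un q (pr B))⁻¹) = k →
      ((m * pr A : ℕ) : ZMod q) = (k : ZMod q) * (pr B : ZMod q) := by
    intro m A hA B hB hmq hz
    have h1 : un q m * un q (pr A) = k * un q (pr B) := by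
      rw [← hz]; group
    have h2 := congrArg (fun x : (ZMod q)ˣ => (x : ZMod q)) h1
    simp only [Units.val_mul] at h2
    rw [un_val hmq, un_val (pr_coprime hP (mem_Fam.1 hA).1),
      un_val (pr_coprime hP (mem_Fam.1 hB).1)] at h2
    push_cast
    exact h2
  have hc₀ := hcong m₀ A₀ hA₀ B₀ hB₀ hm₀q hz₀
  set g := Nat.gcd (m₀ * pr A₀) (pr B₀) with hg
  have hgpos : 0 < g := Nat.gcd_pos_of_pos_right _ hb0
  obtain ⟨u, hu⟩ : g ∣ m₀ * pr A₀ := Nat.gcd_dvd_left _ _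
  obtain ⟨v, hv⟩ : g ∣ pr B₀ := Nat.gcd_dvd_right _ _
  have hupos : 0 < u := by
    rcases Nat.eq_zero_or_pos u with h | h
    · rw [h, mul_zero] at hu
      have : 0 < m₀ * pr A₀ := Nat.mul_pos hm₀.1 ha0
      omega
    · exact h
  have hvpos : 0 < v := by
    rcases Nat.eq_zero_or_pos v with h | h
    · rw [h, mul_zero] at hv; omega
    · exact h
  have hcop : Nat.Coprime u v := by
    have h1 : Nat.gcd (g * u) (g * v) = g := by rw [← hu, ← hv]
    rw [Nat.gcd_mul_left] at h1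
    exact Nat.eq_of_mul_eq_mul_left hgpos (by rw [h1, mul_one])
  have hgq : g < q := by
    have h1 : g ≤ pr B₀ := Nat.le_of_dvd hb0 (Nat.gcd_dvd_right _ _)
    have h2 : pr B₀ ≤ N := hmemB₀.2
    have h3 : N ≤ Z * N * N := by
      calc N = 1 * 1 * N := by ring
        _ ≤ Z * N * N := Nat.mul_le_mul_right _ (Nat.mul_le_mul hZ1 hN1)
    omega
  have hukv : (u : ZMod q) = (k : ZMod q) * (v : ZMod q) := by
    rw [hu, hv] at hc₀
    push_cast at hc₀
    have hg0 : (g : ZMod q) ≠ 0 := by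
      intro h
      rw [ZMod.natCast_eq_zero_iff] at h
      exact absurd (Nat.le_of_dvd hgpos h) (by omega)
    apply mul_left_cancel₀ hg0
    rw [hc₀]; ring
  refine ⟨u, v, hupos, hvpos, hcop, ?_, ?_⟩
  · by_contra hlt
    push Not at hlt
    have huv1 : 1 < u * v := by
      by_contra h
      push Not at h
      have hu1 : u = 1 := by
        have : u ≤ u * v := Nat.le_mul_of_pos_right _ hvpos
        omega
      have hv1 : v = 1 := by
        have : v ≤ u * v := Nat.le_mul_of_pos_left _ hupos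
        omega
      rw [hu1, hv1] at hukv
      apply hk1
      apply Units.ext
      push_cast at hukv
      rw [mul_one] at hukv
      rw [← hukv, Units.val_one]
    obtain ⟨p, hpQ, hpuv⟩ := hrel (u, v) ⟨hupos, hvpos, hcop, huv1, hlt, k, hkK, hukv⟩
    simp only at hpuv
    have hpp := hQ p hpQ
    have hpP : p ∉ P := fun h => (Finset.disjoint_left.1 hPQ h) hpQ
    rcases hpp.dvd_mul.1 hpuv with h | h
    · have h1 : p ∣ m₀ * pr A₀ := by rw [hu]; exact Dvd.dvd.mul_left h g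
      rcases hpp.dvd_mul.1 h1 with h2 | h2
      · exact hm₀Q p hpQ h2
      · exact hpP (hmemA₀.1 ((prime_dvd_pr hP' hmemA₀.1 hpp).1 h2))
    · have h1 : p ∣ pr B₀ := by rw [hv]; exact Dvd.dvd.mul_left h g
      exact hpP (hmemB₀.1 ((prime_dvd_pr hP' hmemB₀.1 hpp).1 h1))
  · intro m A hA B hB hm1 hmZ hmq hz
    have hc := hcong m A hA B hB hmq hz
    have hA' := mem_Fam.1 hA
    have hB' := mem_Fam.1 hB
    -- m a b₀ = m₀ a₀ b
    have h1 : ((m * pr A * pr B₀ : ℕ) : ZMod q) = ((m₀ * pr A₀ * pr B : ℕ) : ZMod q) := by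
      push_cast at hc hc₀ ⊢
      rw [hc, hc₀]; ring
    have hsize : ∀ (m : ℕ) (A B : Finset ℕ), m ≤ Z → pr A ≤ N → pr B ≤ N → m * pr A * pr B < q := by
      intro m A B h1 h2 h3
      calc m * pr A * pr B ≤ Z * N * N := Nat.mul_le_mul (Nat.mul_le_mul h1 h2) h3
        _ < q := hNZ
    have h2 : m * pr A * pr B₀ = m₀ * pr A₀ * pr B :=
      eq_of_cast_eq (hsize _ _ _ hmZ hA'.2 hmemB₀.2) (hsize _ _ _ hm₀.2 hmemA₀.2 hB'.2) h1
    rw [hu, hv] at h2
    have h3 : g * (m * (pr A * v)) = g * (pr B * u) := by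
      calc g * (m * (pr A * v)) = m * pr A * (g * v) := by ring
        _ = g * u * pr B := h2
        _ = g * (pr B * u) := by ring
    exact Nat.eq_of_mul_eq_mul_left hgpos h3

open scoped Classical in
/-- contribution of one nontrivial class, short range -/
lemma class_short (hP : ∀ p ∈ P, p.Prime ∧ p < q) (hPQ : Disjoint P Q)
    (hQ : ∀ p ∈ Q, p.Prime) (hf : ∀ p ∈ P, 0 ≤ f p)
    (hf1 : ∀ p ∈ P, f p ≤ 1 / Real.sqrt (Real.sqrt p))
    (hf2 : ∀ p ∈ P, (1 + f p * Real.sqrt p) * (1 + f p / Real.sqrt p) ≤ Real.sqrt (Real.sqrt p))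
    (hNZ : Z * N * N < q) (hN1 : 1 ≤ N) (hZ1 : 1 ≤ Z)
    (Bh : ℕ) (hBh : 0 < Bh) (hrel : ∀ x : ℕ × ℕ, Greedy.Rel K Bh x → ∃ p ∈ Q, p ∣ x.1 * x.2)
    (k : (ZMod q)ˣ) (hkK : k ∈ K) (hk1 : k ≠ 1) :
    ∑ t ∈ (Idx q P Q N X).filter (fun t => zt q t = k ∧ t.1 ≤ Z), wt f t
      ≤ 1 / Real.sqrt (Real.sqrt (Bh : ℝ)) * Main P f := by
  have hP' : ∀ p ∈ P, p.Prime := fun p hp => (hP p hp).1
  have hMain0 : 0 ≤ Main P f := Finset.prod_nonneg fun p hp => by
    have := hf p hp; positivity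
  set S := (Idx q P Q N X).filter (fun t => zt q t = k ∧ t.1 ≤ Z) with hS
  rcases S.eq_empty_or_nonempty with h | ⟨t₀, ht₀⟩
  · rw [h, Finset.sum_empty]; positivity
  have hmem : ∀ t ∈ S, (1 ≤ t.1 ∧ t.1 ≤ X) ∧ ((∀ p ∈ Q, ¬ p ∣ t.1) ∧ t.1.Coprime q) ∧
      t.2.1 ∈ Fam P N ∧ t.2.2 ∈ Fam P N ∧ zt q t = k ∧ t.1 ≤ Z := by
    intro t ht
    rw [hS, Finset.mem_filter] at ht
    unfold Idx at ht
    rw [Finset.mem_product, Finset.mem_product, Finset.mem_filter, Finset.mem_Icc] at ht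
    exact ⟨ht.1.1.1, ht.1.1.2, ht.1.2.1, ht.1.2.2, ht.2.1, ht.2.2⟩
  obtain ⟨a1, a2, a3, a4, a5, a6⟩ := hmem t₀ ht₀
  obtain ⟨u, v, hu, hv, hcop, hBuv, hall⟩ := frac_of_class hP hPQ hQ hNZ hN1 hZ1 Bh hrel k hkK hk1
    t₀.1 t₀.2.1 t₀.2.2 ⟨a1.1, a6⟩ a2.1 a2.2 a3 a4 a5
  set g : Finset ℕ × Finset ℕ → ℝ := fun x => if pr x.1 * v ∣ pr x.2 * u then
    1 / Real.sqrt ((pr x.2 * u / (pr x.1 * v) : ℕ) : ℝ) * fS f x.1 * fS f x.2 else 0 with hg
  have hm_eq : ∀ t ∈ S, pr t.2.1 * v ∣ pr t.2.2 * u ∧ t.1 = pr t.2.2 * u / (pr t.2.1 * v) := by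
    intro t ht
    obtain ⟨b1, b2, b3, b4, b5, b6⟩ := hmem t ht
    have h1 := hall t.1 t.2.1 b3 t.2.2 b4 b1.1 b6 b2.2 b5
    have hpos : 0 < pr t.2.1 * v := Nat.mul_pos (pr_pos hP' (mem_Fam.1 b3).1) hv
    refine ⟨⟨t.1, by rw [← h1]; ring⟩, ?_⟩
    rw [← h1, Nat.mul_div_cancel _ hpos]
  have h1 : ∑ t ∈ S, wt f t = ∑ t ∈ S, g t.2 := by
    apply Finset.sum_congr rfl
    intro t ht
    obtain ⟨h2, h3⟩ := hm_eq t ht
    rw [hg]
    simp only
    rw [if_pos h2, ← h3]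
    unfold wt
    ring
  have hinj : Set.InjOn (fun t : ℕ × Finset ℕ × Finset ℕ => t.2) S := by
    intro t ht t' ht' h
    have h2 := (hm_eq t ht).2
    have h3 := (hm_eq t' ht').2
    simp only at h
    rw [← h] at h3
    exact Prod.ext (h2.trans h3.symm) h
  have hg0 : ∀ x ∈ P.powerset ×ˢ P.powerset, 0 ≤ g x := by
    intro x hx
    rw [Finset.mem_product, Finset.mem_powerset, Finset.mem_powerset] at hx
    rw [hg]
    simp only
    split_ifs
    · have := fS_nonneg hf hx.1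
      have := fS_nonneg hf hx.2
      positivity
    · exact le_rfl
  rw [h1, ← Finset.sum_image (f := g) hinj]
  calc ∑ x ∈ S.image (fun t => t.2), g x ≤ ∑ x ∈ P.powerset ×ˢ P.powerset, g x := by
        apply Finset.sum_le_sum_of_subset_of_nonneg
        · intro x hx
          rw [Finset.mem_image] at hx
          obtain ⟨t, ht, rfl⟩ := hx
          obtain ⟨_, _, b3, b4, _, _⟩ := hmem t ht
          rw [Finset.mem_product, Finset.mem_powerset, Finset.mem_powerset]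
          exact ⟨(mem_Fam.1 b3).1, (mem_Fam.1 b4).1⟩
        · intro x hx _; exact hg0 x hx
    _ ≤ 1 / Real.sqrt (Real.sqrt ((u * v : ℕ) : ℝ)) * Main P f := by
        rw [Finset.sum_product]
        exact T_bound hP' hf hf1 hf2 u v hu hv hcop
    _ ≤ _ := by
        apply mul_le_mul_of_nonneg_right _ hMain0
        have hB0 : (0 : ℝ) < Bh := by exact_mod_cast hBh
        apply one_div_le_one_div_of_le (Real.sqrt_pos.2 (Real.sqrt_pos.2 hB0))
        apply Real.sqrt_le_sqrt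
        apply Real.sqrt_le_sqrt
        exact_mod_cast hBuv

open scoped Classical in
/-- contribution of one nontrivial class to the mass -/
lemma class_mass (hP : ∀ p ∈ P, p.Prime ∧ p < q) (hPQ : Disjoint P Q)
    (hQ : ∀ p ∈ Q, p.Prime) (hf : ∀ p ∈ P, 0 ≤ f p)
    (hf1 : ∀ p ∈ P, f p ≤ 1 / Real.sqrt (Real.sqrt p))
    (hNN : N * N < q) (hN1 : 1 ≤ N)
    (Bh : ℕ) (hBh : 0 < Bh) (hrel : ∀ x : ℕ × ℕ, Greedy.Rel K Bh x → ∃ p ∈ Q, p ∣ x.1 * x.2)
    (k : (ZMod q)ˣ) (hkK : k ∈ K) (hk1 : k ≠ 1) :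
    ∑ t ∈ (Fam P N ×ˢ Fam P N).filter (fun t => un q (pr t.1) * (un q (pr t.2))⁻¹ = k),
        fS f t.1 * fS f t.2
      ≤ 1 / Real.sqrt (Real.sqrt (Bh : ℝ)) * Fin P f := by
  have hP' : ∀ p ∈ P, p.Prime := fun p hp => (hP p hp).1
  have hFin0 : 0 ≤ Fin P f := le_trans zero_le_one one_le_Fin
  set S := (Fam P N ×ˢ Fam P N).filter (fun t => un q (pr t.1) * (un q (pr t.2))⁻¹ = k) with hS
  rcases S.eq_empty_or_nonempty with h | ⟨t₀, ht₀⟩
  · rw [h, Finset.sum_empty]; positivity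
  have hmem : ∀ t ∈ S, t.1 ∈ Fam P N ∧ t.2 ∈ Fam P N ∧
      un q (pr t.1) * (un q (pr t.2))⁻¹ = k := by
    intro t ht
    rw [hS, Finset.mem_filter, Finset.mem_product] at ht
    exact ⟨ht.1.1, ht.1.2, ht.2⟩
  have hone : un q 1 = 1 := by
    apply Units.ext
    rw [un_val (Nat.coprime_one_left q)]
    simp
  obtain ⟨a3, a4, a5⟩ := hmem t₀ ht₀
  obtain ⟨u, v, hu, hv, hcop, hBuv, hall⟩ := frac_of_class (Z := 1) hP hPQ hQ
    (by rw [one_mul]; exact hNN) hN1 le_rfl Bh hrel k hkK hk1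
    1 t₀.1 t₀.2 ⟨le_rfl, le_rfl⟩ (by
      intro p hp h
      exact (hQ p hp).one_lt.ne' (Nat.dvd_one.1 h)) (Nat.coprime_one_left q) a3 a4
      (by rw [hone, one_mul]; exact a5)
  set g : Finset ℕ × Finset ℕ → ℝ := fun x => if pr x.1 * v = pr x.2 * u then
    fS f x.1 * fS f x.2 else 0 with hg
  have h1 : ∑ t ∈ S, fS f t.1 * fS f t.2 = ∑ t ∈ S, g t := by
    apply Finset.sum_congr rfl
    intro t ht
    obtain ⟨b3, b4, b5⟩ := hmem t ht
    have h2 := hall 1 t.1 b3 t.2 b4 le_rfl le_rfl (Nat.coprime_one_left q)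
      (by rw [hone, one_mul]; exact b5)
    rw [one_mul] at h2
    rw [hg]
    simp only
    rw [if_pos h2]
  have hg0 : ∀ x ∈ P.powerset ×ˢ P.powerset, 0 ≤ g x := by
    intro x hx
    rw [Finset.mem_product, Finset.mem_powerset, Finset.mem_powerset] at hx
    rw [hg]
    simp only
    split_ifs
    · have := fS_nonneg hf hx.1
      have := fS_nonneg hf hx.2
      positivity
    · exact le_rfl
  rw [h1]
  calc ∑ x ∈ S, g x ≤ ∑ x ∈ P.powerset ×ˢ P.powerset, g x := by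
        apply Finset.sum_le_sum_of_subset_of_nonneg
        · intro x hx
          obtain ⟨b3, b4, _⟩ := hmem x hx
          rw [Finset.mem_product, Finset.mem_powerset, Finset.mem_powerset]
          exact ⟨(mem_Fam.1 b3).1, (mem_Fam.1 b4).1⟩
        · intro x hx _; exact hg0 x hx
    _ ≤ 1 / Real.sqrt (Real.sqrt ((u * v : ℕ) : ℝ)) * Fin P f := by
        rw [Finset.sum_product]
        exact T0_bound hP' hf hf1 u v hu hv hcop
    _ ≤ _ := by
        apply mul_le_mul_of_nonneg_right _ hFin0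
        have hB0 : (0 : ℝ) < Bh := by exact_mod_cast hBh
        apply one_div_le_one_div_of_le (Real.sqrt_pos.2 (Real.sqrt_pos.2 hB0))
        apply Real.sqrt_le_sqrt
        apply Real.sqrt_le_sqrt
        exact_mod_cast hBuv

lemma card_Fam_le (hP : ∀ p ∈ P, p.Prime) : (Fam P N).card ≤ N := by
  have h1 : (Fam P N).card ≤ (Finset.Icc 1 N).card := by
    apply Finset.card_le_card_of_injOn pr
    · intro S hS
      rw [Finset.mem_coe, mem_Fam] at hS
      rw [Finset.mem_coe, Finset.mem_Icc]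
      exact ⟨pr_pos hP hS.1, hS.2⟩
    · intro S hS T hT h
      rw [Finset.mem_coe, mem_Fam] at hS hT
      rw [← primeFactors_pr hP hS.1, ← primeFactors_pr hP hT.1, h]
  simpa using h1

lemma sum_fS_sq_le (hP : ∀ p ∈ P, p.Prime) (hf : ∀ p ∈ P, 0 ≤ f p) :
    (∑ S ∈ Fam P N, fS f S) ^ 2 ≤ N * Fin P f := by
  have h1 : (∑ S ∈ Fam P N, fS f S) ^ 2 ≤ (Fam P N).card * ∑ S ∈ Fam P N, fS f S ^ 2 :=
    sq_sum_le_card_mul_sum_sq
  have h2 : ∑ S ∈ Fam P N, fS f S ^ 2 ≤ Fin P f := by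
    rw [← sum_sq_eq]
    exact Finset.sum_le_sum_of_subset_of_nonneg (Finset.filter_subset _ _)
      (fun _ _ _ => sq_nonneg _)
  have h3 : ((Fam P N).card : ℝ) ≤ N := by exact_mod_cast card_Fam_le hP
  calc (∑ S ∈ Fam P N, fS f S) ^ 2 ≤ (Fam P N).card * ∑ S ∈ Fam P N, fS f S ^ 2 := h1
    _ ≤ N * Fin P f := mul_le_mul h3 h2 (Finset.sum_nonneg fun _ _ => sq_nonneg _) (by positivity)

open scoped Classical in
/-- number of integers up to `X` in a coset of `K` -/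
lemma card_coset_le (c : (ZMod q)ˣ) :
    ((Finset.Icc 1 X).filter (fun m => m.Coprime q ∧ un q m * c ∈ K)).card
      ≤ Nat.card K * (X / q + 1) := by
  have hKc : (Finset.univ.filter (fun k : (ZMod q)ˣ => k ∈ K)).card = Nat.card K :=
    (Nat.subtype_card _ (by intro k; simp)).symm
  rw [← hKc, ← Finset.card_range (X / q + 1), ← Finset.card_product]
  apply Finset.card_le_card_of_injOn (fun m => (un q m * c, m / q))
  · intro m hm
    rw [Finset.mem_coe, Finset.mem_filter, Finset.mem_Icc] at hm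
    rw [Finset.mem_coe, Finset.mem_product, Finset.mem_filter, Finset.mem_range]
    refine ⟨⟨Finset.mem_univ _, hm.2.2⟩, ?_⟩
    have := Nat.div_le_div_right (c := q) hm.1.2
    simp only
    omega
  · intro m hm m' hm' h
    rw [Finset.mem_coe, Finset.mem_filter] at hm hm'
    have ha : un q m * c = un q m' * c := congrArg Prod.fst h
    have hb : m / q = m' / q := congrArg Prod.snd h
    have h1 : un q m = un q m' := mul_right_cancel ha
    have h2 : ((un q m : (ZMod q)ˣ) : ZMod q) = ((un q m' : (ZMod q)ˣ) : ZMod q) := by rw [h1]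
    rw [un_val hm.2.1, un_val hm'.2.1] at h2
    have h3 := (ZMod.natCast_eq_natCast_iff' _ _ _).1 h2
    rw [← Nat.div_add_mod m q, ← Nat.div_add_mod m' q, hb, h3]

open scoped Classical in
/-- contribution of the long range -/
lemma long_range (hP : ∀ p ∈ P, p.Prime ∧ p < q) (hf : ∀ p ∈ P, 0 ≤ f p) (hZ1 : 1 ≤ Z) :
    ∑ t ∈ (Idx q P Q N X).filter (fun t => zt q t ∈ K ∧ Z < t.1), wt f t
      ≤ 1 / Real.sqrt Z * (N * Fin P f * (Nat.card K * (X / q + 1 : ℕ) : ℕ)) := by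
  have hP' : ∀ p ∈ P, p.Prime := fun p hp => (hP p hp).1
  have hZ0 : (0 : ℝ) < Z := by exact_mod_cast hZ1
  have hFf : ∀ S ∈ Fam P N, 0 ≤ fS f S := fun S hS => fS_nonneg hf (mem_Fam.1 hS).1
  have h1 : ∑ t ∈ (Idx q P Q N X).filter (fun t => zt q t ∈ K ∧ Z < t.1), wt f t
      ≤ ∑ x ∈ Fam P N ×ˢ Fam P N, ∑ m ∈ (Finset.Icc 1 X).filter
        (fun m => m.Coprime q ∧ un q m * (un q (pr x.1) * (un q (pr x.2))⁻¹) ∈ K),
          1 / Real.sqrt Z * (fS f x.1 * fS f x.2) := by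
    rw [Finset.sum_sigma' (Fam P N ×ˢ Fam P N)]
    have hinj : Set.InjOn (fun t : ℕ × Finset ℕ × Finset ℕ =>
        (⟨t.2, t.1⟩ : (_ : Finset ℕ × Finset ℕ) × ℕ))
        ((Idx q P Q N X).filter (fun t => zt q t ∈ K ∧ Z < t.1) : Finset _) := by
      intro t _ t' _ h
      simp only [Sigma.mk.injEq, heq_eq_eq] at h
      exact Prod.ext h.2 h.1
    calc ∑ t ∈ (Idx q P Q N X).filter (fun t => zt q t ∈ K ∧ Z < t.1), wt f t
        ≤ ∑ t ∈ (Idx q P Q N X).filter (fun t => zt q t ∈ K ∧ Z < t.1),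
            (fun y : (_ : Finset ℕ × Finset ℕ) × ℕ => 1 / Real.sqrt Z * (fS f y.1.1 * fS f y.1.2))
              ((⟨t.2, t.1⟩ : (_ : Finset ℕ × Finset ℕ) × ℕ)) := by
          apply Finset.sum_le_sum
          intro t ht
          rw [Finset.mem_filter] at ht
          unfold Idx at ht
          rw [Finset.mem_product, Finset.mem_product] at ht
          unfold wt
          simp only
          apply mul_le_mul_of_nonneg_right _ (mul_nonneg (hFf _ ht.1.2.1) (hFf _ ht.1.2.2))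
          apply one_div_le_one_div_of_le (Real.sqrt_pos.2 hZ0)
          apply Real.sqrt_le_sqrt
          exact_mod_cast ht.2.2.le
      _ = ∑ y ∈ ((Idx q P Q N X).filter (fun t => zt q t ∈ K ∧ Z < t.1)).image
            (fun t : ℕ × Finset ℕ × Finset ℕ => (⟨t.2, t.1⟩ : (_ : Finset ℕ × Finset ℕ) × ℕ)),
            1 / Real.sqrt Z * (fS f y.1.1 * fS f y.1.2) := by
          rw [Finset.sum_image hinj]
      _ ≤ _ := by
          apply Finset.sum_le_sum_of_subset_of_nonneg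
          · intro y hy
            rw [Finset.mem_image] at hy
            obtain ⟨t, ht, rfl⟩ := hy
            rw [Finset.mem_filter] at ht
            unfold Idx zt at ht
            rw [Finset.mem_product, Finset.mem_filter] at ht
            rw [Finset.mem_sigma, Finset.mem_filter]
            exact ⟨ht.1.2, ht.1.1.1, ht.1.1.2.2, ht.2.1⟩
          · intro y hy _
            rw [Finset.mem_sigma, Finset.mem_product] at hy
            have := hFf _ hy.1.1
            have := hFf _ hy.1.2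
            positivity
  refine h1.trans ?_
  simp_rw [Finset.sum_const, nsmul_eq_mul]
  calc ∑ x ∈ Fam P N ×ˢ Fam P N, (((Finset.Icc 1 X).filter
        (fun m => m.Coprime q ∧ un q m * (un q (pr x.1) * (un q (pr x.2))⁻¹) ∈ K)).card : ℝ) *
          (1 / Real.sqrt Z * (fS f x.1 * fS f x.2))
      ≤ ∑ x ∈ Fam P N ×ˢ Fam P N, ((Nat.card K * (X / q + 1) : ℕ) : ℝ) *
          (1 / Real.sqrt Z * (fS f x.1 * fS f x.2)) := by
        apply Finset.sum_le_sum
        intro x hx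
        rw [Finset.mem_product] at hx
        apply mul_le_mul_of_nonneg_right _ (by
          have := hFf _ hx.1
          have := hFf _ hx.2
          positivity)
        exact_mod_cast card_coset_le _
    _ = 1 / Real.sqrt Z * (((∑ S ∈ Fam P N, fS f S) ^ 2) * ((Nat.card K * (X / q + 1) : ℕ) : ℝ)) := by
        rw [sq, Finset.sum_mul_sum, ← Finset.sum_product', ← Finset.mul_sum, ← Finset.mul_sum]
        ring
    _ ≤ _ := by
        apply mul_le_mul_of_nonneg_left _ (by positivity)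
        apply mul_le_mul_of_nonneg_right (sum_fS_sq_le hP' hf) (by positivity)

open scoped Classical in
/-- the main term -/
lemma main_class (hP : ∀ p ∈ P, p.Prime ∧ p < q) (hPQ : Disjoint P Q)
    (hQ : ∀ p ∈ Q, p.Prime) (hf : ∀ p ∈ P, 0 ≤ f p) (hN1 : 0 < N) (hNX : N ≤ X)
    (α : ℝ) (hα : 0 ≤ α)
    (hR : ∏ p ∈ P, (1 + (p : ℝ) ^ α * (f p ^ 2 + f p / Real.sqrt p)) ≤ (N : ℝ) ^ α * (Main P f / 2)) :
    Main P f / 2 ≤ ∑ t ∈ (Idx q P Q N X).filter (fun t => zt q t = 1), wt f t := by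
  have hP' : ∀ p ∈ P, p.Prime := fun p hp => (hP p hp).1
  refine (main_trunc hP' hf N hN1 α hα hR).trans ?_
  rw [← Finset.sum_product', ← Finset.sum_filter]
  set S := (P.powerset ×ˢ P.powerset).filter (fun x : Finset ℕ × Finset ℕ => x.1 ⊆ x.2 ∧ pr x.2 ≤ N)
    with hS
  have hmem : ∀ x ∈ S, x.1 ⊆ P ∧ x.2 ⊆ P ∧ x.1 ⊆ x.2 ∧ pr x.2 ≤ N := by
    intro x hx
    rw [hS, Finset.mem_filter, Finset.mem_product, Finset.mem_powerset, Finset.mem_powerset] at hx
    exact ⟨hx.1.1, hx.1.2, hx.2.1, hx.2.2⟩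
  have hinj : Set.InjOn (fun x : Finset ℕ × Finset ℕ => (pr x.2 / pr x.1, x)) (S : Set _) := by
    intro x _ y _ h
    simp only [Prod.mk.injEq] at h
    exact h.2
  calc ∑ x ∈ S, 1 / Real.sqrt ((pr x.2 / pr x.1 : ℕ) : ℝ) * fS f x.1 * fS f x.2
      = ∑ x ∈ S, wt f (pr x.2 / pr x.1, x) := by
        apply Finset.sum_congr rfl; intro x _
        unfold wt; simp only; ring
    _ = ∑ t ∈ S.image (fun x : Finset ℕ × Finset ℕ => (pr x.2 / pr x.1, x)), wt f t := by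
        rw [Finset.sum_image hinj]
    _ ≤ _ := by
        apply Finset.sum_le_sum_of_subset_of_nonneg
        · intro t ht
          rw [Finset.mem_image] at ht
          obtain ⟨x, hx, rfl⟩ := ht
          obtain ⟨h1, h2, h3, h4⟩ := hmem x hx
          have hd : pr x.1 ∣ pr x.2 := Finset.prod_dvd_prod_of_subset _ _ _ h3
          have hp1 := pr_pos hP' h1
          have hp2 := pr_pos hP' h2
          have hdiv : pr x.2 / pr x.1 ∣ pr x.2 := Nat.div_dvd_of_dvd hd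
          have hpos : 0 < pr x.2 / pr x.1 := Nat.div_pos (Nat.le_of_dvd hp2 hd) hp1
          have hcop : (pr x.2 / pr x.1).Coprime q :=
            Nat.Coprime.coprime_dvd_left hdiv (pr_coprime hP h2)
          have hle : pr x.2 / pr x.1 ≤ pr x.2 := Nat.div_le_self _ _
          rw [Finset.mem_filter]
          constructor
          · unfold Idx
            rw [Finset.mem_product, Finset.mem_product, Finset.mem_filter, Finset.mem_Icc]
            refine ⟨⟨⟨hpos, by simp only; omega⟩, ?_, hcop⟩, ?_, ?_⟩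
            · intro p hpQ hpd
              have h5 : p ∈ x.2 := (prime_dvd_pr hP' h2 (hQ p hpQ)).1 (hpd.trans hdiv)
              exact (Finset.disjoint_left.1 hPQ (h2 h5)) hpQ
            · exact mem_Fam.2 ⟨h1, (Nat.le_of_dvd hp2 hd).trans h4⟩
            · exact mem_Fam.2 ⟨h2, h4⟩
          · unfold zt
            simp only
            have h5 : un q (pr x.2 / pr x.1) * un q (pr x.1) = un q (pr x.2) := by
              apply Units.ext
              rw [Units.val_mul, un_val hcop, un_val (pr_coprime hP h1), un_val (pr_coprime hP h2),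
                ← Nat.cast_mul, Nat.div_mul_cancel hd]
            rw [← mul_assoc, h5, mul_inv_cancel]
        · intro t ht _
          rw [Finset.mem_filter] at ht
          unfold Idx at ht
          rw [Finset.mem_product, Finset.mem_product] at ht
          unfold wt
          have := fS_nonneg hf (mem_Fam.1 ht.1.2.1).1
          have := fS_nonneg hf (mem_Fam.1 ht.1.2.2).1
          positivity

end relations

end Pool.Agent.H.MP_3e6494_nt.Coset
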