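import Mathlib
import Pool.Agent.H.MP_3e6494_nt.helper50.Class

open Finset

set_option linter.unusedSectionVars false

namespace Pool.Agent.H.MP_3e6494_nt.Dual

open Pool.Agent.H.MP_3e6494_nt.Class

variable {q : ℕ} [hq : Fact q.Prime]

lemma sum_units_eq_zero {χ : DirichletCharacter ℂ q} (hχ : χ ≠ 1) :
    ∑ z : (ZMod q)ˣ, χ (z : ZMod q) = 0 := by
  obtain ⟨a, ha⟩ := MulChar.ne_one_iff.1 hχ
  have h1 : ∑ z : (ZMod q)ˣ, χ (z : ZMod q) = χ a * ∑ z : (ZMod q)ˣ, χ (z : ZMod q) := by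
    rw [Finset.mul_sum]
    symm
    refine Fintype.sum_equiv (Equiv.mulLeft a) _ _ ?_
    intro z
    simp
  have h2 : (1 - χ a) * ∑ z : (ZMod q)ˣ, χ (z : ZMod q) = 0 := by
    rw [sub_mul, one_mul, ← h1, sub_self]
  rcases mul_eq_zero.1 h2 with h | h
  · exact absurd (sub_eq_zero.1 h).symm ha
  · exact h

/-- the common kernel has as many elements as the index of the subgroup -/
theorem card_K_mul (H : Subgroup (DirichletCharacter ℂ q)) :
    Nat.card (K H) * Nat.card H = q - 1 := by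
  classical
  have h1 : ∑ χ ∈ mem H, ∑ z : (ZMod q)ˣ, χ (z : ZMod q) = ((q - 1 : ℕ) : ℂ) := by
    have hone : (1 : DirichletCharacter ℂ q) ∈ mem H := mem_mem.2 H.one_mem
    rw [← Finset.add_sum_erase (mem H) _ hone]
    have h2 : ∑ χ ∈ (mem H).erase 1, ∑ z : (ZMod q)ˣ, χ (z : ZMod q) = 0 := by
      apply Finset.sum_eq_zero
      intro χ hχ
      exact sum_units_eq_zero (Finset.mem_erase.1 hχ).1
    rw [h2, add_zero]
    have h3 : ∀ z : (ZMod q)ˣ, (1 : DirichletCharacter ℂ q) (z : ZMod q) = 1 := by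
      intro z; rw [MulChar.one_apply_coe]
    simp_rw [h3]
    rw [Finset.sum_const, Finset.card_univ, ZMod.card_units, nsmul_eq_mul, mul_one]
  have h2 : ∑ χ ∈ mem H, ∑ z : (ZMod q)ˣ, χ (z : ZMod q)
      = (Nat.card (K H) : ℂ) * ((mem H).card : ℂ) := by
    rw [Finset.sum_comm]
    simp_rw [sum_char]
    rw [← Finset.sum_filter, Finset.sum_const, nsmul_eq_mul]
    congr 1
    have hKc : (Finset.univ.filter (fun k : (ZMod q)ˣ => k ∈ K H)).card = Nat.card (K H) :=
      (Nat.subtype_card _ (by intro k; simp)).symm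
    rw [hKc]
  rw [h2, card_mem] at h1
  exact_mod_cast h1

theorem card_K_eq_index (H : Subgroup (DirichletCharacter ℂ q)) :
    Nat.card (K H) = H.index := by
  have h1 := card_K_mul H
  have h2 : H.index * Nat.card H = q - 1 := by
    rw [Subgroup.index_mul_card,
      DirichletCharacter.card_eq_totient_of_hasEnoughRootsOfUnity ℂ q, Nat.totient_prime hq.out]
  have h3 : 0 < Nat.card H := Nat.card_pos
  exact Nat.eq_of_mul_eq_mul_right h3 (h1.trans h2.symm)

end Pool.Agent.H.MP_3e6494_nt.Dual
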