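import Mathlib
import Pool.Agent.H.MP_3e6494_nt.helper50.Coset
import Pool.Agent.H.MP_3e6494_nt.helper50.Dual
import Pool.Agent.H.MP_3e6494_nt.helper50.T3Res

/-!
Parseval identities over all characters.
-/

open Finset

set_option linter.unusedSectionVars false

namespace Pool.Agent.H.MP_3e6494_nt.T6Par

open Pool.Agent.H.MP_3e6494_nt.Class

variable {q : ℕ} [hq : Fact q.Prime]

/-- all characters -/
noncomputable def XX (q : ℕ) [Fact q.Prime] : Finset (DirichletCharacter ℂ q) :=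
  mem (⊤ : Subgroup (DirichletCharacter ℂ q))

lemma mem_XX (χ : DirichletCharacter ℂ q) : χ ∈ XX q := mem_mem.2 (Subgroup.mem_top χ)

lemma card_XX : (XX q).card = q - 1 := by
  unfold XX
  rw [card_mem, Subgroup.card_top]
  rw [DirichletCharacter.card_eq_totient_of_hasEnoughRootsOfUnity ℂ q, Nat.totient_prime hq.out]

lemma K_top : K (⊤ : Subgroup (DirichletCharacter ℂ q)) = ⊥ := by
  have h1 := Dual.card_K_mul (⊤ : Subgroup (DirichletCharacter ℂ q))
  have h2 := card_XX (q := q)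
  unfold XX at h2
  rw [card_mem] at h2
  rw [h2] at h1
  have h3 : 0 < q - 1 := by have := hq.out.one_lt; omega
  have h4 : Nat.card (K (⊤ : Subgroup (DirichletCharacter ℂ q))) = 1 :=
    Nat.eq_of_mul_eq_mul_right h3 (by rw [h1, one_mul])
  exact Subgroup.card_eq_one.1 h4

variable {α : Type*}

open scoped Classical in
/-- Parseval -/
theorem parseval (T : Finset α) (w : α → ℝ) (z : α → (ZMod q)ˣ) :
    ∑ χ ∈ XX q, ‖∑ t ∈ T, (w t : ℂ) * χ (z t : ZMod q)‖ ^ 2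
      = (XX q).card * ∑ κ : (ZMod q)ˣ, (∑ t ∈ T.filter (fun t => z t = κ), w t) ^ 2 := by
  set f : (ZMod q)ˣ → ℝ := fun κ => ∑ t ∈ T.filter (fun t => z t = κ), w t with hf
  have h1 := T3Res.sum_norm_sq (⊤ : Subgroup (DirichletCharacter ℂ q)) 1
    (Finset.univ : Finset (ZMod q)ˣ) id f (by
      intro a _ b _ h
      rw [K_top, Subgroup.mem_bot, mul_inv_eq_one] at h
      exact h)
  have h2 : ∀ χ ∈ XX q, T3Res.RS (Finset.univ : Finset (ZMod q)ˣ) id f (1 * χ)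
      = ∑ t ∈ T, (w t : ℂ) * χ (z t : ZMod q) := by
    intro χ _
    unfold T3Res.RS
    rw [one_mul, ← Finset.sum_fiberwise T z]
    apply Finset.sum_congr rfl
    intro κ _
    rw [hf]
    simp only [id]
    push_cast
    rw [Finset.sum_mul]
    apply Finset.sum_congr rfl
    intro t ht
    rw [Finset.mem_filter] at ht
    rw [ht.2]
  have h3 : ∑ χ ∈ XX q, ‖T3Res.RS (Finset.univ : Finset (ZMod q)ˣ) id f (1 * χ)‖ ^ 2
      = ∑ χ ∈ XX q, ‖∑ t ∈ T, (w t : ℂ) * χ (z t : ZMod q)‖ ^ 2 :=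
    Finset.sum_congr rfl fun χ hχ => by rw [h2 χ hχ]
  rw [← h3]
  exact h1

/-- Parseval for injective families -/
theorem parseval_inj (T : Finset α) (w : α → ℝ) (z : α → (ZMod q)ˣ)
    (hz : ∀ a ∈ T, ∀ b ∈ T, z a = z b → a = b) :
    ∑ χ ∈ XX q, ‖∑ t ∈ T, (w t : ℂ) * χ (z t : ZMod q)‖ ^ 2
      = (XX q).card * ∑ t ∈ T, w t ^ 2 := by
  classical
  have h1 := T3Res.sum_norm_sq (⊤ : Subgroup (DirichletCharacter ℂ q)) 1 T z w (by
      intro a ha b hb h
      rw [K_top, Subgroup.mem_bot, mul_inv_eq_one] at h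
      exact hz a ha b hb h)
  have h3 : ∑ χ ∈ XX q, ‖T3Res.RS T z w (1 * χ)‖ ^ 2
      = ∑ χ ∈ XX q, ‖∑ t ∈ T, (w t : ℂ) * χ (z t : ZMod q)‖ ^ 2 :=
    Finset.sum_congr rfl fun χ hχ => by rw [one_mul]; rfl
  rw [← h3]
  exact h1

/-- shifting -/
theorem shift {M : Type*} [AddCommMonoid M] (F : DirichletCharacter ℂ q → M)
    (ψ : DirichletCharacter ℂ q) : ∑ χ ∈ XX q, F (χ * ψ) = ∑ χ ∈ XX q, F χ := by
  refine Finset.sum_nbij' (fun χ => χ * ψ) (fun χ => χ * ψ⁻¹) ?_ ?_ ?_ ?_ ?_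
  · intro χ _; exact mem_XX _
  · intro χ _; exact mem_XX _
  · intro χ _; simp
  · intro χ _; simp
  · intro χ _; rfl

theorem shift_sum (H : Subgroup (DirichletCharacter ℂ q)) (F : DirichletCharacter ℂ q → ℝ) :
    ∑ χ ∈ XX q, ∑ ψ ∈ mem H, F (χ * ψ) = (mem H).card * ∑ χ ∈ XX q, F χ := by
  rw [Finset.sum_comm]
  simp_rw [shift F]
  rw [Finset.sum_const, nsmul_eq_mul]

open scoped Classical in
/-- the mean over a coset -/
theorem coset_mean (H : Subgroup (DirichletCharacter ℂ q)) (χ₀ : DirichletCharacter ℂ q)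
    (T : Finset α) (w : α → ℝ) (z : α → (ZMod q)ˣ) :
    ∑ ψ ∈ mem H, ∑ t ∈ T, (w t : ℂ) * (χ₀ * ψ) (z t : ZMod q)
      = ((mem H).card : ℂ) * ∑ t ∈ T.filter (fun t => z t ∈ K H), (w t : ℂ) * χ₀ (z t : ZMod q) := by
  rw [Finset.sum_comm, Finset.mul_sum, Finset.sum_filter]
  apply Finset.sum_congr rfl; intro t _
  rw [← Finset.mul_sum, Coset.sum_coset]
  split_ifs <;> ring

open scoped Classical in
/-- the second moment of the coset means -/
theorem coset_second (H : Subgroup (DirichletCharacter ℂ q)) (T : Finset α) (w : α → ℝ)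
    (z : α → (ZMod q)ˣ) :
    ∑ χ₀ ∈ XX q, ‖∑ t ∈ T.filter (fun t => z t ∈ K H), (w t : ℂ) * χ₀ (z t : ZMod q)‖ ^ 2
      = (XX q).card * ∑ κ ∈ (Finset.univ : Finset (ZMod q)ˣ).filter (fun κ => κ ∈ K H),
          (∑ t ∈ T.filter (fun t => z t = κ), w t) ^ 2 := by
  rw [parseval, Finset.sum_filter]
  congr 1
  apply Finset.sum_congr rfl
  intro κ _
  rw [Finset.filter_filter]
  split_ifs with h
  · congr 1
    apply Finset.sum_congr _ (fun _ _ => rfl)
    ext t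
    simp only [Finset.mem_filter]
    constructor
    · rintro ⟨a, b, c⟩; exact ⟨a, c⟩
    · rintro ⟨a, c⟩; exact ⟨a, c ▸ h, c⟩
  · have : T.filter (fun t => z t ∈ K H ∧ z t = κ) = ∅ := by
      rw [Finset.filter_eq_empty_iff]
      rintro t _ ⟨a, b⟩
      exact h (b ▸ a)
    rw [this, Finset.sum_empty]
    norm_num

end Pool.Agent.H.MP_3e6494_nt.T6Par
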