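import Mathlib

open Finset

set_option linter.unusedSectionVars false

namespace Pool.Agent.H.MP_3e6494_nt.Block

lemma pow_le_pow_mul_choose (l n : ℕ) (h : l ≤ n) : n ^ l ≤ l ^ l * n.choose l := by
  induction l generalizing n with
  | zero => simp
  | succ l ih =>
    obtain ⟨m, rfl⟩ : ∃ m, n = m + 1 := ⟨n - 1, by omega⟩
    have h1 : (m + 1) * m.choose l = (m + 1).choose (l + 1) * (l + 1) :=
      Nat.add_one_mul_choose_eq m l
    have h2 : (m + 1) ^ l ≤ (l + 1) ^ l * m.choose l := by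
      rcases Nat.eq_zero_or_pos l with hl | hl
      · subst hl; simp
      · have h3 := ih m (by omega)
        have h4 : ((m + 1) * l) ^ l ≤ ((l + 1) * m) ^ l := by
          apply Nat.pow_le_pow_left
          nlinarith
        have h5 : (m + 1) ^ l * l ^ l ≤ ((l + 1) ^ l * m.choose l) * l ^ l := by
          calc (m + 1) ^ l * l ^ l = ((m + 1) * l) ^ l := (mul_pow _ _ _).symm
            _ ≤ ((l + 1) * m) ^ l := h4
            _ = (l + 1) ^ l * m ^ l := mul_pow _ _ _
            _ ≤ (l + 1) ^ l * (l ^ l * m.choose l) := Nat.mul_le_mul_left _ h3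
            _ = _ := by ring
        exact Nat.le_of_mul_le_mul_right h5 (by positivity)
    calc (m + 1) ^ (l + 1) = (m + 1) ^ l * (m + 1) := pow_succ _ _
      _ ≤ ((l + 1) ^ l * m.choose l) * (m + 1) := Nat.mul_le_mul_right _ h2
      _ = (l + 1) ^ l * ((m + 1) * m.choose l) := by ring
      _ = (l + 1) ^ l * ((m + 1).choose (l + 1) * (l + 1)) := by rw [h1]
      _ = _ := by ring

/-- existence of a resonator supported on the set of primes `P`, with at most `N` elements,
gain `E` and divisors at most `Z` -/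
def Has (P : Finset ℕ) (N E Z : ℝ) : Prop :=
  ∃ (M : Finset (Finset ℕ)) (f : Finset ℕ → ℝ) (𝒯 : Finset (Finset ℕ)),
    (∀ S ∈ M, S ⊆ P) ∧ (∀ T ∈ 𝒯, T ⊆ P) ∧ (∀ S, 0 ≤ f S) ∧ (0 < ∑ S ∈ M, f S ^ 2) ∧
    ((M.card : ℝ) ≤ N) ∧ (∀ T ∈ 𝒯, ((∏ p ∈ T, p : ℕ) : ℝ) ≤ Z) ∧
    E * ∑ S ∈ M, f S ^ 2 ≤ ∑ T ∈ 𝒯, (((∏ p ∈ T, p : ℕ) : ℝ) ^ (-(1 / 2) : ℝ)) *
      ∑ S ∈ M.filter (fun S => Disjoint S T ∧ S ∪ T ∈ M), f S * f (S ∪ T)

lemma Has.empty : Has ∅ 1 1 1 := by
  refine ⟨{∅}, fun _ => 1, {∅}, ?_, ?_, ?_, ?_, ?_, ?_, ?_⟩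
  · intro S hS; rw [Finset.mem_singleton] at hS; rw [hS]
  · intro S hS; rw [Finset.mem_singleton] at hS; rw [hS]
  · intro _; norm_num
  · simp
  · simp
  · intro T hT; rw [Finset.mem_singleton] at hT; rw [hT]; simp
  · simp
    exact ⟨∅, by simp⟩

lemma union_inter_left {P P' S S' : Finset ℕ} (hd : Disjoint P P') (hS : S ⊆ P) (hS' : S' ⊆ P') :
    (S ∪ S') ∩ P = S := by
  ext x
  rw [Finset.mem_inter, Finset.mem_union]
  constructor
  · rintro ⟨h | h, hx⟩
    · exact h
    · exact absurd (hS' h) (Finset.disjoint_left.1 hd hx)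
  · intro h; exact ⟨Or.inl h, hS h⟩

lemma union_inter_right {P P' S S' : Finset ℕ} (hd : Disjoint P P') (hS : S ⊆ P) (hS' : S' ⊆ P') :
    (S ∪ S') ∩ P' = S' := by
  rw [Finset.union_comm]
  exact union_inter_left hd.symm hS' hS

lemma Has.combine {P P' : Finset ℕ} {N E Z N' E' Z' : ℝ} (hd : Disjoint P P')
    (h : Has P N E Z) (h' : Has P' N' E' Z') (hE : 0 ≤ E) (hE' : 0 ≤ E') :
    Has (P ∪ P') (N * N') (E * E') (Z * Z') := by
  classical
  obtain ⟨M, f, 𝒯, hM, hT, hf, hF, hN, hZ, hG⟩ := h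
  obtain ⟨M', f', 𝒯', hM', hT', hf', hF', hN', hZ', hG'⟩ := h'
  have hinjM : Set.InjOn (fun x : Finset ℕ × Finset ℕ => x.1 ∪ x.2)
      ((P.powerset ×ˢ P'.powerset : Finset (Finset ℕ × Finset ℕ)) : Set (Finset ℕ × Finset ℕ)) := by
    rintro ⟨a, a'⟩ ha ⟨b, b'⟩ hb hab
    rw [Finset.mem_coe, Finset.mem_product, Finset.mem_powerset, Finset.mem_powerset] at ha hb
    simp only at hab ha hb
    have h1 := union_inter_left hd ha.1 ha.2
    have h2 := union_inter_left hd hb.1 hb.2
    have h3 := union_inter_right hd ha.1 ha.2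
    have h4 := union_inter_right hd hb.1 hb.2
    rw [hab] at h1 h3
    rw [Prod.mk.injEq]
    exact ⟨h1.symm.trans h2, h3.symm.trans h4⟩
  have hsubM : ((M ×ˢ M' : Finset (Finset ℕ × Finset ℕ)) : Set (Finset ℕ × Finset ℕ))
      ⊆ ((P.powerset ×ˢ P'.powerset : Finset (Finset ℕ × Finset ℕ)) : Set (Finset ℕ × Finset ℕ)) := by
    intro x hx
    rw [Finset.mem_coe, Finset.mem_product] at hx ⊢
    exact ⟨Finset.mem_powerset.2 (hM _ hx.1), Finset.mem_powerset.2 (hM' _ hx.2)⟩
  have hsubT : ((𝒯 ×ˢ 𝒯' : Finset (Finset ℕ × Finset ℕ)) : Set (Finset ℕ × Finset ℕ))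
      ⊆ ((P.powerset ×ˢ P'.powerset : Finset (Finset ℕ × Finset ℕ)) : Set (Finset ℕ × Finset ℕ)) := by
    intro x hx
    rw [Finset.mem_coe, Finset.mem_product] at hx ⊢
    exact ⟨Finset.mem_powerset.2 (hT _ hx.1), Finset.mem_powerset.2 (hT' _ hx.2)⟩
  set M'' := (M ×ˢ M').image (fun x : Finset ℕ × Finset ℕ => x.1 ∪ x.2) with hM''
  set 𝒯'' := (𝒯 ×ˢ 𝒯').image (fun x : Finset ℕ × Finset ℕ => x.1 ∪ x.2) with hT''
  set g : Finset ℕ → ℝ := fun U => f (U ∩ P) * f' (U ∩ P') with hg
  have hg0 : ∀ U, 0 ≤ g U := fun U => mul_nonneg (hf _) (hf' _)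
  have hgeq : ∀ S S', S ⊆ P → S' ⊆ P' → g (S ∪ S') = f S * f' S' := by
    intro S S' hS hS'
    rw [hg]
    simp only
    rw [union_inter_left hd hS hS', union_inter_right hd hS hS']
  have hsum : ∑ U ∈ M'', g U ^ 2 = (∑ S ∈ M, f S ^ 2) * ∑ S' ∈ M', f' S' ^ 2 := by
    rw [hM'', Finset.sum_image (hinjM.mono hsubM), Finset.sum_product, Finset.sum_mul_sum]
    apply Finset.sum_congr rfl; intro S hS
    apply Finset.sum_congr rfl; intro S' hS'
    rw [hgeq S S' (hM S hS) (hM' S' hS')]; ring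
  refine ⟨M'', g, 𝒯'', ?_, ?_, hg0, ?_, ?_, ?_, ?_⟩
  · intro U hU
    rw [hM'', Finset.mem_image] at hU
    obtain ⟨⟨S, S'⟩, hx, rfl⟩ := hU
    rw [Finset.mem_product] at hx
    exact Finset.union_subset_union (hM _ hx.1) (hM' _ hx.2)
  · intro U hU
    rw [hT'', Finset.mem_image] at hU
    obtain ⟨⟨S, S'⟩, hx, rfl⟩ := hU
    rw [Finset.mem_product] at hx
    exact Finset.union_subset_union (hT _ hx.1) (hT' _ hx.2)
  · rw [hsum]; exact mul_pos hF hF'
  · rw [hM'', Finset.card_image_of_injOn (hinjM.mono hsubM), Finset.card_product]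
    push_cast
    exact mul_le_mul hN hN' (by positivity) (le_trans (by positivity) hN)
  · intro U hU
    rw [hT'', Finset.mem_image] at hU
    obtain ⟨⟨S, S'⟩, hx, rfl⟩ := hU
    rw [Finset.mem_product] at hx
    have hdd : Disjoint S S' :=
      Finset.disjoint_of_subset_left (hT _ hx.1) (Finset.disjoint_of_subset_right (hT' _ hx.2) hd)
    simp only
    rw [Finset.prod_union hdd]
    push_cast
    have h1 := hZ _ hx.1
    have h2 := hZ' _ hx.2
    push_cast at h1 h2
    exact mul_le_mul h1 h2 (by positivity) (le_trans (by positivity) h1)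
  · rw [hsum]
    have hstep : ∀ x ∈ 𝒯 ×ˢ 𝒯',
        ((((∏ p ∈ x.1, p : ℕ) : ℝ) ^ (-(1 / 2) : ℝ)) *
          ∑ S ∈ M.filter (fun S => Disjoint S x.1 ∧ S ∪ x.1 ∈ M), f S * f (S ∪ x.1))
        * ((((∏ p ∈ x.2, p : ℕ) : ℝ) ^ (-(1 / 2) : ℝ)) *
          ∑ S ∈ M'.filter (fun S => Disjoint S x.2 ∧ S ∪ x.2 ∈ M'), f' S * f' (S ∪ x.2))
        ≤ (((∏ p ∈ x.1 ∪ x.2, p : ℕ) : ℝ) ^ (-(1 / 2) : ℝ)) *
          ∑ S ∈ M''.filter (fun S => Disjoint S (x.1 ∪ x.2) ∧ S ∪ (x.1 ∪ x.2) ∈ M''),
            g S * g (S ∪ (x.1 ∪ x.2)) := by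
      rintro ⟨T, T'⟩ hx
      rw [Finset.mem_product] at hx
      simp only at hx ⊢
      have hdd : Disjoint T T' :=
        Finset.disjoint_of_subset_left (hT _ hx.1) (Finset.disjoint_of_subset_right (hT' _ hx.2) hd)
      rw [Finset.prod_union hdd]
      have hcast : (((∏ p ∈ T, p) * (∏ p ∈ T', p) : ℕ) : ℝ) ^ (-(1 / 2) : ℝ)
          = (((∏ p ∈ T, p : ℕ) : ℝ) ^ (-(1 / 2) : ℝ)) * (((∏ p ∈ T', p : ℕ) : ℝ) ^ (-(1 / 2) : ℝ)) := by
        rw [Nat.cast_mul, Real.mul_rpow (by positivity) (by positivity)]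
      rw [hcast]
      have hre : ((((∏ p ∈ T, p : ℕ) : ℝ) ^ (-(1 / 2) : ℝ)) *
          ∑ S ∈ M.filter (fun S => Disjoint S T ∧ S ∪ T ∈ M), f S * f (S ∪ T))
        * ((((∏ p ∈ T', p : ℕ) : ℝ) ^ (-(1 / 2) : ℝ)) *
          ∑ S ∈ M'.filter (fun S => Disjoint S T' ∧ S ∪ T' ∈ M'), f' S * f' (S ∪ T'))
        = ((((∏ p ∈ T, p : ℕ) : ℝ) ^ (-(1 / 2) : ℝ)) * (((∏ p ∈ T', p : ℕ) : ℝ) ^ (-(1 / 2) : ℝ))) *
          ((∑ S ∈ M.filter (fun S => Disjoint S T ∧ S ∪ T ∈ M), f S * f (S ∪ T)) *
            ∑ S ∈ M'.filter (fun S => Disjoint S T' ∧ S ∪ T' ∈ M'), f' S * f' (S ∪ T')) := by ring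
      rw [hre]
      apply mul_le_mul_of_nonneg_left _ (by positivity)
      rw [Finset.sum_mul_sum, ← Finset.sum_product']
      set A := M.filter (fun S => Disjoint S T ∧ S ∪ T ∈ M) with hA
      set A' := M'.filter (fun S => Disjoint S T' ∧ S ∪ T' ∈ M') with hA'
      have hsubA : ((A ×ˢ A' : Finset (Finset ℕ × Finset ℕ)) : Set (Finset ℕ × Finset ℕ))
          ⊆ ((P.powerset ×ˢ P'.powerset : Finset (Finset ℕ × Finset ℕ)) :
            Set (Finset ℕ × Finset ℕ)) := by
        intro x hx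
        rw [Finset.mem_coe, Finset.mem_product, hA, hA', Finset.mem_filter, Finset.mem_filter] at hx
        rw [Finset.mem_coe, Finset.mem_product]
        exact ⟨Finset.mem_powerset.2 (hM _ hx.1.1), Finset.mem_powerset.2 (hM' _ hx.2.1)⟩
      calc ∑ x ∈ A ×ˢ A', f x.1 * f (x.1 ∪ T) * (f' x.2 * f' (x.2 ∪ T'))
          = ∑ x ∈ A ×ˢ A', g (x.1 ∪ x.2) * g ((x.1 ∪ x.2) ∪ (T ∪ T')) := by
            apply Finset.sum_congr rfl
            rintro ⟨S, S'⟩ hS
            rw [Finset.mem_product, hA, hA', Finset.mem_filter, Finset.mem_filter] at hS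
            simp only at hS ⊢
            have hSP := hM _ hS.1.1
            have hSP' := hM' _ hS.2.1
            rw [hgeq S S' hSP hSP']
            have h1 : (S ∪ S') ∪ (T ∪ T') = (S ∪ T) ∪ (S' ∪ T') := by
              ext x; simp only [Finset.mem_union]; tauto
            rw [h1, hgeq (S ∪ T) (S' ∪ T') (Finset.union_subset hSP (hT _ hx.1))
              (Finset.union_subset hSP' (hT' _ hx.2))]
            ring
        _ = ∑ U ∈ (A ×ˢ A').image (fun x : Finset ℕ × Finset ℕ => x.1 ∪ x.2),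
              g U * g (U ∪ (T ∪ T')) := by
            rw [Finset.sum_image (hinjM.mono hsubA)]
        _ ≤ _ := by
            apply Finset.sum_le_sum_of_subset_of_nonneg
            · intro U hU
              rw [Finset.mem_image] at hU
              obtain ⟨⟨S, S'⟩, hS, rfl⟩ := hU
              rw [Finset.mem_product, hA, hA', Finset.mem_filter, Finset.mem_filter] at hS
              simp only at hS ⊢
              have hSP := hM _ hS.1.1
              have hSP' := hM' _ hS.2.1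
              rw [Finset.mem_filter]
              refine ⟨?_, ?_, ?_⟩
              · rw [hM'', Finset.mem_image]
                exact ⟨(S, S'), Finset.mem_product.2 ⟨hS.1.1, hS.2.1⟩, rfl⟩
              · rw [Finset.disjoint_union_left, Finset.disjoint_union_right,
                  Finset.disjoint_union_right]
                exact ⟨⟨hS.1.2.1, Finset.disjoint_of_subset_left hSP
                  (Finset.disjoint_of_subset_right (hT' _ hx.2) hd)⟩,
                  ⟨(Finset.disjoint_of_subset_left (hT _ hx.1)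
                  (Finset.disjoint_of_subset_right hSP' hd)).symm, hS.2.2.1⟩⟩
              · rw [hM'', Finset.mem_image]
                refine ⟨(S ∪ T, S' ∪ T'), Finset.mem_product.2 ⟨hS.1.2.2, hS.2.2.2⟩, ?_⟩
                simp only
                ext x; simp only [Finset.mem_union]; tauto
            · intro U _ _; exact mul_nonneg (hg0 _) (hg0 _)
    have hsumT : ∑ U ∈ 𝒯'', (((∏ p ∈ U, p : ℕ) : ℝ) ^ (-(1 / 2) : ℝ)) *
        ∑ S ∈ M''.filter (fun S => Disjoint S U ∧ S ∪ U ∈ M''), g S * g (S ∪ U)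
        = ∑ x ∈ 𝒯 ×ˢ 𝒯', (((∏ p ∈ x.1 ∪ x.2, p : ℕ) : ℝ) ^ (-(1 / 2) : ℝ)) *
          ∑ S ∈ M''.filter (fun S => Disjoint S (x.1 ∪ x.2) ∧ S ∪ (x.1 ∪ x.2) ∈ M''),
            g S * g (S ∪ (x.1 ∪ x.2)) := by
      rw [hT'', Finset.sum_image (hinjM.mono hsubT)]
    rw [hsumT]
    refine le_trans ?_ (Finset.sum_le_sum hstep)
    have hprod : ∀ (F G : Finset ℕ → ℝ), ∑ x ∈ 𝒯 ×ˢ 𝒯', F x.1 * G x.2
        = (∑ T ∈ 𝒯, F T) * ∑ T ∈ 𝒯', G T := by
      intro F G; rw [Finset.sum_product, Finset.sum_mul_sum]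
    rw [hprod (fun T => (((∏ p ∈ T, p : ℕ) : ℝ) ^ (-(1 / 2) : ℝ)) *
          ∑ S ∈ M.filter (fun S => Disjoint S T ∧ S ∪ T ∈ M), f S * f (S ∪ T))
      (fun T => (((∏ p ∈ T, p : ℕ) : ℝ) ^ (-(1 / 2) : ℝ)) *
          ∑ S ∈ M'.filter (fun S => Disjoint S T ∧ S ∪ T ∈ M'), f' S * f' (S ∪ T))]
    have e : E * E' * ((∑ S ∈ M, f S ^ 2) * ∑ S' ∈ M', f' S' ^ 2)
        = (E * ∑ S ∈ M, f S ^ 2) * (E' * ∑ S' ∈ M', f' S' ^ 2) := by ring
    rw [e]
    apply mul_le_mul hG hG' (mul_nonneg hE' hF'.le)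
    exact le_trans (mul_nonneg hE hF.le) hG

/-- one block: two shells of subsets of a set of primes -/
lemma one_block (P : Finset ℕ) (Y : ℝ) (hY : 1 ≤ Y) (hP : ∀ p ∈ P, 1 ≤ p ∧ (p : ℝ) ≤ Y)
    (J l : ℕ) (hlJ : l ≤ J) (hJM : J ≤ P.card)
    (hl : 9 * (l : ℝ) ^ 2 * Y ≤ ((P.card - J : ℕ) : ℝ) * J) :
    Has P (P.card.choose J + P.card.choose (J - l)) (Real.exp l / 2) (Y ^ l) := by
  classical
  set m := P.card with hm
  set A := Finset.powersetCard (J - l) P with hA
  set B := Finset.powersetCard J P with hB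
  set f : Finset ℕ → ℝ := fun S => 1 / Real.sqrt (m.choose S.card) with hf
  have hf0 : ∀ S, 0 ≤ f S := fun S => by rw [hf]; positivity
  have hcA : (0 : ℝ) < (m.choose (J - l) : ℝ) := by
    exact_mod_cast Nat.choose_pos (by omega)
  have hcB : (0 : ℝ) < (m.choose J : ℝ) := by
    exact_mod_cast Nat.choose_pos (by omega)
  have hsA : ∑ S ∈ A, f S ^ 2 = 1 := by
    have : ∀ S ∈ A, f S ^ 2 = 1 / (m.choose (J - l) : ℝ) := by
      intro S hS
      rw [hA, Finset.mem_powersetCard] at hS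
      rw [hf]
      simp only
      rw [hS.2, div_pow, Real.sq_sqrt hcA.le, one_pow]
    rw [Finset.sum_congr rfl this, Finset.sum_const, hA, Finset.card_powersetCard, nsmul_eq_mul,
      ← hm]
    field_simp
  have hsB : ∑ S ∈ B, f S ^ 2 = 1 := by
    have : ∀ S ∈ B, f S ^ 2 = 1 / (m.choose J : ℝ) := by
      intro S hS
      rw [hB, Finset.mem_powersetCard] at hS
      rw [hf]
      simp only
      rw [hS.2, div_pow, Real.sq_sqrt hcB.le, one_pow]
    rw [Finset.sum_congr rfl this, Finset.sum_const, hB, Finset.card_powersetCard, nsmul_eq_mul,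
      ← hm]
    field_simp
  have hle2 : ∑ S ∈ A ∪ B, f S ^ 2 ≤ 2 := by
    have h1 : ∑ S ∈ A ∪ B, f S ^ 2 ≤ ∑ S ∈ A, f S ^ 2 + ∑ S ∈ B, f S ^ 2 := by
      rw [← Finset.sum_union_inter]
      have : 0 ≤ ∑ S ∈ A ∩ B, f S ^ 2 := Finset.sum_nonneg fun _ _ => sq_nonneg _
      linarith
    rw [hsA, hsB] at h1
    linarith
  have hge1 : 1 ≤ ∑ S ∈ A ∪ B, f S ^ 2 := by
    rw [← hsB]
    exact Finset.sum_le_sum_of_subset_of_nonneg Finset.subset_union_right
      (fun _ _ _ => sq_nonneg _)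
  have hprodle : ∀ T ∈ Finset.powersetCard l P, ((∏ p ∈ T, p : ℕ) : ℝ) ≤ Y ^ l := by
    intro T hT
    rw [Finset.mem_powersetCard] at hT
    rw [Nat.cast_prod, ← hT.2, ← Finset.prod_const]
    apply Finset.prod_le_prod
    · intro p _; positivity
    · intro p hp; exact (hP p (hT.1 hp)).2
  refine ⟨A ∪ B, f, Finset.powersetCard l P, ?_, ?_, hf0, ?_, ?_, hprodle, ?_⟩
  · intro S hS
    rw [Finset.mem_union, hA, hB, Finset.mem_powersetCard, Finset.mem_powersetCard] at hS
    rcases hS with h | h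
    · exact h.1
    · exact h.1
  · intro T hT
    rw [Finset.mem_powersetCard] at hT
    exact hT.1
  · linarith
  · have h1 := Finset.card_union_le A B
    rw [hA, hB, Finset.card_powersetCard, Finset.card_powersetCard, ← hm] at h1
    rw [hA, hB]
    have h2 : ((Finset.powersetCard (J - l) P ∪ Finset.powersetCard J P).card : ℝ)
        ≤ ((m.choose (J - l) + m.choose J : ℕ) : ℝ) := by exact_mod_cast h1
    push_cast at h2
    linarith
  · -- the gain
    have hYl : (0 : ℝ) < Y ^ l := by positivity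
    set w : ℝ := (Y ^ l) ^ (-(1 / 2) : ℝ) with hw
    have hw0 : 0 ≤ w := by rw [hw]; positivity
    set c0 : ℝ := 1 / Real.sqrt ((m.choose (J - l) : ℝ) * (m.choose J : ℝ)) with hc0
    have hc00 : 0 ≤ c0 := by rw [hc0]; positivity
    have hT1 : ∀ T ∈ Finset.powersetCard l P,
        w * (((m - l).choose (J - l) : ℝ) * c0) ≤ (((∏ p ∈ T, p : ℕ) : ℝ) ^ (-(1 / 2) : ℝ)) *
          ∑ S ∈ (A ∪ B).filter (fun S => Disjoint S T ∧ S ∪ T ∈ A ∪ B), f S * f (S ∪ T) := by
      intro T hT
      have hTle := hprodle T hT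
      rw [Finset.mem_powersetCard] at hT
      have hTpos : (0 : ℝ) < ((∏ p ∈ T, p : ℕ) : ℝ) := by
        rw [Nat.cast_prod]
        apply Finset.prod_pos
        intro p hp
        have := (hP p (hT.1 hp)).1
        exact_mod_cast this
      apply mul_le_mul
      · rw [hw]
        exact Real.rpow_le_rpow_of_nonpos hTpos hTle (by norm_num)
      · have hsub : Finset.powersetCard (J - l) (P \ T) ⊆
            (A ∪ B).filter (fun S => Disjoint S T ∧ S ∪ T ∈ A ∪ B) := by
          intro S hS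
          rw [Finset.mem_powersetCard] at hS
          have hSP : S ⊆ P := hS.1.trans Finset.sdiff_subset
          have hdST : Disjoint S T := by
            rw [Finset.disjoint_left]
            intro x hx hxT
            exact (Finset.mem_sdiff.1 (hS.1 hx)).2 hxT
          rw [Finset.mem_filter, Finset.mem_union, Finset.mem_union]
          refine ⟨Or.inl ?_, hdST, Or.inr ?_⟩
          · rw [hA, Finset.mem_powersetCard]; exact ⟨hSP, hS.2⟩
          · rw [hB, Finset.mem_powersetCard]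
            refine ⟨Finset.union_subset hSP hT.1, ?_⟩
            rw [Finset.card_union_of_disjoint hdST, hS.2, hT.2]
            omega
        calc ((m - l).choose (J - l) : ℝ) * c0
            = ∑ S ∈ Finset.powersetCard (J - l) (P \ T), c0 := by
              rw [Finset.sum_const, Finset.card_powersetCard, Finset.card_sdiff_of_subset hT.1, hT.2,
                ← hm, nsmul_eq_mul]
          _ = ∑ S ∈ Finset.powersetCard (J - l) (P \ T), f S * f (S ∪ T) := by
              apply Finset.sum_congr rfl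
              intro S hS
              rw [Finset.mem_powersetCard] at hS
              have hdST : Disjoint S T := by
                rw [Finset.disjoint_left]
                intro x hx hxT
                exact (Finset.mem_sdiff.1 (hS.1 hx)).2 hxT
              have hc1 : S.card = J - l := hS.2
              have hc2 : (S ∪ T).card = J := by
                rw [Finset.card_union_of_disjoint hdST, hS.2, hT.2]; omega
              rw [hf]
              simp only
              rw [hc1, hc2, hc0, Real.sqrt_mul hcA.le]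
              rw [one_div_mul_one_div]
          _ ≤ _ := Finset.sum_le_sum_of_subset_of_nonneg hsub
              (fun _ _ _ => mul_nonneg (hf0 _) (hf0 _))
      · positivity
      · positivity
    have hsumT := Finset.sum_le_sum hT1
    rw [Finset.sum_const, Finset.card_powersetCard, ← hm, nsmul_eq_mul] at hsumT
    refine le_trans ?_ hsumT
    -- counting identities
    have hid1 : (m.choose J : ℝ) * (J.choose l : ℝ) = (m.choose l : ℝ) * ((m - l).choose (J - l) : ℝ) := by
      exact_mod_cast Nat.choose_mul (n := m) (k := J) (s := l) hlJ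
    have hid2 : (m.choose J : ℝ) * (J.choose l : ℝ)
        = (m.choose (J - l) : ℝ) * ((m - (J - l)).choose l : ℝ) := by
      have h1 := Nat.choose_mul (n := m) (k := J) (s := J - l) (Nat.sub_le J l)
      have h2 : J - (J - l) = l := by omega
      rw [h2, Nat.choose_symm hlJ] at h1
      exact_mod_cast h1
    set W : ℝ := (m.choose J : ℝ) * (J.choose l : ℝ) with hW
    have hW0 : 0 ≤ W := by rw [hW]; positivity
    have hWc : W * c0 = Real.sqrt ((J.choose l : ℝ) * ((m - (J - l)).choose l : ℝ)) := by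
      have h1 : W ^ 2 = ((m.choose (J - l) : ℝ) * (m.choose J : ℝ)) *
          ((J.choose l : ℝ) * ((m - (J - l)).choose l : ℝ)) := by
        calc W ^ 2 = ((m.choose J : ℝ) * (J.choose l : ℝ)) *
              ((m.choose (J - l) : ℝ) * ((m - (J - l)).choose l : ℝ)) := by
              rw [← hid2, hW]; ring
          _ = _ := by ring
      have h2 : W = Real.sqrt ((m.choose (J - l) : ℝ) * (m.choose J : ℝ)) *
          Real.sqrt ((J.choose l : ℝ) * ((m - (J - l)).choose l : ℝ)) := by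
        rw [← Real.sqrt_mul (by positivity), ← h1, Real.sqrt_sq hW0]
      rw [hc0]
      have h3 : 0 < Real.sqrt ((m.choose (J - l) : ℝ) * (m.choose J : ℝ)) :=
        Real.sqrt_pos.2 (by positivity)
      rw [mul_one_div, div_eq_iff h3.ne', mul_comm]
      exact h2
    have hlow : (m.choose l : ℝ) * (w * (((m - l).choose (J - l) : ℝ) * c0))
        = w * Real.sqrt ((J.choose l : ℝ) * ((m - (J - l)).choose l : ℝ)) := by
      rw [← hWc, hid1]; ring
    rw [hlow]
    -- numeric bound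
    have hexp : Real.exp l ≤ w * Real.sqrt ((J.choose l : ℝ) * ((m - (J - l)).choose l : ℝ)) := by
      have hw2 : w = 1 / Real.sqrt (Y ^ l) := by
        rw [hw, Real.rpow_neg hYl.le, ← Real.sqrt_eq_rpow, one_div]
      rcases Nat.eq_zero_or_pos l with hl0 | hl0
      · subst hl0
        rw [hw2]; simp
      have hl0' : (0 : ℝ) < l := by exact_mod_cast hl0
      have h1 : (J : ℝ) ^ l ≤ (l : ℝ) ^ l * (J.choose l : ℝ) := by
        exact_mod_cast pow_le_pow_mul_choose l J hlJ
      have h2 : (((m - J : ℕ)) : ℝ) ^ l ≤ (l : ℝ) ^ l * ((m - (J - l)).choose l : ℝ) := by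
        have h3 : (m - (J - l)) ^ l ≤ l ^ l * (m - (J - l)).choose l :=
          pow_le_pow_mul_choose l (m - (J - l)) (by omega)
        have h4 : (m - J) ^ l ≤ (m - (J - l)) ^ l := Nat.pow_le_pow_left (by omega) l
        exact_mod_cast h4.trans h3
      have h5 : (9 * (l : ℝ) ^ 2 * Y) ^ l ≤ (((m - J : ℕ) : ℝ) * J) ^ l :=
        pow_le_pow_left₀ (by positivity) hl l
      have h6 : (((m - J : ℕ) : ℝ) * J) ^ l ≤ ((l : ℝ) ^ l * ((m - (J - l)).choose l : ℝ)) *
          ((l : ℝ) ^ l * (J.choose l : ℝ)) := by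
        rw [mul_pow]
        exact mul_le_mul h2 h1 (by positivity) (by positivity)
      have h7 : (9 : ℝ) ^ l * Y ^ l ≤ (J.choose l : ℝ) * ((m - (J - l)).choose l : ℝ) := by
        have h8 : ((9 : ℝ) ^ l * Y ^ l) * ((l : ℝ) ^ l * (l : ℝ) ^ l)
            ≤ ((J.choose l : ℝ) * ((m - (J - l)).choose l : ℝ)) * ((l : ℝ) ^ l * (l : ℝ) ^ l) := by
          calc ((9 : ℝ) ^ l * Y ^ l) * ((l : ℝ) ^ l * (l : ℝ) ^ l) = (9 * (l : ℝ) ^ 2 * Y) ^ l := by
                rw [mul_pow, mul_pow, ← pow_mul, mul_comm 2 l, pow_mul]; ring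
            _ ≤ _ := h5.trans h6
            _ = _ := by ring
        exact le_of_mul_le_mul_right h8 (by positivity)
      have h9 : (3 : ℝ) ^ l * Real.sqrt (Y ^ l)
          ≤ Real.sqrt ((J.choose l : ℝ) * ((m - (J - l)).choose l : ℝ)) := by
        have h10 : (3 : ℝ) ^ l * Real.sqrt (Y ^ l) = Real.sqrt ((9 : ℝ) ^ l * Y ^ l) := by
          rw [Real.sqrt_mul (by positivity)]
          congr 1
          have : (9 : ℝ) ^ l = ((3 : ℝ) ^ l) ^ 2 := by
            rw [← pow_mul, mul_comm, pow_mul]; norm_num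
          rw [this, Real.sqrt_sq (by positivity)]
        rw [h10]
        exact Real.sqrt_le_sqrt h7
      have h11 : Real.exp l ≤ (3 : ℝ) ^ l := by
        have : Real.exp (l : ℝ) = (Real.exp 1) ^ l := by
          rw [← Real.exp_nat_mul, mul_one]
        rw [this]
        exact pow_le_pow_left₀ (Real.exp_pos 1).le (by linarith [Real.exp_one_lt_d9]) l
      have hsq : 0 < Real.sqrt (Y ^ l) := Real.sqrt_pos.2 hYl
      rw [hw2, one_div_mul_eq_div, le_div_iff₀ hsq]
      exact (mul_le_mul_of_nonneg_right h11 hsq.le).trans h9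
    calc Real.exp l / 2 * ∑ S ∈ A ∪ B, f S ^ 2 ≤ Real.exp l / 2 * 2 := by
          apply mul_le_mul_of_nonneg_left hle2 (by positivity)
      _ = Real.exp l := by ring
      _ ≤ _ := hexp

/-- entropy bound for binomial coefficients -/
lemma choose_le_exp (m j : ℕ) (a : ℝ) (ha : 0 < a) (ham : a ≤ m) (hja : (j : ℝ) ≤ a) :
    (m.choose j : ℝ) ≤ Real.exp (a * (1 + Real.log (m / a))) := by
  have hm : (0 : ℝ) < m := lt_of_lt_of_le ha ham
  set x : ℝ := a / m with hx
  have hx0 : 0 < x := by positivity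
  have h1 : (m.choose j : ℝ) * x ^ j ≤ Real.exp a := by
    by_cases hj : j ≤ m
    · have h2 : (m.choose j : ℝ) * x ^ j ≤ (x + 1) ^ m := by
        rw [add_pow]
        have h3 : x ^ j * 1 ^ (m - j) * (m.choose j : ℝ)
            ≤ ∑ k ∈ Finset.range (m + 1), x ^ k * 1 ^ (m - k) * (m.choose k : ℝ) :=
          Finset.single_le_sum (f := fun k => x ^ k * 1 ^ (m - k) * (m.choose k : ℝ))
            (fun k _ => by positivity) (Finset.mem_range.2 (by omega))
        rw [one_pow, mul_one, mul_comm] at h3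
        exact h3
      refine h2.trans ?_
      have h4 : x + 1 ≤ Real.exp x := Real.add_one_le_exp x
      calc (x + 1) ^ m ≤ (Real.exp x) ^ m := pow_le_pow_left₀ (by positivity) h4 m
        _ = Real.exp (m * x) := (Real.exp_nat_mul x m).symm
        _ = Real.exp a := by rw [hx]; congr 1; field_simp
    · rw [Nat.choose_eq_zero_of_lt (by omega)]
      simp [Real.exp_nonneg]
  have h2 : Real.exp (-(a * Real.log (m / a))) ≤ x ^ j := by
    have h3 : x ^ j = Real.exp (-(j * Real.log (m / a))) := by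
      have h4 : Real.log (m / a) = - Real.log x := by
        rw [hx, Real.log_div hm.ne' ha.ne', Real.log_div ha.ne' hm.ne']; ring
      rw [h4, mul_neg, neg_neg, mul_comm, Real.exp_mul, Real.exp_log hx0, Real.rpow_natCast]
    rw [h3]
    apply Real.exp_le_exp.2
    apply neg_le_neg
    apply mul_le_mul_of_nonneg_right hja
    apply Real.log_nonneg
    rw [le_div_iff₀ ha]; linarith
  have h3 : (m.choose j : ℝ) * Real.exp (-(a * Real.log (m / a))) ≤ Real.exp a :=
    (mul_le_mul_of_nonneg_left h2 (by positivity)).trans h1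
  have h4 : Real.exp (a * (1 + Real.log (m / a)))
      = Real.exp a * Real.exp (a * Real.log (m / a)) := by
    rw [← Real.exp_add]; congr 1; ring
  rw [h4]
  have h5 : (m.choose j : ℝ) = ((m.choose j : ℝ) * Real.exp (-(a * Real.log (m / a))))
      * Real.exp (a * Real.log (m / a)) := by
    rw [mul_assoc, ← Real.exp_add]; simp
  rw [h5]
  exact mul_le_mul_of_nonneg_right h3 (Real.exp_pos _).le

lemma Has.mono {P : Finset ℕ} {N E Z N' E' Z' : ℝ} (h : Has P N E Z) (hN : N ≤ N') (hE : E' ≤ E)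
    (hZ : Z ≤ Z') : Has P N' E' Z' := by
  obtain ⟨M, f, 𝒯, h1, h2, h3, h4, h5, h6, h7⟩ := h
  exact ⟨M, f, 𝒯, h1, h2, h3, h4, h5.trans hN, fun T hT => (h6 T hT).trans hZ,
    (mul_le_mul_of_nonneg_right hE h4.le).trans h7⟩

/-- combination of several blocks -/
lemma Has.iterate (P : ℕ → Finset ℕ) (N E Z : ℕ → ℝ) (K : ℕ)
    (hd : ∀ i j, i < K → j < K → i ≠ j → Disjoint (P i) (P j))
    (h : ∀ i < K, Has (P i) (N i) (E i) (Z i)) (hE : ∀ i < K, 0 ≤ E i) :
    Has ((Finset.range K).biUnion P) (∏ i ∈ Finset.range K, N i) (∏ i ∈ Finset.range K, E i)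
      (∏ i ∈ Finset.range K, Z i) := by
  induction K with
  | zero => simpa using Has.empty
  | succ K ih =>
    have ih' := ih (fun i j hi hj hij => hd i j (by omega) (by omega) hij)
      (fun i hi => h i (by omega)) (fun i hi => hE i (by omega))
    have hdK : Disjoint ((Finset.range K).biUnion P) (P K) := by
      rw [Finset.disjoint_biUnion_left]
      intro i hi
      rw [Finset.mem_range] at hi
      exact hd i K (by omega) (by omega) (by omega)
    have := ih'.combine hdK (h K (by omega))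
      (Finset.prod_nonneg fun i hi => hE i (by rw [Finset.mem_range] at hi; omega))
      (hE K (by omega))
    rw [Finset.prod_range_succ, Finset.prod_range_succ, Finset.prod_range_succ,
      Finset.range_add_one, Finset.biUnion_insert, Finset.union_comm]
    exact this

end Pool.Agent.H.MP_3e6494_nt.Block
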