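import Mathlib

open Finset Filter Topology

namespace Pool.Agent.H.MP_3e6494_nt.Primes

/-- primes in `(x, 4x]` -/
noncomputable def blk (x : ℝ) : Finset ℕ :=
  (Finset.Ioc ⌊x⌋₊ ⌊4 * x⌋₊).filter Nat.Prime

lemma mem_blk {x : ℝ} (hx : 0 ≤ x) {p : ℕ} (hp : p ∈ blk x) :
    p.Prime ∧ x < p ∧ (p : ℝ) ≤ 4 * x := by
  unfold blk at hp
  rw [Finset.mem_filter, Finset.mem_Ioc] at hp
  refine ⟨hp.2, ?_, ?_⟩
  · exact (Nat.floor_lt hx).1 hp.1.1
  · exact (Nat.le_floor_iff (by positivity)).1 hp.1.2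

lemma theta_sub {x : ℝ} (hx : 1 ≤ x) :
    Chebyshev.theta (4 * x) - Chebyshev.theta x ≤ (blk x).card * Real.log (4 * x) := by
  have h1 : Chebyshev.theta (4 * x) = Chebyshev.theta x + ∑ p ∈ blk x, Real.log p := by
    unfold Chebyshev.theta blk
    rw [← Finset.sum_union]
    · congr 1
      rw [← Finset.filter_union]
      congr 1
      rw [Finset.Ioc_union_Ioc_eq_Ioc (Nat.zero_le _)]
      exact Nat.floor_le_floor (by linarith)
    · apply Finset.disjoint_filter_filter
      rw [Finset.disjoint_left]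
      intro a ha hb
      rw [Finset.mem_Ioc] at ha hb
      omega
  rw [h1, add_sub_cancel_left]
  have h2 : ∑ p ∈ blk x, Real.log p ≤ ∑ p ∈ blk x, Real.log (4 * x) := by
    apply Finset.sum_le_sum
    intro p hp
    have := mem_blk (by linarith) hp
    apply Real.log_le_log
    · exact_mod_cast this.1.pos
    · exact this.2.2
  rw [Finset.sum_const, nsmul_eq_mul] at h2
  exact h2

/-- Chebyshev type lower bound for the number of primes in `(x, 4x]` -/
lemma card_blk : ∀ᶠ x : ℝ in atTop, x / 2 ≤ (blk x).card * Real.log (4 * x) := by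
  have h1 : ∀ᶠ x : ℝ in atTop, Real.log (4 * x + 2) ≤ (1 / 10) * x := by
    have h := (Real.isLittleO_log_id_atTop.bound (show (0 : ℝ) < 1 / 100 by norm_num))
    have ht : Tendsto (fun x : ℝ => 4 * x + 2) atTop atTop :=
      tendsto_atTop_add_const_right _ _ (tendsto_id.const_mul_atTop (by norm_num))
    filter_upwards [ht.eventually h, eventually_ge_atTop (1 : ℝ)] with x hx hx1
    simp only [id] at hx
    rw [Real.norm_of_nonneg (by positivity : (0:ℝ) ≤ 4 * x + 2)] at hx
    have := (le_abs_self _).trans hx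
    linarith
  have h2 : ∀ᶠ x : ℝ in atTop, 4 * Real.sqrt x * Real.log (4 * x) ≤ (1 / 10) * x := by
    have h := ((isLittleO_log_rpow_atTop (show (0 : ℝ) < 1 / 2 by norm_num)).bound
      (show (0 : ℝ) < 1 / 1000 by norm_num))
    have ht : Tendsto (fun x : ℝ => 4 * x) atTop atTop :=
      (tendsto_id.const_mul_atTop (by norm_num))
    filter_upwards [ht.eventually h, eventually_ge_atTop (1 : ℝ)] with x hx hx1
    rw [Real.norm_of_nonneg (by positivity : (0:ℝ) ≤ (4 * x) ^ (1 / 2 : ℝ))] at hx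
    have h3 := (le_abs_self _).trans hx
    rw [← Real.sqrt_eq_rpow, Real.sqrt_mul (by norm_num)] at h3
    have h4 : Real.sqrt 4 = 2 := by
      rw [show (4 : ℝ) = 2 ^ 2 by norm_num, Real.sqrt_sq (by norm_num)]
    rw [h4] at h3
    have h5 : Real.sqrt x * Real.sqrt x = x := Real.mul_self_sqrt (by linarith)
    have h6 : 0 ≤ Real.sqrt x := Real.sqrt_nonneg x
    calc 4 * Real.sqrt x * Real.log (4 * x) ≤ 4 * Real.sqrt x * (1 / 1000 * (2 * Real.sqrt x)) :=
          mul_le_mul_of_nonneg_left h3 (by positivity)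
      _ = (8 / 1000) * (Real.sqrt x * Real.sqrt x) := by ring
      _ = (8 / 1000) * x := by rw [h5]
      _ ≤ _ := by linarith
  filter_upwards [h1, h2, eventually_ge_atTop (10 : ℝ)] with x hx1 hx2 hx3
  have h3 := Chebyshev.theta_ge' (x := 4 * x) (by linarith)
  have h4 := Chebyshev.theta_le_log4_mul_x (x := x) (by linarith)
  have h5 := theta_sub (x := x) (by linarith)
  have hs : Real.sqrt (4 * x) = 2 * Real.sqrt x := by
    rw [Real.sqrt_mul (by norm_num)]
    congr 1
    rw [show (4 : ℝ) = 2 ^ 2 by norm_num, Real.sqrt_sq (by norm_num)]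
  have hl4 : Real.log 4 = 2 * Real.log 2 := by
    rw [show (4 : ℝ) = 2 ^ 2 by norm_num, Real.log_pow]; norm_num
  rw [hs] at h3
  rw [hl4] at h4
  have hl2 : 0.69 < Real.log 2 := by linarith [Real.log_two_gt_d9]
  have hl2' : Real.log 2 < 0.7 := by linarith [Real.log_two_lt_d9]
  nlinarith

end Pool.Agent.H.MP_3e6494_nt.Primes
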