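import Mathlib
import Pool.Agent.H.MP_3e6494_nt.helper50.Block
import Pool.Agent.H.MP_3e6494_nt.helper50.Primes

open Finset Filter Topology

set_option linter.unusedVariables false

namespace Pool.Agent.H.MP_3e6494_nt.Param

/-- the large parameter conditions -/
structure Good (n u v : ℝ) (K : ℕ) : Prop where
  hu : u = Real.log n
  hv : v = Real.log u
  hK : K = ⌊u / 2⌋₊
  v2 : 2 ≤ v
  u1 : 1 ≤ u
  vu : v ≤ u
  big : 403200 * u ^ 4 ≤ n
  n1000 : 1000 ≤ n
  cheb : ∀ x : ℝ, n ≤ x → x / 2 ≤ (Primes.blk x).card * Real.log (4 * x)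

lemma good_eventually : ∀ᶠ n : ℝ in atTop,
    Good n (Real.log n) (Real.log (Real.log n)) ⌊Real.log n / 2⌋₊ := by
  obtain ⟨x0, hx0⟩ := (eventually_atTop.1 Primes.card_blk)
  have h1 : ∀ᶠ n : ℝ in atTop, 2 ≤ Real.log (Real.log n) :=
    (Real.tendsto_log_atTop.comp Real.tendsto_log_atTop).eventually_ge_atTop 2
  have h2 : ∀ᶠ n : ℝ in atTop, 1 ≤ Real.log n := Real.tendsto_log_atTop.eventually_ge_atTop 1
  have h3 : ∀ᶠ n : ℝ in atTop, 403200 * Real.log n ^ 4 ≤ n := by
    have h := (Real.isLittleO_pow_log_id_atTop (n := 4)).bound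
      (show (0 : ℝ) < 1 / 403200 by norm_num)
    filter_upwards [h, eventually_ge_atTop (1 : ℝ)] with n hn hn1
    simp only [id] at hn
    rw [Real.norm_of_nonneg (by linarith : (0 : ℝ) ≤ n)] at hn
    have := (le_abs_self _).trans hn
    linarith
  filter_upwards [h1, h2, h3, eventually_ge_atTop (1000 : ℝ), eventually_ge_atTop x0]
    with n a1 a2 a3 a4 a5
  refine ⟨rfl, rfl, rfl, a1, a2, ?_, a3, a4, ?_⟩
  · have := Real.log_le_sub_one_of_pos (show 0 < Real.log n by linarith)
    linarith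
  · intro x hx
    exact hx0 x (a5.trans hx)

variable {n u v : ℝ} {K : ℕ}

lemma Good.n0 (h : Good n u v K) : 0 < n := by linarith [h.n1000]
lemma Good.u0 (h : Good n u v K) : 0 < u := by linarith [h.u1]
lemma Good.v0 (h : Good n u v K) : 0 < v := by linarith [h.v2]

lemma Good.exp_u (h : Good n u v K) : Real.exp u = n := by
  rw [h.hu]; exact Real.exp_log h.n0

lemma Good.exp_v (h : Good n u v K) : Real.exp v = u := by
  rw [h.hv]; exact Real.exp_log h.u0

lemma Good.K_le (h : Good n u v K) : (K : ℝ) ≤ u / 2 := by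
  rw [h.hK]; exact Nat.floor_le (by linarith [h.u0])

lemma Good.K_ge (h : Good n u v K) : u / 2 < K + 1 := by
  rw [h.hK]; exact Nat.lt_floor_add_one _

lemma Good.u_le_n (h : Good n u v K) : u ≤ n := by
  have h1 := h.big
  have h2 : u ≤ u ^ 4 := le_self_pow₀ h.u1 (by norm_num)
  have h3 : 0 ≤ u ^ 4 := by have := h.u0; positivity
  linarith

lemma Good.four_pow (h : Good n u v K) : (4 : ℝ) ^ K ≤ n := by
  have hl4 : Real.log 4 = 2 * Real.log 2 := by
    rw [show (4 : ℝ) = 2 ^ 2 by norm_num, Real.log_pow]; norm_num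
  have h1 : (4 : ℝ) ^ K = Real.exp (K * Real.log 4) := by
    rw [Real.exp_nat_mul, Real.exp_log (by norm_num)]
  rw [h1, ← h.exp_u]
  apply Real.exp_le_exp.2
  rw [hl4]
  have h2 := h.K_le
  have h3 : Real.log 2 < 1 := by linarith [Real.log_two_lt_d9]
  have h4 : 0 < Real.log 2 := Real.log_pos (by norm_num)
  have h5 : (0 : ℝ) ≤ K := by positivity
  nlinarith

/-- the starting points of the blocks -/
noncomputable def xs (n u : ℝ) (k : ℕ) : ℝ := 4 ^ k * (n * u)

lemma Good.xs_ge (h : Good n u v K) (k : ℕ) : n ≤ xs n u k := by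
  unfold xs
  have h1 : (1 : ℝ) ≤ 4 ^ k := one_le_pow₀ (by norm_num)
  have h2 : n ≤ n * u := by nlinarith [h.n0, h.u1]
  have h3 : 0 ≤ n * u := by have := h.n0; have := h.u0; positivity
  nlinarith

lemma Good.four_xs_le (h : Good n u v K) {k : ℕ} (hk : k < K) : 4 * xs n u k ≤ n ^ 3 := by
  unfold xs
  have h1 : (4 : ℝ) * 4 ^ k ≤ 4 ^ K := by
    rw [← pow_succ']
    exact pow_le_pow_right₀ (by norm_num) hk
  have h2 := h.four_pow
  have h3 := h.u_le_n
  have h4 := h.n0
  have h5 := h.u0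
  calc 4 * (4 ^ k * (n * u)) = (4 * 4 ^ k) * (n * u) := by ring
    _ ≤ n * (n * n) := by
        apply mul_le_mul (h1.trans h2) _ (by positivity) h4.le
        exact mul_le_mul_of_nonneg_left h3 h4.le
    _ = n ^ 3 := by ring

lemma Good.log_xs_le (h : Good n u v K) {k : ℕ} (hk : k < K) :
    Real.log (4 * xs n u k) ≤ 3 * u := by
  have h1 : 0 < 4 * xs n u k := by
    have := h.xs_ge k; have := h.n0; linarith
  calc Real.log (4 * xs n u k) ≤ Real.log (n ^ 3) := Real.log_le_log h1 (h.four_xs_le hk)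
    _ = 3 * u := by rw [Real.log_pow, h.hu]; norm_num

/-- number of primes used in the blocks -/
noncomputable def ms (n : ℝ) (k : ℕ) : ℕ := ⌊4 ^ k * n / 6⌋₊

lemma Good.ms_le (h : Good n u v K) {k : ℕ} (hk : k < K) :
    ms n k ≤ (Primes.blk (xs n u k)).card := by
  unfold ms
  have h1 := h.cheb _ (h.xs_ge k)
  have h2 := h.log_xs_le hk
  have h3 : 4 ^ k * n / 6 ≤ ((Primes.blk (xs n u k)).card : ℝ) := by
    have h4 : xs n u k / 2 ≤ ((Primes.blk (xs n u k)).card : ℝ) * (3 * u) :=
      h1.trans (mul_le_mul_of_nonneg_left h2 (by positivity))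
    unfold xs at h4 ⊢
    have h5 := h.u0
    have h6 : (4 ^ k * n / 6) * (3 * u) ≤ ((Primes.blk (4 ^ k * (n * u))).card : ℝ) * (3 * u) := by
      calc (4 ^ k * n / 6) * (3 * u) = 4 ^ k * (n * u) / 2 := by ring
        _ ≤ _ := h4
    exact le_of_mul_le_mul_right h6 (by positivity)
  exact Nat.floor_le_of_le h3

noncomputable def as (n v : ℝ) (k : ℕ) : ℝ := n / (50 * ((k : ℝ) + 1) ^ 2 * v)

noncomputable def Js (n v : ℝ) (k : ℕ) : ℕ := ⌊as n v k⌋₊

noncomputable def ls (n u v : ℝ) (k : ℕ) : ℕ := ⌊Real.sqrt (Js n v k / (252 * u))⌋₊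

lemma Good.as_pos (h : Good n u v K) (k : ℕ) : 0 < as n v k := by
  unfold as
  have := h.n0; have := h.v0
  positivity

lemma Good.as_le (h : Good n u v K) (k : ℕ) : as n v k ≤ n / 100 := by
  unfold as
  have h1 := h.n0
  apply div_le_div_of_nonneg_left h1.le (by norm_num)
  have h2 : (1 : ℝ) ≤ ((k : ℝ) + 1) ^ 2 := by
    have : (0 : ℝ) ≤ k := by positivity
    nlinarith
  nlinarith [h.v2]

lemma Good.as_ge (h : Good n u v K) {k : ℕ} (hk : k < K) : 2 ≤ as n v k := by
  unfold as
  have h1 := h.n0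
  have h2 := h.v0
  have h3 := h.u0
  rw [le_div_iff₀ (by positivity)]
  have h4 : ((k : ℝ) + 1) ≤ u := by
    have h5 : ((k + 1 : ℕ) : ℝ) ≤ K := by exact_mod_cast hk
    push_cast at h5
    linarith [h.K_le]
  have h5 : ((k : ℝ) + 1) ^ 2 ≤ u ^ 2 := pow_le_pow_left₀ (by positivity) h4 2
  have h6 : 2 * (50 * ((k : ℝ) + 1) ^ 2 * v) ≤ 100 * (u ^ 2 * u) := by
    have := h.vu
    have h7 : ((k : ℝ) + 1) ^ 2 * v ≤ u ^ 2 * u := mul_le_mul h5 this h2.le (by positivity)
    linarith
  have h7 : u ^ 2 * u ≤ u ^ 4 := by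
    have : u ^ 2 * u = u ^ 3 := by ring
    rw [this]
    exact pow_le_pow_right₀ h.u1 (by norm_num)
  have h8 := h.big
  have h9 : 0 ≤ u ^ 4 := by positivity
  linarith

lemma Good.Js_le (h : Good n u v K) (k : ℕ) : (Js n v k : ℝ) ≤ as n v k :=
  Nat.floor_le (h.as_pos k).le

lemma Good.Js_ge (h : Good n u v K) {k : ℕ} (hk : k < K) : as n v k / 2 ≤ (Js n v k : ℝ) := by
  have h1 : as n v k - 1 < (Js n v k : ℝ) := Nat.sub_one_lt_floor _
  linarith [h.as_ge hk]

lemma Good.ls_sq (h : Good n u v K) (k : ℕ) :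
    ((ls n u v k : ℕ) : ℝ) ^ 2 ≤ (Js n v k : ℝ) / (252 * u) := by
  have h0 := h.u0
  have h1 : ((ls n u v k : ℕ) : ℝ) ≤ Real.sqrt (Js n v k / (252 * u)) :=
    Nat.floor_le (Real.sqrt_nonneg _)
  calc ((ls n u v k : ℕ) : ℝ) ^ 2 ≤ Real.sqrt (Js n v k / (252 * u)) ^ 2 :=
        pow_le_pow_left₀ (by positivity) h1 2
    _ = _ := Real.sq_sqrt (by positivity)

lemma Good.ls_le (h : Good n u v K) (k : ℕ) : ls n u v k ≤ Js n v k := by
  have h1 := h.ls_sq k
  have h2 : (Js n v k : ℝ) / (252 * u) ≤ Js n v k := by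
    apply div_le_self (by positivity)
    linarith [h.u1]
  have h3 : ((ls n u v k : ℕ) : ℝ) ^ 2 ≤ (Js n v k : ℝ) := h1.trans h2
  have h4 : (ls n u v k) ^ 2 ≤ Js n v k := by exact_mod_cast h3
  exact (Nat.le_self_pow (by norm_num) _).trans h4

lemma Good.sub_ge (h : Good n u v K) (k : ℕ) :
    4 ^ k * n / 7 ≤ ((ms n k - Js n v k : ℕ) : ℝ) := by
  have h1 : 4 ^ k * n / 6 - 1 < (ms n k : ℝ) := Nat.sub_one_lt_floor _
  have h2 := h.Js_le k
  have h3 := h.as_le k
  have h4 : (1 : ℝ) ≤ 4 ^ k := one_le_pow₀ (by norm_num)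
  have h5 := h.n1000
  have h6 : n ≤ 4 ^ k * n := by nlinarith
  have h7 : (Js n v k : ℝ) ≤ (ms n k : ℝ) := by linarith
  have h8 : Js n v k ≤ ms n k := by exact_mod_cast h7
  rw [Nat.cast_sub h8]
  linarith

/-- the entropy cost of a block -/
noncomputable def bs (n v : ℝ) (k : ℕ) : ℝ :=
  1 + n / (50 * v) * ((10 + Real.log v) / ((k : ℝ) + 1) ^ 2 + 4 / ((k : ℝ) + 1))

lemma Good.entropy (h : Good n u v K) (k : ℕ) :
    ((ms n k).choose (Js n v k) + (ms n k).choose (Js n v k - ls n u v k) : ℝ)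
      ≤ Real.exp (bs n v k) := by
  have hn := h.n0
  have hv := h.v0
  have ha := h.as_pos k
  have hk1 : (0 : ℝ) < (k : ℝ) + 1 := by positivity
  have hJm : Js n v k ≤ ms n k := by
    have h1 := h.sub_ge k
    have h2 : (0 : ℝ) < 4 ^ k * n / 7 := by positivity
    by_contra hc
    push Not at hc
    rw [Nat.sub_eq_zero_of_le hc.le] at h1
    simp at h1
    linarith
  have ham : as n v k ≤ ms n k := by
    have h1 : 4 ^ k * n / 6 - 1 < (ms n k : ℝ) := Nat.sub_one_lt_floor _
    have h3 := h.as_le k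
    have h4 : (1 : ℝ) ≤ 4 ^ k := one_le_pow₀ (by norm_num)
    have h5 := h.n1000
    have h6 : n ≤ 4 ^ k * n := by nlinarith
    linarith
  have e1 := Block.choose_le_exp (ms n k) (Js n v k) (as n v k) ha ham (h.Js_le k)
  have e2 := Block.choose_le_exp (ms n k) (Js n v k - ls n u v k) (as n v k) ha ham (by
    refine le_trans ?_ (h.Js_le k)
    exact_mod_cast Nat.sub_le _ _)
  have hlog : 1 + Real.log (ms n k / as n v k) ≤ (10 + Real.log v) + 4 * ((k : ℝ) + 1) := by
    have h1 : (ms n k : ℝ) ≤ 4 ^ k * n / 6 := Nat.floor_le (by positivity)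
    have h2 : (ms n k : ℝ) / as n v k ≤ 9 * 4 ^ k * ((k : ℝ) + 1) ^ 2 * v := by
      rw [div_le_iff₀ ha]
      unfold as
      have : 9 * 4 ^ k * ((k : ℝ) + 1) ^ 2 * v * (n / (50 * ((k : ℝ) + 1) ^ 2 * v))
          = (9 / 50) * (4 ^ k * n) := by
        field_simp
      rw [this]
      have : 0 ≤ 4 ^ k * n := by positivity
      linarith
    have hmpos : (0 : ℝ) < ms n k := lt_of_lt_of_le ha ham
    have h3 : Real.log (ms n k / as n v k) ≤ Real.log (9 * 4 ^ k * ((k : ℝ) + 1) ^ 2 * v) :=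
      Real.log_le_log (by positivity) h2
    rw [Real.log_mul (by positivity) hv.ne', Real.log_mul (by positivity) (by positivity),
      Real.log_mul (by norm_num) (by positivity), Real.log_pow, Real.log_pow] at h3
    have h4 : Real.log 9 ≤ 8 := by
      have := Real.log_le_sub_one_of_pos (show (0 : ℝ) < 9 by norm_num)
      linarith
    have h5 : Real.log 4 ≤ 2 := by
      have hl4 : Real.log 4 = 2 * Real.log 2 := by
        rw [show (4 : ℝ) = 2 ^ 2 by norm_num, Real.log_pow]; norm_num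
      rw [hl4]; linarith [Real.log_two_lt_d9]
    have h6 : Real.log ((k : ℝ) + 1) ≤ k := by
      have := Real.log_le_sub_one_of_pos hk1
      linarith
    have h7 : (k : ℝ) * Real.log 4 ≤ k * 2 := mul_le_mul_of_nonneg_left h5 (by positivity)
    push_cast at h3
    linarith
  have hmain : as n v k * (1 + Real.log (ms n k / as n v k))
      ≤ n / (50 * v) * ((10 + Real.log v) / ((k : ℝ) + 1) ^ 2 + 4 / ((k : ℝ) + 1)) := by
    calc as n v k * (1 + Real.log (ms n k / as n v k))
        ≤ as n v k * ((10 + Real.log v) + 4 * ((k : ℝ) + 1)) :=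
          mul_le_mul_of_nonneg_left hlog ha.le
      _ = _ := by
          unfold as
          field_simp
  calc ((ms n k).choose (Js n v k) + (ms n k).choose (Js n v k - ls n u v k) : ℝ)
      ≤ 2 * Real.exp (as n v k * (1 + Real.log (ms n k / as n v k))) := by linarith
    _ ≤ Real.exp 1 * Real.exp (as n v k * (1 + Real.log (ms n k / as n v k))) := by
        apply mul_le_mul_of_nonneg_right _ (Real.exp_pos _).le
        linarith [Real.exp_one_gt_d9]
    _ = Real.exp (1 + as n v k * (1 + Real.log (ms n k / as n v k))) := by rw [← Real.exp_add]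
    _ ≤ _ := by
        apply Real.exp_le_exp.2
        unfold bs
        linarith

lemma sum_inv (K : ℕ) : ∑ k ∈ Finset.range K, 1 / ((k : ℝ) + 1) ≤ 1 + Real.log K := by
  have h := harmonic_le_one_add_log K
  have h2 : ((harmonic K : ℚ) : ℝ) = ∑ k ∈ Finset.range K, 1 / ((k : ℝ) + 1) := by
    unfold harmonic
    push_cast
    apply Finset.sum_congr rfl; intro i _; rw [one_div]
  rw [h2] at h
  exact h

lemma sum_inv_ge (K : ℕ) : Real.log ((K : ℝ) + 1) ≤ ∑ k ∈ Finset.range K, 1 / ((k : ℝ) + 1) := by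
  have h := log_add_one_le_harmonic K
  have h2 : ((harmonic K : ℚ) : ℝ) = ∑ k ∈ Finset.range K, 1 / ((k : ℝ) + 1) := by
    unfold harmonic
    push_cast
    apply Finset.sum_congr rfl; intro i _; rw [one_div]
  rw [h2] at h
  exact_mod_cast h

lemma sum_inv_sq (K : ℕ) : ∑ k ∈ Finset.range K, 1 / ((k : ℝ) + 1) ^ 2 ≤ 2 := by
  have h : ∀ K : ℕ, ∑ k ∈ Finset.range (K + 1), 1 / ((k : ℝ) + 1) ^ 2 ≤ 2 - 1 / ((K : ℝ) + 1) := by
    intro K
    induction K with
    | zero => norm_num
    | succ K ih =>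
      rw [Finset.sum_range_succ]
      have h1 : 1 / (((K + 1 : ℕ) : ℝ) + 1) ^ 2 ≤ 1 / ((K : ℝ) + 1) - 1 / (((K + 1 : ℕ) : ℝ) + 1) := by
        push_cast
        rw [div_sub_div _ _ (by positivity) (by positivity), div_le_div_iff₀ (by positivity)
          (by positivity)]
        have : (0 : ℝ) ≤ K := by positivity
        nlinarith
      linarith
  rcases K with _ | K
  · simp
  · have := h K
    have h2 : 0 ≤ 1 / ((K : ℝ) + 1) := by positivity
    linarith

lemma Good.sum_bs (h : Good n u v K) : ∑ k ∈ Finset.range K, bs n v k ≤ n := by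
  have hn := h.n0
  have hv := h.v0
  have hu := h.u0
  have h1 : ∑ k ∈ Finset.range K, bs n v k
      = K + n / (50 * v) * ((10 + Real.log v) * ∑ k ∈ Finset.range K, 1 / ((k : ℝ) + 1) ^ 2
        + 4 * ∑ k ∈ Finset.range K, 1 / ((k : ℝ) + 1)) := by
    unfold bs
    rw [Finset.sum_add_distrib, ← Finset.mul_sum, Finset.sum_add_distrib, Finset.mul_sum,
      Finset.mul_sum]
    simp only [Finset.sum_const, Finset.card_range, nsmul_eq_mul, mul_one]
    congr 1
    congr 1
    congr 1
    · apply Finset.sum_congr rfl; intro k _; ring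
    · apply Finset.sum_congr rfl; intro k _; ring
  rw [h1]
  have hlv : Real.log v ≤ v := by
    have := Real.log_le_sub_one_of_pos hv
    linarith
  have hlv0 : 0 ≤ Real.log v := Real.log_nonneg (by linarith [h.v2])
  have h2 := sum_inv_sq K
  have h3 : ∑ k ∈ Finset.range K, 1 / ((k : ℝ) + 1) ≤ 1 + v := by
    refine (sum_inv K).trans ?_
    have hKu : (K : ℝ) ≤ u := by linarith [h.K_le]
    rcases Nat.eq_zero_or_pos K with h0 | h0
    · rw [h0]; simp; linarith
    · have : Real.log K ≤ Real.log u := Real.log_le_log (by exact_mod_cast h0) hKu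
      rw [← h.hv] at this
      linarith
  have h4 : (10 + Real.log v) * ∑ k ∈ Finset.range K, 1 / ((k : ℝ) + 1) ^ 2
        + 4 * ∑ k ∈ Finset.range K, 1 / ((k : ℝ) + 1) ≤ 24 + 6 * v := by
    have h5 : (10 + Real.log v) * ∑ k ∈ Finset.range K, 1 / ((k : ℝ) + 1) ^ 2
        ≤ (10 + v) * 2 := by
      apply mul_le_mul (by linarith) h2 (Finset.sum_nonneg fun _ _ => by positivity) (by linarith)
    linarith
  have h6 : n / (50 * v) * ((10 + Real.log v) * ∑ k ∈ Finset.range K, 1 / ((k : ℝ) + 1) ^ 2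
        + 4 * ∑ k ∈ Finset.range K, 1 / ((k : ℝ) + 1)) ≤ n / (50 * v) * (18 * v) := by
    apply mul_le_mul_of_nonneg_left _ (by positivity)
    linarith [h.v2]
  have h7 : n / (50 * v) * (18 * v) = (18 / 50) * n := by field_simp
  have h8 : (K : ℝ) ≤ n / 2 := by
    have := h.K_le
    have := h.u_le_n
    linarith
  rw [h7] at h6
  linarith

lemma Good.sqrt_ls (h : Good n u v K) {k : ℕ} (hk : k < K) :
    Real.sqrt (n / (25200 * u * v)) * (1 / ((k : ℝ) + 1)) - 1 ≤ (ls n u v k : ℝ) := by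
  have hn := h.n0
  have hv := h.v0
  have hu := h.u0
  have h1 : Real.sqrt (Js n v k / (252 * u)) - 1 < (ls n u v k : ℝ) := Nat.sub_one_lt_floor _
  have h2 := h.Js_ge hk
  have h3 : Real.sqrt (n / (25200 * u * v)) * (1 / ((k : ℝ) + 1))
      ≤ Real.sqrt (Js n v k / (252 * u)) := by
    have hk1 : (0 : ℝ) < (k : ℝ) + 1 := by positivity
    have h4 : (1 / ((k : ℝ) + 1)) = Real.sqrt ((1 / ((k : ℝ) + 1)) ^ 2) :=
      (Real.sqrt_sq (by positivity)).symm
    rw [h4, ← Real.sqrt_mul (by positivity)]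
    apply Real.sqrt_le_sqrt
    calc n / (25200 * u * v) * (1 / ((k : ℝ) + 1)) ^ 2 = (as n v k / 2) / (252 * u) := by
          unfold as; field_simp; norm_num
      _ ≤ _ := by
          apply div_le_div_of_nonneg_right h2 (by positivity)
  linarith

lemma Good.sum_ls (h : Good n u v K) :
    Real.sqrt (n * v / u) / 700 ≤ (∑ k ∈ Finset.range K, (ls n u v k : ℝ)) - K := by
  have hn := h.n0
  have hv := h.v0
  have hu := h.u0
  set s0 := Real.sqrt (n / (25200 * u * v)) with hs0
  have hs00 : 0 ≤ s0 := Real.sqrt_nonneg _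
  have h1 : s0 * ∑ k ∈ Finset.range K, 1 / ((k : ℝ) + 1) - K
      ≤ ∑ k ∈ Finset.range K, (ls n u v k : ℝ) := by
    have h2 : ∑ k ∈ Finset.range K, (s0 * (1 / ((k : ℝ) + 1)) - 1)
        ≤ ∑ k ∈ Finset.range K, (ls n u v k : ℝ) := by
      apply Finset.sum_le_sum
      intro k hk
      exact h.sqrt_ls (Finset.mem_range.1 hk)
    rw [Finset.sum_sub_distrib, ← Finset.mul_sum] at h2
    simpa using h2
  have h3 : v / 2 ≤ ∑ k ∈ Finset.range K, 1 / ((k : ℝ) + 1) := by
    refine le_trans ?_ (sum_inv_ge K)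
    have h4 : Real.log (u / 2) ≤ Real.log ((K : ℝ) + 1) :=
      Real.log_le_log (by positivity) h.K_ge.le
    rw [Real.log_div hu.ne' (by norm_num), ← h.hv] at h4
    linarith [Real.log_two_lt_d9, h.v2]
  have h5 : s0 * (v / 2) ≤ s0 * ∑ k ∈ Finset.range K, 1 / ((k : ℝ) + 1) :=
    mul_le_mul_of_nonneg_left h3 hs00
  set s1 := Real.sqrt (n * v / u) with hs1
  have hs10 : 0 ≤ s1 := Real.sqrt_nonneg _
  have hsqrt : s0 * v * Real.sqrt 25200 = s1 := by
    rw [hs0, hs1]
    have hv2 : v = Real.sqrt (v ^ 2) := (Real.sqrt_sq hv.le).symm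
    calc Real.sqrt (n / (25200 * u * v)) * v * Real.sqrt 25200
        = Real.sqrt (n / (25200 * u * v)) * Real.sqrt (v ^ 2) * Real.sqrt 25200 := by rw [← hv2]
      _ = Real.sqrt (n / (25200 * u * v) * v ^ 2 * 25200) := by
          rw [← Real.sqrt_mul (by positivity), ← Real.sqrt_mul (by positivity)]
      _ = _ := by
          congr 1
          field_simp
  have h25 : Real.sqrt 25200 ≤ 160 := by
    rw [show (160 : ℝ) = Real.sqrt (160 ^ 2) from (Real.sqrt_sq (by norm_num)).symm]
    exact Real.sqrt_le_sqrt (by norm_num)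
  have h6 : s1 / 160 ≤ s0 * v := by
    rw [div_le_iff₀ (by norm_num), ← hsqrt]
    exact mul_le_mul_of_nonneg_left h25 (by positivity)
  -- the error terms
  have h7 : u ≤ s1 / 600 := by
    rw [le_div_iff₀ (by norm_num), hs1]
    apply Real.le_sqrt_of_sq_le
    rw [le_div_iff₀ hu]
    have h8 : (u * 600) ^ 2 * u = 360000 * u ^ 3 := by ring
    rw [h8]
    have h9 : u ^ 3 ≤ u ^ 4 := pow_le_pow_right₀ h.u1 (by norm_num)
    have h10 := h.big
    have h11 : 0 ≤ u ^ 4 := by positivity
    nlinarith [h.v2]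
  have h8 := h.K_le
  linarith

theorem resonator (h : Good n u v K) :
    ∃ P : Finset ℕ, (∀ p ∈ P, p.Prime ∧ (p : ℝ) ≤ n ^ 3) ∧
      Block.Has P (Real.exp n) (Real.exp (Real.sqrt (n * v / u) / 700)) (Real.exp n) := by
  classical
  have hn := h.n0
  have hv := h.v0
  have hu := h.u0
  have hex : ∀ k, ∃ P : Finset ℕ, k < K → P ⊆ Primes.blk (xs n u k) ∧ P.card = ms n k := by
    intro k
    by_cases hk : k < K
    · obtain ⟨P, hP1, hP2⟩ := Finset.exists_subset_card_eq (h.ms_le hk)
      exact ⟨P, fun _ => ⟨hP1, hP2⟩⟩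
    · exact ⟨∅, fun hk' => absurd hk' hk⟩
  choose P hP using hex
  have hxpos : ∀ k, 0 ≤ xs n u k := fun k => by
    have := h.xs_ge k; linarith
  have hPmem : ∀ k < K, ∀ p ∈ P k, p.Prime ∧ xs n u k < p ∧ (p : ℝ) ≤ 4 * xs n u k := by
    intro k hk p hp
    exact Primes.mem_blk (hxpos k) ((hP k hk).1 hp)
  have hmono : ∀ i j, i < j → 4 * xs n u i ≤ xs n u j := by
    intro i j hij
    unfold xs
    have h1 : (4 : ℝ) * 4 ^ i ≤ 4 ^ j := by
      rw [← pow_succ']
      exact pow_le_pow_right₀ (by norm_num) hij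
    calc 4 * (4 ^ i * (n * u)) = (4 * 4 ^ i) * (n * u) := by ring
      _ ≤ _ := mul_le_mul_of_nonneg_right h1 (by positivity)
  have hdisj0 : ∀ i j, i < K → j < K → i < j → Disjoint (P i) (P j) := by
    intro i j hi hj hij
    rw [Finset.disjoint_left]
    intro p hpi hpj
    have h1 := (hPmem i hi p hpi).2.2
    have h2 := (hPmem j hj p hpj).2.1
    have h3 := hmono i j hij
    linarith
  have hdisj : ∀ i j, i < K → j < K → i ≠ j → Disjoint (P i) (P j) := by
    intro i j hi hj hij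
    rcases lt_or_gt_of_ne hij with h1 | h1
    · exact hdisj0 i j hi hj h1
    · exact (hdisj0 j i hj hi h1).symm
  have hblock : ∀ k < K, Block.Has (P k) (Real.exp (bs n v k)) (Real.exp (ls n u v k) / 2)
      ((4 * xs n u k) ^ (ls n u v k)) := by
    intro k hk
    have hcard := (hP k hk).2
    have h1 := Block.one_block (P k) (4 * xs n u k) (by
        have := h.xs_ge k; have := h.n1000; linarith) (by
        intro p hp
        have := hPmem k hk p hp
        exact ⟨this.1.one_lt.le, this.2.2⟩) (Js n v k) (ls n u v k) (h.ls_le k) (by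
        rw [hcard]
        have h1 := h.sub_ge k
        have h2 : (0 : ℝ) < 4 ^ k * n / 7 := by positivity
        by_contra hc
        push Not at hc
        rw [Nat.sub_eq_zero_of_le hc.le] at h1
        simp at h1
        linarith) (by
        rw [hcard]
        have h2 := h.ls_sq k
        have h3 := h.sub_ge k
        calc 9 * ((ls n u v k : ℕ) : ℝ) ^ 2 * (4 * xs n u k)
            ≤ 9 * ((Js n v k : ℝ) / (252 * u)) * (4 * xs n u k) := by
              apply mul_le_mul_of_nonneg_right _ (by linarith [hxpos k])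
              linarith
          _ = (4 ^ k * n / 7) * (Js n v k : ℝ) := by
              unfold xs; field_simp; ring
          _ ≤ _ := mul_le_mul_of_nonneg_right h3 (by positivity))
    rw [hcard] at h1
    exact h1.mono (h.entropy k) le_rfl le_rfl
  have hit := Block.Has.iterate P (fun k => Real.exp (bs n v k))
    (fun k => Real.exp (ls n u v k) / 2) (fun k => (4 * xs n u k) ^ (ls n u v k)) K hdisj hblock
    (fun k _ => by positivity)
  refine ⟨(Finset.range K).biUnion P, ?_, hit.mono ?_ ?_ ?_⟩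
  · intro p hp
    rw [Finset.mem_biUnion] at hp
    obtain ⟨k, hk, hp⟩ := hp
    rw [Finset.mem_range] at hk
    have := hPmem k hk p hp
    exact ⟨this.1, this.2.2.trans (h.four_xs_le hk)⟩
  · rw [← Real.exp_sum]
    exact Real.exp_le_exp.2 h.sum_bs
  · have h1 : ∏ k ∈ Finset.range K, (Real.exp (ls n u v k : ℝ) / 2)
        = Real.exp (∑ k ∈ Finset.range K, (ls n u v k : ℝ)) / 2 ^ K := by
      rw [Finset.prod_div_distrib, ← Real.exp_sum]
      simp
    rw [h1, le_div_iff₀ (by positivity)]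
    have h2 : (2 : ℝ) ^ K ≤ Real.exp K := by
      rw [show Real.exp (K : ℝ) = (Real.exp 1) ^ K by rw [← Real.exp_nat_mul, mul_one]]
      exact pow_le_pow_left₀ (by norm_num) (by linarith [Real.exp_one_gt_d9]) K
    calc Real.exp (Real.sqrt (n * v / u) / 700) * 2 ^ K
        ≤ Real.exp (Real.sqrt (n * v / u) / 700) * Real.exp K :=
          mul_le_mul_of_nonneg_left h2 (Real.exp_pos _).le
      _ = Real.exp (Real.sqrt (n * v / u) / 700 + K) := by rw [Real.exp_add]
      _ ≤ _ := by
          apply Real.exp_le_exp.2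
          linarith [h.sum_ls]
  · have h1 : ∀ k ∈ Finset.range K, (4 * xs n u k) ^ (ls n u v k)
        ≤ Real.exp (3 * u * Real.sqrt n) := by
      intro k hk
      rw [Finset.mem_range] at hk
      have h2 : 0 < 4 * xs n u k := by
        have := h.xs_ge k; linarith
      have h3 : (4 * xs n u k) ^ (ls n u v k)
          = Real.exp ((ls n u v k : ℝ) * Real.log (4 * xs n u k)) := by
        rw [Real.exp_nat_mul, Real.exp_log h2]
      rw [h3]
      apply Real.exp_le_exp.2
      have h4 := h.log_xs_le hk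
      have h5 : (ls n u v k : ℝ) ≤ Real.sqrt n := by
        apply Real.le_sqrt_of_sq_le
        refine (h.ls_sq k).trans ?_
        have h6 : (Js n v k : ℝ) ≤ n := by
          have := h.Js_le k; have := h.as_le k; linarith
        refine le_trans (div_le_self (by positivity) ?_) h6
        linarith [h.u1]
      have h6 : 0 ≤ Real.log (4 * xs n u k) := by
        apply Real.log_nonneg
        have := h.xs_ge k; have := h.n1000; linarith
      calc (ls n u v k : ℝ) * Real.log (4 * xs n u k) ≤ Real.sqrt n * (3 * u) :=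
            mul_le_mul h5 h4 h6 (Real.sqrt_nonneg _)
        _ = _ := by ring
    have h2 := Finset.prod_le_prod (s := Finset.range K) (fun k _ => by
      have := hxpos k; positivity) h1
    refine h2.trans ?_
    rw [Finset.prod_const, Finset.card_range, ← Real.exp_nat_mul]
    apply Real.exp_le_exp.2
    have h3 := h.K_le
    have h4 : Real.sqrt n * Real.sqrt n = n := Real.mul_self_sqrt hn.le
    have h5 : (3 / 2) * u ^ 2 ≤ Real.sqrt n := by
      apply Real.le_sqrt_of_sq_le
      have h6 := h.big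
      have h7 : 0 ≤ u ^ 4 := by positivity
      nlinarith
    have h6 : 0 ≤ Real.sqrt n := Real.sqrt_nonneg n
    calc (K : ℝ) * (3 * u * Real.sqrt n) ≤ (u / 2) * (3 * u * Real.sqrt n) :=
          mul_le_mul_of_nonneg_right h3 (by positivity)
      _ = ((3 / 2) * u ^ 2) * Real.sqrt n := by ring
      _ ≤ Real.sqrt n * Real.sqrt n := mul_le_mul_of_nonneg_right h5 h6
      _ = n := h4

end Pool.Agent.H.MP_3e6494_nt.Param
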