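import Mathlib
import Pool.Agent.H.MP_3e6494_nt.helper50.Class
import Pool.Agent.H.MP_3e6494_nt.helper50.Param

open Finset Filter Topology

set_option linter.unusedSectionVars false

namespace Pool.Agent.H.MP_3e6494_nt.Final

variable {q : ℕ} [hq : Fact q.Prime]

lemma prod_inj {S T : Finset ℕ} (hS : ∀ p ∈ S, p.Prime) (hT : ∀ p ∈ T, p.Prime)
    (h : ∏ p ∈ S, p = ∏ p ∈ T, p) : S = T := by
  rw [← Nat.primeFactors_prod hS, ← Nat.primeFactors_prod hT, h]

/-- the resonance inequality fed with an abstract resonator -/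
theorem apply_has (H : Subgroup (DirichletCharacter ℂ q)) (P : Finset ℕ)
    (hP : ∀ p ∈ P, p.Prime ∧ p < q) {N E Z : ℝ} (hHas : Block.Has P N E Z)
    (X : ℕ) (hX : 1 ≤ X) (hZ : Z ≤ X)
    (V : ℝ) (hV : ∀ χ ∈ H, χ ≠ 1 → ‖χ.LFunction (1 / 2)‖ ≤ V) (hV0 : 0 ≤ V) :
    E ≤ V + 2 * Approx.B q / Real.sqrt X + 2 * Real.sqrt X * N / Nat.card H := by
  classical
  obtain ⟨M, f, 𝒯, h1, h2, h3, h4, h5, h6, h7⟩ := hHas
  have hcop : ∀ S : Finset ℕ, S ⊆ P → (∏ p ∈ S, p).Coprime q := by
    intro S hS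
    apply Nat.Coprime.prod_left
    intro p hp
    have := hP p (hS hp)
    rw [Nat.coprime_primes this.1 hq.out]
    exact this.2.ne
  set u : Finset ℕ → (ZMod q)ˣ := fun S =>
    if h : (∏ p ∈ S, p).Coprime q then ZMod.unitOfCoprime _ h else 1 with hu
  have huv : ∀ S : Finset ℕ, S ⊆ P → ((u S : (ZMod q)ˣ) : ZMod q) = ((∏ p ∈ S, p : ℕ) : ZMod q) := by
    intro S hS
    rw [hu]
    simp only
    rw [dif_pos (hcop S hS), ZMod.coe_unitOfCoprime]
  have hres := Class.resonance H M u f (fun S _ => h3 S) h4 X hX 𝒯 (fun T => ∏ p ∈ T, p)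
    (by
      intro T hT
      constructor
      · apply Finset.one_le_prod'
        intro p hp
        exact (hP p (h2 T hT hp)).1.one_lt.le
      · have := (h6 T hT).trans hZ
        exact_mod_cast this)
    (fun T hT => hcop T (h2 T hT))
    (by
      intro T hT T' hT' h
      exact prod_inj (fun p hp => (hP p (h2 T hT hp)).1) (fun p hp => (hP p (h2 T' hT' hp)).1) h)
    (fun T => M.filter (fun S => Disjoint S T ∧ S ∪ T ∈ M)) (fun T S => S ∪ T)
    (fun T _ => Finset.filter_subset _ _)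
    (by
      intro T _ S hS
      rw [Finset.mem_filter] at hS
      exact hS.2.2)
    (by
      intro T _ S hS S' hS' h
      rw [Finset.mem_coe, Finset.mem_filter] at hS hS'
      simp only at h
      have e1 : (S ∪ T) \ T = S := by
        rw [Finset.union_sdiff_right, Finset.sdiff_eq_self_of_disjoint hS.2.1]
      have e2 : (S' ∪ T) \ T = S' := by
        rw [Finset.union_sdiff_right, Finset.sdiff_eq_self_of_disjoint hS'.2.1]
      rw [← e1, ← e2, h])
    (by
      intro T hT S hS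
      rw [Finset.mem_filter] at hS
      rw [huv _ (h1 _ hS.2.2), huv _ (h1 _ hS.1), Finset.prod_union hS.2.1]
      push_cast
      ring)
    E h7 V hV hV0
  refine hres.trans ?_
  have : 2 * Real.sqrt X * M.card / Nat.card H ≤ 2 * Real.sqrt X * N / Nat.card H := by
    apply div_le_div_of_nonneg_right _ (by positivity)
    exact mul_le_mul_of_nonneg_left h5 (by positivity)
  linarith

/-- the truncation length -/
noncomputable def len (q : ℕ) : ℕ := ⌈(q : ℝ) * (1 + Real.log q) ^ 2⌉₊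

lemma log_nonneg' : 0 ≤ Real.log q := Real.log_natCast_nonneg q

lemma len_ge : (q : ℝ) * (1 + Real.log q) ^ 2 ≤ len q := Nat.le_ceil _

lemma q_le_len : (q : ℝ) ≤ len q := by
  refine le_trans ?_ len_ge
  have h1 := log_nonneg' (q := q)
  have h2 : (1 : ℝ) ≤ (1 + Real.log q) ^ 2 := by nlinarith
  have h3 : (0 : ℝ) ≤ q := by positivity
  nlinarith

lemma one_le_len : 1 ≤ len q := by
  have h1 := q_le_len (q := q)
  have h2 : (1 : ℝ) ≤ q := by exact_mod_cast hq.out.one_lt.le
  exact_mod_cast h2.trans h1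

lemma sqrt_len_ge : Real.sqrt q * (1 + Real.log q) ≤ Real.sqrt (len q) := by
  have h1 := log_nonneg' (q := q)
  apply Real.le_sqrt_of_sq_le
  rw [mul_pow, Real.sq_sqrt (by positivity)]
  exact len_ge

lemma sqrt_len_le : Real.sqrt (len q) ≤ (3 / 2) * (Real.sqrt q * (1 + Real.log q)) := by
  have h1 := log_nonneg' (q := q)
  have hq1 : (1 : ℝ) ≤ q := by exact_mod_cast hq.out.one_lt.le
  rw [show (3 / 2) * (Real.sqrt q * (1 + Real.log q))
    = Real.sqrt (((3 / 2) * (Real.sqrt q * (1 + Real.log q))) ^ 2) from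
      (Real.sqrt_sq (by positivity)).symm]
  apply Real.sqrt_le_sqrt
  have h2 : (len q : ℝ) < (q : ℝ) * (1 + Real.log q) ^ 2 + 1 := Nat.ceil_lt_add_one (by positivity)
  rw [mul_pow, mul_pow, Real.sq_sqrt (by positivity)]
  have h3 : (1 : ℝ) ≤ (q : ℝ) * (1 + Real.log q) ^ 2 := by
    have : (1 : ℝ) ≤ (1 + Real.log q) ^ 2 := by nlinarith
    nlinarith
  linarith

lemma B_div : 2 * Approx.B q / Real.sqrt (len q) ≤ 2 := by
  have hs : 0 < Real.sqrt (len q) := by
    apply Real.sqrt_pos.2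
    exact_mod_cast one_le_len (q := q)
  rw [div_le_iff₀ hs]
  have := sqrt_len_ge (q := q)
  unfold Approx.B
  linarith

lemma card_lt (H : Subgroup (DirichletCharacter ℂ q)) : (Nat.card H : ℝ) < q := by
  have h1 : Nat.card H ≤ Nat.card (DirichletCharacter ℂ q) := Subgroup.card_le_card_group H
  have h2 : Nat.card (DirichletCharacter ℂ q) = q.totient :=
    DirichletCharacter.card_eq_totient_of_hasEnoughRootsOfUnity ℂ q
  have h3 : q.totient < q := Nat.totient_lt q hq.out.one_lt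
  exact_mod_cast (h1.trans h2.le).trans_lt h3

/-- the conditions on `L = log q` -/
lemma cond_eventually (δ : ℝ) (hδ : 0 < δ) : ∀ᶠ L : ℝ in atTop,
    Param.Good ((δ / 2) * L) (Real.log ((δ / 2) * L)) (Real.log (Real.log ((δ / 2) * L)))
      ⌊Real.log ((δ / 2) * L) / 2⌋₊ ∧
    3 * (1 + L) * Real.exp (-(δ / 2 * L)) ≤ 1 ∧ L ^ 3 < Real.exp L ∧
    (4000 / Real.sqrt δ) ^ 2 ≤ L * Real.log (Real.log L) / Real.log L ∧ 1 ≤ L := by
  have ht : Tendsto (fun L : ℝ => (δ / 2) * L) atTop atTop :=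
    tendsto_id.const_mul_atTop (by positivity)
  have e1 := ht.eventually Param.good_eventually
  have e2 : ∀ᶠ L : ℝ in atTop, 3 * (1 + L) * Real.exp (-(δ / 2 * L)) ≤ 1 := by
    have h1 := (isLittleO_pow_exp_pos_mul_atTop 1 (show 0 < δ / 2 by positivity)).bound
      (show (0 : ℝ) < 1 / 6 by norm_num)
    filter_upwards [h1, eventually_ge_atTop (1 : ℝ)] with L hL hL1
    rw [Real.norm_of_nonneg (Real.exp_pos _).le, Real.norm_of_nonneg (by positivity), pow_one] at hL
    rw [Real.exp_neg, ← div_eq_mul_inv, div_le_one (Real.exp_pos _)]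
    linarith
  have e3 : ∀ᶠ L : ℝ in atTop, L ^ 3 < Real.exp L := by
    have h1 := (isLittleO_pow_exp_pos_mul_atTop 3 (show (0 : ℝ) < 1 by norm_num)).bound
      (show (0 : ℝ) < 1 / 2 by norm_num)
    filter_upwards [h1, eventually_ge_atTop (1 : ℝ)] with L hL hL1
    rw [one_mul, Real.norm_of_nonneg (Real.exp_pos _).le, Real.norm_of_nonneg (by positivity)] at hL
    linarith [Real.exp_pos L]
  have e4 : ∀ᶠ L : ℝ in atTop,
      (4000 / Real.sqrt δ) ^ 2 ≤ L * Real.log (Real.log L) / Real.log L := by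
    set C := (4000 / Real.sqrt δ) ^ 2 with hC
    have hC0 : 0 < C := by
      have : 0 < Real.sqrt δ := Real.sqrt_pos.2 hδ
      rw [hC]; positivity
    have h1 := Real.isLittleO_log_id_atTop.bound (show (0 : ℝ) < 1 / C by positivity)
    have h2 : ∀ᶠ L : ℝ in atTop, 1 ≤ Real.log (Real.log L) :=
      (Real.tendsto_log_atTop.comp Real.tendsto_log_atTop).eventually_ge_atTop 1
    have h3 : ∀ᶠ L : ℝ in atTop, 1 ≤ Real.log L := Real.tendsto_log_atTop.eventually_ge_atTop 1
    filter_upwards [h1, h2, h3, eventually_ge_atTop (1 : ℝ)] with L a1 a2 a3 a4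
    simp only [id] at a1
    rw [Real.norm_of_nonneg (by linarith : (0 : ℝ) ≤ L)] at a1
    have a5 := (le_abs_self _).trans a1
    rw [le_div_iff₀ (by linarith)]
    have a6 : C * Real.log L ≤ L := by
      calc C * Real.log L ≤ C * (1 / C * L) := mul_le_mul_of_nonneg_left a5 hC0.le
        _ = L := by field_simp
    nlinarith
  filter_upwards [e1, e2, e3, e4, eventually_ge_atTop (1 : ℝ)] with L a1 a2 a3 a4 a5
  exact ⟨a1, a2, a3, a4, a5⟩

theorem subgroup_extreme : ∃ c : ℝ, 0 < c ∧ ∀ δ : ℝ, 0 < δ → ∃ q₀ : ℕ, ∀ (q : ℕ) [Fact q.Prime],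
    q₀ ≤ q → ∀ H : Subgroup (DirichletCharacter ℂ q), (q : ℝ) ^ (1 / 2 + δ) ≤ Nat.card H →
      ∃ χ ∈ H, χ ≠ 1 ∧ Real.exp (c * Real.sqrt δ * Real.sqrt
        (Real.log q * Real.log (Real.log (Real.log q)) / Real.log (Real.log q)))
          ≤ ‖χ.LFunction (1 / 2)‖ := by
  refine ⟨1 / 2000, by norm_num, fun δ hδ => ?_⟩
  obtain ⟨L0, hL0⟩ := eventually_atTop.1 (cond_eventually δ hδ)
  refine ⟨⌈Real.exp L0⌉₊, fun q _ hq0 H hH => ?_⟩
  have hqp : 0 < (q : ℝ) := by exact_mod_cast (Fact.out : q.Prime).pos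
  set L := Real.log q with hL
  have hLL0 : L0 ≤ L := by
    have h1 : Real.exp L0 ≤ q := (Nat.le_ceil _).trans (by exact_mod_cast hq0)
    rw [hL, ← Real.log_exp L0]
    exact Real.log_le_log (Real.exp_pos _) h1
  obtain ⟨hgood, hc2, hc3, hc4, hc5⟩ := hL0 L hLL0
  have hexpL : Real.exp L = q := Real.exp_log hqp
  -- δ < 1/2
  have hδ2 : δ < 1 / 2 := by
    by_contra hcon
    push Not at hcon
    have h1 : (q : ℝ) ^ (1 : ℝ) ≤ (q : ℝ) ^ (1 / 2 + δ) :=
      Real.rpow_le_rpow_of_exponent_le (by exact_mod_cast (Fact.out : q.Prime).one_lt.le)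
        (by linarith)
    rw [Real.rpow_one] at h1
    exact absurd (h1.trans hH) (not_le.2 (card_lt H))
  by_contra hcon
  push Not at hcon
  set Q := Real.sqrt (L * Real.log (Real.log L) / Real.log L) with hQ
  set V := Real.exp (1 / 2000 * Real.sqrt δ * Q) with hV
  obtain ⟨P, hP, hHas⟩ := Param.resonator hgood
  set n := (δ / 2) * L with hn
  have hnL : n ≤ L := by rw [hn]; nlinarith
  have hn0 : 0 < n := hgood.n0
  have hPq : ∀ p ∈ P, p.Prime ∧ p < q := by
    intro p hp
    refine ⟨(hP p hp).1, ?_⟩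
    have h1 := (hP p hp).2
    have h2 : n ^ 3 ≤ L ^ 3 := pow_le_pow_left₀ hn0.le hnL 3
    have h3 : (p : ℝ) < q := by rw [← hexpL]; linarith
    exact_mod_cast h3
  have hZ : Real.exp n ≤ len q := by
    refine le_trans ?_ q_le_len
    rw [← hexpL]
    exact Real.exp_le_exp.2 hnL
  have hmain := apply_has H P hPq hHas (len q) one_le_len hZ V
    (fun χ hχ hχ1 => (hcon χ hχ hχ1).le) (Real.exp_pos _).le
  -- the error terms
  have herr1 := B_div (q := q)
  have herr2 : 2 * Real.sqrt (len q) * Real.exp n / Nat.card H ≤ 1 := by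
    have h0 : 0 < (q : ℝ) ^ (1 / 2 + δ) := Real.rpow_pos_of_pos hqp _
    have hHpos : (0 : ℝ) < Nat.card H := lt_of_lt_of_le h0 hH
    rw [div_le_one hHpos]
    refine le_trans ?_ hH
    have h1 : Real.sqrt q = Real.exp (L / 2) := by
      rw [Real.sqrt_eq_rpow, Real.rpow_def_of_pos hqp]
      congr 1; ring
    have h2 : (q : ℝ) ^ (1 / 2 + δ) = Real.exp (L / 2) * (Real.exp n * Real.exp (δ / 2 * L)) := by
      rw [Real.rpow_def_of_pos hqp, ← Real.exp_add, ← Real.exp_add]
      congr 1; rw [hn]; ring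
    rw [h2]
    have h3 := sqrt_len_le (q := q)
    rw [h1, ← hL] at h3
    have h4 : 3 * (1 + L) ≤ Real.exp (δ / 2 * L) := by
      rw [Real.exp_neg, ← div_eq_mul_inv, div_le_one (Real.exp_pos _)] at hc2
      exact hc2
    calc 2 * Real.sqrt (len q) * Real.exp n
        ≤ 2 * ((3 / 2) * (Real.exp (L / 2) * (1 + L))) * Real.exp n := by
          apply mul_le_mul_of_nonneg_right _ (Real.exp_pos _).le
          linarith
      _ = Real.exp (L / 2) * (Real.exp n * (3 * (1 + L))) := by ring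
      _ ≤ _ := by
          apply mul_le_mul_of_nonneg_left _ (Real.exp_pos _).le
          exact mul_le_mul_of_nonneg_left h4 (Real.exp_pos _).le
  -- comparison of the main terms
  have hu0 := hgood.u0
  have hcomp : (δ / 2) * (L * Real.log (Real.log L) / Real.log L)
      ≤ n * Real.log (Real.log n) / Real.log n := by
    have h1 : Real.log n ≤ Real.log L := Real.log_le_log hn0 hnL
    have h2 : Real.exp 1 ≤ Real.log n := by
      rw [← hgood.exp_v]
      exact Real.exp_le_exp.2 (by linarith [hgood.v2])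
    have h3 := Real.log_div_self_antitoneOn (a := Real.log n) (b := Real.log L) h2
      (le_trans h2 h1) h1
    have h3' : Real.log (Real.log L) / Real.log L ≤ Real.log (Real.log n) / Real.log n := h3
    calc (δ / 2) * (L * Real.log (Real.log L) / Real.log L)
        = n * (Real.log (Real.log L) / Real.log L) := by rw [hn]; ring
      _ ≤ n * (Real.log (Real.log n) / Real.log n) := mul_le_mul_of_nonneg_left h3' hn0.le
      _ = _ := by ring
  have hsq : 1 / 1000 * Real.sqrt δ * Q ≤ Real.sqrt (n * Real.log (Real.log n) / Real.log n) / 700 := by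
    have h1 : Real.sqrt (δ / 2) * Q ≤ Real.sqrt (n * Real.log (Real.log n) / Real.log n) := by
      rw [hQ, ← Real.sqrt_mul (by positivity)]
      exact Real.sqrt_le_sqrt hcomp
    have h2 : (7 / 10) * Real.sqrt δ ≤ Real.sqrt (δ / 2) := by
      rw [show (7 / 10) * Real.sqrt δ = Real.sqrt (((7 / 10) * Real.sqrt δ) ^ 2) from
        (Real.sqrt_sq (by positivity)).symm]
      apply Real.sqrt_le_sqrt
      rw [mul_pow, Real.sq_sqrt hδ.le]
      linarith
    have h3 : (7 / 10) * Real.sqrt δ * Q ≤ Real.sqrt (δ / 2) * Q :=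
      mul_le_mul_of_nonneg_right h2 (Real.sqrt_nonneg _)
    linarith
  set x := 1 / 2000 * Real.sqrt δ * Q with hx
  have hx2 : 2 ≤ x := by
    have hs : 0 < Real.sqrt δ := Real.sqrt_pos.2 hδ
    have h1 : 4000 / Real.sqrt δ ≤ Q := by
      rw [hQ]
      apply Real.le_sqrt_of_sq_le hc4
    have h2 : 4000 ≤ Real.sqrt δ * Q := by
      rw [div_le_iff₀ hs] at h1
      linarith
    rw [hx]; linarith
  have hE : V * V ≤ Real.exp (Real.sqrt (n * Real.log (Real.log n) / Real.log n) / 700) := by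
    rw [hV, ← Real.exp_add]
    apply Real.exp_le_exp.2
    linarith
  have hV3 : 3 ≤ V := by
    have h1 := Real.add_one_le_exp x
    rw [hV]; linarith
  have hfin : V * V ≤ V + 3 := by linarith
  nlinarith

end Pool.Agent.H.MP_3e6494_nt.Final
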