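import Mathlib
import Pool.Agent.H.MP_3e6494_nt.helper15.Conclude

/-!
The two-sided combinatorial resonator as an abstract family.
-/

open Finset

set_option linter.unusedSectionVars false
set_option linter.unusedVariables false

namespace Pool.Agent.H.MP_3e6494_nt.T3Fam

open Pool.Agent.H.MP_3e6494_nt.H15

/-- an abstract two-sided resonator: `V` is the logarithm of the size and `G` the gain -/
structure Reso (V G : ℝ) where
  α : Type
  S : Finset α
  T : Finset α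
  nu : α → ℕ
  de : α → ℕ
  f : α → ℝ
  F : ℝ
  F_pos : 0 < F
  f_nonneg : ∀ a, 0 ≤ f a
  sumS : ∑ a ∈ S, f a ^ 2 = F
  sumT : ∑ a ∈ T, f a ^ 2 = F
  cardS : (S.card : ℝ) ≤ Real.exp V
  cardT : (T.card : ℝ) ≤ Real.exp V
  pos : ∀ a, (a ∈ S ∨ a ∈ T) → 0 < nu a ∧ 0 < de a
  size : ∀ a, (a ∈ S ∨ a ∈ T) → nu a ≤ 4 ^ ⌊V ^ 2⌋₊ ∧ de a ≤ 4 ^ ⌊V ^ 2⌋₊
  cop : ∀ a, (a ∈ S ∨ a ∈ T) → ∀ q : ℕ, q.Prime → V ^ 2 < q → (nu a).Coprime q ∧ (de a).Coprime q
  injS : ∀ a ∈ S, ∀ b ∈ S, nu a * de b = de a * nu b → a = b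
  injT : ∀ a ∈ T, ∀ b ∈ T, nu a * de b = de a * nu b → a = b
  𝒵 : Finset (ℕ × α × α)
  mem : ∀ z ∈ 𝒵, 1 ≤ z.1 ∧ (z.1 : ℝ) ≤ Real.exp (2 * V) ∧ z.2.1 ∈ S ∧ z.2.2 ∈ T ∧
    z.1 * nu z.2.1 * de z.2.2 = de z.2.1 * nu z.2.2
  gain : Real.exp G * F ≤ ∑ z ∈ 𝒵, ((z.1 : ℝ) ^ (-(1 / 2) : ℝ)) * (f z.2.1 * f z.2.2)

section

variable {ι : Type} [Fintype ι] [DecidableEq ι]

lemma Phi_le_four {P : ι → Finset ℕ} (hP : ∀ k, ∀ p ∈ P k, p.Prime)
    (hdisj : ∀ k l, k ≠ l → Disjoint (P k) (P l)) (M : ℕ) (hM : ∀ k, ∀ p ∈ P k, p ≤ M)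
    {T : ι → Finset ℕ} (hT : ∀ k, T k ⊆ P k) : Phi T ≤ 4 ^ M := by
  have h1 : Phi T = ∏ p ∈ (Finset.univ : Finset ι).biUnion T, p := by
    rw [Finset.prod_biUnion]
    · rfl
    · intro k _ l _ hkl
      exact Finset.disjoint_of_subset_left (hT k) (Finset.disjoint_of_subset_right (hT l) (hdisj k l hkl))
  rw [h1]
  refine le_trans ?_ (primorial_le_four_pow M)
  unfold primorial
  apply Finset.prod_le_prod_of_subset_of_one_le'
  · intro p hp
    rw [Finset.mem_biUnion] at hp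
    obtain ⟨k, _, hk⟩ := hp
    rw [Finset.mem_filter, Finset.mem_range]
    exact ⟨Nat.lt_succ_of_le (hM k p (hT k hk)), hP k p (hT k hk)⟩
  · intro p hp _
    exact (Finset.mem_filter.1 hp).2.one_lt.le

lemma nu_de_coprime {P : ι → Finset ℕ} (hP : ∀ k, ∀ p ∈ P k, p.Prime)
    (hdisj : ∀ k l, k ≠ l → Disjoint (P k) (P l)) {j j' : ι → ℕ}
    {x : ι → Finset ℕ × Finset ℕ} (hx : x ∈ FS P j j') : (nu x).Coprime (de x) := by
  rw [mem_FS] at hx
  apply Nat.Coprime.prod_left; intro k _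
  apply Nat.Coprime.prod_left; intro p hp
  apply Nat.Coprime.prod_right; intro l _
  apply Nat.Coprime.prod_right; intro r hr
  have hpp := hP k p ((hx k).1.1 hp)
  have hrp := hP l r ((hx l).2.1.1 hr)
  rw [Nat.coprime_primes hpp hrp]
  intro hpr
  subst hpr
  by_cases hkl : k = l
  · subst hkl
    exact Finset.disjoint_left.1 (hx k).2.2 hp hr
  · exact Finset.disjoint_left.1 (hdisj k l hkl) ((hx k).1.1 hp) ((hx l).2.1.1 hr)

lemma frac_inj {P : ι → Finset ℕ} (hP : ∀ k, ∀ p ∈ P k, p.Prime)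
    (hdisj : ∀ k l, k ≠ l → Disjoint (P k) (P l)) {j j' : ι → ℕ}
    {x y : ι → Finset ℕ × Finset ℕ} (hx : x ∈ FS P j j') (hy : y ∈ FS P j j')
    (h : nu x * de y = de x * nu y) : x = y := by
  have c1 := nu_de_coprime hP hdisj hx
  have c2 := nu_de_coprime hP hdisj hy
  have hx0 := mem_FS.mp hx
  have hy0 := mem_FS.mp hy
  have d1 : nu x ∣ nu y := by
    have : nu x ∣ de x * nu y := ⟨de y, h.symm⟩
    exact c1.dvd_of_dvd_mul_left this
  have d2 : nu y ∣ nu x := by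
    have : nu y ∣ nu x * de y := ⟨de x, by rw [h, mul_comm]⟩
    exact c2.dvd_of_dvd_mul_right this
  have e1 : nu x = nu y := Nat.dvd_antisymm d1 d2
  have hpos : 0 < nu y := Phi_pos hP fun k => (hy0 k).1.1
  have e2 : de x = de y := by
    rw [e1, mul_comm (de x)] at h
    exact (Nat.eq_of_mul_eq_mul_left hpos h).symm
  have f1 := Phi_inj hP hdisj (fun k => (hx0 k).1.1) (fun k => (hy0 k).1.1) e1
  have f2 := Phi_inj hP hdisj (fun k => (hx0 k).2.1.1) (fun k => (hy0 k).2.1.1) e2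
  funext k
  exact Prod.ext (congrFun f1 k) (congrFun f2 k)

lemma tri_sum {P : ι → Finset ℕ} (hP : ∀ k, ∀ p ∈ P k, p.Prime)
    (hdisj : ∀ k l, k ≠ l → Disjoint (P k) (P l)) (J i : ι → ℕ) :
    ∑ ω ∈ (ZZ P J i).image tri, ((ω.1 : ℝ) ^ (-(1 / 2) : ℝ)) * (ff ω.2.1 * ff ω.2.2) =
        (∏ k, ((J k).choose (i k) : ℝ) ^ 2) * ∏ k, ES (P k) (J k) (J k) := by
  rw [Finset.sum_image]
  · rw [ZZ, Finset.sum_sigma, ← sum_FS, Finset.mul_sum]
    apply Finset.sum_congr rfl
    intro x hx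
    have hterm : ∀ y ∈ YY i x, (((tri ⟨x, y⟩).1 : ℝ) ^ (-(1 / 2) : ℝ)) *
        (ff (tri ⟨x, y⟩).2.1 * ff (tri ⟨x, y⟩).2.2) = 1 / ((nu x : ℝ) * (de x : ℝ)) := by
      intro y hy
      simp only [tri]
      have e1 : nu (tgt x y) = nu x := rfl
      have e2 : de (src x y) = de x := rfl
      have e3 := nu_src hx hy
      have e4 := de_tgt hx hy
      have hx0 := mem_FS.mp hx
      have hy0 := mem_YY.mp hy
      have p1 : 0 < nu x := Phi_pos hP fun k => (hx0 k).1.1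
      have p2 : 0 < de x := Phi_pos hP fun k => (hx0 k).2.1.1
      have p1' : (0 : ℝ) < nu x := by exact_mod_cast p1
      have p2' : (0 : ℝ) < de x := by exact_mod_cast p2
      unfold ff
      rw [e1, e2]
      have e0 : (((nu y * de y : ℕ) : ℝ) ^ (-(1 / 2) : ℝ)) = 1 / Real.sqrt ((nu y * de y : ℕ) : ℝ) := by
        rw [Real.rpow_neg (Nat.cast_nonneg _), ← Real.sqrt_eq_rpow, one_div]
      rw [e0]
      have e3' : (nu (src x y) : ℝ) * (nu y : ℝ) = nu x := by exact_mod_cast e3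
      have e4' : (de (tgt x y) : ℝ) * (de y : ℝ) = de x := by exact_mod_cast e4
      have h5 : Real.sqrt ((nu y * de y : ℕ) : ℝ) *
          (Real.sqrt ((nu (src x y) : ℝ) * (de x : ℝ)) *
            Real.sqrt ((nu x : ℝ) * (de (tgt x y) : ℝ))) = (nu x : ℝ) * (de x : ℝ) := by
        rw [← Real.sqrt_mul (by positivity), ← Real.sqrt_mul (by positivity)]
        have : ((nu y * de y : ℕ) : ℝ) * ((nu (src x y) : ℝ) * (de x : ℝ) *
            ((nu x : ℝ) * (de (tgt x y) : ℝ))) = ((nu x : ℝ) * (de x : ℝ)) ^ 2 := by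
          push_cast
          calc (nu y : ℝ) * de y * (nu (src x y) * de x * (nu x * de (tgt x y))) =
              (nu (src x y) * nu y) * (de (tgt x y) * de y) * (nu x * de x) := by ring
            _ = _ := by rw [e3', e4']; ring
        rw [this, Real.sqrt_sq (by positivity)]
      rw [← h5]
      have hne : (nu x : ℝ) * (de x : ℝ) ≠ 0 := (mul_pos p1' p2').ne'
      rw [← h5] at hne
      have n1 := left_ne_zero_of_mul hne
      have n2 := right_ne_zero_of_mul hne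
      have n3 := left_ne_zero_of_mul n2
      have n4 := right_ne_zero_of_mul n2
      field_simp
    rw [Finset.sum_congr rfl hterm, Finset.sum_const, card_YY hx, nsmul_eq_mul]
    push_cast
    ring
  · intro z hz w hw hzw
    exact tri_inj1 hP hdisj hz hw (by rw [hzw]) (by rw [hzw])

end

theorem reso_of_blocks {V G : ℝ} (hV1 : 1 ≤ V) (bl : Blocks V G) : Nonempty (Reso V G) := by
  classical
  let ι := bl.I
  have e1 : ∀ (f : ℕ → ℝ), ∏ k : ι, f k = ∏ k ∈ bl.I, f k := fun f => Finset.prod_coe_sort bl.I f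
  have e2 : ∀ (f : ℕ → ℕ), ∏ k : ι, f k = ∏ k ∈ bl.I, f k := fun f => Finset.prod_coe_sort bl.I f
  let P : ι → Finset ℕ := fun k => bl.P k
  let J : ι → ℕ := fun k => bl.J k
  let i : ι → ℕ := fun k => bl.i k
  have hP : ∀ k : ι, ∀ p ∈ P k, p.Prime := fun k p hp => bl.prime k k.2 p hp
  have hdisj : ∀ k l : ι, k ≠ l → Disjoint (P k) (P l) :=
    fun k l hkl => bl.disj k k.2 l l.2 (fun h => hkl (Subtype.ext h))
  have hJ : ∀ k : ι, 2 * J k ≤ (P k).card := fun k => bl.card k k.2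
  have hPV : ∀ k : ι, ∀ p ∈ P k, (p : ℝ) ≤ V ^ 2 := by
    intro k p hp
    have h1 := bl.leY k k.2 p hp
    have h2 := bl.Ysmall k k.2
    have h3 : (p : ℝ) ≤ bl.Y k := by exact_mod_cast h1
    linarith
  have hPM : ∀ k : ι, ∀ p ∈ P k, p ≤ ⌊V ^ 2⌋₊ := fun k p hp => Nat.le_floor (hPV k p hp)
  set E1 := ∏ k ∈ bl.I, ES (bl.P k) (bl.J k) (bl.J k - bl.i k) with hE1
  have hE1pos : 0 < E1 := by
    apply Finset.prod_pos
    intro k hk
    apply ES_pos _ (bl.prime k hk)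
    have := bl.card k hk
    omega
  set N := ∏ k ∈ bl.I, ((bl.P k).card.choose (bl.J k) : ℝ) ^ 2 with hN
  have hNle : N ≤ Real.exp (V - 3) := by
    have hpos : ∀ k ∈ bl.I, (0 : ℝ) < ((bl.P k).card.choose (bl.J k) : ℝ) := by
      intro k hk
      have := bl.card k hk
      exact_mod_cast Nat.choose_pos (by omega)
    have hNpos : 0 < N := Finset.prod_pos fun k hk => by
      have := hpos k hk
      positivity
    rw [← Real.log_le_iff_le_exp hNpos, hN, Real.log_prod]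
    · calc ∑ k ∈ bl.I, Real.log (((bl.P k).card.choose (bl.J k) : ℝ) ^ 2) =
          ∑ k ∈ bl.I, 2 * Real.log ((bl.P k).card.choose (bl.J k)) := by
            apply Finset.sum_congr rfl
            intro k _
            rw [Real.log_pow]
            push_cast
            rfl
        _ ≤ V - 3 := bl.size
    · intro k hk
      have := hpos k hk
      positivity
  have hNV : N ≤ Real.exp V := hNle.trans (Real.exp_le_exp.2 (by linarith))
  have hgain : ∏ k ∈ bl.I, (Real.exp (2 * bl.i k) / (2 * (Real.exp 1 * bl.i k) ^ 2) *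
      ES (bl.P k) (bl.J k) (bl.J k - bl.i k)) ≤
      (∏ k ∈ bl.I, ((bl.J k).choose (bl.i k) : ℝ) ^ 2) * ∏ k ∈ bl.I, ES (bl.P k) (bl.J k) (bl.J k) := by
    rw [← Finset.prod_mul_distrib]
    apply Finset.prod_le_prod
    · intro k hk
      exact mul_nonneg (by positivity) (ES_nonneg' _ _ _)
    · intro k hk
      exact block_gain2 (bl.P k) (bl.w k) (bl.lew k hk) (bl.J k) (bl.i k) (bl.i1 k hk) bl.σ bl.σ0
        bl.σ1 (bl.hσ k hk) (bl.hi k hk)
  rw [Finset.prod_mul_distrib] at hgain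
  set g := ∏ k ∈ bl.I, (Real.exp (2 * bl.i k) / (2 * (Real.exp 1 * bl.i k) ^ 2)) with hg
  have hgexp : Real.exp G ≤ g := by
    have h1 : g = Real.exp (∑ k ∈ bl.I, (2 * (bl.i k : ℝ) - Real.log (2 * (Real.exp 1 * bl.i k) ^ 2))) := by
      rw [Real.exp_sum, hg]
      apply Finset.prod_congr rfl
      intro k hk
      have hi' : (0 : ℝ) < bl.i k := by
        have := bl.i1 k hk
        exact_mod_cast (by omega : 0 < bl.i k)
      rw [Real.exp_sub, Real.exp_log (by positivity)]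
    rw [h1]
    exact Real.exp_le_exp.mpr bl.gain
  have hlen : (((∏ k : ι, bl.Y k ^ bl.i k) * (∏ k : ι, bl.Y k ^ bl.i k) : ℕ) : ℝ) ≤ Real.exp (2 * V) := by
    rw [e2 (fun k => bl.Y k ^ bl.i k)]
    have hpos : (0 : ℝ) < ((∏ k ∈ bl.I, bl.Y k ^ bl.i k : ℕ) : ℝ) := by
      have : 0 < ∏ k ∈ bl.I, bl.Y k ^ bl.i k :=
        Finset.prod_pos fun k hk => pow_pos (bl.Ypos k hk) _
      exact_mod_cast this
    have hlog : Real.log (((∏ k ∈ bl.I, bl.Y k ^ bl.i k : ℕ) : ℝ)) =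
        ∑ k ∈ bl.I, (bl.i k : ℝ) * Real.log (bl.Y k) := by
      push_cast
      rw [Real.log_prod]
      · apply Finset.sum_congr rfl
        intro k _
        rw [Real.log_pow]
      · intro k hk
        have : (0 : ℝ) < bl.Y k := by exact_mod_cast bl.Ypos k hk
        positivity
    rw [Nat.cast_mul, ← Real.log_le_iff_le_exp (by positivity), Real.log_mul hpos.ne' hpos.ne',
      hlog]
    have := bl.length
    linarith
  have s1 : ∑ s ∈ FS P (fun k => J k - i k) J, ff s ^ 2 = E1 := by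
    rw [sum_ff_sq, hE1, ← e1 (fun k => ES (bl.P k) (bl.J k) (bl.J k - bl.i k))]
    exact Finset.prod_congr rfl fun k _ => ES_comm _ _ _
  have s2 : ∑ s ∈ FS P J (fun k => J k - i k), ff s ^ 2 = E1 := by
    rw [sum_ff_sq, hE1, ← e1 (fun k => ES (bl.P k) (bl.J k) (bl.J k - bl.i k))]
  have c1 : ((FS P (fun k => J k - i k) J).card : ℝ) ≤ Real.exp V := by
    refine (card_FS_le2 P J i hJ).trans ?_
    rw [e1 (fun k => ((bl.P k).card.choose (bl.J k) : ℝ) ^ 2)]
    exact hNV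
  have c2 : ((FS P J (fun k => J k - i k)).card : ℝ) ≤ Real.exp V := by
    refine (card_FS_le1 P J i hJ).trans ?_
    rw [e1 (fun k => ((bl.P k).card.choose (bl.J k) : ℝ) ^ 2)]
    exact hNV
  have hsub : ∀ x : ι → Finset ℕ × Finset ℕ,
      (x ∈ FS P (fun k => J k - i k) J ∨ x ∈ FS P J (fun k => J k - i k)) →
      (∀ k, (x k).1 ⊆ P k) ∧ (∀ k, (x k).2 ⊆ P k) := by
    intro x hx
    rcases hx with hx | hx
    · rw [mem_FS] at hx
      exact ⟨fun k => (hx k).1.1, fun k => (hx k).2.1.1⟩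
    · rw [mem_FS] at hx
      exact ⟨fun k => (hx k).1.1, fun k => (hx k).2.1.1⟩
  refine ⟨{
    α := ι → Finset ℕ × Finset ℕ
    S := FS P (fun k => J k - i k) J
    T := FS P J (fun k => J k - i k)
    nu := nu
    de := de
    f := ff
    F := E1
    F_pos := hE1pos
    f_nonneg := ff_nonneg
    sumS := s1
    sumT := s2
    cardS := c1
    cardT := c2
    pos := fun a ha => ⟨Phi_pos hP (hsub a ha).1, Phi_pos hP (hsub a ha).2⟩
    size := fun a ha => ⟨Phi_le_four hP hdisj _ hPM (hsub a ha).1,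
      Phi_le_four hP hdisj _ hPM (hsub a ha).2⟩
    cop := ?_
    injS := fun a ha b hb h => frac_inj hP hdisj ha hb h
    injT := fun a ha b hb h => frac_inj hP hdisj ha hb h
    𝒵 := (ZZ P J i).image tri
    mem := ?_
    gain := ?_ }⟩
  · intro a ha q hq hVq
    have hPq : ∀ k : ι, ∀ p ∈ P k, p < q := by
      intro k p hp
      have := (hPV k p hp).trans_lt hVq
      exact_mod_cast this
    exact ⟨Phi_coprime hP hq hPq (hsub a ha).1, Phi_coprime hP hq hPq (hsub a ha).2⟩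
  · intro ω hω
    rw [Finset.mem_image] at hω
    obtain ⟨⟨x, y⟩, hz, rfl⟩ := hω
    rw [mem_ZZ] at hz
    obtain ⟨hx, hy⟩ := hz
    simp only at hx hy
    have hx0 := mem_FS.mp hx
    have hy0 := mem_YY.mp hy
    have l3 : 0 < nu y := Phi_pos hP fun k => (hy0 k).1.1.trans (hx0 k).1.1
    have l4 : 0 < de y := Phi_pos hP fun k => (hy0 k).2.1.trans (hx0 k).2.1.1
    refine ⟨?_, ?_, src_mem hx hy, tgt_mem hx hy, ?_⟩
    · simp only [tri]
      exact Nat.mul_pos l3 l4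
    · simp only [tri]
      refine le_trans ?_ hlen
      have l1 : nu y ≤ ∏ k : ι, bl.Y k ^ bl.i k := by
        apply Phi_le (Y := fun k : ι => bl.Y k) (i := fun k : ι => bl.i k)
        · intro k p hp
          exact bl.leY k k.2 p ((hx0 k).1.1 ((hy0 k).1.1 hp))
        · intro k
          exact (hy0 k).1.2
      have l2 : de y ≤ ∏ k : ι, bl.Y k ^ bl.i k := by
        apply Phi_le (Y := fun k : ι => bl.Y k) (i := fun k : ι => bl.i k)
        · intro k p hp
          exact bl.leY k k.2 p ((hx0 k).2.1.1 ((hy0 k).2.1 hp))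
        · intro k
          exact (hy0 k).2.2
      exact_mod_cast Nat.mul_le_mul l1 l2
    · simp only [tri]
      have e1 : nu (tgt x y) = nu x := rfl
      have e2 : de (src x y) = de x := rfl
      rw [e1, e2]
      have e3 := nu_src hx hy
      have e4 := de_tgt hx hy
      rw [← e3]
      conv_rhs => rw [← e4]
      ring
  · rw [tri_sum hP hdisj J i]
    have a1 := e1 (fun k => ((bl.J k).choose (bl.i k) : ℝ) ^ 2)
    have a2 := e1 (fun k => ES (bl.P k) (bl.J k) (bl.J k))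
    calc Real.exp G * E1 ≤ g * E1 := mul_le_mul_of_nonneg_right hgexp hE1pos.le
      _ ≤ _ := hgain
      _ = _ := by rw [← a1, ← a2]

end Pool.Agent.H.MP_3e6494_nt.T3Fam
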