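import Mathlib
import Pool.Agent.H.MP_3e6494_nt.helper50.T3Fam

/-!
Counting the exceptional primes.
-/

open Finset Filter

set_option linter.unusedSectionVars false
set_option linter.unusedVariables false

namespace Pool.Agent.H.MP_3e6494_nt.T3Exc

open Pool.Agent.H.MP_3e6494_nt.T3Fam

lemma card_primeFactors_le {n B : ℕ} (hn : n ≠ 0) (h : n ≤ 2 ^ B) : n.primeFactors.card ≤ B := by
  have h1 : 2 ^ n.primeFactors.card ≤ n := by
    calc 2 ^ n.primeFactors.card = ∏ _p ∈ n.primeFactors, 2 := by rw [Finset.prod_const]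
      _ ≤ ∏ p ∈ n.primeFactors, p := by
          apply Finset.prod_le_prod'
          intro p hp
          exact (Nat.prime_of_mem_primeFactors hp).two_le
      _ ≤ n := Nat.le_of_dvd (Nat.pos_of_ne_zero hn) (Nat.prod_primeFactors_dvd n)
  exact (Nat.pow_le_pow_iff_right (by norm_num)).1 (h1.trans h)

/-- the exceptional moduli attached to a resonator -/
def bad {V G : ℝ} (R : Reso V G) (Z J : ℕ) (q : ℕ) : Prop :=
  ∃ j ∈ Finset.Icc 1 J, ∃ m ∈ Finset.Icc 1 Z, ∃ a b : R.α, (a ∈ R.S ∨ a ∈ R.T) ∧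
    (b ∈ R.S ∨ b ∈ R.T) ∧ m * R.nu a * R.de b ≠ R.de a * R.nu b ∧
      (m * R.nu a * R.de b) ^ j ≡ (R.de a * R.nu b) ^ j [MOD q]

theorem bad_count {V G : ℝ} (R : Reso V G) (Z J B : ℕ) (hB : Z * (4 ^ ⌊V ^ 2⌋₊ * 4 ^ ⌊V ^ 2⌋₊) ≤ 2 ^ B)
    (hZ : 1 ≤ Z) :
    ∃ 𝒮 : Finset ℕ, (∀ q : ℕ, q.Prime → bad R Z J q → q ∈ 𝒮) ∧
      (𝒮.card : ℝ) ≤ J * (Z * ((2 * Real.exp V) ^ 2 * (B * J))) := by
  classical
  set U : Finset R.α := R.S ∪ R.T with hU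
  have hUc : (U.card : ℝ) ≤ 2 * Real.exp V := by
    have h1 : U.card ≤ R.S.card + R.T.card := Finset.card_union_le _ _
    have h2 : (U.card : ℝ) ≤ R.S.card + R.T.card := by exact_mod_cast h1
    linarith [R.cardS, R.cardT]
  let x : ℕ → R.α × R.α → ℕ := fun m ab => m * R.nu ab.1 * R.de ab.2
  let y : R.α × R.α → ℕ := fun ab => R.de ab.1 * R.nu ab.2
  let D : ℕ → ℕ → R.α × R.α → ℕ := fun j m ab => (x m ab ^ j - y ab ^ j) + (y ab ^ j - x m ab ^ j)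
  let I : Finset (ℕ × ℕ × R.α × R.α) := (Finset.Icc 1 J) ×ˢ ((Finset.Icc 1 Z) ×ˢ (U ×ˢ U))
  let I' := I.filter (fun t => x t.2.1 t.2.2 ≠ y t.2.2)
  refine ⟨I'.biUnion (fun t => (D t.1 t.2.1 t.2.2).primeFactors), ?_, ?_⟩
  · rintro q hq ⟨j, hj, m, hm, a, b, ha, hb, hne, hmod⟩
    rw [Finset.mem_biUnion]
    refine ⟨(j, m, a, b), ?_, ?_⟩
    · rw [Finset.mem_filter]
      refine ⟨?_, hne⟩
      rw [Finset.mem_product, Finset.mem_product, Finset.mem_product]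
      refine ⟨hj, hm, ?_, ?_⟩
      · rw [hU, Finset.mem_union]; exact ha
      · rw [hU, Finset.mem_union]; exact hb
    · rw [Nat.mem_primeFactors]
      have hj1 : j ≠ 0 := by have := (Finset.mem_Icc.1 hj).1; omega
      have hne' : x m (a, b) ^ j ≠ y (a, b) ^ j := by
        intro h
        exact hne (Nat.pow_left_injective hj1 h)
      refine ⟨hq, ?_, ?_⟩
      · have hmod' : x m (a, b) ^ j ≡ y (a, b) ^ j [MOD q] := hmod
        show q ∣ (x m (a, b) ^ j - y (a, b) ^ j) + (y (a, b) ^ j - x m (a, b) ^ j)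
        rcases le_total (x m (a, b) ^ j) (y (a, b) ^ j) with h | h
        · rw [Nat.sub_eq_zero_of_le h, zero_add]
          exact (Nat.modEq_iff_dvd' h).1 hmod'
        · rw [Nat.sub_eq_zero_of_le h, add_zero]
          exact (Nat.modEq_iff_dvd' h).1 hmod'.symm
      · show (x m (a, b) ^ j - y (a, b) ^ j) + (y (a, b) ^ j - x m (a, b) ^ j) ≠ 0
        omega
  · have hone : ∀ t ∈ I', (D t.1 t.2.1 t.2.2).primeFactors.card ≤ B * J := by
      intro t ht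
      rw [Finset.mem_filter] at ht
      obtain ⟨ht1, hne⟩ := ht
      obtain ⟨j, m, a, b⟩ := t
      rw [Finset.mem_product, Finset.mem_product, Finset.mem_product] at ht1
      obtain ⟨hj, hm, ha, hb⟩ := ht1
      simp only at hj hm ha hb hne ⊢
      rw [hU, Finset.mem_union] at ha hb
      have hj1 : 1 ≤ j ∧ j ≤ J := Finset.mem_Icc.1 hj
      have hm1 : 1 ≤ m ∧ m ≤ Z := Finset.mem_Icc.1 hm
      have hx : x m (a, b) ≤ 2 ^ B := by
        refine le_trans ?_ hB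
        show m * R.nu a * R.de b ≤ _
        rw [mul_assoc]
        exact Nat.mul_le_mul hm1.2 (Nat.mul_le_mul (R.size a ha).1 (R.size b hb).2)
      have hy : y (a, b) ≤ 2 ^ B := by
        refine le_trans ?_ hB
        show R.de a * R.nu b ≤ _
        calc R.de a * R.nu b ≤ 4 ^ ⌊V ^ 2⌋₊ * 4 ^ ⌊V ^ 2⌋₊ :=
              Nat.mul_le_mul (R.size a ha).2 (R.size b hb).1
          _ = 1 * (4 ^ ⌊V ^ 2⌋₊ * 4 ^ ⌊V ^ 2⌋₊) := (one_mul _).symm
          _ ≤ _ := Nat.mul_le_mul_right _ hZ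
      have hxj : x m (a, b) ^ j ≤ 2 ^ (B * j) := by
        rw [pow_mul]; exact Nat.pow_le_pow_left hx j
      have hyj : y (a, b) ^ j ≤ 2 ^ (B * j) := by
        rw [pow_mul]; exact Nat.pow_le_pow_left hy j
      have hne' : x m (a, b) ^ j ≠ y (a, b) ^ j := by
        intro h
        exact hne (Nat.pow_left_injective (by omega) h)
      refine (card_primeFactors_le (B := B * j) ?_ ?_).trans (Nat.mul_le_mul_left _ hj1.2)
      · show (x m (a, b) ^ j - y (a, b) ^ j) + (y (a, b) ^ j - x m (a, b) ^ j) ≠ 0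
        omega
      · show (x m (a, b) ^ j - y (a, b) ^ j) + (y (a, b) ^ j - x m (a, b) ^ j) ≤ 2 ^ (B * j)
        omega
    have h1 : (I'.biUnion (fun t => (D t.1 t.2.1 t.2.2).primeFactors)).card ≤ I'.card * (B * J) :=
      Finset.card_biUnion_le_card_mul _ _ _ hone
    have h2 : I'.card ≤ J * (Z * (U.card * U.card)) := by
      refine (Finset.card_filter_le _ _).trans ?_
      show ((Finset.Icc 1 J) ×ˢ ((Finset.Icc 1 Z) ×ˢ (U ×ˢ U))).card ≤ _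
      rw [Finset.card_product, Finset.card_product, Finset.card_product, Nat.card_Icc, Nat.card_Icc]
      simp
    have h3 : ((I'.biUnion (fun t => (D t.1 t.2.1 t.2.2).primeFactors)).card : ℝ)
        ≤ (J * (Z * (U.card * U.card)) : ℝ) * (B * J) := by
      have := h1.trans (Nat.mul_le_mul_right (B * J) h2)
      exact_mod_cast this
    refine h3.trans ?_
    have h4 : (U.card : ℝ) * U.card ≤ (2 * Real.exp V) ^ 2 := by
      rw [sq]; exact mul_le_mul hUc hUc (Nat.cast_nonneg _) (by positivity)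
    calc (J * (Z * (U.card * U.card)) : ℝ) * (B * J)
        = J * (Z * ((U.card * U.card) * (B * J))) := by ring
      _ ≤ J * (Z * ((2 * Real.exp V) ^ 2 * (B * J))) := by gcongr

/-- the parameters at the dyadic level `k` -/
noncomputable def Vk (ν ε : ℝ) (k : ℕ) : ℝ := (ν - ε) * (k * Real.log 2)

noncomputable def Zk (κ ν : ℝ) (k : ℕ) : ℕ := ⌊((2 : ℝ) ^ k) ^ (κ + 2 * ν)⌋₊

noncomputable def Jk (κ : ℝ) (k : ℕ) : ℕ := ⌊((2 : ℝ) ^ (k + 1)) ^ κ⌋₊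

lemma one_le_Zk {κ ν : ℝ} (hκ : 0 ≤ κ) (hν : 0 < ν) (k : ℕ) : 1 ≤ Zk κ ν k := by
  unfold Zk
  apply Nat.le_floor
  rw [Nat.cast_one]
  apply Real.one_le_rpow (one_le_pow₀ (by norm_num)) (by linarith)

lemma level_count {κ ν ε : ℝ} (hκ : 0 ≤ κ) (hν : 0 < ν) (hκν : 3 * κ + 4 * ν < 1) (hε : 0 < ε)
    (hεν : ε < ν) (k : ℕ) (hk : 1 ≤ k) {G : ℝ} (R : Reso (Vk ν ε k) G) :
    ∃ 𝒮 : Finset ℕ, (∀ q : ℕ, q.Prime → bad R (Zk κ ν k) (Jk κ k) q → q ∈ 𝒮) ∧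
      (𝒮.card : ℝ) ≤ 80 * (k : ℝ) ^ 2 * ((2 : ℝ) ^ k) ^ (3 * κ + 4 * ν - 2 * ε) := by
  have hl2 : 0 < Real.log 2 := Real.log_pos (by norm_num)
  have hl21 : Real.log 2 < 1 := by linarith [Real.log_two_lt_d9]
  have hk1 : (1 : ℝ) ≤ k := by exact_mod_cast hk
  set Q : ℝ := (2 : ℝ) ^ k with hQ
  have hQ1 : 1 ≤ Q := one_le_pow₀ (by norm_num)
  have hQ0 : 0 < Q := by linarith
  have hlogQ : Real.log Q = k * Real.log 2 := by rw [hQ, Real.log_pow]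
  have hVnn : 0 ≤ Vk ν ε k := by
    unfold Vk
    have : 0 < ν - ε := by linarith
    positivity
  have hVle : Vk ν ε k ≤ k := by
    unfold Vk
    have h1 : ν - ε ≤ 1 := by linarith
    have h2 : (k : ℝ) * Real.log 2 ≤ k := by nlinarith
    have h3 : 0 ≤ (k : ℝ) * Real.log 2 := by positivity
    nlinarith
  have hM : ⌊(Vk ν ε k) ^ 2⌋₊ ≤ k ^ 2 := by
    apply Nat.floor_le_of_le
    push_cast
    exact pow_le_pow_left₀ hVnn hVle 2
  have hZ2 : Zk κ ν k ≤ 2 ^ k := by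
    unfold Zk
    apply Nat.floor_le_of_le
    push_cast
    calc Q ^ (κ + 2 * ν) ≤ Q ^ (1 : ℝ) := Real.rpow_le_rpow_of_exponent_le hQ1 (by linarith)
      _ = Q := Real.rpow_one _
  obtain ⟨𝒮, h𝒮1, h𝒮2⟩ := bad_count R (Zk κ ν k) (Jk κ k) (5 * k ^ 2) (by
    calc Zk κ ν k * (4 ^ ⌊(Vk ν ε k) ^ 2⌋₊ * 4 ^ ⌊(Vk ν ε k) ^ 2⌋₊)
        ≤ 2 ^ k * (4 ^ (k ^ 2) * 4 ^ (k ^ 2)) := by
          apply Nat.mul_le_mul hZ2
          exact Nat.mul_le_mul (Nat.pow_le_pow_right (by norm_num) hM)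
            (Nat.pow_le_pow_right (by norm_num) hM)
      _ = 2 ^ (k + 4 * k ^ 2) := by
          rw [show (4 : ℕ) = 2 ^ 2 by norm_num, ← pow_mul, ← pow_add, ← pow_add]
          congr 1; ring
      _ ≤ 2 ^ (5 * k ^ 2) := by
          apply Nat.pow_le_pow_right (by norm_num)
          nlinarith) (one_le_Zk hκ hν k)
  refine ⟨𝒮, h𝒮1, h𝒮2.trans ?_⟩
  have hJ : (Jk κ k : ℝ) ≤ 2 * Q ^ κ := by
    have h1 : (Jk κ k : ℝ) ≤ ((2 : ℝ) ^ (k + 1)) ^ κ := Nat.floor_le (by positivity)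
    refine h1.trans ?_
    rw [pow_succ, ← hQ, Real.mul_rpow hQ0.le (by norm_num), mul_comm]
    apply mul_le_mul_of_nonneg_right _ (by positivity)
    calc (2 : ℝ) ^ κ ≤ 2 ^ (1 : ℝ) :=
          Real.rpow_le_rpow_of_exponent_le (by norm_num) (by linarith)
      _ = 2 := Real.rpow_one _
  have hZ : (Zk κ ν k : ℝ) ≤ Q ^ (κ + 2 * ν) := Nat.floor_le (by positivity)
  have hE : Real.exp (Vk ν ε k) = Q ^ (ν - ε) := by
    rw [Real.rpow_def_of_pos hQ0, hlogQ]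
    unfold Vk
    congr 1; ring
  rw [hE]
  have hexp : Q ^ κ * (Q ^ (κ + 2 * ν) * (Q ^ (ν - ε) ^ 1 * Q ^ (ν - ε) ^ 1 *
      Q ^ κ)) = Q ^ (3 * κ + 4 * ν - 2 * ε) := by
    simp only [pow_one]
    rw [← Real.rpow_add hQ0, ← Real.rpow_add hQ0, ← Real.rpow_add hQ0, ← Real.rpow_add hQ0]
    congr 1; ring
  calc (Jk κ k : ℝ) * (Zk κ ν k * ((2 * Q ^ (ν - ε)) ^ 2 * (((5 * k ^ 2 : ℕ) : ℝ) * Jk κ k)))
      ≤ (2 * Q ^ κ) * (Q ^ (κ + 2 * ν) * ((2 * Q ^ (ν - ε)) ^ 2 *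
          (((5 * k ^ 2 : ℕ) : ℝ) * (2 * Q ^ κ)))) := by gcongr
    _ = 80 * (k : ℝ) ^ 2 * (Q ^ κ * (Q ^ (κ + 2 * ν) *
          (Q ^ (ν - ε) ^ 1 * Q ^ (ν - ε) ^ 1 * Q ^ κ))) := by
        simp only [pow_one]
        push_cast; ring
    _ = _ := by rw [hexp]

/-- the whole exceptional set -/
def excSet (κ ν ε : ℝ) (G : ℕ → ℝ) (k₀ : ℕ) (R : ∀ k, k₀ ≤ k → Reso (Vk ν ε k) (G k)) : Set ℕ :=
  {q | q.Prime ∧ ∃ h : k₀ ≤ Nat.log 2 q, bad (R (Nat.log 2 q) h) (Zk κ ν (Nat.log 2 q))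
    (Jk κ (Nat.log 2 q)) q}

theorem exc_count {κ ν ε : ℝ} (hκ : 0 ≤ κ) (hν : 0 < ν) (hκν : 3 * κ + 4 * ν < 1) (hε : 0 < ε)
    (hεν : ε < ν) (G : ℕ → ℝ) (k₀ : ℕ) (hk₀ : 1 ≤ k₀) (R : ∀ k, k₀ ≤ k → Reso (Vk ν ε k) (G k)) :
    ∃ x₀ : ℕ, ∀ x : ℕ, x₀ ≤ x →
      ((excSet κ ν ε G k₀ R ∩ Set.Icc 1 x).ncard : ℝ) ≤ (x : ℝ) ^ (3 * κ + 4 * ν) := by
  classical
  have hev : ∀ᶠ x : ℝ in atTop, 80 * (Real.log x / Real.log 2 + 1) ^ 3 ≤ x ^ (2 * ε) ∧ 1 ≤ x := by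
    have h1 : ∀ᶠ x : ℝ in atTop, Real.log x / Real.log 2 + 1 ≤ 4 * Real.log x := by
      filter_upwards [Real.tendsto_log_atTop.eventually_ge_atTop (1 : ℝ)] with x hx
      have h2 : (1 / 2 : ℝ) ≤ Real.log 2 := by linarith [Real.log_two_gt_d9]
      have h3 : Real.log x / Real.log 2 ≤ 2 * Real.log x := by
        rw [div_le_iff₀ (by linarith)]; nlinarith
      linarith
    have h2 := (isLittleO_log_rpow_rpow_atTop (s := 2 * ε) 3 (by positivity)).bound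
      (show (0 : ℝ) < 1 / (80 * 64) by norm_num)
    filter_upwards [h1, h2, Real.tendsto_log_atTop.eventually_ge_atTop (1 : ℝ),
      eventually_ge_atTop (1 : ℝ)] with x a1 a2 a3 a4
    refine ⟨?_, a4⟩
    rw [Real.norm_of_nonneg (by positivity), Real.norm_of_nonneg (by positivity)] at a2
    have e : Real.log x ^ (3 : ℝ) = Real.log x ^ 3 := by
      rw [← Real.rpow_natCast]; norm_num
    rw [e] at a2
    have h0 : 0 ≤ Real.log x / Real.log 2 + 1 := by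
      have : 0 < Real.log 2 := Real.log_pos (by norm_num)
      positivity
    calc 80 * (Real.log x / Real.log 2 + 1) ^ 3 ≤ 80 * (4 * Real.log x) ^ 3 := by gcongr
      _ = (80 * 64) * Real.log x ^ 3 := by ring
      _ ≤ (80 * 64) * (1 / (80 * 64) * x ^ (2 * ε)) := by gcongr
      _ = x ^ (2 * ε) := by ring
  obtain ⟨x₁, hx₁⟩ := eventually_atTop.1 hev
  refine ⟨⌈x₁⌉₊, fun x hx => ?_⟩
  have hxr : x₁ ≤ (x : ℝ) := (Nat.le_ceil _).trans (by exact_mod_cast hx)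
  obtain ⟨hb1, hb2⟩ := hx₁ x hxr
  have hx1 : 1 ≤ x := by exact_mod_cast hb2
  have hx0 : (0 : ℝ) < x := by linarith
  choose! 𝒮 h𝒮 using (fun (k : ℕ) (hk : k₀ ≤ k) =>
    level_count hκ hν hκν hε hεν k (hk₀.trans hk) (R k hk))
  set K := Nat.log 2 x with hK
  have hsub : excSet κ ν ε G k₀ R ∩ Set.Icc 1 x ⊆
      (((Finset.Icc k₀ K).biUnion 𝒮 : Finset ℕ) : Set ℕ) := by
    rintro q ⟨⟨hq, hk, hbad⟩, hq1, hqx⟩
    rw [Finset.mem_coe, Finset.mem_biUnion]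
    refine ⟨Nat.log 2 q, Finset.mem_Icc.2 ⟨hk, Nat.log_mono_right hqx⟩, ?_⟩
    exact (h𝒮 _ hk).1 q hq hbad
  have h1 : ((excSet κ ν ε G k₀ R ∩ Set.Icc 1 x).ncard : ℝ)
      ≤ (((Finset.Icc k₀ K).biUnion 𝒮).card : ℝ) := by
    have := Set.ncard_le_ncard hsub (Finset.finite_toSet _)
    rw [Set.ncard_coe_finset] at this
    exact_mod_cast this
  refine h1.trans ?_
  have h2 : (((Finset.Icc k₀ K).biUnion 𝒮).card : ℝ) ≤ ∑ k ∈ Finset.Icc k₀ K, ((𝒮 k).card : ℝ) := by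
    exact_mod_cast Finset.card_biUnion_le
  refine h2.trans ?_
  have hQx : ((2 : ℝ) ^ K) ≤ x := by
    exact_mod_cast Nat.pow_log_le_self 2 (by omega : x ≠ 0)
  have hKle : (K : ℝ) ≤ Real.log x / Real.log 2 := by
    rw [le_div_iff₀ (Real.log_pos (by norm_num)), ← Real.log_pow]
    exact Real.log_le_log (by positivity) hQx
  have hex : 0 ≤ 3 * κ + 4 * ν - 2 * ε := by linarith
  calc ∑ k ∈ Finset.Icc k₀ K, ((𝒮 k).card : ℝ)
      ≤ ∑ k ∈ Finset.Icc k₀ K, 80 * (K : ℝ) ^ 2 * (x : ℝ) ^ (3 * κ + 4 * ν - 2 * ε) := by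
        apply Finset.sum_le_sum
        intro k hk
        rw [Finset.mem_Icc] at hk
        refine (h𝒮 k hk.1).2.trans ?_
        have hkK : (k : ℝ) ≤ K := by exact_mod_cast hk.2
        have h3 : ((2 : ℝ) ^ k) ≤ x := (pow_le_pow_right₀ (by norm_num) hk.2).trans hQx
        gcongr
    _ = ((Finset.Icc k₀ K).card : ℝ) * (80 * (K : ℝ) ^ 2 * (x : ℝ) ^ (3 * κ + 4 * ν - 2 * ε)) := by
        rw [Finset.sum_const, nsmul_eq_mul]
    _ ≤ ((K : ℝ) + 1) * (80 * ((K : ℝ) + 1) ^ 2 * (x : ℝ) ^ (3 * κ + 4 * ν - 2 * ε)) := by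
        have h3 : ((Finset.Icc k₀ K).card : ℝ) ≤ (K : ℝ) + 1 := by
          rw [Nat.card_Icc]
          have : K + 1 - k₀ ≤ K + 1 := Nat.sub_le _ _
          exact_mod_cast this
        have hK0 : (0 : ℝ) ≤ K := Nat.cast_nonneg _
        gcongr
        linarith
    _ = (80 * ((K : ℝ) + 1) ^ 3) * (x : ℝ) ^ (3 * κ + 4 * ν - 2 * ε) := by ring
    _ ≤ (80 * (Real.log x / Real.log 2 + 1) ^ 3) * (x : ℝ) ^ (3 * κ + 4 * ν - 2 * ε) := by gcongr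
    _ ≤ (x : ℝ) ^ (2 * ε) * (x : ℝ) ^ (3 * κ + 4 * ν - 2 * ε) := by gcongr
    _ = (x : ℝ) ^ (3 * κ + 4 * ν) := by
        rw [← Real.rpow_add hx0]; congr 1; ring

end Pool.Agent.H.MP_3e6494_nt.T3Exc
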