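import Mathlib
import Pool.Agent.H.MP_3e6494_nt.helper50.T3Res
import Pool.Agent.H.MP_3e6494_nt.helper50.T3Cnt
import Pool.Agent.H.MP_3e6494_nt.helper50.T3Exc
import Pool.Agent.H.MP_3e6494_nt.helper50.Dual
import Pool.Agent.H.MP_3e6494_nt.helper50.Final

/-!
The argument for one non-exceptional prime.
-/

open Finset Filter

set_option linter.unusedSectionVars false
set_option linter.unusedVariables false

namespace Pool.Agent.H.MP_3e6494_nt.T3Prime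

open Pool.Agent.H.MP_3e6494_nt.T3Fam Pool.Agent.H.MP_3e6494_nt.T3Exc
  Pool.Agent.H.MP_3e6494_nt.Class Pool.Agent.H.MP_3e6494_nt.T3Cnt

variable {q : ℕ} [hq : Fact q.Prime]

/-- the unit of an integer -/
noncomputable def u (q : ℕ) (m : ℕ) : (ZMod q)ˣ :=
  if h : m.Coprime q then ZMod.unitOfCoprime m h else 1

lemma u_val {m : ℕ} (h : m.Coprime q) : ((u q m : (ZMod q)ˣ) : ZMod q) = (m : ZMod q) := by
  unfold u; rw [dif_pos h, ZMod.coe_unitOfCoprime]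

lemma u_mul {m n : ℕ} (hm : m.Coprime q) (hn : n.Coprime q) : u q (m * n) = u q m * u q n := by
  apply Units.ext
  rw [u_val (Nat.Coprime.mul_left hm hn), Units.val_mul, u_val hm, u_val hn]
  push_cast; rfl

lemma u_one : u q 1 = 1 := by
  apply Units.ext
  rw [u_val (Nat.coprime_one_left q)]
  simp

/-- sizes -/
lemma index_le {κ : ℝ} (H : Subgroup (DirichletCharacter ℂ q))
    (hH : (q : ℝ) ^ (1 - κ) ≤ Nat.card H) :
    ((Nat.card (K H) : ℕ) : ℝ) ≤ (q : ℝ) ^ κ := by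
  have hq0 : (0 : ℝ) < q := by exact_mod_cast hq.out.pos
  have h1 := Dual.card_K_mul H
  have h2 : ((Nat.card (K H) : ℕ) : ℝ) * (Nat.card H : ℝ) ≤ q := by
    have : Nat.card (K H) * Nat.card H ≤ q := by rw [h1]; exact Nat.sub_le _ _
    exact_mod_cast this
  have h3 : 0 < (q : ℝ) ^ (1 - κ) := Real.rpow_pos_of_pos hq0 _
  have h4 : ((Nat.card (K H) : ℕ) : ℝ) * (q : ℝ) ^ (1 - κ) ≤ q :=
    (mul_le_mul_of_nonneg_left hH (Nat.cast_nonneg _)).trans h2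
  have h5 : (q : ℝ) ^ κ * (q : ℝ) ^ (1 - κ) = q := by
    rw [← Real.rpow_add hq0]
    rw [show (κ : ℝ) + (1 - κ) = 1 by ring, Real.rpow_one]
  exact le_of_mul_le_mul_right (h4.trans (le_of_eq h5.symm)) h3

lemma q_lt (q : ℕ) : (q : ℝ) ≤ (2 : ℝ) ^ (Nat.log 2 q + 1) := by
  have h := Nat.lt_pow_succ_log_self (b := 2) (by norm_num) q
  exact_mod_cast h.le

lemma Q_le (hq1 : q ≠ 0) : (2 : ℝ) ^ (Nat.log 2 q) ≤ q := by
  exact_mod_cast Nat.pow_log_le_self 2 hq1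

/-- the relations at a non-exceptional prime -/
lemma rel {V G : ℝ} (R : Reso V G) (Z J : ℕ) (hV : V ^ 2 < q) (hnb : ¬ bad R Z J q)
    (K : Subgroup (ZMod q)ˣ) (hJ : Nat.card K ≤ J) {m : ℕ} (hm : m ∈ Finset.Icc 1 Z)
    (hmc : m.Coprime q) {a b : R.α} (ha : a ∈ R.S ∨ a ∈ R.T) (hb : b ∈ R.S ∨ b ∈ R.T)
    (h : u q m * (u q (R.nu a) * (u q (R.de a))⁻¹) * (u q (R.nu b) * (u q (R.de b))⁻¹)⁻¹ ∈ K) :
    m * R.nu a * R.de b = R.de a * R.nu b := by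
  by_contra hne
  apply hnb
  refine ⟨Nat.card K, Finset.mem_Icc.2 ⟨Nat.card_pos, hJ⟩, m, hm, a, b, ha, hb, hne, ?_⟩
  obtain ⟨ca1, ca2⟩ := R.cop a ha q hq.out hV
  obtain ⟨cb1, cb2⟩ := R.cop b hb q hq.out hV
  set w := u q m * (u q (R.nu a) * (u q (R.de a))⁻¹) * (u q (R.nu b) * (u q (R.de b))⁻¹)⁻¹ with hw
  have h1 : w ^ Nat.card K = 1 := by
    have h2 : (⟨w, h⟩ : K) ^ Nat.card K = 1 := pow_card_eq_one'
    have h3 := congrArg (fun z : K => (z : (ZMod q)ˣ)) h2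
    simp only [Subgroup.coe_pow, Subgroup.coe_one] at h3
    exact h3
  have h2 : u q m * u q (R.nu a) * u q (R.de b) = w * (u q (R.de a) * u q (R.nu b)) := by
    rw [hw, mul_inv, inv_inv]
    have : ∀ A B C D E : (ZMod q)ˣ, A * B * E = A * (B * C⁻¹) * (D⁻¹ * E) * (C * D) := by
      intro A B C D E
      calc A * B * E = A * B * (C⁻¹ * C) * (D⁻¹ * D) * E := by
            rw [inv_mul_cancel, inv_mul_cancel, mul_one, mul_one]
        _ = _ := by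
            simp only [mul_comm, mul_assoc, mul_left_comm]
    exact this _ _ _ _ _
  have h3 : (u q m * u q (R.nu a) * u q (R.de b)) ^ Nat.card K
      = (u q (R.de a) * u q (R.nu b)) ^ Nat.card K := by
    rw [h2, mul_pow, h1, one_mul]
  have c1 : (m * R.nu a).Coprime q := Nat.Coprime.mul_left hmc ca1
  rw [← u_mul hmc ca1, ← u_mul c1 cb2, ← u_mul ca2 cb1] at h3
  have h4 := congrArg (fun z : (ZMod q)ˣ => (z : ZMod q)) h3
  simp only [Units.val_pow_eq_pow_val] at h4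
  rw [u_val (Nat.Coprime.mul_left c1 cb2), u_val (Nat.Coprime.mul_left ca2 cb1)] at h4
  rw [← ZMod.natCast_eq_natCast_iff]
  push_cast at h4 ⊢
  exact h4

/-- the conditions on `x = q` -/
structure Big (ε C x : ℝ) : Prop where
  b1 : 3 * (1 + Real.log x) ≤ x ^ (1 / 6 : ℝ)
  b2 : 9 / 4 * (1 + Real.log x) ^ 2 < x
  b3 : Real.sqrt (3 * C) * (1 + 2 * Real.log x) ≤ x ^ (7 * ε / 8)
  b4 : 2 ≤ x

lemma log_pow_le (n : ℕ) (C s : ℝ) (hC : 0 < C) (hs : 0 < s) : ∀ᶠ x : ℝ in atTop,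
    C * (1 + 2 * Real.log x) ^ n ≤ x ^ s := by
  have h2 := (isLittleO_log_rpow_rpow_atTop (s := s) n hs).bound
      (show (0 : ℝ) < 1 / (C * 3 ^ n) by positivity)
  filter_upwards [h2, Real.tendsto_log_atTop.eventually_ge_atTop (1 : ℝ),
      eventually_ge_atTop (1 : ℝ)] with x a2 a3 a4
  rw [Real.norm_of_nonneg (by positivity), Real.norm_of_nonneg (by positivity),
    Real.rpow_natCast] at a2
  calc C * (1 + 2 * Real.log x) ^ n ≤ C * (3 * Real.log x) ^ n := by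
        gcongr; linarith
    _ = (C * 3 ^ n) * Real.log x ^ n := by ring
    _ ≤ (C * 3 ^ n) * (1 / (C * 3 ^ n) * x ^ s) := by gcongr
    _ = x ^ s := by field_simp

lemma big_eventually (ε C : ℝ) (hε : 0 < ε) (hC : 0 < C) : ∀ᶠ x : ℝ in atTop, Big ε C x := by
  filter_upwards [log_pow_le 1 3 (1 / 6) (by norm_num) (by norm_num),
    log_pow_le 2 3 1 (by norm_num) (by norm_num),
    log_pow_le 1 (Real.sqrt (3 * C)) (7 * ε / 8) (Real.sqrt_pos.2 (by positivity)) (by positivity),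
    eventually_ge_atTop (2 : ℝ)] with x a1 a2 a3 a4
  have hl : 0 < Real.log x := Real.log_pos (by linarith)
  refine ⟨?_, ?_, ?_, a4⟩
  · rw [pow_one] at a1; linarith
  · rw [Real.rpow_one] at a2
    have h1 : (1 + Real.log x) ^ 2 ≤ (1 + 2 * Real.log x) ^ 2 := by gcongr; linarith
    have h2 : 0 < (1 + 2 * Real.log x) ^ 2 := by positivity
    linarith
  · rw [pow_one] at a3; exact a3

/-- the coset counts in the long range -/
lemma count_bound {κ ν ε C : ℝ} (hκ : 0 ≤ κ) (hν : 0 < ν) (hκν : 3 * κ + 4 * ν < 1) (hε : 0 < ε)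
    (hC1 : 1 ≤ C) (hC : ∀ n : ℕ, n ≠ 0 → ((n.divisors).card : ℝ) ≤ C * (n : ℝ) ^ (ε / 8))
    (hbig : Big ε C q) (K : Subgroup (ZMod q)ˣ)
    (hK : ((Nat.card K : ℕ) : ℝ) ≤ (q : ℝ) ^ κ) (c : (ZMod q)ˣ) (Y : ℕ)
    (hY1 : Zk κ ν (Nat.log 2 q) < Y) (hY2 : Y ≤ Final.len q) :
    ((A K (u q) c Y).card : ℝ) ≤ (Real.sqrt (3 * C) * (q : ℝ) ^ (ε / 8 - ν)) * Real.sqrt Y := by
  have hq0 : (0 : ℝ) < q := by exact_mod_cast hq.out.pos
  have hq1 : (1 : ℝ) ≤ q := by exact_mod_cast hq.out.one_lt.le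
  have hY0 : (0 : ℝ) < Y := by
    have : 0 < Y := by omega
    exact_mod_cast this
  have hdiv : ∀ n : ℕ, ((n / q : ℕ) : ℝ) ≤ (n : ℝ) / q := fun n => Nat.cast_div_le
  rcases le_or_gt (Y : ℝ) ((q : ℝ) ^ ((1 + κ) / 2)) with hcase | hcase
  · -- second moment
    set D : ℕ := ⌊C * (q : ℝ) ^ (ε / 4)⌋₊ with hD
    have h1 := card_A_sq_le K (u q) (fun m hm => u_val hm) c Y D (by
      intro n hn
      rw [Finset.mem_Icc] at hn
      apply Nat.le_floor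
      refine (hC n (by omega)).trans ?_
      apply mul_le_mul_of_nonneg_left _ (by linarith)
      have h2 : (n : ℝ) ≤ (q : ℝ) ^ (1 + κ) := by
        have h3 : (n : ℝ) ≤ (Y : ℝ) * Y := by exact_mod_cast hn.2
        refine h3.trans ((mul_le_mul hcase hcase hY0.le (by positivity)).trans (le_of_eq ?_))
        rw [← Real.rpow_add hq0]; congr 1; ring
      calc (n : ℝ) ^ (ε / 8) ≤ ((q : ℝ) ^ (1 + κ)) ^ (ε / 8) :=
            Real.rpow_le_rpow (Nat.cast_nonneg _) h2 (by positivity)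
        _ = (q : ℝ) ^ ((1 + κ) * (ε / 8)) := by rw [← Real.rpow_mul hq0.le]
        _ ≤ (q : ℝ) ^ (ε / 4) := Real.rpow_le_rpow_of_exponent_le hq1 (by nlinarith))
    have h2 : ((A K (u q) c Y).card : ℝ) * (A K (u q) c Y).card
        ≤ (C * (q : ℝ) ^ (ε / 4)) * ((q : ℝ) ^ κ * ((Y : ℝ) * Y / q + 1)) := by
      have h3 : ((A K (u q) c Y).card : ℝ) * (A K (u q) c Y).card
          ≤ (D : ℝ) * ((Nat.card K : ℝ) * (((Y * Y / q : ℕ) : ℝ) + 1)) := by exact_mod_cast h1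
      refine h3.trans ?_
      have h4 : (D : ℝ) ≤ C * (q : ℝ) ^ (ε / 4) := Nat.floor_le (by positivity)
      have h5 : ((Y * Y / q : ℕ) : ℝ) ≤ (Y : ℝ) * Y / q := by
        have := hdiv (Y * Y)
        push_cast at this
        exact this
      gcongr
    have hYlow : (q : ℝ) ^ (κ + 2 * ν) / 2 ≤ Y := by
      have h3 : ((2 : ℝ) ^ (Nat.log 2 q)) ^ (κ + 2 * ν) < Y := by
        unfold Zk at hY1
        exact (Nat.floor_lt (by positivity)).1 hY1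
      have h4 : (q : ℝ) / 2 ≤ (2 : ℝ) ^ (Nat.log 2 q) := by
        have := q_lt q
        rw [pow_succ] at this
        linarith
      have h5 : ((q : ℝ) / 2) ^ (κ + 2 * ν) ≤ ((2 : ℝ) ^ (Nat.log 2 q)) ^ (κ + 2 * ν) :=
        Real.rpow_le_rpow (by positivity) h4 (by linarith)
      have h6 : (q : ℝ) ^ (κ + 2 * ν) / 2 ≤ ((q : ℝ) / 2) ^ (κ + 2 * ν) := by
        rw [Real.div_rpow hq0.le (by norm_num)]
        apply div_le_div_of_nonneg_left (by positivity) (by positivity)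
        calc (2 : ℝ) ^ (κ + 2 * ν) ≤ 2 ^ (1 : ℝ) :=
              Real.rpow_le_rpow_of_exponent_le (by norm_num) (by linarith)
          _ = 2 := Real.rpow_one _
      linarith
    -- the two pieces of (Y * Y / q + 1) / Y
    have e1 : (q : ℝ) ^ κ * ((Y : ℝ) / q) ≤ (q : ℝ) ^ (-(2 * ν)) := by
      have f1 : (Y : ℝ) / q ≤ (q : ℝ) ^ ((1 + κ) / 2 - 1) := by
        rw [div_le_iff₀ hq0]
        refine hcase.trans (le_of_eq ?_)
        nth_rw 3 [← Real.rpow_one (q : ℝ)]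
        rw [← Real.rpow_add hq0]; congr 1; ring
      calc (q : ℝ) ^ κ * ((Y : ℝ) / q) ≤ (q : ℝ) ^ κ * (q : ℝ) ^ ((1 + κ) / 2 - 1) := by gcongr
        _ = (q : ℝ) ^ (κ + ((1 + κ) / 2 - 1)) := by rw [← Real.rpow_add hq0]
        _ ≤ _ := Real.rpow_le_rpow_of_exponent_le hq1 (by linarith)
    have e2 : (q : ℝ) ^ κ ≤ (2 * (q : ℝ) ^ (-(2 * ν))) * Y := by
      calc (q : ℝ) ^ κ = (2 * (q : ℝ) ^ (-(2 * ν))) * ((q : ℝ) ^ (κ + 2 * ν) / 2) := by
            rw [show (2 * (q : ℝ) ^ (-(2 * ν))) * ((q : ℝ) ^ (κ + 2 * ν) / 2)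
              = (q : ℝ) ^ (-(2 * ν)) * (q : ℝ) ^ (κ + 2 * ν) by ring, ← Real.rpow_add hq0]
            congr 1; ring
        _ ≤ _ := by gcongr
    have h3 : (q : ℝ) ^ κ * ((Y : ℝ) * Y / q + 1) ≤ (3 * (q : ℝ) ^ (-(2 * ν))) * Y := by
      have e5 : (q : ℝ) ^ κ * ((Y : ℝ) * Y / q + 1)
          = ((q : ℝ) ^ κ * ((Y : ℝ) / q)) * Y + (q : ℝ) ^ κ := by ring
      rw [e5]
      nlinarith
    have h4 : ((A K (u q) c Y).card : ℝ) ^ 2
        ≤ ((Real.sqrt (3 * C) * (q : ℝ) ^ (ε / 8 - ν)) * Real.sqrt Y) ^ 2 := by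
      rw [sq]
      refine h2.trans ?_
      have e1 : (q : ℝ) ^ (ε / 8 - ν) ^ 1 * (q : ℝ) ^ (ε / 8 - ν) ^ 1
          = (q : ℝ) ^ (ε / 4) * (q : ℝ) ^ (-(2 * ν)) := by
        simp only [pow_one]
        rw [← Real.rpow_add hq0, ← Real.rpow_add hq0]
        congr 1; ring
      simp only [pow_one] at e1
      calc (C * (q : ℝ) ^ (ε / 4)) * ((q : ℝ) ^ κ * ((Y : ℝ) * Y / q + 1))
          ≤ (C * (q : ℝ) ^ (ε / 4)) * ((3 * (q : ℝ) ^ (-(2 * ν))) * Y) := by gcongr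
        _ = 3 * C * ((q : ℝ) ^ (ε / 4) * (q : ℝ) ^ (-(2 * ν))) * Y := by ring
        _ = 3 * C * ((q : ℝ) ^ (ε / 8 - ν) * (q : ℝ) ^ (ε / 8 - ν)) * Y := by rw [e1]
        _ = _ := by
            rw [mul_pow, mul_pow, Real.sq_sqrt (by positivity), Real.sq_sqrt hY0.le]
            ring
    exact (pow_le_pow_iff_left₀ (Nat.cast_nonneg _) (by positivity) (by norm_num)).1 h4
  · -- first moment
    have h1 := card_A_le K (u q) (fun m hm => u_val hm) c Y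
    have h2 : ((A K (u q) c Y).card : ℝ) ≤ (q : ℝ) ^ κ * ((Y : ℝ) / q + 1) := by
      have h3 : ((A K (u q) c Y).card : ℝ) ≤ (Nat.card K : ℝ) * (((Y / q : ℕ) : ℝ) + 1) := by
        exact_mod_cast h1
      refine h3.trans ?_
      have h5 := hdiv Y
      gcongr
    refine h2.trans ?_
    have hsY : Real.sqrt Y * Real.sqrt Y = Y := Real.mul_self_sqrt hY0.le
    have hsY0 : 0 < Real.sqrt Y := Real.sqrt_pos.2 hY0
    have e1 : (q : ℝ) ^ κ * ((Y : ℝ) / q) ≤ (1 / 2) * (q : ℝ) ^ (-ν) * Real.sqrt Y := by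
      have f1 : Real.sqrt Y ≤ Real.sqrt (Final.len q) := Real.sqrt_le_sqrt (by exact_mod_cast hY2)
      have f2 := Final.sqrt_len_le (q := q)
      have f3 : Real.sqrt q = (q : ℝ) ^ (1 / 2 : ℝ) := Real.sqrt_eq_rpow _
      have f4 : (3 / 2) * (Real.sqrt q * (1 + Real.log q)) ≤ (1 / 2) * (q : ℝ) ^ (2 / 3 : ℝ) := by
        rw [f3]
        calc (3 / 2) * ((q : ℝ) ^ (1 / 2 : ℝ) * (1 + Real.log q))
            = (1 / 2) * ((q : ℝ) ^ (1 / 2 : ℝ) * (3 * (1 + Real.log q))) := by ring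
          _ ≤ (1 / 2) * ((q : ℝ) ^ (1 / 2 : ℝ) * (q : ℝ) ^ (1 / 6 : ℝ)) := by
              have := hbig.b1
              gcongr
          _ = (1 / 2) * (q : ℝ) ^ (2 / 3 : ℝ) := by rw [← Real.rpow_add hq0]; norm_num
      have f5 : Real.sqrt Y ≤ (1 / 2) * (q : ℝ) ^ (2 / 3 : ℝ) := f1.trans (f2.trans f4)
      have f6 : (Y : ℝ) / q ≤ (1 / 2) * (q : ℝ) ^ (-(1 / 3) : ℝ) * Real.sqrt Y := by
        rw [div_le_iff₀ hq0]
        calc (Y : ℝ) = Real.sqrt Y * Real.sqrt Y := hsY.symm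
          _ ≤ ((1 / 2) * (q : ℝ) ^ (2 / 3 : ℝ)) * Real.sqrt Y := by gcongr
          _ = (1 / 2) * ((q : ℝ) ^ (-(1 / 3) : ℝ) * (q : ℝ) ^ (1 : ℝ)) * Real.sqrt Y := by
              rw [← Real.rpow_add hq0]; norm_num
          _ = _ := by rw [Real.rpow_one]; ring
      calc (q : ℝ) ^ κ * ((Y : ℝ) / q)
          ≤ (q : ℝ) ^ κ * ((1 / 2) * (q : ℝ) ^ (-(1 / 3) : ℝ) * Real.sqrt Y) := by gcongr
        _ = (1 / 2) * ((q : ℝ) ^ κ * (q : ℝ) ^ (-(1 / 3) : ℝ)) * Real.sqrt Y := by ring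
        _ = (1 / 2) * (q : ℝ) ^ (κ + -(1 / 3) : ℝ) * Real.sqrt Y := by rw [← Real.rpow_add hq0]
        _ ≤ (1 / 2) * (q : ℝ) ^ (-ν) * Real.sqrt Y := by
            have : (q : ℝ) ^ (κ + -(1 / 3) : ℝ) ≤ (q : ℝ) ^ (-ν) :=
              Real.rpow_le_rpow_of_exponent_le hq1 (by linarith)
            gcongr
    have e2 : (q : ℝ) ^ κ ≤ (q : ℝ) ^ (-ν) * Real.sqrt Y := by
      have f1 : (q : ℝ) ^ ((1 + κ) / 4) ≤ Real.sqrt Y := by
        apply Real.le_sqrt_of_sq_le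
        rw [← Real.rpow_natCast, ← Real.rpow_mul hq0.le]
        push_cast
        rw [show ((1 + κ) / 4 * 2 : ℝ) = (1 + κ) / 2 by ring]
        exact hcase.le
      calc (q : ℝ) ^ κ ≤ (q : ℝ) ^ (-ν + (1 + κ) / 4) :=
            Real.rpow_le_rpow_of_exponent_le hq1 (by linarith)
        _ = (q : ℝ) ^ (-ν) * (q : ℝ) ^ ((1 + κ) / 4) := by rw [← Real.rpow_add hq0]
        _ ≤ _ := by gcongr
    have e4 : (3 / 2 : ℝ) ≤ Real.sqrt (3 * C) := by
      apply Real.le_sqrt_of_sq_le; linarith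
    have e5 : (q : ℝ) ^ (-ν) ≤ (q : ℝ) ^ (ε / 8 - ν) :=
      Real.rpow_le_rpow_of_exponent_le hq1 (by linarith)
    calc (q : ℝ) ^ κ * ((Y : ℝ) / q + 1)
        = (q : ℝ) ^ κ * ((Y : ℝ) / q) + (q : ℝ) ^ κ := by ring
      _ ≤ (3 / 2) * (q : ℝ) ^ (-ν) * Real.sqrt Y := by linarith
      _ ≤ Real.sqrt (3 * C) * (q : ℝ) ^ (ε / 8 - ν) * Real.sqrt Y := by gcongr

/-- one prime -/
theorem one_prime {κ ν ε C G : ℝ} (hκ : 0 ≤ κ) (hν : 0 < ν) (hκν : 3 * κ + 4 * ν < 1) (hε : 0 < ε)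
    (hεν : ε < ν)
    (hC1 : 1 ≤ C) (hC : ∀ n : ℕ, n ≠ 0 → ((n.divisors).card : ℝ) ≤ C * (n : ℝ) ^ (ε / 8))
    (hbig : Big ε C q) (k : ℕ) (hk : k = Nat.log 2 q) (R : Reso (Vk ν ε k) G)
    (hnb : ¬ bad R (Zk κ ν k) (Jk κ k) q)
    (H : Subgroup (DirichletCharacter ℂ q)) (hH : (q : ℝ) ^ (1 - κ) ≤ Nat.card H)
    (χ₀ : DirichletCharacter ℂ q) {V : ℝ} (hV0 : 0 ≤ V)
    (hV : ∀ ψ ∈ H, χ₀ * ψ ≠ 1 → ‖(χ₀ * ψ).LFunction (1 / 2)‖ ≤ V) :
    Real.exp G ≤ V + 4 := by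
  classical
  have hq0 : (0 : ℝ) < q := by exact_mod_cast hq.out.pos
  have hq1 : (1 : ℝ) ≤ q := by exact_mod_cast hq.out.one_lt.le
  have hqne : q ≠ 0 := hq.out.ne_zero
  set Q : ℝ := (2 : ℝ) ^ k with hQ
  have hQ1 : 1 ≤ Q := one_le_pow₀ (by norm_num)
  have hQ0 : 0 < Q := by linarith
  have hQq : Q ≤ q := by rw [hQ, hk]; exact Q_le hqne
  have hlogQ : Real.log Q = k * Real.log 2 := by rw [hQ, Real.log_pow]
  have hlogQq : Real.log Q ≤ Real.log q := Real.log_le_log hQ0 hQq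
  have hlogQ0 : 0 ≤ Real.log Q := Real.log_nonneg hQ1
  have hlq : 0 ≤ Real.log q := Real.log_nonneg hq1
  have hVkeq : Vk ν ε k = (ν - ε) * Real.log Q := by unfold Vk; rw [hlogQ]
  have hVk0 : 0 ≤ Vk ν ε k := by
    rw [hVkeq]; exact mul_nonneg (by linarith) hlogQ0
  have hVkle : Vk ν ε k ≤ Real.log q := by
    rw [hVkeq]; nlinarith
  have hVq : (Vk ν ε k) ^ 2 < q := by
    have h1 : (Vk ν ε k) ^ 2 ≤ (Real.log q) ^ 2 := pow_le_pow_left₀ hVk0 hVkle 2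
    have h2 := hbig.b2
    nlinarith
  have hexpV : Real.exp (Vk ν ε k) = Q ^ (ν - ε) := by
    rw [Real.rpow_def_of_pos hQ0, hVkeq]; congr 1; ring
  have hexpV2 : Real.exp (2 * Vk ν ε k) = Q ^ (2 * (ν - ε)) := by
    rw [Real.rpow_def_of_pos hQ0, hVkeq]; congr 1; ring
  -- the common kernel
  have hKc := index_le H hH
  have hKJ : Nat.card (K H) ≤ Jk κ k := by
    unfold Jk
    apply Nat.le_floor
    refine hKc.trans ?_
    apply Real.rpow_le_rpow hq0.le (by rw [hk]; exact q_lt q) (by linarith)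
  set r : R.α → (ZMod q)ˣ := fun a => u q (R.nu a) * (u q (R.de a))⁻¹ with hr
  have hZpos := one_le_Zk hκ hν k
  have hsep : ∀ a b : R.α, (a ∈ R.S ∨ a ∈ R.T) → (b ∈ R.S ∨ b ∈ R.T) →
      r a * (r b)⁻¹ ∈ K H → R.nu a * R.de b = R.de a * R.nu b := by
    intro a b ha hb h
    have h1 := rel R (Zk κ ν k) (Jk κ k) hVq hnb (K H) hKJ (m := 1)
      (Finset.mem_Icc.2 ⟨le_rfl, hZpos⟩) (Nat.coprime_one_left q) ha hb
      (by rw [u_one, one_mul]; exact h)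
    rw [one_mul] at h1; exact h1
  set c₁ : ℝ := Real.sqrt (3 * C) * (q : ℝ) ^ (ε / 8 - ν) with hc₁
  have hc₁0 : 0 ≤ c₁ := by positivity
  have hlenlog : Real.log (Final.len q) ≤ 2 * Real.log q := by
    have h1 : (0 : ℝ) < Final.len q := by
      have := Final.one_le_len (q := q)
      exact_mod_cast (by omega : 0 < Final.len q)
    have h2 : ((Final.len q : ℕ) : ℝ) ≤ (q : ℝ) ^ 2 := by
      have h3 := Final.sqrt_len_le (q := q)
      have h4 : ((Final.len q : ℕ) : ℝ) = Real.sqrt (Final.len q) ^ 2 := (Real.sq_sqrt h1.le).symm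
      rw [h4]
      calc Real.sqrt (Final.len q) ^ 2 ≤ ((3 / 2) * (Real.sqrt q * (1 + Real.log q))) ^ 2 := by gcongr
        _ = q * (9 / 4 * (1 + Real.log q) ^ 2) := by
            rw [mul_pow, mul_pow, Real.sq_sqrt hq0.le]; ring
        _ ≤ q * q := by
            have := hbig.b2.le
            gcongr
        _ = (q : ℝ) ^ 2 := by ring
    calc Real.log (Final.len q) ≤ Real.log ((q : ℝ) ^ 2) := Real.log_le_log h1 h2
      _ = 2 * Real.log q := by rw [Real.log_pow]; norm_num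
  have hZlen : Zk κ ν k ≤ Final.len q := by
    have h1 : (Zk κ ν k : ℝ) ≤ Q ^ (κ + 2 * ν) := Nat.floor_le (by positivity)
    have h2 : Q ^ (κ + 2 * ν) ≤ Q := by
      calc Q ^ (κ + 2 * ν) ≤ Q ^ (1 : ℝ) := Real.rpow_le_rpow_of_exponent_le hQ1 (by linarith)
        _ = Q := Real.rpow_one _
    have h3 := Final.q_le_len (q := q)
    exact_mod_cast h1.trans (h2.trans (hQq.trans h3))
  have hres := T3Res.resonance H χ₀ R.S R.T r R.f R.f_nonneg (u q) (fun m hm => u_val hm)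
    R.F_pos R.sumS R.sumT R.cardS R.cardT
    (fun a ha b hb h => R.injS a ha b hb (hsep a b (Or.inl ha) (Or.inl hb) h))
    (fun a ha b hb h => R.injT a ha b hb (hsep a b (Or.inr ha) (Or.inr hb) h))
    (Final.len q) (Zk κ ν k) Final.one_le_len hZlen
    (by
      intro m hm hmc a ha b hb h
      have h1 := rel R (Zk κ ν k) (Jk κ k) hVq hnb (K H) hKJ hm hmc (Or.inl ha) (Or.inr hb) h
      obtain ⟨ca1, ca2⟩ := R.cop a (Or.inl ha) q hq.out hVq
      obtain ⟨cb1, cb2⟩ := R.cop b (Or.inr hb) q hq.out hVq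
      have h2 : u q m * u q (R.nu a) * u q (R.de b) = u q (R.de a) * u q (R.nu b) := by
        rw [← u_mul hmc ca1, ← u_mul (Nat.Coprime.mul_left hmc ca1) cb2, ← u_mul ca2 cb1, h1]
      show u q m * (u q (R.nu a) * (u q (R.de a))⁻¹) = u q (R.nu b) * (u q (R.de b))⁻¹
      rw [← mul_assoc, mul_inv_eq_iff_eq_mul, mul_assoc, mul_comm (u q (R.de b))⁻¹, ← mul_assoc,
        eq_mul_inv_iff_mul_eq, h2, mul_comm])
    (τ := c₁ * (1 + Real.log (Final.len q)))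
    (by
      intro c
      exact tail (K H) (u q) c (Zk κ ν k) (Final.len q) c₁ hc₁0 (fun Y hY1 hY2 =>
        count_bound hκ hν hκν hε hC1 hC hbig (K H) hKc c Y (by rw [← hk]; exact hY1) hY2))
    R.𝒵
    (by
      intro z hz
      obtain ⟨h1, h2, h3, h4, h5⟩ := R.mem z hz
      obtain ⟨ca1, ca2⟩ := R.cop z.2.1 (Or.inl h3) q hq.out hVq
      obtain ⟨cb1, cb2⟩ := R.cop z.2.2 (Or.inr h4) q hq.out hVq
      have hc : z.1.Coprime q := by
        have hd : z.1 ∣ R.de z.2.1 * R.nu z.2.2 := by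
          rw [← h5, mul_assoc]; exact Dvd.intro _ rfl
        exact Nat.Coprime.coprime_dvd_left hd (Nat.Coprime.mul_left ca2 cb1)
      refine ⟨Finset.mem_Icc.2 ⟨h1, ?_⟩, hc, h3, h4, ?_⟩
      · unfold Zk
        apply Nat.le_floor
        refine h2.trans ?_
        rw [hexpV2]
        exact Real.rpow_le_rpow_of_exponent_le hQ1 (by linarith)
      · have e2 : u q z.1 * u q (R.nu z.2.1) * u q (R.de z.2.2)
            = u q (R.de z.2.1) * u q (R.nu z.2.2) := by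
          rw [← u_mul hc ca1, ← u_mul (Nat.Coprime.mul_left hc ca1) cb2, ← u_mul ca2 cb1, h5]
        show u q z.1 * (u q (R.nu z.2.1) * (u q (R.de z.2.1))⁻¹)
          = u q (R.nu z.2.2) * (u q (R.de z.2.2))⁻¹
        rw [← mul_assoc, mul_inv_eq_iff_eq_mul, mul_assoc, mul_comm (u q (R.de z.2.2))⁻¹,
          ← mul_assoc, eq_mul_inv_iff_mul_eq, e2, mul_comm])
    R.gain hV hV0
  refine hres.trans ?_
  have herr1 := Final.B_div (q := q)
  have hN : Real.exp (Vk ν ε k) ≤ (q : ℝ) ^ (ν - ε) := by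
    rw [hexpV]; exact Real.rpow_le_rpow hQ0.le hQq (by linarith)
  have herr2 : c₁ * (1 + Real.log (Final.len q)) * Real.exp (Vk ν ε k) ≤ 1 := by
    calc c₁ * (1 + Real.log (Final.len q)) * Real.exp (Vk ν ε k)
        ≤ c₁ * (1 + 2 * Real.log q) * (q : ℝ) ^ (ν - ε) := by gcongr
      _ = (Real.sqrt (3 * C) * (1 + 2 * Real.log q)) *
            ((q : ℝ) ^ (ε / 8 - ν) * (q : ℝ) ^ (ν - ε)) := by rw [hc₁]; ring
      _ ≤ (q : ℝ) ^ (7 * ε / 8) * ((q : ℝ) ^ (ε / 8 - ν) * (q : ℝ) ^ (ν - ε)) := by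
          have := hbig.b3
          gcongr
      _ = 1 := by
          rw [← Real.rpow_add hq0, ← Real.rpow_add hq0]
          rw [show 7 * ε / 8 + ((ε / 8 - ν) + (ν - ε)) = 0 by ring, Real.rpow_zero]
  have herr3 : 2 * Real.sqrt (Final.len q) * Real.exp (Vk ν ε k) / Nat.card H ≤ 1 := by
    have h0 : 0 < (q : ℝ) ^ (1 - κ) := Real.rpow_pos_of_pos hq0 _
    have hHpos : (0 : ℝ) < Nat.card H := lt_of_lt_of_le h0 hH
    rw [div_le_one hHpos]
    refine le_trans ?_ hH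
    have h3 := Final.sqrt_len_le (q := q)
    rw [Real.sqrt_eq_rpow (q : ℝ)] at h3
    calc 2 * Real.sqrt (Final.len q) * Real.exp (Vk ν ε k)
        ≤ 2 * ((3 / 2) * ((q : ℝ) ^ (1 / 2 : ℝ) * (1 + Real.log q))) * (q : ℝ) ^ (ν - ε) := by
          gcongr
      _ = (q : ℝ) ^ (1 / 2 : ℝ) * (3 * (1 + Real.log q)) * (q : ℝ) ^ (ν - ε) := by ring
      _ ≤ (q : ℝ) ^ (1 / 2 : ℝ) * (q : ℝ) ^ (1 / 6 : ℝ) * (q : ℝ) ^ (ν - ε) := by
          have := hbig.b1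
          gcongr
      _ = (q : ℝ) ^ (1 / 2 + 1 / 6 + (ν - ε)) := by
          rw [← Real.rpow_add hq0, ← Real.rpow_add hq0]
      _ ≤ (q : ℝ) ^ (1 - κ) := Real.rpow_le_rpow_of_exponent_le hq1 (by linarith)
  linarith

end Pool.Agent.H.MP_3e6494_nt.T3Prime
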