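import Mathlib
import Pool.Agent.H.MP_3e6494_nt.helper50.Coset

open Finset

set_option linter.unusedSectionVars false

namespace Pool.Agent.H.MP_3e6494_nt.CosetMain

open LocalProd Coset

variable {q : ℕ} [hq : Fact q.Prime]

lemma norm_RR_sq_le {P : Finset ℕ} {f : ℕ → ℝ} {N : ℕ} (hP : ∀ p ∈ P, p.Prime)
    (hf : ∀ p ∈ P, 0 ≤ f p) (ψ : DirichletCharacter ℂ q) :
    ‖RR P f N ψ‖ ^ 2 ≤ N * Fin P f := by
  refine le_trans ?_ (sum_fS_sq_le (N := N) hP hf)
  apply pow_le_pow_left₀ (norm_nonneg _)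
  unfold RR
  refine norm_sum_le_of_le _ ?_
  intro S hS
  rw [norm_mul, Complex.norm_real, Real.norm_of_nonneg (fS_nonneg hf (mem_Fam.1 hS).1)]
  calc fS f S * ‖ψ ((pr S : ℕ) : ZMod q)‖ ≤ fS f S * 1 :=
        mul_le_mul_of_nonneg_left (DirichletCharacter.norm_le_one _ _)
          (fS_nonneg hf (mem_Fam.1 hS).1)
    _ = _ := mul_one _

theorem coset_ineq (H : Subgroup (DirichletCharacter ℂ q)) (χ₀ : DirichletCharacter ℂ q)
    {P Q : Finset ℕ} {f : ℕ → ℝ} {N X Z : ℕ}
    (hP : ∀ p ∈ P, p.Prime ∧ p < q) (hPQ : Disjoint P Q)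
    (hQ : ∀ p ∈ Q, p.Prime) (hf : ∀ p ∈ P, 0 ≤ f p)
    (hf1 : ∀ p ∈ P, f p ≤ 1 / Real.sqrt (Real.sqrt p))
    (hf2 : ∀ p ∈ P, (1 + f p * Real.sqrt p) * (1 + f p / Real.sqrt p) ≤ Real.sqrt (Real.sqrt p))
    (hNZ : Z * N * N < q) (hN1 : 1 ≤ N) (hZ1 : 1 ≤ Z) (hNX : N ≤ X) (hX1 : 1 ≤ X)
    (Bh : ℕ) (hBh : 0 < Bh)
    (hrel : ∀ x : ℕ × ℕ, Greedy.Rel (Class.K H) Bh x → ∃ p ∈ Q, p ∣ x.1 * x.2)
    (hj : 8 * (Nat.card (Class.K H) : ℝ) ≤ Real.sqrt (Real.sqrt (Bh : ℝ)))
    (α : ℝ) (hα : 0 ≤ α)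
    (hR : ∏ p ∈ P, (1 + (p : ℝ) ^ α * (f p ^ 2 + f p / Real.sqrt p)) ≤ (N : ℝ) ^ α * (Main P f / 2))
    (V : ℝ) (hV0 : 0 ≤ V)
    (hV : ∀ χ ∈ H, χ₀ * χ ≠ 1 → ‖(χ₀ * χ).LFunction (1 / 2)‖ ≤ V) :
    (3 / 8) * Main P f ≤ (9 / 8) * Fin P f * (V * ∏ p ∈ Q, (1 + (p : ℝ) ^ (-(1 / 2) : ℝ))
        + 2 ^ Q.card * (3 * Approx.B q / Real.sqrt X))
      + 1 / Real.sqrt Z * (N * Fin P f * (Nat.card (Class.K H) * (X / q + 1 : ℕ) : ℕ))
      + 2 * Real.sqrt X * (N * Fin P f) / Nat.card H := by
  classical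
  have hP' : ∀ p ∈ P, p.Prime := fun p hp => (hP p hp).1
  set K := Class.K H with hK
  set j := Nat.card K with hjdef
  set h : ℝ := ((Class.mem H).card : ℝ) with hh
  have hh' : h = Nat.card H := by rw [hh, Class.card_mem]
  have hhpos : 0 < h := by
    rw [hh]
    have : (Class.mem H).Nonempty := ⟨1, Class.mem_mem.2 H.one_mem⟩
    exact_mod_cast this.card_pos
  have hMain0 : 0 ≤ Main P f := Finset.prod_nonneg fun p hp => by
    have := hf p hp; positivity
  have hFin0 : 0 ≤ Fin P f := le_trans zero_le_one one_le_Fin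
  have hFin1 : 0 < Fin P f := lt_of_lt_of_le zero_lt_one one_le_Fin
  set η : ℝ := 1 / Real.sqrt (Real.sqrt (Bh : ℝ)) with hη
  have hB0 : (0 : ℝ) < Bh := by exact_mod_cast hBh
  have hss : 0 < Real.sqrt (Real.sqrt (Bh : ℝ)) := Real.sqrt_pos.2 (Real.sqrt_pos.2 hB0)
  have hjη : (j : ℝ) * η ≤ 1 / 8 := by
    rw [hη, mul_one_div, div_le_iff₀ hss]
    linarith
  have hη0 : 0 ≤ η := by rw [hη]; positivity
  have hKc : (Finset.univ.filter (fun k : (ZMod q)ˣ => k ∈ K)).card = j :=
    (Nat.subtype_card _ (by intro k; simp)).symm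
  set Kf := Finset.univ.filter (fun k : (ZMod q)ˣ => k ∈ K) with hKf
  have hmemKf : ∀ k, k ∈ Kf ↔ k ∈ K := by intro k; rw [hKf, Finset.mem_filter]; simp
  have hcardK1 : ((Kf.erase 1).card : ℝ) ≤ j := by
    have := Finset.card_le_card (Finset.erase_subset (1 : (ZMod q)ˣ) Kf)
    rw [hKc] at this
    exact_mod_cast this
  -- weights are nonnegative on the index set
  have hwt0 : ∀ t ∈ Idx q P Q N X, 0 ≤ wt f t := by
    intro t ht
    unfold Idx at ht
    rw [Finset.mem_product, Finset.mem_product] at ht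
    unfold wt
    have := fS_nonneg hf (mem_Fam.1 ht.2.1).1
    have := fS_nonneg hf (mem_Fam.1 ht.2.2).1
    positivity
  set Fi := (Idx q P Q N X).filter (fun t => zt q t ∈ K) with hFi
  have hFisub : ∀ t ∈ Fi, t ∈ Idx q P Q N X ∧ zt q t ∈ K := by
    intro t ht; rw [hFi, Finset.mem_filter] at ht; exact ht
  set G : ℂ := ∑ t ∈ Fi, ((wt f t : ℝ) : ℂ) * χ₀ (zt q t : (ZMod q)ˣ) with hG
  set long : ℝ := 1 / Real.sqrt Z * (N * Fin P f * (Nat.card K * (X / q + 1 : ℕ) : ℕ)) with hlong
  -- lower bound for the real part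
  have hReG : Main P f / 2 - Main P f / 8 - long ≤ G.re := by
    have h1 : G.re = ∑ t ∈ Fi, wt f t * (χ₀ (zt q t : (ZMod q)ˣ)).re := by
      rw [hG, Complex.re_sum]
      apply Finset.sum_congr rfl; intro t _
      rw [Complex.re_ofReal_mul]
    have h2 : ∀ t ∈ Fi, (if zt q t = 1 then wt f t else 0) - (if zt q t = 1 then 0 else wt f t)
        ≤ wt f t * (χ₀ (zt q t : (ZMod q)ˣ)).re := by
      intro t ht
      have h0 := hwt0 t (hFisub t ht).1
      split_ifs with hz
      · rw [hz]; simp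
      · have h3 : |(χ₀ (zt q t : (ZMod q)ˣ)).re| ≤ 1 := by
          refine (Complex.abs_re_le_norm _).trans ?_
          rw [norm_unit]
        have h4 := (abs_le.1 h3).1
        nlinarith
    have h3 := Finset.sum_le_sum h2
    rw [← h1, Finset.sum_sub_distrib] at h3
    have h4 : Main P f / 2 ≤ ∑ t ∈ Fi, (if zt q t = 1 then wt f t else 0) := by
      refine (main_class hP hPQ hQ hf hN1 hNX α hα hR).trans ?_
      rw [← Finset.sum_filter]
      apply Finset.sum_le_sum_of_subset_of_nonneg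
      · intro t ht
        rw [Finset.mem_filter] at ht ⊢
        refine ⟨?_, ht.2⟩
        rw [hFi, Finset.mem_filter]
        refine ⟨ht.1, ?_⟩
        rw [ht.2]; exact K.one_mem
      · intro t ht _
        rw [Finset.mem_filter] at ht
        exact hwt0 t (hFisub t ht.1).1
    have h5 : ∑ t ∈ Fi, (if zt q t = 1 then 0 else wt f t) ≤ Main P f / 8 + long := by
      have h6 : ∀ t ∈ Fi, (if zt q t = 1 then 0 else wt f t)
          ≤ (∑ k ∈ Kf.erase 1, if zt q t = k ∧ t.1 ≤ Z then wt f t else 0)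
            + (if zt q t ∈ K ∧ Z < t.1 then wt f t else 0) := by
        intro t ht
        obtain ⟨ht1, ht2⟩ := hFisub t ht
        have h0 := hwt0 t ht1
        have hnn : 0 ≤ ∑ k ∈ Kf.erase 1, (if zt q t = k ∧ t.1 ≤ Z then wt f t else 0) := by
          apply Finset.sum_nonneg; intro k _; split_ifs
          · exact h0
          · exact le_rfl
        have hnn2 : 0 ≤ (if zt q t ∈ K ∧ Z < t.1 then wt f t else 0) := by
          by_cases hc : zt q t ∈ K ∧ Z < t.1
          · rw [if_pos hc]; exact h0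
          · rw [if_neg hc]
        by_cases hz : zt q t = 1
        · rw [if_pos hz]; linarith
        rw [if_neg hz]
        by_cases hzz : zt q t ∈ K ∧ Z < t.1
        · rw [if_pos hzz]; linarith
        rw [if_neg hzz, add_zero]
        have hle : t.1 ≤ Z := by
          by_contra hc
          push Not at hc
          exact hzz ⟨ht2, hc⟩
        have h8 : zt q t ∈ Kf.erase 1 := Finset.mem_erase.2 ⟨hz, (hmemKf _).2 ht2⟩
        have h9 : (if zt q t = zt q t ∧ t.1 ≤ Z then wt f t else 0)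
            ≤ ∑ k ∈ Kf.erase 1, (if zt q t = k ∧ t.1 ≤ Z then wt f t else 0) :=
          Finset.single_le_sum (f := fun k =>
            (if zt q t = k ∧ t.1 ≤ Z then wt f t else 0)) (fun k _ => by
              by_cases hc : zt q t = k ∧ t.1 ≤ Z
              · simp only [if_pos hc]; exact h0
              · simp only [if_neg hc]; exact le_rfl) h8
        rw [if_pos ⟨rfl, hle⟩] at h9
        exact h9
      refine (Finset.sum_le_sum h6).trans ?_
      rw [Finset.sum_add_distrib, Finset.sum_comm]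
      apply add_le_add
      · calc ∑ k ∈ Kf.erase 1, ∑ t ∈ Fi, (if zt q t = k ∧ t.1 ≤ Z then wt f t else 0)
            ≤ ∑ k ∈ Kf.erase 1, η * Main P f := by
              apply Finset.sum_le_sum
              intro k hk
              rw [Finset.mem_erase] at hk
              refine le_trans ?_ (class_short (X := X) hP hPQ hQ hf hf1 hf2 hNZ hN1 hZ1 Bh hBh hrel k
                ((hmemKf k).1 hk.2) hk.1)
              rw [← Finset.sum_filter]
              apply Finset.sum_le_sum_of_subset_of_nonneg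
              · intro t ht
                rw [Finset.mem_filter] at ht ⊢
                exact ⟨(hFisub t ht.1).1, ht.2⟩
              · intro t ht _
                rw [Finset.mem_filter] at ht
                exact hwt0 t ht.1
          _ = ((Kf.erase 1).card : ℝ) * (η * Main P f) := by rw [Finset.sum_const, nsmul_eq_mul]
          _ ≤ (j : ℝ) * (η * Main P f) := mul_le_mul_of_nonneg_right hcardK1 (by positivity)
          _ = ((j : ℝ) * η) * Main P f := by ring
          _ ≤ (1 / 8) * Main P f := mul_le_mul_of_nonneg_right hjη hMain0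
          _ = _ := by ring
      · refine le_trans ?_ (long_range (X := X) (Q := Q) (K := K) hP hf hZ1)
        rw [← Finset.sum_filter]
        apply Finset.sum_le_sum_of_subset_of_nonneg
        · intro t ht
          rw [Finset.mem_filter] at ht ⊢
          exact ⟨(hFisub t ht.1).1, ht.2⟩
        · intro t ht _
          rw [Finset.mem_filter] at ht
          exact hwt0 t ht.1
    linarith
  -- the mass
  set D0 : ℝ := ∑ χ ∈ Class.mem H, ‖RR P f N (χ₀ * χ)‖ ^ 2 with hD0
  have hNN : N * N < q := by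
    have : 1 * (N * N) ≤ Z * (N * N) := Nat.mul_le_mul_right _ hZ1
    calc N * N = 1 * (N * N) := by ring
      _ ≤ Z * (N * N) := this
      _ = Z * N * N := by ring
      _ < q := hNZ
  have hmass : D0 ≤ h * ((9 / 8) * Fin P f) := by
    have h1 := mass_eq H χ₀ hP f N
    set S := (Fam P N ×ˢ Fam P N).filter
          (fun t => un q (pr t.1) * (un q (pr t.2))⁻¹ ∈ K) with hS
    have hff : ∀ t ∈ Fam P N ×ˢ Fam P N, 0 ≤ fS f t.1 * fS f t.2 := by
      intro t ht
      rw [Finset.mem_product] at ht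
      exact mul_nonneg (fS_nonneg hf (mem_Fam.1 ht.1).1) (fS_nonneg hf (mem_Fam.1 ht.2).1)
    have h2 : D0 ≤ h * ∑ t ∈ S, fS f t.1 * fS f t.2 := by
      have hD00 : 0 ≤ D0 := Finset.sum_nonneg fun _ _ => sq_nonneg _
      have h3 : D0 = ‖((D0 : ℝ) : ℂ)‖ := by rw [Complex.norm_real, Real.norm_of_nonneg hD00]
      rw [h3, hD0, h1, norm_mul, Complex.norm_natCast]
      apply mul_le_mul_of_nonneg_left _ hhpos.le
      refine norm_sum_le_of_le _ ?_
      intro t ht
      rw [hS, Finset.mem_filter] at ht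
      rw [norm_mul, norm_unit, mul_one, Complex.norm_real, Real.norm_of_nonneg (hff t ht.1)]
    have h3 : ∑ t ∈ S, fS f t.1 * fS f t.2 ≤ (9 / 8) * Fin P f := by
      have h4 : ∀ t ∈ S, fS f t.1 * fS f t.2
          ≤ ∑ k ∈ Kf, (if un q (pr t.1) * (un q (pr t.2))⁻¹ = k then fS f t.1 * fS f t.2 else 0) := by
        intro t ht
        rw [hS, Finset.mem_filter] at ht
        rw [Finset.sum_ite_eq, if_pos ((hmemKf _).2 ht.2)]
      refine (Finset.sum_le_sum h4).trans ?_
      rw [Finset.sum_comm]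
      have h1K : (1 : (ZMod q)ˣ) ∈ Kf := (hmemKf 1).2 K.one_mem
      rw [← Finset.add_sum_erase Kf _ h1K]
      have h5 : ∑ t ∈ S, (if un q (pr t.1) * (un q (pr t.2))⁻¹ = 1 then fS f t.1 * fS f t.2 else 0)
          ≤ Fin P f := by
        rw [← Finset.sum_filter]
        have hmem5 : ∀ t ∈ S.filter (fun t => un q (pr t.1) * (un q (pr t.2))⁻¹ = 1),
            t.1 ∈ Fam P N ∧ t.1 = t.2 := by
          intro t ht
          rw [Finset.mem_filter, hS, Finset.mem_filter, Finset.mem_product] at ht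
          obtain ⟨⟨⟨a1, a2⟩, _⟩, a3⟩ := ht
          refine ⟨a1, ?_⟩
          have b1 := mem_Fam.1 a1
          have b2 := mem_Fam.1 a2
          have h6 : un q (pr t.1) = un q (pr t.2) := by
            rw [mul_inv_eq_one] at a3; exact a3
          have h7 : ((un q (pr t.1) : (ZMod q)ˣ) : ZMod q) = ((un q (pr t.2) : (ZMod q)ˣ) : ZMod q) := by
            rw [h6]
          rw [un_val (pr_coprime hP b1.1), un_val (pr_coprime hP b2.1)] at h7
          have hNq : N < q := by
            have : N * 1 ≤ N * N := Nat.mul_le_mul_left _ hN1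
            omega
          have h8 := eq_of_cast_eq (by omega) (by omega) h7
          rw [← primeFactors_pr hP' b1.1, ← primeFactors_pr hP' b2.1, h8]
        calc ∑ t ∈ S.filter (fun t => un q (pr t.1) * (un q (pr t.2))⁻¹ = 1), fS f t.1 * fS f t.2
            = ∑ t ∈ S.filter (fun t => un q (pr t.1) * (un q (pr t.2))⁻¹ = 1), fS f t.1 ^ 2 := by
              apply Finset.sum_congr rfl
              intro t ht
              rw [← (hmem5 t ht).2]; ring
          _ = ∑ A ∈ (S.filter (fun t => un q (pr t.1) * (un q (pr t.2))⁻¹ = 1)).image Prod.fst,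
                fS f A ^ 2 := by
              rw [Finset.sum_image]
              intro t ht t' ht' hE
              have e1 := (hmem5 t ht).2
              have e2 := (hmem5 t' ht').2
              exact Prod.ext hE (by rw [← e1, ← e2]; exact hE)
          _ ≤ ∑ A ∈ P.powerset, fS f A ^ 2 := by
              apply Finset.sum_le_sum_of_subset_of_nonneg
              · intro A hA
                rw [Finset.mem_image] at hA
                obtain ⟨t, ht, rfl⟩ := hA
                exact Finset.mem_powerset.2 (mem_Fam.1 (hmem5 t ht).1).1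
              · intro _ _ _; exact sq_nonneg _
          _ = Fin P f := sum_sq_eq
      have h6 : ∑ k ∈ Kf.erase 1, ∑ t ∈ S,
          (if un q (pr t.1) * (un q (pr t.2))⁻¹ = k then fS f t.1 * fS f t.2 else 0)
          ≤ (1 / 8) * Fin P f := by
        calc ∑ k ∈ Kf.erase 1, ∑ t ∈ S,
          (if un q (pr t.1) * (un q (pr t.2))⁻¹ = k then fS f t.1 * fS f t.2 else 0)
            ≤ ∑ k ∈ Kf.erase 1, η * Fin P f := by
              apply Finset.sum_le_sum
              intro k hk
              rw [Finset.mem_erase] at hk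
              refine le_trans ?_ (class_mass hP hPQ hQ hf hf1 hNN hN1 Bh hBh hrel k
                ((hmemKf k).1 hk.2) hk.1)
              rw [← Finset.sum_filter]
              apply Finset.sum_le_sum_of_subset_of_nonneg
              · intro t ht
                rw [Finset.mem_filter, hS, Finset.mem_filter] at ht
                rw [Finset.mem_filter]
                exact ⟨ht.1.1, ht.2⟩
              · intro t ht _
                rw [Finset.mem_filter] at ht
                exact hff t ht.1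
          _ = ((Kf.erase 1).card : ℝ) * (η * Fin P f) := by rw [Finset.sum_const, nsmul_eq_mul]
          _ ≤ (j : ℝ) * (η * Fin P f) := mul_le_mul_of_nonneg_right hcardK1 (by positivity)
          _ = ((j : ℝ) * η) * Fin P f := by ring
          _ ≤ (1 / 8) * Fin P f := mul_le_mul_of_nonneg_right hjη hFin0
      linarith
    exact h2.trans (mul_le_mul_of_nonneg_left h3 hhpos.le)
  -- upper bound for the twisted moment
  set Mo : ℝ := ∏ p ∈ Q, (1 + (p : ℝ) ^ (-(1 / 2) : ℝ)) with hMo
  have hMo0 : 0 ≤ Mo := Finset.prod_nonneg fun p _ => by positivity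
  set err : ℝ := 2 ^ Q.card * (3 * Approx.B q / Real.sqrt X) with herr
  have herr0 : 0 ≤ err := by
    have := Approx.B_nonneg (q := q)
    rw [herr]; positivity
  have hX0 : (0 : ℝ) < X := by exact_mod_cast hX1
  have htot := total_eq H χ₀ hP Q f N X
  have hup : ‖∑ χ ∈ Class.mem H, ApproxQ.DQ Q (χ₀ * χ) X * ((‖RR P f N (χ₀ * χ)‖ ^ 2 : ℝ) : ℂ)‖
      ≤ (V * Mo + err) * D0 + 2 * Real.sqrt X * (N * Fin P f) := by
    have h1 : ∀ χ ∈ Class.mem H,
        ‖ApproxQ.DQ Q (χ₀ * χ) X * ((‖RR P f N (χ₀ * χ)‖ ^ 2 : ℝ) : ℂ)‖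
        ≤ (V * Mo + err) * ‖RR P f N (χ₀ * χ)‖ ^ 2
          + (if χ = χ₀⁻¹ then 2 * Real.sqrt X * (N * Fin P f) else 0) := by
      intro χ hχ
      rw [norm_mul, Complex.norm_real, Real.norm_of_nonneg (sq_nonneg _)]
      by_cases hone : χ₀ * χ = 1
      · have h2 : χ = χ₀⁻¹ := (eq_inv_of_mul_eq_one_right hone)
        rw [if_pos h2]
        have h3 := ApproxQ.norm_DQ_le Q (χ₀ * χ) X
        have h4 := norm_RR_sq_le (N := N) hP' hf (χ₀ * χ)
        have h5 : ‖ApproxQ.DQ Q (χ₀ * χ) X‖ * ‖RR P f N (χ₀ * χ)‖ ^ 2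
            ≤ 2 * Real.sqrt X * (N * Fin P f) :=
          mul_le_mul h3 h4 (sq_nonneg _) (by positivity)
        have h6 : 0 ≤ (V * Mo + err) * ‖RR P f N (χ₀ * χ)‖ ^ 2 := by positivity
        linarith
      · have h2 : χ ≠ χ₀⁻¹ := by
          intro h; apply hone; rw [h, mul_inv_cancel]
        rw [if_neg h2, add_zero]
        apply mul_le_mul_of_nonneg_right _ (sq_nonneg _)
        have h3 := ApproxQ.approxQ hone Q hQ X hX0
        have h4 := hV χ (Class.mem_mem.1 hχ) hone
        have h5 := ApproxQ.norm_prod_le (χ₀ * χ) Q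
        set LL := (χ₀ * χ).LFunction (1 / 2) *
          ∏ p ∈ Q, (1 - (χ₀ * χ) (p : ZMod q) * (((p : ℝ) ^ (-(1 / 2) : ℝ) : ℝ) : ℂ)) with hLL
        calc ‖ApproxQ.DQ Q (χ₀ * χ) X‖ = ‖LL - (LL - ApproxQ.DQ Q (χ₀ * χ) X)‖ := by
              congr 1; ring
          _ ≤ ‖LL‖ + ‖LL - ApproxQ.DQ Q (χ₀ * χ) X‖ := norm_sub_le _ _
          _ ≤ V * Mo + err := by
              apply add_le_add _ h3
              rw [hLL, norm_mul]
              exact mul_le_mul h4 h5 (norm_nonneg _) hV0
    calc ‖∑ χ ∈ Class.mem H, ApproxQ.DQ Q (χ₀ * χ) X * ((‖RR P f N (χ₀ * χ)‖ ^ 2 : ℝ) : ℂ)‖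
        ≤ ∑ χ ∈ Class.mem H, ((V * Mo + err) * ‖RR P f N (χ₀ * χ)‖ ^ 2
          + (if χ = χ₀⁻¹ then 2 * Real.sqrt X * (N * Fin P f) else 0)) := norm_sum_le_of_le _ h1
      _ = (V * Mo + err) * D0 + ∑ χ ∈ Class.mem H,
          (if χ = χ₀⁻¹ then 2 * Real.sqrt X * (N * Fin P f) else 0) := by
          rw [Finset.sum_add_distrib, ← Finset.mul_sum]
      _ ≤ _ := by
          rw [Finset.sum_ite_eq']
          have : 0 ≤ 2 * Real.sqrt X * (N * Fin P f) := by positivity
          split_ifs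
          · exact le_rfl
          · linarith
  rw [htot, norm_mul, Complex.norm_natCast, ← hG] at hup
  have hGn : G.re ≤ ‖G‖ := Complex.re_le_norm G
  have hfin : h * (Main P f / 2 - Main P f / 8 - long)
      ≤ (V * Mo + err) * (h * ((9 / 8) * Fin P f)) + 2 * Real.sqrt X * (N * Fin P f) := by
    calc h * (Main P f / 2 - Main P f / 8 - long) ≤ h * ‖G‖ :=
          mul_le_mul_of_nonneg_left (hReG.trans hGn) hhpos.le
      _ ≤ (V * Mo + err) * D0 + 2 * Real.sqrt X * (N * Fin P f) := hup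
      _ ≤ _ := by
          have : (V * Mo + err) * D0 ≤ (V * Mo + err) * (h * ((9 / 8) * Fin P f)) :=
            mul_le_mul_of_nonneg_left hmass (by positivity)
          linarith
  rw [← hh']
  have hdiv : 2 * Real.sqrt X * (N * Fin P f) / h * h = 2 * Real.sqrt X * (N * Fin P f) := by
    field_simp
  have hgoal : h * ((3 / 8) * Main P f) ≤ h * ((9 / 8) * Fin P f * (V * Mo + err) + long
      + 2 * Real.sqrt X * (N * Fin P f) / h) := by
    have : h * ((9 / 8) * Fin P f * (V * Mo + err) + long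
      + 2 * Real.sqrt X * (N * Fin P f) / h)
      = (V * Mo + err) * (h * ((9 / 8) * Fin P f)) + h * long
        + 2 * Real.sqrt X * (N * Fin P f) / h * h := by ring
    rw [this, hdiv]
    linarith
  exact le_of_mul_le_mul_left hgoal hhpos

end Pool.Agent.H.MP_3e6494_nt.CosetMain
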