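import Mathlib
import Pool.Agent.H.MP_3e6494_nt.helper50.Primes
import Pool.Agent.H.MP_3e6494_nt.helper50.LocalProd

open Finset Filter Topology

set_option linter.unusedSectionVars false

namespace Pool.Agent.H.MP_3e6494_nt.Sums

open Primes

structure Good (L : ℝ) : Prop where
  l3 : 3 ≤ Real.log L
  L1 : 1 ≤ L
  cheb : ∀ x : ℝ, L ≤ x → x / 2 ≤ (blk x).card * Real.log (4 * x)

lemma good_eventually : ∀ᶠ L : ℝ in atTop, Good L := by
  obtain ⟨x0, hx0⟩ := (eventually_atTop.1 card_blk)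
  filter_upwards [Real.tendsto_log_atTop.eventually_ge_atTop 3, eventually_ge_atTop (1 : ℝ),
    eventually_ge_atTop x0] with L a1 a2 a3
  exact ⟨a1, a2, fun x hx => hx0 x (a3.trans hx)⟩

noncomputable def K0 (L : ℝ) : ℕ := ⌊Real.log L / Real.log 2⌋₊

noncomputable def xk (L : ℝ) (k : ℕ) : ℝ := 4 ^ k * L ^ 2

noncomputable def P0 (L : ℝ) : Finset ℕ := (Finset.range (K0 L)).biUnion (fun k => blk (xk L k))

variable {L : ℝ}

lemma log2pos : 0 < Real.log 2 := Real.log_pos (by norm_num)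

lemma Good.four_pow_le (h : Good L) : (4 : ℝ) ^ (K0 L) ≤ L ^ 2 := by
  have hL0 : 0 < L := by linarith [h.L1]
  have h1 : ((K0 L : ℕ) : ℝ) ≤ Real.log L / Real.log 2 :=
    Nat.floor_le (div_nonneg (by linarith [h.l3]) log2pos.le)
  rw [le_div_iff₀ log2pos] at h1
  have h2 : (4 : ℝ) ^ (K0 L) = Real.exp (2 * ((K0 L : ℕ) * Real.log 2)) := by
    rw [show (2 : ℝ) * ((K0 L : ℕ) * Real.log 2) = (K0 L : ℕ) * (2 * Real.log 2) by ring,
      Real.exp_nat_mul]
    congr 1
    rw [show (2 : ℝ) * Real.log 2 = Real.log (2 ^ 2) by rw [Real.log_pow]; norm_num,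
      Real.exp_log (by norm_num)]
    norm_num
  rw [h2]
  calc Real.exp (2 * ((K0 L : ℕ) * Real.log 2)) ≤ Real.exp (2 * Real.log L) :=
        Real.exp_le_exp.2 (by linarith)
    _ = L ^ 2 := by
        rw [show (2 : ℝ) * Real.log L = Real.log (L ^ 2) by rw [Real.log_pow]; norm_num,
          Real.exp_log (by positivity)]

lemma Good.K0_ge (h : Good L) : Real.log L ≤ (K0 L : ℝ) := by
  have h1 : Real.log L / Real.log 2 - 1 < (K0 L : ℝ) := Nat.sub_one_lt_floor _
  have h2 : (4 / 3) * Real.log L ≤ Real.log L / Real.log 2 := by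
    rw [le_div_iff₀ log2pos]
    have := Real.log_two_lt_d9
    nlinarith [h.l3]
  linarith [h.l3]

lemma Good.K0_le (h : Good L) : (K0 L : ℝ) ≤ 2 * Real.log L := by
  have h1 : ((K0 L : ℕ) : ℝ) ≤ Real.log L / Real.log 2 :=
    Nat.floor_le (div_nonneg (by linarith [h.l3]) log2pos.le)
  refine h1.trans ?_
  rw [div_le_iff₀ log2pos]
  have := Real.log_two_gt_d9
  nlinarith [h.l3]

lemma Good.xk_ge (h : Good L) (k : ℕ) : L ^ 2 ≤ xk L k := by
  unfold xk
  have h1 : (1 : ℝ) ≤ 4 ^ k := one_le_pow₀ (by norm_num)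
  have h2 : 0 ≤ L ^ 2 := by positivity
  nlinarith

lemma Good.L_le_xk (h : Good L) (k : ℕ) : L ≤ xk L k := by
  refine le_trans ?_ (h.xk_ge k)
  nlinarith [h.L1]

lemma Good.xk_pos (h : Good L) (k : ℕ) : 0 < xk L k := by
  have := h.L_le_xk k; linarith [h.L1]

lemma Good.four_xk_le (h : Good L) {k : ℕ} (hk : k < K0 L) : 4 * xk L k ≤ L ^ 4 := by
  unfold xk
  have h1 : (4 : ℝ) * 4 ^ k ≤ 4 ^ (K0 L) := by
    rw [← pow_succ']
    exact pow_le_pow_right₀ (by norm_num) hk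
  calc 4 * (4 ^ k * L ^ 2) = (4 * 4 ^ k) * L ^ 2 := by ring
    _ ≤ L ^ 2 * L ^ 2 := mul_le_mul_of_nonneg_right (h1.trans h.four_pow_le) (by positivity)
    _ = L ^ 4 := by ring

lemma Good.log_xk_le (h : Good L) {k : ℕ} (hk : k < K0 L) :
    Real.log (4 * xk L k) ≤ 4 * Real.log L := by
  have hp := h.xk_pos k
  calc Real.log (4 * xk L k) ≤ Real.log (L ^ 4) := Real.log_le_log (by positivity) (h.four_xk_le hk)
    _ = 4 * Real.log L := by rw [Real.log_pow]; norm_num

lemma Good.mem_P0 (h : Good L) {p : ℕ} (hp : p ∈ P0 L) : p.Prime ∧ L ^ 2 < p ∧ (p : ℝ) ≤ L ^ 4 := by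
  unfold P0 at hp
  rw [Finset.mem_biUnion] at hp
  obtain ⟨k, hk, hpk⟩ := hp
  rw [Finset.mem_range] at hk
  have h1 := mem_blk (h.xk_pos k).le hpk
  exact ⟨h1.1, lt_of_le_of_lt (h.xk_ge k) h1.2.1, h1.2.2.trans (h.four_xk_le hk)⟩

lemma Good.disj (h : Good L) : ((Finset.range (K0 L) : Finset ℕ) : Set ℕ).PairwiseDisjoint
    (fun k => blk (xk L k)) := by
  have hmono : ∀ i j, i < j → 4 * xk L i ≤ xk L j := by
    intro i j hij
    unfold xk
    have h1 : (4 : ℝ) * 4 ^ i ≤ 4 ^ j := by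
      rw [← pow_succ']
      exact pow_le_pow_right₀ (by norm_num) hij
    calc 4 * (4 ^ i * L ^ 2) = (4 * 4 ^ i) * L ^ 2 := by ring
      _ ≤ _ := mul_le_mul_of_nonneg_right h1 (by positivity)
  have key : ∀ i j, i < j → Disjoint (blk (xk L i)) (blk (xk L j)) := by
    intro i j hij
    rw [Finset.disjoint_left]
    intro p hpi hpj
    have h1 := (mem_blk (h.xk_pos i).le hpi).2.2
    have h2 := (mem_blk (h.xk_pos j).le hpj).2.1
    have h3 := hmono i j hij
    linarith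
  intro i _ j _ hij
  rcases lt_or_gt_of_ne hij with h1 | h1
  · exact key i j h1
  · exact (key j i h1).symm

lemma Good.sum_inv_ge (h : Good L) : 1 / 32 ≤ ∑ p ∈ P0 L, 1 / (p : ℝ) := by
  have hl : 0 < Real.log L := by linarith [h.l3]
  unfold P0
  rw [Finset.sum_biUnion h.disj]
  have h1 : ∀ k ∈ Finset.range (K0 L), 1 / (32 * Real.log L) ≤ ∑ p ∈ blk (xk L k), 1 / (p : ℝ) := by
    intro k hk
    rw [Finset.mem_range] at hk
    have hx := h.xk_pos k
    have h2 : ∑ p ∈ blk (xk L k), 1 / (4 * xk L k) ≤ ∑ p ∈ blk (xk L k), 1 / (p : ℝ) := by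
      apply Finset.sum_le_sum
      intro p hp
      have h3 := mem_blk hx.le hp
      apply one_div_le_one_div_of_le
      · exact_mod_cast h3.1.pos
      · exact h3.2.2
    refine le_trans ?_ h2
    rw [Finset.sum_const, nsmul_eq_mul, mul_one_div, div_le_div_iff₀ (by positivity) (by positivity)]
    have h4 := h.cheb _ (h.L_le_xk k)
    have h5 := h.log_xk_le hk
    have h6 : xk L k / 2 ≤ ((blk (xk L k)).card : ℝ) * (4 * Real.log L) :=
      h4.trans (mul_le_mul_of_nonneg_left h5 (by positivity))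
    linarith
  refine le_trans ?_ (Finset.sum_le_sum h1)
  rw [Finset.sum_const, Finset.card_range, nsmul_eq_mul, mul_one_div,
    div_le_div_iff₀ (by norm_num) (by positivity)]
  linarith [h.K0_ge]

lemma Good.sum_log_le (h : Good L) : ∑ p ∈ P0 L, Real.log p / (p : ℝ) ≤ 12 * Real.log L := by
  have hl : 0 < Real.log L := by linarith [h.l3]
  unfold P0
  rw [Finset.sum_biUnion h.disj]
  have h1 : ∀ k ∈ Finset.range (K0 L), ∑ p ∈ blk (xk L k), Real.log p / (p : ℝ) ≤ 6 := by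
    intro k hk
    have hx := h.xk_pos k
    have h2 : ∑ p ∈ blk (xk L k), Real.log p / (p : ℝ) ≤ ∑ p ∈ blk (xk L k), Real.log p / xk L k := by
      apply Finset.sum_le_sum
      intro p hp
      have h3 := mem_blk hx.le hp
      apply div_le_div_of_nonneg_left _ hx h3.2.1.le
      exact Real.log_natCast_nonneg p
    refine h2.trans ?_
    rw [← Finset.sum_div, div_le_iff₀ hx]
    have h3 : ∑ p ∈ blk (xk L k), Real.log p ≤ Chebyshev.theta (4 * xk L k) := by
      unfold Chebyshev.theta blk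
      apply Finset.sum_le_sum_of_subset_of_nonneg
      · intro p hp
        rw [Finset.mem_filter, Finset.mem_Ioc] at hp ⊢
        exact ⟨⟨by omega, hp.1.2⟩, hp.2⟩
      · intro p _ _; exact Real.log_natCast_nonneg p
    have h4 := Chebyshev.theta_le_log4_mul_x (x := 4 * xk L k) (by positivity)
    have hl4 : Real.log 4 = 2 * Real.log 2 := by
      rw [show (4 : ℝ) = 2 ^ 2 by norm_num, Real.log_pow]; norm_num
    rw [hl4] at h4
    have := Real.log_two_lt_d9
    nlinarith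
  refine (Finset.sum_le_sum h1).trans ?_
  rw [Finset.sum_const, Finset.card_range, nsmul_eq_mul]
  linarith [h.K0_le]

/-- a crude bound for sums of inverse square roots over finite sets of positive integers -/
lemma sum_inv_sqrt_le (Q : Finset ℕ) (hQ : ∀ p ∈ Q, p.Prime) :
    ∑ p ∈ Q, (p : ℝ) ^ (-(1 / 2) : ℝ) ≤ 3 * Real.sqrt Q.card := by
  classical
  have hrp : ∀ p : ℕ, (p : ℝ) ^ (-(1 / 2) : ℝ) = 1 / Real.sqrt p := by
    intro p
    rw [Real.rpow_neg (by positivity), ← Real.sqrt_eq_rpow, one_div]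
  have h1 : ∀ n : ℕ, ∑ k ∈ Finset.Icc 1 n, ((k : ℝ) ^ (-(1 / 2) : ℝ)) ≤ 2 * Real.sqrt n := by
    intro n
    induction n with
    | zero => simp
    | succ n ih =>
      rw [Finset.sum_Icc_succ_top (by omega), hrp]
      have ha : 0 < Real.sqrt ((n + 1 : ℕ) : ℝ) := Real.sqrt_pos.2 (by positivity)
      have hb : 0 ≤ Real.sqrt (n : ℝ) := Real.sqrt_nonneg _
      have hc : Real.sqrt ((n + 1 : ℕ) : ℝ) ^ 2 = n + 1 := by
        rw [Real.sq_sqrt (by positivity)]; push_cast; ring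
      have hd : Real.sqrt (n : ℝ) ^ 2 = n := Real.sq_sqrt (by positivity)
      have h3 : 1 / Real.sqrt ((n + 1 : ℕ) : ℝ) ≤ 2 * (Real.sqrt ((n + 1 : ℕ) : ℝ) - Real.sqrt n) := by
        rw [div_le_iff₀ ha]
        nlinarith [sq_nonneg (Real.sqrt ((n + 1 : ℕ) : ℝ) - Real.sqrt n)]
      linarith
  rcases Nat.eq_zero_or_pos Q.card with h0 | h0
  · rw [Finset.card_eq_zero] at h0
    rw [h0]; simp
  have hc0 : (0 : ℝ) < Q.card := by exact_mod_cast h0
  rw [← Finset.sum_filter_add_sum_filter_not Q (fun p => p ≤ Q.card)]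
  have h2 : ∑ p ∈ Q.filter (fun p => p ≤ Q.card), (p : ℝ) ^ (-(1 / 2) : ℝ) ≤ 2 * Real.sqrt Q.card := by
    refine le_trans ?_ (h1 Q.card)
    apply Finset.sum_le_sum_of_subset_of_nonneg
    · intro p hp
      rw [Finset.mem_filter] at hp
      exact Finset.mem_Icc.2 ⟨(hQ p hp.1).one_lt.le, hp.2⟩
    · intro p _ _; positivity
  have h3 : ∑ p ∈ Q.filter (fun p => ¬ p ≤ Q.card), (p : ℝ) ^ (-(1 / 2) : ℝ) ≤ Real.sqrt Q.card := by
    calc ∑ p ∈ Q.filter (fun p => ¬ p ≤ Q.card), (p : ℝ) ^ (-(1 / 2) : ℝ)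
        ≤ ∑ p ∈ Q.filter (fun p => ¬ p ≤ Q.card), 1 / Real.sqrt Q.card := by
          apply Finset.sum_le_sum
          intro p hp
          rw [Finset.mem_filter, not_le] at hp
          rw [hrp]
          apply one_div_le_one_div_of_le (Real.sqrt_pos.2 hc0)
          apply Real.sqrt_le_sqrt
          exact_mod_cast hp.2.le
      _ ≤ (Q.card : ℝ) * (1 / Real.sqrt Q.card) := by
          rw [Finset.sum_const, nsmul_eq_mul]
          apply mul_le_mul_of_nonneg_right _ (by positivity)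
          exact_mod_cast Finset.card_le_card (Finset.filter_subset _ _)
      _ = Real.sqrt Q.card := by
          rw [mul_one_div, Real.div_sqrt]
  linarith

lemma prod_one_add_le (Q : Finset ℕ) (hQ : ∀ p ∈ Q, p.Prime) :
    ∏ p ∈ Q, (1 + (p : ℝ) ^ (-(1 / 2) : ℝ)) ≤ Real.exp (3 * Real.sqrt Q.card) := by
  refine le_trans ?_ (Real.exp_le_exp.2 (sum_inv_sqrt_le Q hQ))
  rw [Real.exp_sum]
  apply Finset.prod_le_prod
  · intro p _; positivity
  · intro p _
    have := Real.add_one_le_exp ((p : ℝ) ^ (-(1 / 2) : ℝ))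
    linarith

end Pool.Agent.H.MP_3e6494_nt.Sums
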