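import Mathlib
import Pool.Agent.H.MP_3e6494_nt.helper50.CosetMain
import Pool.Agent.H.MP_3e6494_nt.helper50.Dual
import Pool.Agent.H.MP_3e6494_nt.helper50.Sums

open Finset Filter Topology

set_option linter.unusedSectionVars false

namespace Pool.Agent.H.MP_3e6494_nt.Final2

open LocalProd Coset

/-- the conditions on `L = log q` -/
structure Cond (L s t : ℝ) : Prop where
  good : Sums.Good L
  hs : s = Real.sqrt (L / Real.log L)
  ht : t = s / 10 ^ 6
  t1 : 1 ≤ t
  e3 : 3 * (1 + L) * Real.exp (-(L / 50)) ≤ 1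
  e4 : 8 * Real.exp (-(L / 20)) ≤ 1
  e6 : L ^ 4 < Real.exp L

lemma cond_eventually : ∀ᶠ L : ℝ in atTop,
    Cond L (Real.sqrt (L / Real.log L)) (Real.sqrt (L / Real.log L) / 10 ^ 6) := by
  have e1 : ∀ᶠ L : ℝ in atTop, 1 ≤ Real.sqrt (L / Real.log L) / 10 ^ 6 := by
    have h1 := Real.isLittleO_log_id_atTop.bound (show (0 : ℝ) < 1 / 10 ^ 12 by norm_num)
    filter_upwards [h1, Real.tendsto_log_atTop.eventually_ge_atTop 1,
      eventually_ge_atTop (1 : ℝ)] with L a1 a2 a3
    simp only [id] at a1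
    rw [Real.norm_of_nonneg (by linarith : (0 : ℝ) ≤ L)] at a1
    have a4 := (le_abs_self _).trans a1
    rw [le_div_iff₀ (by norm_num), one_mul]
    apply Real.le_sqrt_of_sq_le
    rw [le_div_iff₀ (by linarith)]
    calc ((10 : ℝ) ^ 6) ^ 2 * Real.log L ≤ ((10 : ℝ) ^ 6) ^ 2 * (1 / 10 ^ 12 * L) :=
          mul_le_mul_of_nonneg_left a4 (by positivity)
      _ = L := by ring
  have e2 : ∀ᶠ L : ℝ in atTop, 3 * (1 + L) * Real.exp (-(L / 50)) ≤ 1 := by
    have h1 := (isLittleO_pow_exp_pos_mul_atTop 1 (show (0 : ℝ) < 1 / 50 by norm_num)).bound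
      (show (0 : ℝ) < 1 / 6 by norm_num)
    filter_upwards [h1, eventually_ge_atTop (1 : ℝ)] with L hL hL1
    rw [Real.norm_of_nonneg (Real.exp_pos _).le, Real.norm_of_nonneg (by positivity), pow_one] at hL
    rw [Real.exp_neg, ← div_eq_mul_inv, div_le_one (Real.exp_pos _)]
    have : L / 50 = 1 / 50 * L := by ring
    rw [this]
    linarith
  have e3 : ∀ᶠ L : ℝ in atTop, 8 * Real.exp (-(L / 20)) ≤ 1 := by
    filter_upwards [eventually_ge_atTop (200 : ℝ)] with L hL
    rw [Real.exp_neg, ← div_eq_mul_inv, div_le_one (Real.exp_pos _)]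
    have := Real.add_one_le_exp (L / 20)
    linarith
  have e4 : ∀ᶠ L : ℝ in atTop, L ^ 4 < Real.exp L := by
    have h1 := (isLittleO_pow_exp_pos_mul_atTop 4 (show (0 : ℝ) < 1 by norm_num)).bound
      (show (0 : ℝ) < 1 / 2 by norm_num)
    filter_upwards [h1, eventually_ge_atTop (1 : ℝ)] with L hL hL1
    rw [one_mul, Real.norm_of_nonneg (Real.exp_pos _).le, Real.norm_of_nonneg (by positivity)] at hL
    linarith [Real.exp_pos L]
  filter_upwards [Sums.good_eventually, e1, e2, e3, e4] with L a1 a2 a3 a4 a5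
  exact ⟨a1, rfl, rfl, a2, a3, a4, a5⟩

variable {L s t : ℝ}

lemma Cond.lpos (h : Cond L s t) : 0 < Real.log L := by linarith [h.good.l3]
lemma Cond.Lpos (h : Cond L s t) : 0 < L := by linarith [h.good.L1]
lemma Cond.s_eq (h : Cond L s t) : s = 10 ^ 6 * t := by rw [h.ht]; ring
lemma Cond.s_ge (h : Cond L s t) : 10 ^ 6 ≤ s := by rw [h.s_eq]; linarith [h.t1]
lemma Cond.s_sq (h : Cond L s t) : s ^ 2 = L / Real.log L := by
  rw [h.hs, Real.sq_sqrt (div_nonneg h.Lpos.le h.lpos.le)]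
lemma Cond.s_sq_le (h : Cond L s t) : 3 * s ^ 2 ≤ L := by
  rw [h.s_sq, ← le_div_iff₀' (by norm_num)]
  apply div_le_div_of_nonneg_left h.Lpos.le (by norm_num) h.good.l3
lemma Cond.s_le_sqrt (h : Cond L s t) : s ≤ Real.sqrt L := by
  apply Real.le_sqrt_of_sq_le
  have := h.s_sq_le
  nlinarith [sq_nonneg s]
lemma Cond.t_sq (h : Cond L s t) : 10 ^ 12 * t ^ 2 ≤ L := by
  have h1 := h.s_sq_le
  rw [h.s_eq] at h1
  nlinarith [sq_nonneg t]
lemma Cond.t_le (h : Cond L s t) : 10 ^ 12 * t ≤ L := by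
  have h1 := h.t_sq
  have h2 : t ≤ t ^ 2 := by nlinarith [h.t1]
  linarith

/-- the resonator weights -/
noncomputable def ff (s : ℝ) (p : ℕ) : ℝ := (s / 100) / Real.sqrt p

lemma Cond.lam (h : Cond L s t) : 1 ≤ s / 100 ∧ s / 100 ≤ Real.sqrt L / 100 := by
  constructor
  · linarith [h.s_ge]
  · linarith [h.s_le_sqrt]

lemma Cond.sqrtL (h : Cond L s t) : 10 ^ 6 ≤ Real.sqrt L := h.s_ge.trans h.s_le_sqrt

lemma Cond.fourth_root (h : Cond L s t) {p : ℕ} (hp : p ∈ Sums.P0 L) :
    Real.sqrt L ≤ Real.sqrt (Real.sqrt p) := by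
  apply Real.sqrt_le_sqrt
  apply Real.le_sqrt_of_sq_le
  exact (h.good.mem_P0 hp).2.1.le

lemma Cond.ff_nonneg (h : Cond L s t) (p : ℕ) : 0 ≤ ff s p := by
  unfold ff
  have := h.lam.1
  positivity

lemma Cond.hf1 (h : Cond L s t) {p : ℕ} (hp : p ∈ Sums.P0 L) :
    ff s p ≤ 1 / Real.sqrt (Real.sqrt p) := by
  unfold ff
  have hp0 : (0 : ℝ) < p := by exact_mod_cast (h.good.mem_P0 hp).1.pos
  have h1 : 0 < Real.sqrt p := Real.sqrt_pos.2 hp0
  have h2 : 0 < Real.sqrt (Real.sqrt p) := Real.sqrt_pos.2 h1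
  rw [div_le_div_iff₀ h1 h2]
  have h3 := h.fourth_root hp
  have h4 : Real.sqrt (p : ℝ) = Real.sqrt (Real.sqrt p) * Real.sqrt (Real.sqrt p) :=
    (Real.mul_self_sqrt h1.le).symm
  have h5 : s / 100 ≤ Real.sqrt (Real.sqrt p) := by
    have := h.lam.2; have := h.sqrtL; linarith
  calc s / 100 * Real.sqrt (Real.sqrt p) ≤ Real.sqrt (Real.sqrt p) * Real.sqrt (Real.sqrt p) :=
        mul_le_mul_of_nonneg_right h5 h2.le
    _ = 1 * Real.sqrt p := by rw [← h4, one_mul]

lemma Cond.ratio (h : Cond L s t) {p : ℕ} (hp : p ∈ Sums.P0 L) :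
    ff s p / Real.sqrt p = (s / 100) / p := by
  unfold ff
  rw [div_div, Real.mul_self_sqrt (by positivity)]

lemma Cond.p_ge (h : Cond L s t) {p : ℕ} (hp : p ∈ Sums.P0 L) : s / 100 ≤ p := by
  have h1 := (h.good.mem_P0 hp).2.1
  have h2 := h.lam.2
  have h3 : Real.sqrt L ≤ L := by
    have : Real.sqrt L * Real.sqrt L = L := Real.mul_self_sqrt h.Lpos.le
    nlinarith [h.sqrtL]
  have h4 : L ≤ L ^ 2 := by nlinarith [h.good.L1]
  have := h.sqrtL
  linarith

lemma Cond.hf2 (h : Cond L s t) {p : ℕ} (hp : p ∈ Sums.P0 L) :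
    (1 + ff s p * Real.sqrt p) * (1 + ff s p / Real.sqrt p) ≤ Real.sqrt (Real.sqrt p) := by
  have hp0 : (0 : ℝ) < p := by exact_mod_cast (h.good.mem_P0 hp).1.pos
  have h1 : 0 < Real.sqrt p := Real.sqrt_pos.2 hp0
  rw [h.ratio hp]
  have h2 : ff s p * Real.sqrt p = s / 100 := by
    unfold ff; field_simp
  rw [h2]
  have h3 : s / 100 / p ≤ 1 := by
    rw [div_le_one hp0]; exact h.p_ge hp
  have h4 := h.lam
  have h5 := h.sqrtL
  have h6 := h.fourth_root hp
  have h7 : 0 ≤ s / 100 / p := by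
    have := h4.1; positivity
  calc (1 + s / 100) * (1 + s / 100 / p) ≤ (1 + s / 100) * 2 := by
        apply mul_le_mul_of_nonneg_left (by linarith) (by linarith)
    _ ≤ Real.sqrt L := by linarith
    _ ≤ _ := h6

/-- Rankin's condition -/
lemma Cond.rankin (h : Cond L s t) (P : Finset ℕ) (hP : P ⊆ Sums.P0 L) :
    ∏ p ∈ P, (1 + (p : ℝ) ^ (1 / (4 * Real.log L)) * (ff s p ^ 2 + ff s p / Real.sqrt p))
      ≤ ((⌊Real.exp (L / 50)⌋₊ : ℕ) : ℝ) ^ (1 / (4 * Real.log L)) * (Main P (ff s) / 2) := by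
  set α := 1 / (4 * Real.log L) with hα
  have hl := h.lpos
  have hα0 : 0 < α := by rw [hα]; positivity
  have hα1 : α ≤ 1 := by
    rw [hα, div_le_one (by positivity)]
    linarith [h.good.l3]
  have hMain0 : 0 ≤ Main P (ff s) := Finset.prod_nonneg fun p hp => by
    have := h.ff_nonneg p; positivity
  -- local inequality
  have hloc : ∀ p ∈ P, 1 + (p : ℝ) ^ α * (ff s p ^ 2 + ff s p / Real.sqrt p)
      ≤ (1 + ff s p ^ 2 + ff s p / Real.sqrt p) *
        Real.exp (4 * α * (s / 100) ^ 2 * (Real.log p / p)) := by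
    intro p hp
    have hp' := hP hp
    have hmem := h.good.mem_P0 hp'
    have hp0 : (0 : ℝ) < p := by exact_mod_cast hmem.1.pos
    have hp1 : (1 : ℝ) ≤ p := by exact_mod_cast hmem.1.one_lt.le
    have hlogp : 0 ≤ Real.log p := Real.log_nonneg hp1
    set e := ff s p ^ 2 + ff s p / Real.sqrt p with he
    have he0 : 0 ≤ e := by
      have := h.ff_nonneg p; rw [he]; positivity
    have hfsq : ff s p ^ 2 = (s / 100) ^ 2 / p := by
      unfold ff; rw [div_pow, Real.sq_sqrt hp0.le]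
    have he2 : e ≤ 2 * (s / 100) ^ 2 / p := by
      rw [he, hfsq, h.ratio hp', ← add_div]
      apply div_le_div_of_nonneg_right _ hp0.le
      have := h.lam.1
      nlinarith
    have hpow : (p : ℝ) ^ α = Real.exp (Real.log p * α) := by rw [Real.rpow_def_of_pos hp0]
    have hx1 : Real.log p * α ≤ 1 := by
      have h1 : Real.log p ≤ 4 * Real.log L := by
        calc Real.log p ≤ Real.log (L ^ 4) := Real.log_le_log hp0 hmem.2.2
          _ = 4 * Real.log L := by rw [Real.log_pow]; norm_num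
      rw [hα, mul_one_div, div_le_one (by positivity)]
      exact h1
    have hx0 : 0 ≤ Real.log p * α := by positivity
    have hexp : Real.exp (Real.log p * α) - 1 ≤ 2 * (Real.log p * α) := by
      have := Real.exp_bound' hx0 hx1 (n := 2) (by norm_num)
      norm_num [Finset.sum_range_succ] at this
      nlinarith
    have ht1 : 1 ≤ (p : ℝ) ^ α := by rw [hpow]; exact Real.one_le_exp hx0
    set T := (p : ℝ) ^ α with hT
    have h2 : 1 + T * e ≤ (1 + e) * (1 + (T - 1) * e) := by nlinarith [mul_nonneg (sub_nonneg.2 ht1) (mul_nonneg he0 he0)]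
    have h3 : 1 + (T - 1) * e ≤ Real.exp ((T - 1) * e) := by
      have := Real.add_one_le_exp ((T - 1) * e); linarith
    have h4 : (T - 1) * e ≤ 4 * α * (s / 100) ^ 2 * (Real.log p / p) := by
      calc (T - 1) * e ≤ (2 * (Real.log p * α)) * (2 * (s / 100) ^ 2 / p) := by
            apply mul_le_mul _ he2 he0 (by positivity)
            rw [hpow]; exact hexp
        _ = _ := by ring
    have h5 : (1 + e) = 1 + ff s p ^ 2 + ff s p / Real.sqrt p := by rw [he]; ring
    rw [← h5]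
    calc 1 + T * e ≤ (1 + e) * (1 + (T - 1) * e) := h2
      _ ≤ (1 + e) * Real.exp (4 * α * (s / 100) ^ 2 * (Real.log p / p)) := by
          apply mul_le_mul_of_nonneg_left _ (by linarith)
          exact h3.trans (Real.exp_le_exp.2 h4)
  have h1 : ∏ p ∈ P, (1 + (p : ℝ) ^ α * (ff s p ^ 2 + ff s p / Real.sqrt p))
      ≤ Main P (ff s) * Real.exp (4 * α * (s / 100) ^ 2 * (12 * Real.log L)) := by
    calc ∏ p ∈ P, (1 + (p : ℝ) ^ α * (ff s p ^ 2 + ff s p / Real.sqrt p))
        ≤ ∏ p ∈ P, ((1 + ff s p ^ 2 + ff s p / Real.sqrt p) *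
        Real.exp (4 * α * (s / 100) ^ 2 * (Real.log p / p))) := by
          apply Finset.prod_le_prod _ hloc
          intro p _
          have := h.ff_nonneg p; positivity
      _ = Main P (ff s) * Real.exp (4 * α * (s / 100) ^ 2 * ∑ p ∈ P, Real.log p / p) := by
          rw [Finset.prod_mul_distrib, Finset.mul_sum, Real.exp_sum]; rfl
      _ ≤ _ := by
          apply mul_le_mul_of_nonneg_left _ hMain0
          apply Real.exp_le_exp.2
          apply mul_le_mul_of_nonneg_left _ (by positivity)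
          refine le_trans ?_ h.good.sum_log_le
          apply Finset.sum_le_sum_of_subset_of_nonneg hP
          intro p _ _
          exact div_nonneg (Real.log_natCast_nonneg p) (by positivity)
  refine h1.trans ?_
  have hre : ((⌊Real.exp (L / 50)⌋₊ : ℕ) : ℝ) ^ α * (Main P (ff s) / 2)
      = Main P (ff s) * (((⌊Real.exp (L / 50)⌋₊ : ℕ) : ℝ) ^ α / 2) := by ring
  rw [hre]
  apply mul_le_mul_of_nonneg_left _ hMain0
  -- numeric
  have hLs : α * L = s ^ 2 / 4 := by
    rw [hα, h.s_sq]; field_simp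
  have e1 : 4 * α * (s / 100) ^ 2 * (12 * Real.log L) = 12 * s ^ 2 / 10 ^ 4 := by
    rw [hα]; field_simp; norm_num
  rw [e1]
  have hN : Real.exp (L / 50) / 2 ≤ ((⌊Real.exp (L / 50)⌋₊ : ℕ) : ℝ) := by
    have h2 := Nat.sub_one_lt_floor (Real.exp (L / 50))
    have h3 : 2 ≤ Real.exp (L / 50) := by
      have h4 := Real.add_one_le_exp (L / 50)
      have h5 := h.t_sq
      have h6 := h.t1
      nlinarith
    linarith
  have h2 : (Real.exp (L / 50) / 2) ^ α ≤ ((⌊Real.exp (L / 50)⌋₊ : ℕ) : ℝ) ^ α :=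
    Real.rpow_le_rpow (by positivity) hN hα0.le
  have h3 : Real.exp (s ^ 2 / 200) / 2 ≤ (Real.exp (L / 50) / 2) ^ α := by
    rw [Real.div_rpow (Real.exp_pos _).le (by norm_num), ← Real.exp_mul]
    have h4 : L / 50 * α = s ^ 2 / 200 := by
      have : L / 50 * α = (α * L) / 50 := by ring
      rw [this, hLs]; ring
    rw [h4]
    apply div_le_div_of_nonneg_left (Real.exp_pos _).le (by positivity)
    calc (2 : ℝ) ^ α ≤ (2 : ℝ) ^ (1 : ℝ) := Real.rpow_le_rpow_of_exponent_le (by norm_num) hα1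
      _ = 2 := Real.rpow_one 2
  have h4 : Real.exp (12 * s ^ 2 / 10 ^ 4) ≤ Real.exp (s ^ 2 / 200) / 4 := by
    have h5 : Real.exp (s ^ 2 / 200) = Real.exp (12 * s ^ 2 / 10 ^ 4) * Real.exp (38 * s ^ 2 / 10 ^ 4) := by
      rw [← Real.exp_add]; congr 1; ring
    rw [h5]
    have h6 : 4 ≤ Real.exp (38 * s ^ 2 / 10 ^ 4) := by
      have h7 := Real.add_one_le_exp (38 * s ^ 2 / 10 ^ 4)
      have h8 := h.s_ge
      have h9 : (10 ^ 6 : ℝ) ^ 2 ≤ s ^ 2 := pow_le_pow_left₀ (by norm_num) h8 2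
      linarith
    have := Real.exp_pos (12 * s ^ 2 / 10 ^ 4)
    nlinarith
  linarith

/-- `exp (x / 2) ≤ 1 + x` on the unit interval -/
lemma exp_half_le {x : ℝ} (hx0 : 0 ≤ x) (hx1 : x ≤ 1) : Real.exp (x / 2) ≤ 1 + x := by
  have h1 := Real.exp_bound' (show 0 ≤ x / 2 by linarith) (show x / 2 ≤ 1 by linarith) (n := 2) (by norm_num)
  norm_num [Finset.sum_range_succ] at h1
  nlinarith

/-- the ratio of the main term and the square norm of the resonator -/
lemma Cond.main_ge (h : Cond L s t) (P : Finset ℕ) (hP : P ⊆ Sums.P0 L)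
    (hsum : 1 / 40 ≤ ∑ p ∈ P, 1 / (p : ℝ)) :
    Fin P (ff s) * Real.exp (62 * t) ≤ Main P (ff s) := by
  have h1 : Fin P (ff s) * Real.exp ((s / 400) * ∑ p ∈ P, 1 / (p : ℝ)) ≤ Main P (ff s) := by
    rw [Finset.mul_sum, Real.exp_sum]
    unfold LocalProd.Fin Main
    rw [← Finset.prod_mul_distrib]
    apply Finset.prod_le_prod
    · intro p _; positivity
    · intro p hp
      have hp' := hP hp
      have hmem := h.good.mem_P0 hp'
      have hp0 : (0 : ℝ) < p := by exact_mod_cast hmem.1.pos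
      rw [h.ratio hp']
      have hfsq : ff s p ^ 2 = (s / 100) ^ 2 / p := by
        unfold ff; rw [div_pow, Real.sq_sqrt hp0.le]
      have hlam := h.lam
      have hf1 : ff s p ^ 2 ≤ 1 := by
        rw [hfsq, div_le_one hp0]
        have h2 : (s / 100) ^ 2 ≤ L := by
          have := h.s_sq_le
          nlinarith [sq_nonneg s]
        have h3 : L ≤ L ^ 2 := by nlinarith [h.good.L1]
        linarith [hmem.2.1]
      have hx0 : 0 ≤ s / 100 / p := div_nonneg (by linarith [hlam.1]) hp0.le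
      have hx1 : s / 100 / p ≤ 1 := by
        rw [div_le_one hp0]; exact h.p_ge hp'
      have h4 : Real.exp (s / 400 * (1 / (p : ℝ))) ≤ 1 + (s / 100 / p) / 2 := by
        have h5 := exp_half_le (x := (s / 100 / p) / 2) (by linarith) (by linarith)
        have h6 : (s / 100 / p) / 2 / 2 = s / 400 * (1 / (p : ℝ)) := by
          field_simp; ring
        rw [h6] at h5; exact h5
      calc (1 + ff s p ^ 2) * Real.exp (s / 400 * (1 / (p : ℝ)))
          ≤ (1 + ff s p ^ 2) * (1 + (s / 100 / p) / 2) := by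
            apply mul_le_mul_of_nonneg_left h4 (by positivity)
        _ ≤ 1 + ff s p ^ 2 + s / 100 / p := by nlinarith
  refine le_trans ?_ h1
  apply mul_le_mul_of_nonneg_left _ (le_trans zero_le_one one_le_Fin)
  apply Real.exp_le_exp.2
  have h2 := h.s_ge
  have h3 : (s / 400) * (1 / 40) ≤ (s / 400) * ∑ p ∈ P, 1 / (p : ℝ) :=
    mul_le_mul_of_nonneg_left hsum (by linarith)
  have h4 := h.s_eq
  have h5 := h.t1
  nlinarith

/-- removing few primes keeps the sum of the reciprocals -/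
lemma Cond.sum_ge (h : Cond L s t) (Q : Finset ℕ) (hQ : (Q.card : ℝ) ≤ 49 * t ^ 2) :
    1 / 40 ≤ ∑ p ∈ (Sums.P0 L \ Q), 1 / (p : ℝ) := by
  classical
  have h1 := h.good.sum_inv_ge
  have h2 : ∑ p ∈ Sums.P0 L, 1 / (p : ℝ) = ∑ p ∈ (Sums.P0 L \ Q), 1 / (p : ℝ)
      + ∑ p ∈ (Sums.P0 L ∩ Q), 1 / (p : ℝ) := by
    rw [← Finset.sum_sdiff (Finset.inter_subset_left : Sums.P0 L ∩ Q ⊆ Sums.P0 L),
      Finset.sdiff_inter_self_left]
  have h3 : ∑ p ∈ (Sums.P0 L ∩ Q), 1 / (p : ℝ) ≤ (Q.card : ℝ) * (1 / L ^ 2) := by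
    calc ∑ p ∈ (Sums.P0 L ∩ Q), 1 / (p : ℝ) ≤ ∑ _p ∈ (Sums.P0 L ∩ Q), 1 / L ^ 2 := by
          apply Finset.sum_le_sum
          intro p hp
          have := h.good.mem_P0 (Finset.mem_inter.1 hp).1
          exact one_div_le_one_div_of_le (by have := h.Lpos; positivity) this.2.1.le
      _ = ((Sums.P0 L ∩ Q).card : ℝ) * (1 / L ^ 2) := by rw [Finset.sum_const, nsmul_eq_mul]
      _ ≤ _ := by
          apply mul_le_mul_of_nonneg_right _ (by positivity)
          exact_mod_cast Finset.card_le_card Finset.inter_subset_right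
  have h4 : (Q.card : ℝ) * (1 / L ^ 2) ≤ 1 / 1000 := by
    have h5 := h.t_sq
    have h6 := h.t1
    have h7 : 0 < L := h.Lpos
    rw [mul_one_div, div_le_iff₀ (by positivity)]
    have h8 : 10 ^ 12 ≤ L := by nlinarith
    nlinarith
  linarith

variable {q : ℕ} [hq : Fact q.Prime]

/-- the lower bound in every coset -/
theorem all_cosets_aux (L s t : ℝ) (hL : L = Real.log q) (h : Cond L s t)
    (H : Subgroup (DirichletCharacter ℂ q)) (hH : (H.index : ℝ) ≤ Real.exp t)
    (χ₀ : DirichletCharacter ℂ q) :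
    ∃ χ : DirichletCharacter ℂ q, χ₀⁻¹ * χ ∈ H ∧ χ ≠ 1 ∧
      Real.exp t ≤ ‖χ.LFunction (1 / 2)‖ := by
  classical
  by_contra hcon
  push Not at hcon
  have hqL : Real.exp L = q := by
    rw [hL, Real.exp_log (by exact_mod_cast hq.out.pos)]
  have ht1 := h.t1
  have htsq := h.t_sq
  have htle := h.t_le
  set j := Nat.card (Class.K H) with hj
  have hjH : (j : ℝ) ≤ Real.exp t := by rw [hj, Dual.card_K_eq_index]; exact hH
  have hj1 : 1 ≤ j := Nat.card_pos
  set Bh : ℕ := ⌈(8 * Real.exp t) ^ 4⌉₊ with hBhdef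
  have hB1 : (8 * Real.exp t) ^ 4 ≤ (Bh : ℝ) := Nat.le_ceil _
  have hexp9 : (4097 : ℝ) ≤ Real.exp (9 * t) := by
    calc (4097 : ℝ) ≤ (2.7182818283 : ℝ) ^ 9 := by norm_num
      _ ≤ (Real.exp 1) ^ 9 := pow_le_pow_left₀ (by norm_num) Real.exp_one_gt_d9.le 9
      _ = Real.exp 9 := by rw [← Real.exp_nat_mul]; norm_num
      _ ≤ _ := Real.exp_le_exp.2 (by linarith)
  have hB2 : (Bh : ℝ) ≤ Real.exp (13 * t) := by
    have h1 : (Bh : ℝ) < (8 * Real.exp t) ^ 4 + 1 := Nat.ceil_lt_add_one (by positivity)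
    have h2 : (8 * Real.exp t) ^ 4 = 4096 * Real.exp (4 * t) := by
      rw [mul_pow, ← Real.exp_nat_mul]; norm_num
    have h3 : Real.exp (13 * t) = Real.exp (9 * t) * Real.exp (4 * t) := by
      rw [← Real.exp_add]; congr 1; ring
    have h4 : 1 ≤ Real.exp (4 * t) := Real.one_le_exp (by linarith)
    rw [h3]; nlinarith
  have hB0 : 0 < Bh := by
    have : (0 : ℝ) < Bh := lt_of_lt_of_le (by positivity) hB1
    exact_mod_cast this
  set ρ := Nat.log 2 j + 1 with hρdef
  have hρ1 : j < 2 ^ ρ := Nat.lt_pow_succ_log_self (by norm_num) j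
  have hρ2 : (ρ : ℝ) ≤ (5 / 2) * t := by
    have h1 : 2 ^ Nat.log 2 j ≤ j := Nat.pow_log_le_self 2 (by omega)
    have h2 : ((2 : ℝ)) ^ (Nat.log 2 j) ≤ Real.exp t := by
      refine le_trans ?_ hjH
      exact_mod_cast h1
    have h3 : (Nat.log 2 j : ℝ) * Real.log 2 ≤ t := by
      have := Real.log_le_log (by positivity) h2
      rwa [Real.log_pow, Real.log_exp] at this
    have h4 := Real.log_two_gt_d9
    have h5 : (0 : ℝ) ≤ (Nat.log 2 j : ℝ) := by positivity
    rw [hρdef]; push_cast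
    nlinarith
  have hBρ : ((Bh : ℝ)) ^ ρ ≤ Real.exp ((65 / 2) * t ^ 2) := by
    calc ((Bh : ℝ)) ^ ρ ≤ (Real.exp (13 * t)) ^ ρ := pow_le_pow_left₀ (by positivity) hB2 ρ
      _ = Real.exp ((ρ : ℝ) * (13 * t)) := by rw [← Real.exp_nat_mul]
      _ ≤ _ := by
          apply Real.exp_le_exp.2
          calc (ρ : ℝ) * (13 * t) ≤ ((5 / 2) * t) * (13 * t) :=
                mul_le_mul_of_nonneg_right hρ2 (by linarith)
            _ = _ := by ring
  have hB2ρ : Bh ^ (2 * ρ) < q := by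
    have h1 : ((Bh : ℝ)) ^ (2 * ρ) < q := by
      rw [mul_comm 2 ρ, pow_mul, ← hqL]
      calc ((Bh : ℝ) ^ ρ) ^ 2 ≤ (Real.exp ((65 / 2) * t ^ 2)) ^ 2 :=
            pow_le_pow_left₀ (by positivity) hBρ 2
        _ = Real.exp (65 * t ^ 2) := by rw [← Real.exp_nat_mul]; congr 1; push_cast; ring
        _ < Real.exp L := by
            apply Real.exp_lt_exp.2
            nlinarith
    exact_mod_cast h1
  obtain ⟨Q, hQ1, hQ2, hQ3⟩ := Greedy.exists_Q (Class.K H) Bh ρ (by omega) hρ1 hB2ρ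
  have hQcard : (Q.card : ℝ) ≤ 49 * t ^ 2 := by
    have h1 : ((2 : ℝ)) ^ Q.card ≤ Real.exp ((65 / 2) * t ^ 2) := by
      refine le_trans ?_ hBρ
      exact_mod_cast hQ2
    have h2 := Real.log_le_log (by positivity) h1
    rw [Real.log_pow, Real.log_exp] at h2
    have h3 := Real.log_two_gt_d9
    have h4 : (0 : ℝ) ≤ (Q.card : ℝ) := by positivity
    nlinarith
  set P := Sums.P0 L \ Q with hPdef
  have hPsub : P ⊆ Sums.P0 L := Finset.sdiff_subset
  set N := ⌊Real.exp (L / 50)⌋₊ with hN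
  set Z := ⌊Real.exp (L / 4)⌋₊ with hZ
  set X := ⌈Real.exp (21 * L / 20)⌉₊ with hX
  have hLpos := h.Lpos
  have hN2 : (N : ℝ) ≤ Real.exp (L / 50) := Nat.floor_le (Real.exp_pos _).le
  have hN1 : 1 ≤ N := Nat.le_floor (by push_cast; exact Real.one_le_exp (by positivity))
  have hZ2 : (Z : ℝ) ≤ Real.exp (L / 4) := Nat.floor_le (Real.exp_pos _).le
  have hZ1 : 1 ≤ Z := Nat.le_floor (by push_cast; exact Real.one_le_exp (by positivity))
  have hX1' : Real.exp (21 * L / 20) ≤ (X : ℝ) := Nat.le_ceil _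
  have hX2 : (X : ℝ) ≤ Real.exp (21 * L / 20) + 1 := (Nat.ceil_lt_add_one (Real.exp_pos _).le).le
  have hNX : N ≤ X := by
    have : (N : ℝ) ≤ X := hN2.trans (le_trans (Real.exp_le_exp.2 (by linarith)) hX1')
    exact_mod_cast this
  have hX1 : 1 ≤ X := hN1.trans hNX
  have hNZ : Z * N * N < q := by
    have h1 : (Z : ℝ) * N * N < q := by
      rw [← hqL]
      calc (Z : ℝ) * N * N ≤ Real.exp (L / 4) * Real.exp (L / 50) * Real.exp (L / 50) := by
            gcongr
        _ = Real.exp (29 * L / 100) := by rw [← Real.exp_add, ← Real.exp_add]; congr 1; ring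
        _ < Real.exp L := Real.exp_lt_exp.2 (by linarith)
    exact_mod_cast h1
  have hjB : 8 * (Nat.card (Class.K H) : ℝ) ≤ Real.sqrt (Real.sqrt (Bh : ℝ)) := by
    apply Real.le_sqrt_of_sq_le
    apply Real.le_sqrt_of_sq_le
    refine le_trans ?_ hB1
    rw [← pow_mul]
    apply pow_le_pow_left₀ (by positivity)
    have := hjH
    rw [hj] at this
    linarith
  have hα : 0 ≤ 1 / (4 * Real.log L) := by have := h.lpos; positivity
  have hmain := CosetMain.coset_ineq H χ₀ (P := P) (Q := Q) (f := ff s) (N := N) (X := X) (Z := Z)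
    (by
      intro p hp
      have hmem := h.good.mem_P0 (hPsub hp)
      refine ⟨hmem.1, ?_⟩
      have : (p : ℝ) < q := by
        rw [← hqL]; exact lt_of_le_of_lt hmem.2.2 h.e6
      exact_mod_cast this)
    Finset.sdiff_disjoint hQ1 (fun p _ => h.ff_nonneg p) (fun p hp => h.hf1 (hPsub hp))
    (fun p hp => h.hf2 (hPsub hp)) hNZ hN1 hZ1 hNX hX1 Bh hB0 hQ3 hjB
    (1 / (4 * Real.log L)) hα (h.rankin P hPsub) (Real.exp t) (Real.exp_pos t).le
    (by
      intro χ hχ hne
      have := hcon (χ₀ * χ) (by rwa [inv_mul_cancel_left]) hne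
      exact this.le)
  have hFin1 : 1 ≤ Fin P (ff s) := one_le_Fin
  have hFin0 : 0 < Fin P (ff s) := by linarith
  -- first error term
  have hsX : Real.exp (21 * L / 40) ≤ Real.sqrt X := by
    apply Real.le_sqrt_of_sq_le
    rw [← Real.exp_nat_mul]
    refine le_trans (le_of_eq ?_) hX1'
    congr 1; push_cast; ring
  have hsX0 : 0 < Real.sqrt X := lt_of_lt_of_le (Real.exp_pos _) hsX
  have herr1 : (2 : ℝ) ^ Q.card * (3 * Approx.B q / Real.sqrt X) ≤ 1 := by
    have h1 : (2 : ℝ) ^ Q.card ≤ Real.exp ((65 / 2) * t ^ 2) := by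
      refine le_trans ?_ hBρ
      exact_mod_cast hQ2
    have h2 : Approx.B q = Real.exp (L / 2) * (1 + L) := by
      unfold Approx.B
      rw [← hL, ← hqL, Real.exp_half]
    have h3 : Approx.B q / Real.sqrt X ≤ Real.exp (L / 2) * (1 + L) / Real.exp (21 * L / 40) := by
      rw [h2]
      apply div_le_div_of_nonneg_left (by positivity) (Real.exp_pos _) hsX
    have h4 : Real.exp (L / 2) * (1 + L) / Real.exp (21 * L / 40) = (1 + L) * Real.exp (-(L / 40)) := by
      rw [div_eq_mul_inv, ← Real.exp_neg]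
      calc Real.exp (L / 2) * (1 + L) * Real.exp (-(21 * L / 40))
          = (1 + L) * (Real.exp (L / 2) * Real.exp (-(21 * L / 40))) := by ring
        _ = _ := by rw [← Real.exp_add]; congr 2; ring
    calc (2 : ℝ) ^ Q.card * (3 * Approx.B q / Real.sqrt X)
        ≤ Real.exp ((65 / 2) * t ^ 2) * (3 * ((1 + L) * Real.exp (-(L / 40)))) := by
          apply mul_le_mul h1 _ _ (Real.exp_pos _).le
          · rw [← h4, mul_div_assoc]; linarith
          · have := Approx.B_nonneg (q := q); positivity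
      _ = 3 * (1 + L) * (Real.exp ((65 / 2) * t ^ 2) * Real.exp (-(L / 40))) := by ring
      _ = 3 * (1 + L) * Real.exp ((65 / 2) * t ^ 2 - L / 40) := by
          rw [← Real.exp_add]; congr 2
      _ ≤ 3 * (1 + L) * Real.exp (-(L / 50)) := by
          apply mul_le_mul_of_nonneg_left _ (by linarith)
          apply Real.exp_le_exp.2
          nlinarith
      _ ≤ 1 := h.e3
  -- second error term
  have hq0 : (0 : ℝ) < q := by exact_mod_cast hq.out.pos
  have hsZ : Real.exp (L / 8) / 2 ≤ Real.sqrt Z := by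
    apply Real.le_sqrt_of_sq_le
    have h1 := Nat.sub_one_lt_floor (Real.exp (L / 4))
    have h2 : (Real.exp (L / 8) / 2) ^ 2 = Real.exp (L / 4) / 4 := by
      rw [div_pow, ← Real.exp_nat_mul]; norm_num; ring_nf
    rw [h2]
    have h3 : 2 ≤ Real.exp (L / 4) := by
      have := Real.add_one_le_exp (L / 4)
      linarith
    linarith
  have hXq : ((X / q + 1 : ℕ) : ℝ) ≤ 3 * Real.exp (L / 20) := by
    have h1 : ((X / q : ℕ) : ℝ) ≤ (X : ℝ) / q := Nat.cast_div_le
    have h2 : (X : ℝ) / q ≤ Real.exp (L / 20) + 1 := by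
      rw [div_le_iff₀ hq0, ← hqL, add_mul, ← Real.exp_add, one_mul]
      have h3 : L / 20 + L = 21 * L / 20 := by ring
      rw [h3]
      have h4 : 1 ≤ Real.exp L := Real.one_le_exp hLpos.le
      linarith
    have h5 : 1 ≤ Real.exp (L / 20) := Real.one_le_exp (by positivity)
    push_cast
    linarith
  have herr2 : 1 / Real.sqrt Z * (N * Fin P (ff s) * (Nat.card (Class.K H) * (X / q + 1 : ℕ) : ℕ))
      ≤ Fin P (ff s) := by
    have h1 : 1 / Real.sqrt Z ≤ 2 * Real.exp (-(L / 8)) := by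
      rw [div_le_iff₀ (lt_of_lt_of_le (by positivity) hsZ)]
      calc (1 : ℝ) = 2 * Real.exp (-(L / 8)) * (Real.exp (L / 8) / 2) := by
            rw [Real.exp_neg]; field_simp
        _ ≤ _ := by
            apply mul_le_mul_of_nonneg_left hsZ (by positivity)
    have h2 : ((Nat.card (Class.K H) * (X / q + 1 : ℕ) : ℕ) : ℝ)
        ≤ Real.exp t * (3 * Real.exp (L / 20)) := by
      push_cast
      apply mul_le_mul hjH _ (by positivity) (Real.exp_pos _).le
      have := hXq; push_cast at this; exact this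
    calc 1 / Real.sqrt Z * (N * Fin P (ff s) * (Nat.card (Class.K H) * (X / q + 1 : ℕ) : ℕ))
        ≤ (2 * Real.exp (-(L / 8))) * (Real.exp (L / 50) * Fin P (ff s) *
            (Real.exp t * (3 * Real.exp (L / 20)))) := by
          gcongr
      _ = Fin P (ff s) * (6 * Real.exp (-(L / 8) + L / 50 + t + L / 20)) := by
          rw [Real.exp_add, Real.exp_add, Real.exp_add]; ring
      _ ≤ Fin P (ff s) * 1 := by
          apply mul_le_mul_of_nonneg_left _ hFin0.le
          have h3 : Real.exp (-(L / 8) + L / 50 + t + L / 20) ≤ Real.exp (-(L / 20)) := by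
            apply Real.exp_le_exp.2
            linarith
          have h4 := h.e4
          have h5 := Real.exp_pos (-(L / 20))
          linarith
      _ = _ := mul_one _
  -- third error term
  have hHcard : Real.exp (L - t) / 2 ≤ (Nat.card H : ℝ) := by
    have h1 := Dual.card_K_mul H
    rw [← hj] at h1
    have h2 : (j : ℝ) * Nat.card H = q - 1 := by
      have : ((j * Nat.card H : ℕ) : ℝ) = ((q - 1 : ℕ) : ℝ) := by rw [h1]
      rw [Nat.cast_mul, Nat.cast_sub hq.out.one_lt.le] at this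
      simpa using this
    have h3 : (2 : ℝ) ≤ q := by exact_mod_cast hq.out.two_le
    have h4 : (q : ℝ) / 2 ≤ Real.exp t * Nat.card H := by
      calc (q : ℝ) / 2 ≤ q - 1 := by linarith
        _ = (j : ℝ) * Nat.card H := h2.symm
        _ ≤ _ := mul_le_mul_of_nonneg_right hjH (by positivity)
    rw [Real.exp_sub, hqL, div_div, div_le_iff₀ (by positivity)]
    linarith
  have hHcard0 : 0 < (Nat.card H : ℝ) := lt_of_lt_of_le (by positivity) hHcard
  have hsX2 : Real.sqrt X ≤ (3 / 2) * Real.exp (21 * L / 40) := by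
    rw [show (3 / 2) * Real.exp (21 * L / 40) = Real.sqrt (((3 / 2) * Real.exp (21 * L / 40)) ^ 2) from
      (Real.sqrt_sq (by positivity)).symm]
    apply Real.sqrt_le_sqrt
    rw [mul_pow, ← Real.exp_nat_mul]
    have h1 : ((2 : ℕ) : ℝ) * (21 * L / 40) = 21 * L / 20 := by push_cast; ring
    rw [h1]
    have h2 : 1 ≤ Real.exp (21 * L / 20) := Real.one_le_exp (by positivity)
    linarith
  have herr3 : 2 * Real.sqrt X * (N * Fin P (ff s)) / Nat.card H ≤ Fin P (ff s) := by
    rw [div_le_iff₀ hHcard0]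
    calc 2 * Real.sqrt X * (N * Fin P (ff s))
        ≤ 2 * ((3 / 2) * Real.exp (21 * L / 40)) * (Real.exp (L / 50) * Fin P (ff s)) := by
          gcongr
      _ = Fin P (ff s) * (3 * Real.exp (21 * L / 40 + L / 50)) := by
          rw [Real.exp_add]; ring
      _ ≤ Fin P (ff s) * (Real.exp (L - t) / 2) := by
          apply mul_le_mul_of_nonneg_left _ hFin0.le
          have h3 : Real.exp (L - t) ≥ Real.exp (21 * L / 40 + L / 50 + L / 20) :=
            Real.exp_le_exp.2 (by linarith)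
          rw [Real.exp_add] at h3
          have h4 : 6 ≤ Real.exp (L / 20) := by
            have := h.e4
            rw [Real.exp_neg, ← div_eq_mul_inv, div_le_one (Real.exp_pos _)] at this
            linarith
          have h5 := Real.exp_pos (21 * L / 40 + L / 50)
          nlinarith
      _ ≤ Fin P (ff s) * Nat.card H := mul_le_mul_of_nonneg_left hHcard hFin0.le
  -- the product over Q
  have hprod : ∏ p ∈ Q, (1 + (p : ℝ) ^ (-(1 / 2) : ℝ)) ≤ Real.exp (21 * t) := by
    refine (Sums.prod_one_add_le Q hQ1).trans ?_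
    apply Real.exp_le_exp.2
    have h1 : Real.sqrt Q.card ≤ 7 * t := by
      rw [show 7 * t = Real.sqrt ((7 * t) ^ 2) from (Real.sqrt_sq (by linarith)).symm]
      apply Real.sqrt_le_sqrt
      rw [mul_pow]; norm_num; linarith
    linarith
  have hMain := h.main_ge P hPsub (h.sum_ge Q hQcard)
  have hVprod : Real.exp t * ∏ p ∈ Q, (1 + (p : ℝ) ^ (-(1 / 2) : ℝ)) ≤ Real.exp (22 * t) := by
    calc Real.exp t * ∏ p ∈ Q, (1 + (p : ℝ) ^ (-(1 / 2) : ℝ)) ≤ Real.exp t * Real.exp (21 * t) :=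
          mul_le_mul_of_nonneg_left hprod (Real.exp_pos _).le
      _ = _ := by rw [← Real.exp_add]; congr 1; ring
  have hfin1 : (3 / 8) * (Fin P (ff s) * Real.exp (62 * t)) ≤ (9 / 8) * Fin P (ff s) *
      (Real.exp (22 * t) + 1) + Fin P (ff s) + Fin P (ff s) := by
    calc (3 / 8) * (Fin P (ff s) * Real.exp (62 * t)) ≤ (3 / 8) * Main P (ff s) :=
          mul_le_mul_of_nonneg_left hMain (by norm_num)
      _ ≤ _ := hmain
      _ ≤ _ := by
          have h1 : (9 / 8) * Fin P (ff s) * (Real.exp t * ∏ p ∈ Q, (1 + (p : ℝ) ^ (-(1 / 2) : ℝ))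
              + 2 ^ Q.card * (3 * Approx.B q / Real.sqrt X))
              ≤ (9 / 8) * Fin P (ff s) * (Real.exp (22 * t) + 1) :=
            mul_le_mul_of_nonneg_left (add_le_add hVprod herr1) (by positivity)
          linarith
  have h40 : (41 : ℝ) ≤ Real.exp (40 * t) := by
    have := Real.add_one_le_exp (40 * t); linarith
  have h62 : Real.exp (62 * t) = Real.exp (22 * t) * Real.exp (40 * t) := by
    rw [← Real.exp_add]; congr 1; ring
  have h22 : 1 ≤ Real.exp (22 * t) := Real.one_le_exp (by linarith)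
  rw [h62] at hfin1
  have h63 : Real.exp (22 * t) * 41 ≤ Real.exp (22 * t) * Real.exp (40 * t) :=
    mul_le_mul_of_nonneg_left h40 (by linarith)
  nlinarith

theorem all_cosets : ∃ c : ℝ, 0 < c ∧ ∃ q₀ : ℕ, ∀ (q : ℕ) [Fact q.Prime], q₀ ≤ q →
    ∀ H : Subgroup (DirichletCharacter ℂ q),
      (H.index : ℝ) ≤ Real.exp (c * Real.sqrt (Real.log q / Real.log (Real.log q))) →
      ∀ χ₀ : DirichletCharacter ℂ q, ∃ χ : DirichletCharacter ℂ q, χ₀⁻¹ * χ ∈ H ∧ χ ≠ 1 ∧
        Real.exp (c * Real.sqrt (Real.log q / Real.log (Real.log q)))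
          ≤ ‖χ.LFunction (1 / 2)‖ := by
  refine ⟨1 / 10 ^ 6, by norm_num, ?_⟩
  have h1 : ∀ᶠ n : ℕ in atTop, Cond (Real.log n) (Real.sqrt (Real.log n / Real.log (Real.log n)))
      (Real.sqrt (Real.log n / Real.log (Real.log n)) / 10 ^ 6) :=
    (Real.tendsto_log_atTop.comp tendsto_natCast_atTop_atTop).eventually cond_eventually
  obtain ⟨q₀, hq₀⟩ := eventually_atTop.1 h1
  refine ⟨q₀, ?_⟩
  intro q hq hqq H hH χ₀
  have hc := hq₀ q hqq
  have e : 1 / 10 ^ 6 * Real.sqrt (Real.log q / Real.log (Real.log q))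
      = Real.sqrt (Real.log q / Real.log (Real.log q)) / 10 ^ 6 := by ring
  rw [e] at hH ⊢
  exact all_cosets_aux _ _ _ rfl hc H hH χ₀

end Pool.Agent.H.MP_3e6494_nt.Final2
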