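import Mathlib
import Pool.Agent.H.MP_3e6494_nt.helper50.T3Cnt
import Pool.Agent.H.MP_3e6494_nt.helper50.LocalProd

/-!
Counting lemmas: ordered factorizations, rough integers in cosets, iterated squaring, tails.
-/

open Finset

set_option linter.unusedSectionVars false

namespace Pool.Agent.H.MP_3e6494_nt.T6Cnt

open Pool.Agent.H.MP_3e6494_nt.T3Cnt

open scoped ArithmeticFunction.Omega ArithmeticFunction.omega

/-- the rank argument -/
theorem sum_le_of_count (A : Finset ℕ) (φ : ℕ → ℝ) (hφ : ∀ m ∈ A, 0 < φ m) (κ : ℝ) (hκ : 0 ≤ κ)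
    (h : ∀ m ∈ A, ((A.filter (fun x => x ≤ m)).card : ℝ) ≤ κ * φ m) :
    ∑ m ∈ A, 1 / φ m ≤ κ * (1 + Real.log A.card) := by
  set ρ : ℕ → ℕ := fun m => (A.filter (fun x => x ≤ m)).card with hρ
  have hinj : Set.InjOn ρ A := by
    have key : ∀ m ∈ A, ∀ n ∈ A, m < n → ρ m < ρ n := by
      intro m hm n hn hmn
      apply Finset.card_lt_card
      rw [Finset.ssubset_iff_of_subset]
      · refine ⟨n, Finset.mem_filter.2 ⟨hn, le_rfl⟩, ?_⟩
        intro hc
        exact absurd (Finset.mem_filter.1 hc).2 (not_le.2 hmn)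
      · intro x hx
        rw [Finset.mem_filter] at hx ⊢
        exact ⟨hx.1, hx.2.trans hmn.le⟩
    intro m hm n hn hmn
    rcases lt_trichotomy m n with h1 | h1 | h1
    · exact absurd hmn (key m hm n hn h1).ne
    · exact h1
    · exact absurd hmn (key n hn m hm h1).ne'
  have hpos : ∀ m ∈ A, 1 ≤ ρ m := by
    intro m hm
    exact Finset.card_pos.2 ⟨m, Finset.mem_filter.2 ⟨hm, le_rfl⟩⟩
  have hle : ∀ m ∈ A, ρ m ≤ A.card := fun m _ => Finset.card_le_card (Finset.filter_subset _ _)
  calc ∑ m ∈ A, 1 / φ m ≤ ∑ m ∈ A, κ * (1 / (ρ m : ℝ)) := by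
        apply Finset.sum_le_sum
        intro m hm
        have h2 : (0 : ℝ) < ρ m := by exact_mod_cast hpos m hm
        have h3 := h m hm
        rw [mul_one_div, div_le_div_iff₀ (hφ m hm) h2, one_mul]
        exact h3
    _ = κ * ∑ i ∈ A.image ρ, 1 / (i : ℝ) := by
        rw [← Finset.mul_sum, Finset.sum_image hinj]
    _ ≤ κ * ∑ i ∈ Finset.Icc 1 A.card, 1 / (i : ℝ) := by
        apply mul_le_mul_of_nonneg_left _ hκ
        apply Finset.sum_le_sum_of_subset_of_nonneg
        · intro i hi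
          rw [Finset.mem_image] at hi
          obtain ⟨m, hm, rfl⟩ := hi
          exact Finset.mem_Icc.2 ⟨hpos m hm, hle m hm⟩
        · intro i _ _; positivity
    _ ≤ κ * (1 + Real.log A.card) := by
        apply mul_le_mul_of_nonneg_left _ hκ
        have h1 := harmonic_le_one_add_log A.card
        have h2 : ((harmonic A.card : ℚ) : ℝ) = ∑ i ∈ Finset.Icc 1 A.card, 1 / (i : ℝ) := by
          rw [harmonic_eq_sum_Icc]
          push_cast
          apply Finset.sum_congr rfl; intro i _; rw [one_div]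
        rw [← h2]; exact h1

lemma harmonic_le (n : ℕ) : ∑ i ∈ Finset.Icc 1 n, 1 / (i : ℝ) ≤ 1 + Real.log n := by
  have h1 := harmonic_le_one_add_log n
  have h2 : ((harmonic n : ℚ) : ℝ) = ∑ i ∈ Finset.Icc 1 n, 1 / (i : ℝ) := by
    rw [harmonic_eq_sum_Icc]
    push_cast
    apply Finset.sum_congr rfl; intro i _; rw [one_div]
  rw [← h2]; exact h1

/-! ### ordered factorizations -/

theorem card_fMA_le (s : ℕ) (n : ℕ) (hn : n ≠ 0) :
    (Nat.finMulAntidiag s n).card ≤ s ^ (Ω n) := by
  classical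
  induction n using induction_on_primes with
  | zero => exact absurd rfl hn
  | one => simp [Nat.finMulAntidiag_one]
  | prime_mul p a hp ih =>
    have ha : a ≠ 0 := fun h => hn (by rw [h, mul_zero])
    have h1 : Ω (p * a) = Ω a + 1 := by
      rw [ArithmeticFunction.cardFactors_mul hp.ne_zero ha,
        ArithmeticFunction.cardFactors_apply_prime hp, add_comm]
    rw [h1, pow_succ]
    have hsub : Nat.finMulAntidiag s (p * a) ⊆ (Finset.univ : Finset (Fin s)).biUnion
        (fun i => (Nat.finMulAntidiag s a).image (fun v => Function.update v i (p * v i))) := by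
      intro v hv
      rw [Nat.mem_finMulAntidiag] at hv
      have h2 : p ∣ ∏ i, v i := by rw [hv.1]; exact Dvd.intro _ rfl
      obtain ⟨i, _, hi⟩ := (Prime.dvd_finsetProd_iff hp.prime _).1 h2
      obtain ⟨c, hc⟩ := hi
      rw [Finset.mem_biUnion]
      refine ⟨i, Finset.mem_univ _, ?_⟩
      rw [Finset.mem_image]
      refine ⟨Function.update v i c, ?_, ?_⟩
      · rw [Nat.mem_finMulAntidiag]
        refine ⟨?_, ha⟩
        have h3 : ∏ j, v j = v i * ∏ j ∈ Finset.univ.erase i, v j :=
          (Finset.mul_prod_erase _ _ (Finset.mem_univ i)).symm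
        have h4 : ∏ j, Function.update v i c j = c * ∏ j ∈ Finset.univ.erase i, v j := by
          rw [← Finset.mul_prod_erase _ _ (Finset.mem_univ i), Function.update_self]
          congr 1
          apply Finset.prod_congr rfl
          intro j hj
          rw [Function.update_of_ne (Finset.ne_of_mem_erase hj)]
        rw [h4]
        apply Nat.eq_of_mul_eq_mul_left hp.pos
        rw [← hv.1, h3, hc]; ring
      · rw [Function.update_self, Function.update_idem, ← hc, Function.update_eq_self]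
    refine (Finset.card_le_card hsub).trans ?_
    refine (Finset.card_biUnion_le_card_mul _ _ (s ^ Ω a) ?_).trans ?_
    · intro i _
      exact Finset.card_image_le.trans (ih ha)
    · rw [Finset.card_univ, Fintype.card_fin, mul_comm]

theorem pow_omega_le_card (t : ℕ) (ht : 0 < t) (k : ℕ) (hk : k ≠ 0) :
    t ^ (k.primeFactors.card) ≤ (Nat.finMulAntidiag t k).card := by
  classical
  set r := ∏ p ∈ k.primeFactors, p with hr
  have hrsq : Squarefree r :=
    LocalProd.pr_squarefree (P := k.primeFactors) (fun p hp => Nat.prime_of_mem_primeFactors hp)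
      (S := k.primeFactors) (Finset.Subset.refl _)
  have hrk : r ∣ k := Nat.prod_primeFactors_dvd k
  have hr0 : r ≠ 0 := hrsq.ne_zero
  have hpf : r.primeFactors = k.primeFactors :=
    Nat.primeFactors_prod (fun p hp => Nat.prime_of_mem_primeFactors hp)
  have hω : ω r = k.primeFactors.card := by
    rw [ArithmeticFunction.cardDistinctFactors_apply, ← hpf, Nat.primeFactors, List.card_toFinset]
  rw [← hω, ← Nat.card_finMulAntidiag_of_squarefree hrsq]
  obtain ⟨c, hc⟩ := hrk
  have hc0 : 0 < c := by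
    rcases Nat.eq_zero_or_pos c with h | h
    · rw [h, mul_zero] at hc; exact absurd hc hk
    · exact h
  let i0 : Fin t := ⟨0, ht⟩
  apply Finset.card_le_card_of_injOn (fun v => Function.update v i0 (v i0 * c))
  · intro v hv
    rw [Finset.mem_coe, Nat.mem_finMulAntidiag] at hv ⊢
    refine ⟨?_, hk⟩
    have h3 : ∏ j, v j = v i0 * ∏ j ∈ Finset.univ.erase i0, v j :=
      (Finset.mul_prod_erase _ _ (Finset.mem_univ i0)).symm
    have h4 : ∏ j, Function.update v i0 (v i0 * c) j
        = (v i0 * c) * ∏ j ∈ Finset.univ.erase i0, v j := by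
      rw [← Finset.mul_prod_erase _ _ (Finset.mem_univ i0), Function.update_self]
      congr 1
      apply Finset.prod_congr rfl
      intro j hj
      rw [Function.update_of_ne (Finset.ne_of_mem_erase hj)]
    rw [h4, hc, ← hv.1, h3]; ring
  · intro v hv w hw h
    simp only at h
    funext j
    by_cases hj : j = i0
    · rw [hj]
      have h5 := congrFun h i0
      rw [Function.update_self, Function.update_self] at h5
      exact Nat.eq_of_mul_eq_mul_right hc0 h5
    · have h5 := congrFun h j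
      rw [Function.update_of_ne hj, Function.update_of_ne hj] at h5
      exact h5

/-- weighted sum over integers with many prime factors -/
theorem sum_pow_omega_le (t Z : ℕ) (ht : 0 < t) :
    ∑ k ∈ Finset.Icc 1 Z, (t : ℝ) ^ (k.primeFactors.card) * (1 / (k : ℝ))
      ≤ (∑ k ∈ Finset.Icc 1 Z, 1 / (k : ℝ)) ^ t := by
  classical
  have h1 : (∑ k ∈ Finset.Icc 1 Z, 1 / (k : ℝ)) ^ t
      = ∑ v ∈ Fintype.piFinset (fun _ : Fin t => Finset.Icc 1 Z), ∏ i, 1 / (v i : ℝ) := by
    rw [← Finset.prod_univ_sum (fun _ : Fin t => Finset.Icc 1 Z) (fun _ k => 1 / (k : ℝ)),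
      Finset.prod_const, Finset.card_univ, Fintype.card_fin]
  rw [h1]
  have h2 : ∀ k ∈ Finset.Icc 1 Z, (t : ℝ) ^ (k.primeFactors.card) * (1 / (k : ℝ))
      ≤ ∑ v ∈ (Fintype.piFinset (fun _ : Fin t => Finset.Icc 1 Z)).filter (fun v => ∏ i, v i = k),
          ∏ i, 1 / (v i : ℝ) := by
    intro k hk
    rw [Finset.mem_Icc] at hk
    have hk0 : k ≠ 0 := by omega
    have h3 : ∀ v ∈ (Fintype.piFinset (fun _ : Fin t => Finset.Icc 1 Z)).filter
        (fun v => ∏ i, v i = k), ∏ i, 1 / (v i : ℝ) = 1 / (k : ℝ) := by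
      intro v hv
      rw [Finset.mem_filter] at hv
      rw [Finset.prod_div_distrib, Finset.prod_const_one, ← hv.2]
      push_cast; rfl
    rw [Finset.sum_congr rfl h3, Finset.sum_const, nsmul_eq_mul]
    apply mul_le_mul_of_nonneg_right _ (by positivity)
    have h4 := pow_omega_le_card t ht k hk0
    have h5 : Nat.finMulAntidiag t k ⊆ (Fintype.piFinset (fun _ : Fin t => Finset.Icc 1 Z)).filter
        (fun v => ∏ i, v i = k) := by
      intro v hv
      rw [Finset.mem_filter, Fintype.mem_piFinset]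
      refine ⟨?_, (Nat.mem_finMulAntidiag.1 hv).1⟩
      intro i
      have h6 := Nat.dvd_of_mem_finMulAntidiag hv i
      rw [Finset.mem_Icc]
      exact ⟨Nat.pos_of_ne_zero (Nat.ne_zero_of_mem_finMulAntidiag hv i),
        (Nat.le_of_dvd (by omega) h6).trans hk.2⟩
    exact_mod_cast h4.trans (Finset.card_le_card h5)
  refine (Finset.sum_le_sum h2).trans ?_
  rw [← Finset.sum_biUnion]
  · apply Finset.sum_le_sum_of_subset_of_nonneg
    · intro v hv
      rw [Finset.mem_biUnion] at hv
      obtain ⟨k, _, hv⟩ := hv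
      exact (Finset.mem_filter.1 hv).1
    · intro v _ _
      exact Finset.prod_nonneg fun i _ => by positivity
  · intro a _ b _ hab
    rw [Function.onFun, Finset.disjoint_left]
    intro v hv hv'
    rw [Finset.mem_filter] at hv hv'
    exact hab (hv.2.symm.trans hv'.2)

theorem sum_many_le (Q : Finset ℕ) (hQ : ∀ p ∈ Q, p.Prime) (t Z w : ℕ) (ht : 0 < t) :
    ∑ k ∈ (Finset.Icc 1 Z).filter (fun k => w < (Q.filter (fun p => p ∣ k)).card), 1 / (k : ℝ)
      ≤ (1 + Real.log Z) ^ t / (t : ℝ) ^ w := by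
  have ht1 : (1 : ℝ) ≤ t := by exact_mod_cast ht
  rw [le_div_iff₀ (by positivity)]
  calc (∑ k ∈ (Finset.Icc 1 Z).filter (fun k => w < (Q.filter (fun p => p ∣ k)).card), 1 / (k : ℝ))
        * (t : ℝ) ^ w
      ≤ ∑ k ∈ (Finset.Icc 1 Z).filter (fun k => w < (Q.filter (fun p => p ∣ k)).card),
          (t : ℝ) ^ (k.primeFactors.card) * (1 / (k : ℝ)) := by
        rw [Finset.sum_mul]
        apply Finset.sum_le_sum
        intro k hk
        rw [Finset.mem_filter, Finset.mem_Icc] at hk
        rw [mul_comm]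
        apply mul_le_mul_of_nonneg_right _ (by positivity)
        apply pow_le_pow_right₀ ht1
        refine hk.2.le.trans ?_
        apply Finset.card_le_card
        intro p hp
        rw [Finset.mem_filter] at hp
        rw [Nat.mem_primeFactors]
        exact ⟨hQ p hp.1, hp.2, by omega⟩
    _ ≤ ∑ k ∈ Finset.Icc 1 Z, (t : ℝ) ^ (k.primeFactors.card) * (1 / (k : ℝ)) := by
        apply Finset.sum_le_sum_of_subset_of_nonneg (Finset.filter_subset _ _)
        intro k _ _; positivity
    _ ≤ (∑ k ∈ Finset.Icc 1 Z, 1 / (k : ℝ)) ^ t := sum_pow_omega_le t Z ht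
    _ ≤ (1 + Real.log Z) ^ t := by
        apply pow_le_pow_left₀
        · apply Finset.sum_nonneg; intro i _; positivity
        · exact harmonic_le Z

/-! ### cosets -/

open Pool.Agent.H.MP_3e6494_nt.Class

variable {q : ℕ} [hq : Fact q.Prime]

open scoped Classical in
lemma card_A_sq (K : Subgroup (ZMod q)ˣ) (u : ℕ → (ZMod q)ˣ)
    (hu : ∀ m : ℕ, m.Coprime q → ((u m : (ZMod q)ˣ) : ZMod q) = (m : ZMod q))
    (c : (ZMod q)ˣ) (Y D : ℕ) (hD : ∀ n ∈ Finset.Icc 1 (Y * Y), (n.divisors).card ≤ D) :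
    (A K u c Y).card * (A K u c Y).card ≤ D * (A K u (c * c) (Y * Y)).card := by
  rw [← Finset.card_product]
  apply Finset.card_le_mul_card_image_of_maps_to (f := fun x : ℕ × ℕ => x.1 * x.2)
  · intro x hx
    rw [Finset.mem_product] at hx
    unfold A at hx ⊢
    rw [Finset.mem_filter, Finset.mem_filter, Finset.mem_Icc, Finset.mem_Icc] at hx
    obtain ⟨⟨⟨a1, a2⟩, a3, a4⟩, ⟨b1, b2⟩, b3, b4⟩ := hx
    rw [Finset.mem_filter, Finset.mem_Icc]
    have hc : (x.1 * x.2).Coprime q := Nat.Coprime.mul_left a3 b3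
    refine ⟨⟨Nat.mul_pos a1 b1, Nat.mul_le_mul a2 b2⟩, hc, ?_⟩
    have e : u (x.1 * x.2) = u x.1 * u x.2 := by
      apply Units.ext
      rw [hu _ hc, Units.val_mul, hu _ a3, hu _ b3]
      push_cast; rfl
    rw [e, show u x.1 * u x.2 * (c * c) = (u x.1 * c) * (u x.2 * c) by
      rw [mul_mul_mul_comm]]
    exact K.mul_mem a4 b4
  · intro n hn
    have hn' : n ∈ Finset.Icc 1 (Y * Y) := by
      unfold A at hn
      exact (Finset.mem_filter.1 hn).1
    refine le_trans ?_ (hD n hn')
    apply Finset.card_le_card_of_injOn (fun x : ℕ × ℕ => x.1)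
    · intro x hx
      rw [Finset.mem_coe, Finset.mem_filter] at hx
      rw [Finset.mem_coe, Nat.mem_divisors]
      refine ⟨⟨x.2, hx.2.symm⟩, ?_⟩
      have := (Finset.mem_Icc.1 hn').1
      omega
    · intro x hx y hy hxy
      rw [Finset.mem_coe, Finset.mem_filter] at hx hy
      simp only at hxy
      have h2 : x.1 * x.2 = x.1 * y.2 := by rw [hx.2, hxy, hy.2]
      have h3 : 0 < x.1 := by
        rcases Nat.eq_zero_or_pos x.1 with h | h
        · have h4 := hx.2
          rw [h, zero_mul] at h4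
          have := (Finset.mem_Icc.1 hn').1
          omega
        · exact h
      exact Prod.ext hxy (Nat.eq_of_mul_eq_mul_left h3 h2)

/-- iterated squaring -/
theorem card_A_pow_le (K : Subgroup (ZMod q)ˣ) (u : ℕ → (ZMod q)ˣ)
    (hu : ∀ m : ℕ, m.Coprime q → ((u m : (ZMod q)ˣ) : ZMod q) = (m : ZMod q)) (D : ℕ) (hD1 : 1 ≤ D)
    (i : ℕ) : ∀ (c : (ZMod q)ˣ) (Y : ℕ),
      (∀ n ∈ Finset.Icc 1 (Y ^ (2 ^ i)), (n.divisors).card ≤ D) →
      (A K u c Y).card ^ (2 ^ i) ≤ D ^ (2 ^ i) * (Nat.card K * (Y ^ (2 ^ i) / q + 1)) := by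
  induction i with
  | zero =>
    intro c Y _
    rw [pow_zero, pow_one, pow_one, pow_one]
    have := card_A_le K u hu c Y
    calc (A K u c Y).card ≤ 1 * (Nat.card K * (Y / q + 1)) := by rw [one_mul]; exact this
      _ ≤ _ := Nat.mul_le_mul_right _ hD1
  | succ i ih =>
    intro c Y hD
    rcases Nat.eq_zero_or_pos Y with hY | hY
    · have : (A K u c Y).card = 0 := by
        unfold A
        rw [hY]; simp
      rw [this, zero_pow (by positivity)]
      exact Nat.zero_le _
    have e1 : (Y * Y) ^ (2 ^ i) = Y ^ (2 ^ (i + 1)) := by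
      rw [pow_succ 2 i, mul_comm (2 ^ i) 2, pow_mul, sq]
    have h1 := card_A_sq K u hu c Y D (by
      intro n hn
      apply hD n
      rw [Finset.mem_Icc] at hn ⊢
      refine ⟨hn.1, hn.2.trans ?_⟩
      rw [← e1]
      exact Nat.le_self_pow (by positivity) _)
    have h2 := ih (c * c) (Y * Y) (by rw [e1]; exact hD)
    rw [e1] at h2
    have e2 : (A K u c Y).card ^ (2 ^ (i + 1)) = ((A K u c Y).card * (A K u c Y).card) ^ (2 ^ i) := by
      rw [pow_succ 2 i, mul_comm (2 ^ i) 2, pow_mul, sq]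
    rw [e2]
    calc ((A K u c Y).card * (A K u c Y).card) ^ (2 ^ i)
        ≤ (D * (A K u (c * c) (Y * Y)).card) ^ (2 ^ i) := Nat.pow_le_pow_left h1 _
      _ = D ^ (2 ^ i) * (A K u (c * c) (Y * Y)).card ^ (2 ^ i) := by rw [mul_pow]
      _ ≤ D ^ (2 ^ i) * (D ^ (2 ^ i) * (Nat.card K * (Y ^ (2 ^ (i + 1)) / q + 1))) :=
          Nat.mul_le_mul_left _ h2
      _ = _ := by
          rw [← mul_assoc, ← pow_add]
          congr 2
          rw [pow_succ]; ring

open scoped Classical in
/-- the tail sum over a coset -/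
theorem tail1 (K : Subgroup (ZMod q)ˣ) (u : ℕ → (ZMod q)ˣ)
    (c : (ZMod q)ˣ) (Z X : ℕ) (κ : ℝ) (hκ : 0 ≤ κ)
    (h : ∀ Y : ℕ, Z < Y → Y ≤ X → ((A K u c Y).card : ℝ) ≤ κ * Y) :
    ∑ m ∈ (Finset.Ioc Z X).filter (fun m => m.Coprime q ∧ u m * c ∈ K), 1 / (m : ℝ)
      ≤ κ * (1 + Real.log X) := by
  set S := (Finset.Ioc Z X).filter (fun m => m.Coprime q ∧ u m * c ∈ K) with hS
  have h1 := sum_le_of_count S (fun m => (m : ℝ)) (by
    intro m hm
    rw [hS, Finset.mem_filter, Finset.mem_Ioc] at hm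
    have : 0 < m := by omega
    exact_mod_cast this) κ hκ (by
    intro m hm
    rw [hS, Finset.mem_filter, Finset.mem_Ioc] at hm
    refine le_trans ?_ (h m hm.1.1 hm.1.2)
    have : (S.filter (fun x => x ≤ m)).card ≤ (A K u c m).card := by
      apply Finset.card_le_card
      intro x hx
      rw [Finset.mem_filter, hS, Finset.mem_filter, Finset.mem_Ioc] at hx
      unfold A
      rw [Finset.mem_filter, Finset.mem_Icc]
      exact ⟨⟨by omega, hx.2⟩, hx.1.2⟩
    exact_mod_cast this)
  refine h1.trans (mul_le_mul_of_nonneg_left ?_ hκ)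
  have h2 : S.card ≤ X := by
    calc S.card ≤ (Finset.Ioc Z X).card := Finset.card_le_card (Finset.filter_subset _ _)
      _ = X - Z := Nat.card_Ioc _ _
      _ ≤ X := Nat.sub_le _ _
  rcases Nat.eq_zero_or_pos S.card with h3 | h3
  · rw [h3]; simp only [Nat.cast_zero, Real.log_zero, add_zero]
    linarith [Real.log_natCast_nonneg X]
  · have h4 : Real.log S.card ≤ Real.log X :=
      Real.log_le_log (by exact_mod_cast h3) (by exact_mod_cast h2)
    linarith

open scoped Classical in
/-- the integers up to `Y` in a coset of `K` without prime factors from `Q` -/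
noncomputable def Ar (K : Subgroup (ZMod q)ˣ) (u : ℕ → (ZMod q)ˣ) (Q : Finset ℕ) (c : (ZMod q)ˣ)
    (Y : ℕ) : Finset ℕ :=
  (Finset.Icc 1 Y).filter (fun m => m.Coprime q ∧ (∀ p ∈ Q, ¬ p ∣ m) ∧ u m * c ∈ K)

lemma pow_Omega_le (y : ℕ) (n : ℕ) (hn : n ≠ 0) (h : ∀ p : ℕ, p.Prime → p ∣ n → y ≤ p) :
    y ^ (Ω n) ≤ n := by
  rw [ArithmeticFunction.cardFactors_apply]
  have h1 : y ^ n.primeFactorsList.length ≤ n.primeFactorsList.prod := by
    apply List.pow_card_le_prod
    intro p hp
    exact h p (Nat.prime_of_mem_primeFactorsList hp) (Nat.dvd_of_mem_primeFactorsList hp)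
  rwa [Nat.prod_primeFactorsList hn] at h1

open scoped Classical in
/-- powers of the rough counting function -/
theorem card_Ar_pow_le (K : Subgroup (ZMod q)ˣ) (u : ℕ → (ZMod q)ˣ)
    (hu : ∀ m : ℕ, m.Coprime q → ((u m : (ZMod q)ˣ) : ZMod q) = (m : ZMod q))
    (Q : Finset ℕ) (hQ : ∀ p ∈ Q, p.Prime) (c : (ZMod q)ˣ) (Y s M : ℕ) (hYs : Y ^ s ≤ q)
    (hM : ∀ n : ℕ, n ≠ 0 → n ≤ q → (∀ p ∈ Q, ¬ p ∣ n) → s ^ (Ω n) ≤ M) :
    (Ar K u Q c Y).card ^ s ≤ M * Nat.card K := by
  set V := Fintype.piFinset (fun _ : Fin s => Ar K u Q c Y) with hV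
  have hVc : V.card = (Ar K u Q c Y).card ^ s := by
    rw [hV, Fintype.card_piFinset, Finset.prod_const, Finset.card_univ, Fintype.card_fin]
  rw [← hVc]
  have hmem : ∀ m ∈ Ar K u Q c Y, (1 ≤ m ∧ m ≤ Y) ∧ m.Coprime q ∧ (∀ p ∈ Q, ¬ p ∣ m) ∧
      u m * c ∈ K := by
    intro m hm
    unfold Ar at hm
    rw [Finset.mem_filter, Finset.mem_Icc] at hm
    exact hm
  have huprod : ∀ (T : Finset (Fin s)) (v : Fin s → ℕ), (∀ i, v i ∈ Ar K u Q c Y) →
      (∏ i ∈ T, v i).Coprime q ∧ u (∏ i ∈ T, v i) * c ^ T.card ∈ K := by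
    intro T v hv
    induction T using Finset.induction_on with
    | empty =>
      rw [Finset.prod_empty, Finset.card_empty, pow_zero, mul_one]
      refine ⟨Nat.coprime_one_left q, ?_⟩
      have : u 1 = 1 := by
        apply Units.ext
        rw [hu 1 (Nat.coprime_one_left q)]; simp
      rw [this]; exact K.one_mem
    | insert a T ha ih =>
      have h1 := hmem _ (hv a)
      rw [Finset.prod_insert ha, Finset.card_insert_of_notMem ha, pow_succ]
      have hc : (v a * ∏ i ∈ T, v i).Coprime q := Nat.Coprime.mul_left h1.2.1 ih.1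
      refine ⟨hc, ?_⟩
      have e : u (v a * ∏ i ∈ T, v i) = u (v a) * u (∏ i ∈ T, v i) := by
        apply Units.ext
        rw [hu _ hc, Units.val_mul, hu _ h1.2.1, hu _ ih.1]
        push_cast; rfl
      rw [e, mul_comm (c ^ T.card) c, mul_mul_mul_comm]
      exact K.mul_mem h1.2.2.2 ih.2
  have h1 : V.card ≤ M * ((A K u (c ^ s) (q - 1)).card) := by
    apply Finset.card_le_mul_card_image_of_maps_to (f := fun v : Fin s → ℕ => ∏ i, v i)
    · intro v hv
      rw [hV, Fintype.mem_piFinset] at hv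
      have h2 := huprod Finset.univ v hv
      rw [Finset.card_univ, Fintype.card_fin] at h2
      unfold A
      rw [Finset.mem_filter, Finset.mem_Icc]
      refine ⟨⟨?_, ?_⟩, h2⟩
      · apply Nat.succ_le_of_lt
        apply Finset.prod_pos
        intro i _
        exact Nat.lt_of_succ_le (hmem _ (hv i)).1.1
      · have h3 : ∏ i, v i ≤ q := by
          refine le_trans ?_ hYs
          calc ∏ i, v i ≤ ∏ _i : Fin s, Y := Finset.prod_le_prod' fun i _ => (hmem _ (hv i)).1.2
            _ = Y ^ s := by rw [Finset.prod_const, Finset.card_univ, Fintype.card_fin]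
        have h4 : ∏ i, v i ≠ q := by
          intro h
          have h5 := h2.1
          rw [h, Nat.coprime_self] at h5
          exact hq.out.one_lt.ne' h5
        omega
    · intro n hn
      rcases (V.filter (fun v => ∏ i, v i = n)).eq_empty_or_nonempty with he | ⟨v0, hv0⟩
      · rw [he]; simp
      rw [Finset.mem_filter, hV, Fintype.mem_piFinset] at hv0
      unfold A at hn
      rw [Finset.mem_filter, Finset.mem_Icc] at hn
      have hn0 : n ≠ 0 := by omega
      have h2 : (V.filter (fun v => ∏ i, v i = n)).card ≤ (Nat.finMulAntidiag s n).card := by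
        apply Finset.card_le_card
        intro v hv
        rw [Finset.mem_filter] at hv
        rw [Nat.mem_finMulAntidiag]
        exact ⟨hv.2, hn0⟩
      refine h2.trans ((card_fMA_le s n hn0).trans (hM n hn0 (by omega) ?_))
      intro p hp hpn
      rw [← hv0.2] at hpn
      obtain ⟨i, _, hi⟩ := (Prime.dvd_finsetProd_iff (hQ p hp).prime _).1 hpn
      exact (hmem _ (hv0.1 i)).2.2.1 p hp hi
  refine h1.trans (Nat.mul_le_mul_left _ ?_)
  refine (card_A_le K u hu _ _).trans (le_of_eq ?_)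
  have : (q - 1) / q = 0 := Nat.div_eq_of_lt (by have := hq.out.pos; omega)
  rw [this, zero_add, mul_one]

end Pool.Agent.H.MP_3e6494_nt.T6Cnt
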