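import Mathlib
import Pool.Agent.H.MP_3e6494_nt.helper50.Sums

/-!
The conditions on `L = log q`.
-/

open Filter Topology

namespace Pool.Agent.H.MP_3e6494_nt.T6Cond

lemma ev_poly (C : ℝ) (k : ℕ) (δ : ℝ) (hδ : 0 < δ) : ∀ᶠ L : ℝ in atTop,
    C * (1 + L) ^ k ≤ Real.exp (δ * L) := by
  have h1 := (isLittleO_pow_exp_pos_mul_atTop k hδ).bound
      (show (0 : ℝ) < 1 / ((|C| + 1) * 2 ^ k) by positivity)
  filter_upwards [h1, eventually_ge_atTop (1 : ℝ)] with L hL hL1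
  rw [Real.norm_of_nonneg (Real.exp_pos _).le, Real.norm_of_nonneg (by positivity)] at hL
  calc C * (1 + L) ^ k ≤ (|C| + 1) * (1 + L) ^ k := by
        apply mul_le_mul_of_nonneg_right _ (by positivity)
        linarith [le_abs_self C]
    _ ≤ (|C| + 1) * (2 * L) ^ k := by gcongr; linarith
    _ = ((|C| + 1) * 2 ^ k) * L ^ k := by rw [mul_pow]; ring
    _ ≤ ((|C| + 1) * 2 ^ k) * (1 / ((|C| + 1) * 2 ^ k) * Real.exp (δ * L)) := by gcongr
    _ = Real.exp (δ * L) := by field_simp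

lemma ev_log (δ : ℝ) (hδ : 0 < δ) : ∀ᶠ L : ℝ in atTop, Real.log (1 + L) ≤ δ * L ^ (1 / 4 : ℝ) := by
  have h1 := (isLittleO_log_rpow_atTop (show (0 : ℝ) < 1 / 4 by norm_num)).bound
      (show (0 : ℝ) < δ / 2 by positivity)
  have h2 : Tendsto (fun L : ℝ => L ^ (1 / 4 : ℝ)) atTop atTop := tendsto_rpow_atTop (by norm_num)
  filter_upwards [h1, eventually_ge_atTop (1 : ℝ), h2.eventually_ge_atTop (2 / δ)] with L hL hL1 hL2
  rw [Real.norm_of_nonneg (Real.rpow_nonneg (by linarith : (0 : ℝ) ≤ L) (1 / 4 : ℝ))] at hL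
  have h3 := (le_abs_self _).trans hL
  have h4 : Real.log (1 + L) ≤ Real.log (2 * L) := Real.log_le_log (by linarith) (by linarith)
  rw [Real.log_mul (by norm_num) (by linarith)] at h4
  have h5 : Real.log 2 < 1 := by linarith [Real.log_two_lt_d9]
  rw [div_le_iff₀ hδ] at hL2
  have h6 : δ / 2 * L ^ (1 / 4 : ℝ) ≥ 1 := by linarith
  linarith

lemma ev_sigma (M : ℝ) : ∀ᶠ L : ℝ in atTop, M * Real.log (1 + L) ≤ Real.sqrt (L / Real.log L) ∧
    M ≤ Real.sqrt (L / Real.log L) := by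
  set M' := |M| + 1 with hM'
  have hM'0 : 0 < M' := by positivity
  filter_upwards [ev_log (1 / M') (by positivity), eventually_ge_atTop (Real.exp 1),
    ev_log 1 one_pos] with L h1 h2 h3
  have he : (1 : ℝ) ≤ Real.exp 1 := Real.one_le_exp (by norm_num)
  have he2 : (2 : ℝ) ≤ Real.exp 1 := by linarith [Real.exp_one_gt_d9]
  have hL0 : 0 < L := by linarith
  have hL1 : 1 ≤ L := by linarith
  have hlog1 : 1 ≤ Real.log L := by rw [Real.le_log_iff_exp_le hL0]; exact h2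
  have hlog2 : Real.log L ≤ Real.log (1 + L) := Real.log_le_log hL0 (by linarith)
  have h4 : L ^ (1 / 4 : ℝ) ≤ Real.sqrt (L / Real.log L) := by
    apply Real.le_sqrt_of_sq_le
    rw [le_div_iff₀ (by linarith), ← Real.rpow_natCast, ← Real.rpow_mul hL0.le]
    have h5 : Real.log L ≤ L ^ (1 / 4 : ℝ) := by linarith
    calc L ^ ((1 / 4 : ℝ) * ((2 : ℕ) : ℝ)) * Real.log L
        ≤ L ^ ((1 / 4 : ℝ) * ((2 : ℕ) : ℝ)) * L ^ (1 / 4 : ℝ) := by gcongr
      _ = L ^ (3 / 4 : ℝ) := by rw [← Real.rpow_add hL0]; norm_num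
      _ ≤ L ^ (1 : ℝ) := Real.rpow_le_rpow_of_exponent_le hL1 (by norm_num)
      _ = L := Real.rpow_one _
  have h5 : M' * Real.log (1 + L) ≤ L ^ (1 / 4 : ℝ) := by
    calc M' * Real.log (1 + L) ≤ M' * (1 / M' * L ^ (1 / 4 : ℝ)) := by gcongr
      _ = L ^ (1 / 4 : ℝ) := by field_simp
  have h6 : M * Real.log (1 + L) ≤ M' * Real.log (1 + L) := by
    apply mul_le_mul_of_nonneg_right _ (by linarith)
    linarith [le_abs_self M]
  refine ⟨by linarith, ?_⟩
  have h7 : M ≤ M' * Real.log (1 + L) := by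
    have : M ≤ M' := by linarith [le_abs_self M]
    nlinarith
  linarith

/-- the list of conditions -/
structure Cnd (θ η ν C c₀ : ℝ) (B a i : ℕ) (L : ℝ) : Prop where
  good : Sums.Good (L ^ a)
  L16 : 16 ≤ L
  lam1 : 1 ≤ c₀ * Real.sqrt (L / Real.log L)
  pq : (L ^ a) ^ 4 < Real.exp L
  nu2 : 2 ≤ Real.exp (ν * L)
  rk : Real.log 4 ≤ ν * (L / Real.log L) / (8 * a)
  xq : 9 / 4 * (1 + L) ^ 2 ≤ Real.exp L
  s2 : 2 * Real.log C + Real.sqrt L * Real.log (1 + L) + 1 / 4 * Real.log L ≤ η / (32 * a) * L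
  s3 : 3 * (1 + L) ^ 2 * C ^ 2 * (2 * C) * (1 + 3 * L) ≤ Real.exp (5 * θ / (8 * 2 ^ i) * L)
  d2 : L ^ B ≤ Real.exp (η / (32 * a) * L)
  d3 : L ^ B ≤ Real.exp (θ / (8 * 2 ^ i) * L)
  tr : 3 * (1 + L) * L ^ B ≤ Real.exp (L / 4)
  E : 32 * (L ^ B * Real.sqrt (1 + L)) ≤ Real.exp (c₀ * Real.sqrt (L / Real.log L) / 256)

lemma cnd_eventually (θ η ν C c₀ : ℝ) (B a i : ℕ) (hθ : 0 < θ) (hη : 0 < η) (hν : 0 < ν)
    (hC : 1 ≤ C) (hc₀ : 0 < c₀) (ha : 0 < a) : ∀ᶠ L : ℝ in atTop, Cnd θ η ν C c₀ B a i L := by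
  have ha' : (0 : ℝ) < a := by exact_mod_cast ha
  have e1 : ∀ᶠ L : ℝ in atTop, Sums.Good (L ^ a) :=
    (tendsto_pow_atTop (by omega : a ≠ 0)).eventually Sums.good_eventually
  have e3 := ev_sigma (1 / c₀)
  have e4 : ∀ᶠ L : ℝ in atTop, (L ^ a) ^ 4 < Real.exp L := by
    filter_upwards [ev_poly 2 (a * 4) 1 one_pos, eventually_ge_atTop (1 : ℝ)] with L h1 h2
    rw [one_mul] at h1
    have h3 : (L ^ a) ^ 4 ≤ (1 + L) ^ (a * 4) := by
      rw [← pow_mul]
      gcongr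
      linarith
    have h4 : 0 < (1 + L) ^ (a * 4) := by positivity
    linarith
  have e5 : ∀ᶠ L : ℝ in atTop, 2 ≤ Real.exp (ν * L) := by
    filter_upwards [ev_poly 2 0 ν hν] with L h1
    simpa using h1
  have e6 : ∀ᶠ L : ℝ in atTop, Real.log 4 ≤ ν * (L / Real.log L) / (8 * a) := by
    filter_upwards [ev_sigma (8 * a * Real.log 4 / ν + 1), eventually_ge_atTop (Real.exp 1)]
      with L h1 h2
    have hL0 : 0 < L := lt_of_lt_of_le (Real.exp_pos _) h2
    have hlog1 : 1 ≤ Real.log L := by rw [Real.le_log_iff_exp_le hL0]; exact h2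
    have hl4 : 0 < Real.log 4 := Real.log_pos (by norm_num)
    have h3 := h1.2
    have h4 : 0 ≤ L / Real.log L := by positivity
    have h5 : 1 ≤ Real.sqrt (L / Real.log L) := by
      have : 0 ≤ 8 * a * Real.log 4 / ν := by positivity
      linarith
    have h6 : Real.sqrt (L / Real.log L) ≤ L / Real.log L := by
      have := Real.mul_self_sqrt h4
      nlinarith
    have h7 : 8 * a * Real.log 4 / ν ≤ L / Real.log L := by linarith
    rw [le_div_iff₀ (by positivity)]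
    rw [div_le_iff₀ hν] at h7
    linarith
  have e7 : ∀ᶠ L : ℝ in atTop, 9 / 4 * (1 + L) ^ 2 ≤ Real.exp L := by
    filter_upwards [ev_poly (9 / 4) 2 1 one_pos] with L h1
    rw [one_mul] at h1; exact h1
  have e8 : ∀ᶠ L : ℝ in atTop,
      2 * Real.log C + Real.sqrt L * Real.log (1 + L) + 1 / 4 * Real.log L ≤ η / (32 * a) * L := by
    set δ := η / (32 * a) with hδ
    have hδ0 : 0 < δ := by positivity
    filter_upwards [ev_log (δ / 4) (by positivity), eventually_ge_atTop (1 : ℝ),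
      eventually_ge_atTop (8 * Real.log C / δ)] with L h1 h2 h3
    have hL0 : 0 < L := by linarith
    have h4 : L ^ (1 / 4 : ℝ) ≤ Real.sqrt L := by
      rw [Real.sqrt_eq_rpow]
      exact Real.rpow_le_rpow_of_exponent_le h2 (by norm_num)
    have h5 : Real.sqrt L * Real.sqrt L = L := Real.mul_self_sqrt hL0.le
    have h6 : 1 ≤ Real.sqrt L := Real.one_le_sqrt.2 h2
    have h7 : Real.log (1 + L) ≤ δ / 4 * Real.sqrt L :=
      h1.trans (mul_le_mul_of_nonneg_left h4 (by positivity))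
    have h8 : Real.sqrt L * Real.log (1 + L) ≤ δ / 4 * L := by
      calc Real.sqrt L * Real.log (1 + L) ≤ Real.sqrt L * (δ / 4 * Real.sqrt L) := by gcongr
        _ = δ / 4 * (Real.sqrt L * Real.sqrt L) := by ring
        _ = _ := by rw [h5]
    have h9 : Real.log L ≤ δ / 4 * L := by
      have h10 : Real.log L ≤ Real.log (1 + L) := Real.log_le_log hL0 (by linarith)
      have h11 : Real.sqrt L ≤ L := by nlinarith
      calc Real.log L ≤ δ / 4 * Real.sqrt L := h10.trans h7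
        _ ≤ _ := by gcongr
    have h10 : 2 * Real.log C ≤ δ / 4 * L := by
      rw [div_le_iff₀ hδ0] at h3
      linarith
    have h11 : 0 ≤ Real.log L := Real.log_nonneg h2
    nlinarith
  have e9 : ∀ᶠ L : ℝ in atTop,
      3 * (1 + L) ^ 2 * C ^ 2 * (2 * C) * (1 + 3 * L) ≤ Real.exp (5 * θ / (8 * 2 ^ i) * L) := by
    filter_upwards [ev_poly (18 * C ^ 3) 3 (5 * θ / (8 * 2 ^ i)) (by positivity),
      eventually_ge_atTop (1 : ℝ)] with L h1 h2
    refine le_trans ?_ h1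
    have h3 : 1 + 3 * L ≤ 3 * (1 + L) := by linarith
    calc 3 * (1 + L) ^ 2 * C ^ 2 * (2 * C) * (1 + 3 * L)
        ≤ 3 * (1 + L) ^ 2 * C ^ 2 * (2 * C) * (3 * (1 + L)) := by gcongr
      _ = _ := by ring
  have hpowB : ∀ δ : ℝ, 0 < δ → ∀ᶠ L : ℝ in atTop, L ^ B ≤ Real.exp (δ * L) := by
    intro δ hδ
    filter_upwards [ev_poly 1 B δ hδ, eventually_ge_atTop (1 : ℝ)] with L h1 h2
    refine le_trans ?_ h1
    rw [one_mul]
    gcongr
    linarith
  have e12 : ∀ᶠ L : ℝ in atTop, 3 * (1 + L) * L ^ B ≤ Real.exp (L / 4) := by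
    filter_upwards [ev_poly 3 (B + 1) (1 / 4) (by norm_num), eventually_ge_atTop (1 : ℝ)] with L h1 h2
    have h3 : (1 / 4 : ℝ) * L = L / 4 := by ring
    rw [h3] at h1
    refine le_trans ?_ h1
    have h4 : L ^ B ≤ (1 + L) ^ B := by gcongr; linarith
    calc 3 * (1 + L) * L ^ B ≤ 3 * (1 + L) * (1 + L) ^ B := by gcongr
      _ = _ := by rw [pow_succ]; ring
  have e13 : ∀ᶠ L : ℝ in atTop,
      32 * (L ^ B * Real.sqrt (1 + L)) ≤ Real.exp (c₀ * Real.sqrt (L / Real.log L) / 256) := by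
    filter_upwards [ev_sigma ((B + 6) * 256 / c₀), eventually_ge_atTop (16 : ℝ)] with L h1 h2
    have hL0 : 0 < L := by linarith
    have hl : 1 ≤ Real.log (1 + L) := by
      rw [Real.le_log_iff_exp_le (by linarith)]
      linarith [Real.exp_one_lt_d9]
    have h3 : (B + 6) * Real.log (1 + L) ≤ c₀ * Real.sqrt (L / Real.log L) / 256 := by
      have h4 := h1.1
      have h5 : (B + 6) * Real.log (1 + L) = (c₀ / 256) * ((B + 6) * 256 / c₀ * Real.log (1 + L)) := by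
        field_simp
      rw [h5]
      calc (c₀ / 256) * ((B + 6) * 256 / c₀ * Real.log (1 + L))
          ≤ (c₀ / 256) * Real.sqrt (L / Real.log L) := by gcongr
        _ = _ := by ring
    refine le_trans ?_ (Real.exp_le_exp.2 h3)
    have h4 : Real.exp ((B + 6) * Real.log (1 + L)) = (1 + L) ^ (B + 6) := by
      rw [mul_comm, Real.exp_mul, Real.exp_log (by linarith)]
      have : ((B : ℝ) + 6) = ((B + 6 : ℕ) : ℝ) := by push_cast; ring
      rw [this, Real.rpow_natCast]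
    rw [h4]
    have h5 : Real.sqrt (1 + L) ≤ 1 + L := by
      rw [Real.sqrt_le_left (by linarith)]
      nlinarith
    have h6 : L ^ B ≤ (1 + L) ^ B := by gcongr; linarith
    have h7 : (32 : ℝ) ≤ (1 + L) ^ 5 := by
      calc (32 : ℝ) = 2 ^ 5 := by norm_num
        _ ≤ (1 + L) ^ 5 := by gcongr; linarith
    calc 32 * (L ^ B * Real.sqrt (1 + L)) ≤ (1 + L) ^ 5 * ((1 + L) ^ B * (1 + L)) := by gcongr
      _ = _ := by rw [← pow_succ, ← pow_add]; congr 1; ring
  filter_upwards [e1, eventually_ge_atTop (16 : ℝ), e3, e4, e5, e6, e7, e8, e9,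
    hpowB (η / (32 * a)) (by positivity), hpowB (θ / (8 * 2 ^ i)) (by positivity), e12, e13]
    with L a1 a2 a3 a4 a5 a6 a7 a8 a9 a10 a11 a12 a13
  refine ⟨a1, a2, ?_, a4, a5, a6, a7, a8, a9, a10, a11, a12, a13⟩
  have := a3.2
  rw [div_le_iff₀ hc₀] at this
  linarith

end Pool.Agent.H.MP_3e6494_nt.T6Cond
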