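import Mathlib
import Pool.Agent.H.MP_3e6494_nt.helper50.Coset
import Pool.Agent.H.MP_3e6494_nt.helper50.T6Cnt

/-!
Local factors with a general exponent, and the classes of the short range.
-/

open Finset

set_option linter.unusedSectionVars false
set_option linter.unusedVariables false

namespace Pool.Agent.H.MP_3e6494_nt.T6Loc

open LocalProd Coset

section

variable {P : Finset ℕ} {f : ℕ → ℝ}

/-- the sum over all solutions of `m * pr A * v = pr B * u` -/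
theorem T_bound (b : ℝ) (hb : b ≤ 1 / 2) (hP : ∀ p ∈ P, p.Prime) (hf : ∀ p ∈ P, 0 ≤ f p)
    (hf1 : ∀ p ∈ P, f p ≤ (p : ℝ) ^ (-b))
    (hf2 : ∀ p ∈ P, (1 + f p * Real.sqrt p) * (1 + f p / Real.sqrt p) ≤ (p : ℝ) ^ (1 / 2 - b))
    (u v : ℕ) (hu : 0 < u) (hv : 0 < v) (hcop : Nat.Coprime u v) :
    ∑ A ∈ P.powerset, ∑ B ∈ P.powerset, (if pr A * v ∣ pr B * u then
        1 / Real.sqrt ((pr B * u / (pr A * v) : ℕ) : ℝ) * fS f A * fS f B else 0)
      ≤ ((u * v : ℕ) : ℝ) ^ (-b) * Main P f := by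
  classical
  have hMain0 : 0 ≤ Main P f := Finset.prod_nonneg fun p hp => by
    have := hf p hp; positivity
  have hu' : (0 : ℝ) < u := by exact_mod_cast hu
  have hv' : (0 : ℝ) < v := by exact_mod_cast hv
  by_cases hex : ∃ A ∈ P.powerset, ∃ B ∈ P.powerset, pr A * v ∣ pr B * u
  swap
  · push Not at hex
    rw [Finset.sum_eq_zero (fun A hA => Finset.sum_eq_zero (fun B hB => by
      rw [if_neg (hex A hA B hB)]))]
    positivity
  obtain ⟨A0, hA0, B0, hB0, hdvd0⟩ := hex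
  rw [Finset.mem_powerset] at hA0 hB0
  have hvB0 := (local_cond hP hA0 hB0 hcop hdvd0).1
  obtain ⟨hvP0, hvpr⟩ := dvd_pr hP hB0 hvB0
  have hvP : v.primeFactors ⊆ P := hvP0.trans hB0
  have hmemv : ∀ p ∈ P, (p ∈ v.primeFactors ↔ p ∣ v) := by
    intro p hp
    rw [Nat.mem_primeFactors]
    exact ⟨fun h => h.2.1, fun h => ⟨hP p hp, h, hv.ne'⟩⟩
  set w : ℕ → Bool → Bool → ℝ := fun p α β =>
    if p ∣ v then (if β = true ∧ α = false then f p else 0)
    else if p ∣ u then (if α then f p * Real.sqrt p else 1) * (if β then f p / Real.sqrt p else 1)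
    else (if α then (if β then f p ^ 2 else 0) else (if β then f p / Real.sqrt p else 1)) with hw
  have hw0 : ∀ p ∈ P, ∀ α β, 0 ≤ w p α β := by
    intro p hp α β
    have := hf p hp
    rw [hw]
    simp only
    split_ifs <;> positivity
  have hterm : ∀ A ∈ P.powerset, ∀ B ∈ P.powerset, (if pr A * v ∣ pr B * u then
        1 / Real.sqrt ((pr B * u / (pr A * v) : ℕ) : ℝ) * fS f A * fS f B else 0)
        ≤ (1 / Real.sqrt u) * ∏ p ∈ P, w p (decide (p ∈ A)) (decide (p ∈ B)) := by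
    intro A hA B hB
    rw [Finset.mem_powerset] at hA hB
    split_ifs with hdvd
    swap
    · exact mul_nonneg (by positivity) (Finset.prod_nonneg fun p hp => hw0 p hp _ _)
    obtain ⟨hvB, hlv, hlo⟩ := local_cond hP hA hB hcop hdvd
    have hprA : 0 < pr A := pr_pos hP hA
    have hprB : 0 < pr B := pr_pos hP hB
    have hprA' : (0 : ℝ) < pr A := by exact_mod_cast hprA
    have hprB' : (0 : ℝ) < pr B := by exact_mod_cast hprB
    have hm : ((pr B * u / (pr A * v) : ℕ) : ℝ) = (pr B * u) / (pr A * v) := by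
      rw [Nat.cast_div hdvd (by positivity)]
      push_cast
      ring
    rw [hm]
    have hprod : ∏ p ∈ P, w p (decide (p ∈ A)) (decide (p ∈ B))
        = (∏ p ∈ P, (if p ∈ A then f p * Real.sqrt p else 1)) *
          (∏ p ∈ P, (if p ∈ B then f p / Real.sqrt p else 1)) *
          ∏ p ∈ P, (if p ∈ v.primeFactors then Real.sqrt p else 1) := by
      rw [← Finset.prod_mul_distrib, ← Finset.prod_mul_distrib]
      apply Finset.prod_congr rfl
      intro p hp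
      have hsp : Real.sqrt (p : ℝ) ≠ 0 := by
        have : (0 : ℝ) < p := by exact_mod_cast (hP p hp).pos
        exact (Real.sqrt_pos.2 this).ne'
      rw [hw]
      simp only [hmemv p hp]
      by_cases hpv : p ∣ v
      · obtain ⟨h1, h2⟩ := hlv p hp hpv
        simp only [hpv, h1, h2, decide_true, decide_false, if_true, if_false, and_self]
        field_simp
      · by_cases hpu : p ∣ u
        · by_cases h1 : p ∈ A <;> by_cases h2 : p ∈ B <;> simp [hpv, hpu, h1, h2]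
        · by_cases h1 : p ∈ A
          · have h2 := hlo p hp hpv hpu h1
            simp only [hpv, hpu, h1, h2, decide_true, if_true, if_false]
            field_simp
          · by_cases h2 : p ∈ B <;> simp [hpv, hpu, h1, h2]
    rw [hprod, prod_ite_subset hA, prod_ite_subset hB, prod_ite_subset hvP,
      Finset.prod_mul_distrib, Finset.prod_div_distrib, ← sqrt_pr, ← sqrt_pr, ← sqrt_pr, hvpr]
    have e1 : Real.sqrt ((pr B : ℝ) * u / (pr A * v)) = Real.sqrt (pr B) * Real.sqrt u /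
        (Real.sqrt (pr A) * Real.sqrt v) := by
      rw [Real.sqrt_div (by positivity), Real.sqrt_mul (by positivity), Real.sqrt_mul (by positivity)]
    rw [e1]
    have n1 := (Real.sqrt_pos.2 hprA').ne'
    have n2 := (Real.sqrt_pos.2 hprB').ne'
    have n3 := (Real.sqrt_pos.2 hu').ne'
    have n4 := (Real.sqrt_pos.2 hv').ne'
    unfold fS
    apply le_of_eq
    field_simp
  have hsum : ∑ A ∈ P.powerset, ∑ B ∈ P.powerset, (if pr A * v ∣ pr B * u then
        1 / Real.sqrt ((pr B * u / (pr A * v) : ℕ) : ℝ) * fS f A * fS f B else 0)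
      ≤ (1 / Real.sqrt u) * ∏ p ∈ P, (w p true true + w p true false + w p false true
          + w p false false) := by
    rw [← pair_prod, Finset.mul_sum]
    apply Finset.sum_le_sum; intro A hA
    rw [Finset.mul_sum]
    apply Finset.sum_le_sum; intro B hB
    exact hterm A hA B hB
  refine hsum.trans ?_
  -- local comparison
  have hloc : ∏ p ∈ P, (w p true true + w p true false + w p false true + w p false false)
      ≤ (∏ p ∈ P, (1 + f p ^ 2 + f p / Real.sqrt p)) *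
        ((∏ p ∈ P, (if p ∈ v.primeFactors then (p : ℝ) ^ (-b) else 1)) *
          ∏ p ∈ P, (if p ∈ u.primeFactors ∩ P then (p : ℝ) ^ (1 / 2 - b) else 1)) := by
    rw [← Finset.prod_mul_distrib, ← Finset.prod_mul_distrib]
    apply Finset.prod_le_prod
    · intro p hp
      have := hw0 p hp
      have a1 := this true true; have a2 := this true false
      have a3 := this false true; have a4 := this false false
      linarith
    · intro p hp
      have hp0 : (0 : ℝ) < p := by exact_mod_cast (hP p hp).pos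
      have hfp := hf p hp
      have hmu : p ∈ u.primeFactors ∩ P ↔ p ∣ u := by
        rw [Finset.mem_inter, Nat.mem_primeFactors]
        exact ⟨fun h => h.1.2.1, fun h => ⟨⟨hP p hp, h, hu.ne'⟩, hp⟩⟩
      have hM1 : 1 ≤ 1 + f p ^ 2 + f p / Real.sqrt p := by
        have : 0 ≤ f p ^ 2 := sq_nonneg _
        have : 0 ≤ f p / Real.sqrt p := by positivity
        linarith
      rw [hw]
      simp only [hmemv p hp, hmu]
      by_cases hpv : p ∣ v
      · have hpu : ¬ p ∣ u := by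
          intro hpu
          have := Nat.dvd_gcd hpu hpv
          rw [hcop] at this
          exact (hP p hp).one_lt.ne' (Nat.dvd_one.1 this)
        simp only [hpv, hpu, if_true, if_false, and_self, and_false, false_and,
          Bool.false_eq_true, Bool.true_eq_false]
        have h1 := hf1 p hp
        have h2 : 0 ≤ (p : ℝ) ^ (-b) := by positivity
        nlinarith
      · by_cases hpu : p ∣ u
        · simp only [hpv, hpu, if_true, if_false, Bool.false_eq_true]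
          have h1 := hf2 p hp
          have h2 : 0 ≤ (p : ℝ) ^ (1 / 2 - b) := by positivity
          have h3 : f p * Real.sqrt p * (f p / Real.sqrt p) + f p * Real.sqrt p * 1
              + 1 * (f p / Real.sqrt p) + 1 * 1
              = (1 + f p * Real.sqrt p) * (1 + f p / Real.sqrt p) := by ring
          rw [h3]
          nlinarith
        · simp only [hpv, hpu, if_true, if_false, Bool.false_eq_true]
          linarith
  have hfac : (∏ p ∈ P, (if p ∈ v.primeFactors then (p : ℝ) ^ (-b) else 1)) *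
          ∏ p ∈ P, (if p ∈ u.primeFactors ∩ P then (p : ℝ) ^ (1 / 2 - b) else 1)
      ≤ (v : ℝ) ^ (-b) * (u : ℝ) ^ (1 / 2 - b) := by
    have hss : ∀ (S : Finset ℕ) (e : ℝ), ∏ p ∈ S, (p : ℝ) ^ e = (pr S : ℝ) ^ e := by
      intro S e
      unfold pr
      rw [Nat.cast_prod, Real.finsetProd_rpow _ _ (fun p _ => Nat.cast_nonneg _)]
    rw [prod_ite_subset hvP, prod_ite_subset Finset.inter_subset_right, hss, hss, hvpr]
    apply mul_le_mul_of_nonneg_left _ (by positivity)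
    apply Real.rpow_le_rpow (Nat.cast_nonneg _) _ (by linarith)
    have h1 : pr (u.primeFactors ∩ P) ≤ u := by
      apply Nat.le_of_dvd hu
      refine dvd_trans ?_ (Nat.prod_primeFactors_dvd u)
      exact Finset.prod_dvd_prod_of_subset _ _ _ Finset.inter_subset_left
    exact_mod_cast h1
  calc (1 / Real.sqrt u) * ∏ p ∈ P, (w p true true + w p true false + w p false true
          + w p false false)
      ≤ (1 / Real.sqrt u) * (Main P f * ((v : ℝ) ^ (-b) * (u : ℝ) ^ (1 / 2 - b))) := by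
        apply mul_le_mul_of_nonneg_left _ (by positivity)
        exact hloc.trans (mul_le_mul_of_nonneg_left hfac hMain0)
    _ = ((u * v : ℕ) : ℝ) ^ (-b) * Main P f := by
        push_cast
        rw [Real.mul_rpow hu'.le hv'.le]
        have e : (1 : ℝ) / Real.sqrt u = (u : ℝ) ^ (-(1 / 2) : ℝ) := by
          rw [Real.rpow_neg hu'.le, ← Real.sqrt_eq_rpow, one_div]
        have e2 : (u : ℝ) ^ (-(1 / 2) : ℝ) * (u : ℝ) ^ (1 / 2 - b) = (u : ℝ) ^ (-b) := by
          rw [← Real.rpow_add hu']; congr 1; ring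
        rw [e, ← e2]; ring

end

variable {q : ℕ} [hq : Fact q.Prime] {P Q : Finset ℕ} {f : ℕ → ℝ} {N Z : ℕ}

lemma un_mul {m n : ℕ} (hm : m.Coprime q) (hn : n.Coprime q) : un q (m * n) = un q m * un q n := by
  apply Units.ext
  rw [un_val (Nat.Coprime.mul_left hm hn), Units.val_mul, un_val hm, un_val hn]
  push_cast; rfl

open scoped Classical in
/-- one nontrivial class of the short range -/
theorem class_uv (b : ℝ) (hb : b ≤ 1 / 2) (hP : ∀ p ∈ P, p.Prime ∧ p < q) (hPQ : Disjoint P Q)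
    (hQ : ∀ p ∈ Q, p.Prime) (hf : ∀ p ∈ P, 0 ≤ f p)
    (hf1 : ∀ p ∈ P, f p ≤ (p : ℝ) ^ (-b))
    (hf2 : ∀ p ∈ P, (1 + f p * Real.sqrt p) * (1 + f p / Real.sqrt p) ≤ (p : ℝ) ^ (1 / 2 - b))
    (hNZ : Z * N * N < q) (hN1 : 1 ≤ N) (hZ1 : 1 ≤ Z) (k : (ZMod q)ˣ) (hk1 : k ≠ 1) :
    (∑ t ∈ (Idx q P Q N Z).filter (fun t => zt q t = k), wt f t = 0) ∨
    ∃ u v : ℕ, 0 < u ∧ 0 < v ∧ u ≠ v ∧ u ≤ Z * N ∧ v ≤ Z * N ∧
      (∀ p ∈ Q, ¬ p ∣ u) ∧ (∀ p ∈ Q, ¬ p ∣ v) ∧ u.Coprime q ∧ v.Coprime q ∧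
      un q u * (un q v)⁻¹ = k ∧
      ∑ t ∈ (Idx q P Q N Z).filter (fun t => zt q t = k), wt f t
        ≤ ((u * v : ℕ) : ℝ) ^ (-b) * Main P f := by
  have hP' : ∀ p ∈ P, p.Prime := fun p hp => (hP p hp).1
  set S := (Idx q P Q N Z).filter (fun t => zt q t = k) with hS
  rcases S.eq_empty_or_nonempty with h | ⟨t₀, ht₀⟩
  · left; rw [h, Finset.sum_empty]
  right
  have hmem : ∀ t ∈ S, (1 ≤ t.1 ∧ t.1 ≤ Z) ∧ ((∀ p ∈ Q, ¬ p ∣ t.1) ∧ t.1.Coprime q) ∧
      t.2.1 ∈ Fam P N ∧ t.2.2 ∈ Fam P N ∧ zt q t = k := by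
    intro t ht
    rw [hS, Finset.mem_filter] at ht
    unfold Idx at ht
    rw [Finset.mem_product, Finset.mem_product, Finset.mem_filter, Finset.mem_Icc] at ht
    exact ⟨ht.1.1.1, ht.1.1.2, ht.1.2.1, ht.1.2.2, ht.2⟩
  obtain ⟨a1, a2, a3, a4, a5⟩ := hmem t₀ ht₀
  obtain ⟨u, v, hu, hv, hcop, hBuv, hall⟩ := frac_of_class (K := ⊤) hP hPQ hQ hNZ hN1 hZ1 2
    (by
      intro x hx
      obtain ⟨_, _, _, h4, h5, _⟩ := hx
      omega) k (Subgroup.mem_top k) hk1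
    t₀.1 t₀.2.1 t₀.2.2 a1 a2.1 a2.2 a3 a4 a5
  set g : Finset ℕ × Finset ℕ → ℝ := fun x => if pr x.1 * v ∣ pr x.2 * u then
    1 / Real.sqrt ((pr x.2 * u / (pr x.1 * v) : ℕ) : ℝ) * fS f x.1 * fS f x.2 else 0 with hg
  have hm_eq : ∀ t ∈ S, pr t.2.1 * v ∣ pr t.2.2 * u ∧ t.1 = pr t.2.2 * u / (pr t.2.1 * v) := by
    intro t ht
    obtain ⟨b1, b2, b3, b4, b5⟩ := hmem t ht
    have h1 := hall t.1 t.2.1 b3 t.2.2 b4 b1.1 b1.2 b2.2 b5
    have hpos : 0 < pr t.2.1 * v := Nat.mul_pos (pr_pos hP' (mem_Fam.1 b3).1) hv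
    refine ⟨⟨t.1, by rw [← h1]; ring⟩, ?_⟩
    rw [← h1, Nat.mul_div_cancel _ hpos]
  have h1 : ∑ t ∈ S, wt f t = ∑ t ∈ S, g t.2 := by
    apply Finset.sum_congr rfl
    intro t ht
    obtain ⟨h2, h3⟩ := hm_eq t ht
    rw [hg]
    simp only
    rw [if_pos h2, ← h3]
    unfold wt
    ring
  have hinj : Set.InjOn (fun t : ℕ × Finset ℕ × Finset ℕ => t.2) S := by
    intro t ht t' ht' h
    have h2 := (hm_eq t ht).2
    have h3 := (hm_eq t' ht').2
    simp only at h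
    rw [← h] at h3
    exact Prod.ext (h2.trans h3.symm) h
  have hg0 : ∀ x ∈ P.powerset ×ˢ P.powerset, 0 ≤ g x := by
    intro x hx
    rw [Finset.mem_product, Finset.mem_powerset, Finset.mem_powerset] at hx
    rw [hg]
    simp only
    split_ifs
    · have := fS_nonneg hf hx.1
      have := fS_nonneg hf hx.2
      positivity
    · exact le_rfl
  have hbound : ∑ t ∈ S, wt f t ≤ ((u * v : ℕ) : ℝ) ^ (-b) * Main P f := by
    rw [h1, ← Finset.sum_image (f := g) hinj]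
    calc ∑ x ∈ S.image (fun t => t.2), g x ≤ ∑ x ∈ P.powerset ×ˢ P.powerset, g x := by
          apply Finset.sum_le_sum_of_subset_of_nonneg
          · intro x hx
            rw [Finset.mem_image] at hx
            obtain ⟨t, ht, rfl⟩ := hx
            obtain ⟨_, _, b3, b4, _⟩ := hmem t ht
            rw [Finset.mem_product, Finset.mem_powerset, Finset.mem_powerset]
            exact ⟨(mem_Fam.1 b3).1, (mem_Fam.1 b4).1⟩
          · intro x hx _; exact hg0 x hx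
      _ ≤ _ := by
          rw [Finset.sum_product]
          exact T_bound b hb hP' hf hf1 hf2 u v hu hv hcop
  -- the relation for the base term
  have hrel := hall t₀.1 t₀.2.1 a3 t₀.2.2 a4 a1.1 a1.2 a2.2 a5
  have hA0 := mem_Fam.1 a3
  have hB0 := mem_Fam.1 a4
  have hprA : 0 < pr t₀.2.1 := pr_pos hP' hA0.1
  have hprB : 0 < pr t₀.2.2 := pr_pos hP' hB0.1
  have hvB : v ∣ pr t₀.2.2 := by
    have : v ∣ pr t₀.2.2 * u := by
      rw [← hrel]
      exact ⟨t₀.1 * pr t₀.2.1, by ring⟩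
    exact hcop.symm.dvd_of_dvd_mul_right this
  have huA : u ∣ t₀.1 * pr t₀.2.1 := by
    have : u ∣ (t₀.1 * pr t₀.2.1) * v := by
      rw [mul_assoc, hrel]
      exact Dvd.intro_left _ rfl
    exact hcop.dvd_of_dvd_mul_right this
  have hcopP : (t₀.1 * pr t₀.2.1).Coprime q := Nat.Coprime.mul_left a2.2 (pr_coprime hP hA0.1)
  have huc : u.Coprime q := Nat.Coprime.coprime_dvd_left huA hcopP
  have hvc : v.Coprime q := Nat.Coprime.coprime_dvd_left hvB (pr_coprime hP hB0.1)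
  have hprim : ∀ p ∈ Q, ∀ S ⊆ P, ¬ p ∣ pr S := by
    intro p hp S hS hd
    exact (Finset.disjoint_left.1 hPQ (hS ((prime_dvd_pr hP' hS (hQ p hp)).1 hd))) hp
  have hNN : N ≤ Z * N := Nat.le_mul_of_pos_left _ hZ1
  have huv : un q u * (un q v)⁻¹ = k := by
    have e1 : un q t₀.1 * (un q (pr t₀.2.1) * un q v) = un q (pr t₀.2.2) * un q u := by
      rw [← un_mul (pr_coprime hP hA0.1) hvc, ← un_mul a2.2
        (Nat.Coprime.mul_left (pr_coprime hP hA0.1) hvc), ← un_mul (pr_coprime hP hB0.1) huc, hrel]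
    have e2 : un q t₀.1 * (un q (pr t₀.2.1) * (un q (pr t₀.2.2))⁻¹) = k := a5
    rw [mul_inv_eq_iff_eq_mul, ← e2]
    have e3 : un q u = (un q (pr t₀.2.2))⁻¹ * (un q t₀.1 * (un q (pr t₀.2.1) * un q v)) := by
      rw [e1, inv_mul_cancel_left]
    rw [e3]
    simp only [mul_comm, mul_left_comm, mul_assoc]
  refine ⟨u, v, hu, hv, ?_, ?_, ?_, ?_, ?_, huc, hvc, huv, hbound⟩
  · intro h
    rw [h, mul_inv_cancel] at huv
    exact hk1 huv.symm
  · calc u ≤ t₀.1 * pr t₀.2.1 := Nat.le_of_dvd (Nat.mul_pos a1.1 hprA) huA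
      _ ≤ Z * N := Nat.mul_le_mul a1.2 hA0.2
  · exact (Nat.le_of_dvd hprB hvB).trans (hB0.2.trans hNN)
  · intro p hp hpu
    rcases (hQ p hp).dvd_mul.1 (hpu.trans huA) with h2 | h2
    · exact a2.1 p hp h2
    · exact hprim p hp _ hA0.1 h2
  · intro p hp hpv
    exact hprim p hp _ hB0.1 (hpv.trans hvB)

open scoped Classical in
/-- the sum over ordered pairs -/
lemma pair_sum (K : Subgroup (ZMod q)ˣ) (hQ : ∀ p ∈ Q, p.Prime) (y : ℝ) (hy : 1 ≤ y)
    (hyQ : ∀ p : ℕ, p.Prime → (p : ℝ) ≤ y → p ∈ Q) (U : ℕ) (ρ b : ℝ) (hρ0 : 0 ≤ ρ)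
    (hρb : ρ ≤ 2 * b) (hb1 : 2 * b ≤ 1) (hρb2 : 1 + ρ - 4 * b ≤ 0)
    (hcount : ∀ (c : (ZMod q)ˣ) (Y : ℕ), 1 ≤ Y → Y ≤ U →
      ((T6Cnt.Ar K (un q) Q c Y).card : ℝ) ≤ (Y : ℝ) ^ ρ) :
    ∑ v ∈ Finset.Icc 1 U, ∑ u ∈ (T6Cnt.Ar K (un q) Q (un q v)⁻¹ U).filter (fun u => v < u),
        ((u * v : ℕ) : ℝ) ^ (-(2 * b)) ≤ (1 + Real.log U) ^ 2 * y ^ (1 + ρ - 4 * b) := by
  have hy0 : 0 < y := by linarith
  have hL0 : 0 ≤ 1 + Real.log U := by linarith [Real.log_natCast_nonneg U]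
  have hinner : ∀ v ∈ Finset.Icc 1 U,
      ∑ u ∈ (T6Cnt.Ar K (un q) Q (un q v)⁻¹ U).filter (fun u => v < u),
        ((u * v : ℕ) : ℝ) ^ (-(2 * b)) ≤ (1 + Real.log U) * y ^ (1 + ρ - 4 * b) * (1 / (v : ℝ)) := by
    intro v hv
    rw [Finset.mem_Icc] at hv
    have hv0 : (0 : ℝ) < v := by exact_mod_cast (by omega : 0 < v)
    set S := T6Cnt.Ar K (un q) Q (un q v)⁻¹ U with hS
    have hmem : ∀ u ∈ S, 1 ≤ u ∧ u ≤ U ∧ ∀ p ∈ Q, ¬ p ∣ u := by
      intro u hu
      rw [hS] at hu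
      unfold T6Cnt.Ar at hu
      rw [Finset.mem_filter, Finset.mem_Icc] at hu
      exact ⟨hu.1.1, hu.1.2, hu.2.2.1⟩
    have hrank := T6Cnt.sum_le_of_count S (fun u => (u : ℝ) ^ ρ) (by
      intro m hm
      have h1 := (hmem m hm).1
      have : (0 : ℝ) < m := by exact_mod_cast (by omega : 0 < m)
      positivity) 1 zero_le_one (by
      intro m hm
      rw [one_mul]
      have h1 := hmem m hm
      refine le_trans ?_ (hcount (un q v)⁻¹ m h1.1 h1.2.1)
      have : (S.filter (fun x => x ≤ m)).card ≤ (T6Cnt.Ar K (un q) Q (un q v)⁻¹ m).card := by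
        apply Finset.card_le_card
        intro x hx
        rw [Finset.mem_filter, hS] at hx
        unfold T6Cnt.Ar at hx ⊢
        rw [Finset.mem_filter, Finset.mem_Icc] at hx ⊢
        exact ⟨⟨hx.1.1.1, hx.2⟩, hx.1.2⟩
      exact_mod_cast this)
    rw [one_mul] at hrank
    have hScard : Real.log S.card ≤ Real.log U := by
      have h2 : S.card ≤ U := by
        calc S.card ≤ (Finset.Icc 1 U).card := by
              apply Finset.card_le_card
              intro x hx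
              exact Finset.mem_Icc.2 ⟨(hmem x hx).1, (hmem x hx).2.1⟩
          _ = U := by simp
      rcases Nat.eq_zero_or_pos S.card with h3 | h3
      · rw [h3]; simp only [Nat.cast_zero, Real.log_zero]
        exact Real.log_natCast_nonneg U
      · exact Real.log_le_log (by exact_mod_cast h3) (by exact_mod_cast h2)
    have hpt : ∀ u ∈ S.filter (fun u => v < u), ((u * v : ℕ) : ℝ) ^ (-(2 * b))
        ≤ (y ^ (1 + ρ - 4 * b) * (1 / (v : ℝ))) * (1 / (u : ℝ) ^ ρ) := by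
      intro u hu
      rw [Finset.mem_filter] at hu
      obtain ⟨h1, h2, h3⟩ := hmem u hu.1
      have hvu : v < u := hu.2
      have hu0 : (0 : ℝ) < u := by exact_mod_cast (by omega : 0 < u)
      have hyu : y < u := by
        obtain ⟨p, hp, hpu⟩ := Nat.exists_prime_and_dvd (show u ≠ 1 by omega)
        have h4 : y < p := by
          by_contra hc
          push Not at hc
          exact h3 p (hyQ p hp hc) hpu
        have h5 : (p : ℝ) ≤ u := by exact_mod_cast Nat.le_of_dvd (by omega) hpu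
        linarith
      set m : ℝ := max (v : ℝ) y with hm
      have hm0 : 0 < m := lt_of_lt_of_le hv0 (le_max_left _ _)
      have hmu : m ≤ u := max_le (by exact_mod_cast hvu.le) hyu.le
      have hvm : (v : ℝ) ≤ m := le_max_left _ _
      have hym : y ≤ m := le_max_right _ _
      push_cast
      rw [Real.mul_rpow hu0.le hv0.le]
      have e1 : (u : ℝ) ^ (-(2 * b)) ≤ m ^ (ρ - 2 * b) * (1 / (u : ℝ) ^ ρ) := by
        have e2 : (u : ℝ) ^ (-(2 * b)) = (u : ℝ) ^ (ρ - 2 * b) * (1 / (u : ℝ) ^ ρ) := by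
          rw [one_div, ← Real.rpow_neg hu0.le, ← Real.rpow_add hu0]; congr 1; ring
        rw [e2]
        apply mul_le_mul_of_nonneg_right _ (by positivity)
        exact Real.rpow_le_rpow_of_nonpos hm0 hmu (by linarith)
      have e3 : (v : ℝ) ^ (-(2 * b)) ≤ m ^ (1 - 2 * b) * (1 / (v : ℝ)) := by
        have e4 : (v : ℝ) ^ (-(2 * b)) = (v : ℝ) ^ (1 - 2 * b) * (1 / (v : ℝ)) := by
          rw [one_div, ← Real.rpow_neg_one, ← Real.rpow_add hv0]; congr 1; ring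
        rw [e4]
        apply mul_le_mul_of_nonneg_right _ (by positivity)
        exact Real.rpow_le_rpow hv0.le hvm (by linarith)
      have e5 : m ^ (ρ - 2 * b) * m ^ (1 - 2 * b) ≤ y ^ (1 + ρ - 4 * b) := by
        rw [← Real.rpow_add hm0]
        have : ρ - 2 * b + (1 - 2 * b) = 1 + ρ - 4 * b := by ring
        rw [this]
        exact Real.rpow_le_rpow_of_nonpos hy0 hym hρb2
      calc (u : ℝ) ^ (-(2 * b)) * (v : ℝ) ^ (-(2 * b))
          ≤ (m ^ (ρ - 2 * b) * (1 / (u : ℝ) ^ ρ)) * (m ^ (1 - 2 * b) * (1 / (v : ℝ))) :=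
            mul_le_mul e1 e3 (by positivity) (by positivity)
        _ = (m ^ (ρ - 2 * b) * m ^ (1 - 2 * b)) * ((1 / (v : ℝ)) * (1 / (u : ℝ) ^ ρ)) := by ring
        _ ≤ y ^ (1 + ρ - 4 * b) * ((1 / (v : ℝ)) * (1 / (u : ℝ) ^ ρ)) := by
            apply mul_le_mul_of_nonneg_right e5 (by positivity)
        _ = _ := by ring
    calc ∑ u ∈ S.filter (fun u => v < u), ((u * v : ℕ) : ℝ) ^ (-(2 * b))
        ≤ ∑ u ∈ S.filter (fun u => v < u),
            (y ^ (1 + ρ - 4 * b) * (1 / (v : ℝ))) * (1 / (u : ℝ) ^ ρ) := Finset.sum_le_sum hpt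
      _ ≤ ∑ u ∈ S, (y ^ (1 + ρ - 4 * b) * (1 / (v : ℝ))) * (1 / (u : ℝ) ^ ρ) := by
          apply Finset.sum_le_sum_of_subset_of_nonneg (Finset.filter_subset _ _)
          intro u _ _; positivity
      _ = (y ^ (1 + ρ - 4 * b) * (1 / (v : ℝ))) * ∑ u ∈ S, (1 / (u : ℝ) ^ ρ) := by
          rw [← Finset.mul_sum]
      _ ≤ (y ^ (1 + ρ - 4 * b) * (1 / (v : ℝ))) * (1 + Real.log U) := by
          apply mul_le_mul_of_nonneg_left _ (by positivity)
          linarith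
      _ = _ := by ring
  refine (Finset.sum_le_sum hinner).trans ?_
  rw [← Finset.mul_sum]
  have h2 := T6Cnt.harmonic_le U
  calc (1 + Real.log U) * y ^ (1 + ρ - 4 * b) * ∑ v ∈ Finset.Icc 1 U, 1 / (v : ℝ)
      ≤ (1 + Real.log U) * y ^ (1 + ρ - 4 * b) * (1 + Real.log U) := by
        apply mul_le_mul_of_nonneg_left h2 (by positivity)
    _ = _ := by ring

open scoped Classical in
/-- the second moment of the nontrivial classes of the short range -/
theorem S1_bound (K : Subgroup (ZMod q)ˣ) (b : ℝ) (hb : b ≤ 1 / 2)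
    (hP : ∀ p ∈ P, p.Prime ∧ p < q) (hPQ : Disjoint P Q)
    (hQ : ∀ p ∈ Q, p.Prime) (hf : ∀ p ∈ P, 0 ≤ f p)
    (hf1 : ∀ p ∈ P, f p ≤ (p : ℝ) ^ (-b))
    (hf2 : ∀ p ∈ P, (1 + f p * Real.sqrt p) * (1 + f p / Real.sqrt p) ≤ (p : ℝ) ^ (1 / 2 - b))
    (hNZ : Z * N * N < q) (hN1 : 1 ≤ N) (hZ1 : 1 ≤ Z)
    (y : ℝ) (hy : 1 ≤ y) (hyQ : ∀ p : ℕ, p.Prime → (p : ℝ) ≤ y → p ∈ Q) (ρ : ℝ) (hρ0 : 0 ≤ ρ)
    (hρb : ρ ≤ 2 * b) (hρb2 : 1 + ρ - 4 * b ≤ 0)
    (hcount : ∀ (c : (ZMod q)ˣ) (Y : ℕ), 1 ≤ Y → Y ≤ Z * N →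
      ((T6Cnt.Ar K (un q) Q c Y).card : ℝ) ≤ (Y : ℝ) ^ ρ) :
    ∑ κ ∈ (Finset.univ : Finset (ZMod q)ˣ).filter (fun κ => κ ∈ K ∧ κ ≠ 1),
        (∑ t ∈ (Idx q P Q N Z).filter (fun t => zt q t = κ), wt f t) ^ 2
      ≤ (Main P f) ^ 2 * (2 * ((1 + Real.log (Z * N : ℕ)) ^ 2 * y ^ (1 + ρ - 4 * b))) := by
  set U := Z * N with hU
  have hMain0 : 0 ≤ Main P f := Finset.prod_nonneg fun p hp => by
    have := hf p hp; positivity
  set 𝒰 : Finset (ℕ × ℕ) := ((Finset.Icc 1 U) ×ˢ (Finset.Icc 1 U)).filter (fun x =>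
    x.1 ≠ x.2 ∧ (∀ p ∈ Q, ¬ p ∣ x.1) ∧ (∀ p ∈ Q, ¬ p ∣ x.2) ∧ x.1.Coprime q ∧ x.2.Coprime q ∧
      un q x.1 * (un q x.2)⁻¹ ∈ K) with h𝒰
  have hterm0 : ∀ κ : (ZMod q)ˣ,
      0 ≤ ∑ t ∈ (Idx q P Q N Z).filter (fun t => zt q t = κ), wt f t := by
    intro κ
    apply Finset.sum_nonneg
    intro t ht
    rw [Finset.mem_filter] at ht
    unfold Idx at ht
    rw [Finset.mem_product, Finset.mem_product] at ht
    unfold wt
    have := fS_nonneg hf (mem_Fam.1 ht.1.2.1).1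
    have := fS_nonneg hf (mem_Fam.1 ht.1.2.2).1
    positivity
  have hone : ∀ κ ∈ (Finset.univ : Finset (ZMod q)ˣ).filter (fun κ => κ ∈ K ∧ κ ≠ 1),
      (∑ t ∈ (Idx q P Q N Z).filter (fun t => zt q t = κ), wt f t) ^ 2
      ≤ ∑ x ∈ 𝒰.filter (fun x => un q x.1 * (un q x.2)⁻¹ = κ),
          (Main P f) ^ 2 * ((x.1 * x.2 : ℕ) : ℝ) ^ (-(2 * b)) := by
    intro κ hκ
    rw [Finset.mem_filter] at hκ
    have hnn : ∀ x ∈ 𝒰.filter (fun x => un q x.1 * (un q x.2)⁻¹ = κ),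
        0 ≤ (Main P f) ^ 2 * ((x.1 * x.2 : ℕ) : ℝ) ^ (-(2 * b)) := by
      intro x _; positivity
    rcases class_uv b hb hP hPQ hQ hf hf1 hf2 hNZ hN1 hZ1 κ hκ.2.2 with h0 |
      ⟨u, v, h1, h2, h3, h4, h5, h6, h7, h8, h9, h10, h11⟩
    · rw [h0, zero_pow two_ne_zero]
      exact Finset.sum_nonneg hnn
    · have hmem : (u, v) ∈ 𝒰.filter (fun x => un q x.1 * (un q x.2)⁻¹ = κ) := by
        rw [Finset.mem_filter, h𝒰, Finset.mem_filter, Finset.mem_product, Finset.mem_Icc,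
          Finset.mem_Icc]
        exact ⟨⟨⟨⟨h1, h4⟩, ⟨h2, h5⟩⟩, h3, h6, h7, h8, h9, by rw [h10]; exact hκ.2.1⟩, h10⟩
      refine le_trans ?_ (Finset.single_le_sum hnn hmem)
      calc (∑ t ∈ (Idx q P Q N Z).filter (fun t => zt q t = κ), wt f t) ^ 2
          ≤ (((u * v : ℕ) : ℝ) ^ (-b) * Main P f) ^ 2 := pow_le_pow_left₀ (hterm0 κ) h11 2
        _ = _ := by
            rw [mul_pow, mul_comm]
            congr 1
            rw [← Real.rpow_natCast, ← Real.rpow_mul (Nat.cast_nonneg _)]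
            congr 1; push_cast; ring
  refine (Finset.sum_le_sum hone).trans ?_
  have hsum : ∑ κ ∈ (Finset.univ : Finset (ZMod q)ˣ).filter (fun κ => κ ∈ K ∧ κ ≠ 1),
      ∑ x ∈ 𝒰.filter (fun x => un q x.1 * (un q x.2)⁻¹ = κ),
          (Main P f) ^ 2 * ((x.1 * x.2 : ℕ) : ℝ) ^ (-(2 * b))
      ≤ (Main P f) ^ 2 * ∑ x ∈ 𝒰, ((x.1 * x.2 : ℕ) : ℝ) ^ (-(2 * b)) := by
    rw [Finset.mul_sum, ← Finset.sum_fiberwise 𝒰 (fun x => un q x.1 * (un q x.2)⁻¹)]
    apply Finset.sum_le_sum_of_subset_of_nonneg (Finset.subset_univ _)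
    intro κ _ _
    apply Finset.sum_nonneg
    intro x _; positivity
  refine hsum.trans (mul_le_mul_of_nonneg_left ?_ (by positivity))
  -- split according to the order
  have hpair := pair_sum K hQ y hy hyQ U ρ b hρ0 hρb (by linarith) hρb2 hcount
  have hmem𝒰 : ∀ x ∈ 𝒰, ((1 ≤ x.1 ∧ x.1 ≤ U) ∧ (1 ≤ x.2 ∧ x.2 ≤ U)) ∧ x.1 ≠ x.2 ∧
      (∀ p ∈ Q, ¬ p ∣ x.1) ∧ (∀ p ∈ Q, ¬ p ∣ x.2) ∧ x.1.Coprime q ∧ x.2.Coprime q ∧
      un q x.1 * (un q x.2)⁻¹ ∈ K := by
    intro x hx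
    rw [h𝒰, Finset.mem_filter, Finset.mem_product, Finset.mem_Icc, Finset.mem_Icc] at hx
    exact hx
  have hpart1 : ∑ x ∈ 𝒰.filter (fun x => x.2 < x.1), ((x.1 * x.2 : ℕ) : ℝ) ^ (-(2 * b))
      ≤ ∑ v ∈ Finset.Icc 1 U, ∑ u ∈ (T6Cnt.Ar K (un q) Q (un q v)⁻¹ U).filter (fun u => v < u),
        ((u * v : ℕ) : ℝ) ^ (-(2 * b)) := by
    rw [Finset.sum_sigma' (Finset.Icc 1 U)]
    have hinj : Set.InjOn (fun x : ℕ × ℕ => (⟨x.2, x.1⟩ : (_ : ℕ) × ℕ))
        ((𝒰.filter (fun x => x.2 < x.1) : Finset (ℕ × ℕ)) : Set (ℕ × ℕ)) := by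
      intro x _ x' _ h
      simp only [Sigma.mk.injEq, heq_eq_eq] at h
      exact Prod.ext h.2 h.1
    rw [← Finset.sum_image (f := fun y : (_ : ℕ) × ℕ => ((y.2 * y.1 : ℕ) : ℝ) ^ (-(2 * b))) hinj]
    apply Finset.sum_le_sum_of_subset_of_nonneg
    · intro z hz
      rw [Finset.mem_image] at hz
      obtain ⟨x, hx, rfl⟩ := hz
      rw [Finset.mem_filter] at hx
      obtain ⟨⟨a1, a2⟩, a3, a4, a5, a6, a7, a8⟩ := hmem𝒰 x hx.1
      rw [Finset.mem_sigma, Finset.mem_Icc, Finset.mem_filter]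
      refine ⟨a2, ?_, hx.2⟩
      unfold T6Cnt.Ar
      rw [Finset.mem_filter, Finset.mem_Icc]
      exact ⟨a1, a6, a4, a8⟩
    · intro z _ _; positivity
  have hpart2 : ∑ x ∈ 𝒰.filter (fun x => ¬ x.2 < x.1), ((x.1 * x.2 : ℕ) : ℝ) ^ (-(2 * b))
      ≤ ∑ v ∈ Finset.Icc 1 U, ∑ u ∈ (T6Cnt.Ar K (un q) Q (un q v)⁻¹ U).filter (fun u => v < u),
        ((u * v : ℕ) : ℝ) ^ (-(2 * b)) := by
    rw [Finset.sum_sigma' (Finset.Icc 1 U)]
    have hinj : Set.InjOn (fun x : ℕ × ℕ => (⟨x.1, x.2⟩ : (_ : ℕ) × ℕ))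
        ((𝒰.filter (fun x => ¬ x.2 < x.1) : Finset (ℕ × ℕ)) : Set (ℕ × ℕ)) := by
      intro x _ x' _ h
      simp only [Sigma.mk.injEq, heq_eq_eq] at h
      exact Prod.ext h.1 h.2
    have e : ∀ x ∈ 𝒰.filter (fun x => ¬ x.2 < x.1), ((x.1 * x.2 : ℕ) : ℝ) ^ (-(2 * b))
        = (fun y : (_ : ℕ) × ℕ => ((y.2 * y.1 : ℕ) : ℝ) ^ (-(2 * b))) ⟨x.1, x.2⟩ := by
      intro x _
      simp only
      rw [mul_comm x.1 x.2]
    rw [Finset.sum_congr rfl e,
      ← Finset.sum_image (f := fun y : (_ : ℕ) × ℕ => ((y.2 * y.1 : ℕ) : ℝ) ^ (-(2 * b))) hinj]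
    apply Finset.sum_le_sum_of_subset_of_nonneg
    · intro z hz
      rw [Finset.mem_image] at hz
      obtain ⟨x, hx, rfl⟩ := hz
      rw [Finset.mem_filter] at hx
      obtain ⟨⟨a1, a2⟩, a3, a4, a5, a6, a7, a8⟩ := hmem𝒰 x hx.1
      rw [Finset.mem_sigma, Finset.mem_Icc, Finset.mem_filter]
      refine ⟨a1, ?_, by simp only; omega⟩
      unfold T6Cnt.Ar
      rw [Finset.mem_filter, Finset.mem_Icc]
      refine ⟨a2, a7, a5, ?_⟩
      have := K.inv_mem a8
      rw [mul_inv_rev, inv_inv] at this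
      exact this
    · intro z _ _; positivity
  rw [← Finset.sum_filter_add_sum_filter_not 𝒰 (fun x => x.2 < x.1)]
  linarith

end Pool.Agent.H.MP_3e6494_nt.T6Loc
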