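import Mathlib
import Pool.Agent.H.MP_3e6494_nt.helper50.Coset

/-!
The short mollifier.
-/

open Finset

set_option linter.unusedSectionVars false

namespace Pool.Agent.H.MP_3e6494_nt.T6Mo

open LocalProd

/-- subsets of `Q` with at most `w` elements -/
def SF (Q : Finset ℕ) (w : ℕ) : Finset (Finset ℕ) := Q.powerset.filter (fun S => S.card ≤ w)

lemma mem_SF {Q : Finset ℕ} {w : ℕ} {S : Finset ℕ} : S ∈ SF Q w ↔ S ⊆ Q ∧ S.card ≤ w := by
  unfold SF; rw [Finset.mem_filter, Finset.mem_powerset]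

/-- the coefficients of the product of the mollifier and the truncated series -/
def gam (Q : Finset ℕ) (w X k : ℕ) : ℤ :=
  ∑ S ∈ (SF Q w).filter (fun S => pr S ∣ k ∧ k / pr S ≤ X), (-1) ^ S.card

lemma pr_dvd_iff {Q : Finset ℕ} (hQ : ∀ p ∈ Q, p.Prime) {S : Finset ℕ} (hS : S ⊆ Q) (k : ℕ) :
    pr S ∣ k ↔ ∀ p ∈ S, p ∣ k := by
  constructor
  · intro h p hp
    exact (Finset.dvd_prod_of_mem (fun p : ℕ => p) hp).trans h
  · intro h
    unfold pr
    apply Finset.prod_primes_dvd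
    · intro p hp
      exact (hQ p (hS hp)).prime
    · exact h

lemma gam_one {Q : Finset ℕ} (hQ : ∀ p ∈ Q, p.Prime) {w X k : ℕ} (hkX : k ≤ X)
    (hk : ∀ p ∈ Q, ¬ p ∣ k) : gam Q w X k = 1 := by
  have h1 : (SF Q w).filter (fun S => pr S ∣ k ∧ k / pr S ≤ X) = {∅} := by
    ext S
    rw [Finset.mem_filter, mem_SF, Finset.mem_singleton]
    constructor
    · rintro ⟨⟨h1, _⟩, h2, _⟩
      rw [Finset.eq_empty_iff_forall_notMem]
      intro p hp
      exact hk p (h1 hp) ((pr_dvd_iff hQ h1 k).1 h2 p hp)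
    · rintro rfl
      refine ⟨⟨Finset.empty_subset _, by simp⟩, ?_, ?_⟩
      · unfold pr; simp
      · unfold pr; simpa using hkX
  unfold gam
  rw [h1]; simp

lemma gam_zero {Q : Finset ℕ} (hQ : ∀ p ∈ Q, p.Prime) {w X k : ℕ} (hkX : k ≤ X)
    (hk : (Q.filter (fun p => p ∣ k)).Nonempty) (hw : (Q.filter (fun p => p ∣ k)).card ≤ w) :
    gam Q w X k = 0 := by
  have h1 : (SF Q w).filter (fun S => pr S ∣ k ∧ k / pr S ≤ X)
      = (Q.filter (fun p => p ∣ k)).powerset := by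
    ext S
    rw [Finset.mem_filter, mem_SF, Finset.mem_powerset]
    constructor
    · rintro ⟨⟨h1, _⟩, h2, _⟩
      intro p hp
      rw [Finset.mem_filter]
      exact ⟨h1 hp, (pr_dvd_iff hQ h1 k).1 h2 p hp⟩
    · intro h
      have hS : S ⊆ Q := h.trans (Finset.filter_subset _ _)
      refine ⟨⟨hS, (Finset.card_le_card h).trans hw⟩, ?_, ?_⟩
      · exact (pr_dvd_iff hQ hS k).2 (fun p hp => (Finset.mem_filter.1 (h hp)).2)
      · exact (Nat.div_le_self _ _).trans hkX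
  unfold gam
  rw [h1]
  exact Finset.sum_powerset_neg_one_pow_card_of_nonempty hk

lemma abs_gam_le {Q : Finset ℕ} (hQ : ∀ p ∈ Q, p.Prime) (w X : ℕ) {k : ℕ} (hk : k ≠ 0) :
    |gam Q w X k| ≤ (k.divisors.card : ℤ) := by
  unfold gam
  refine (Finset.abs_sum_le_sum_abs _ _).trans ?_
  have h1 : ∀ S ∈ (SF Q w).filter (fun S => pr S ∣ k ∧ k / pr S ≤ X),
      |(-1 : ℤ) ^ S.card| = 1 := by
    intro S _
    rw [abs_pow, abs_neg, abs_one, one_pow]
  rw [Finset.sum_congr rfl h1, Finset.sum_const, nsmul_eq_mul, mul_one]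
  have h2 : ((SF Q w).filter (fun S => pr S ∣ k ∧ k / pr S ≤ X)).card ≤ k.divisors.card := by
    apply Finset.card_le_card_of_injOn pr
    · intro S hS
      rw [Finset.mem_coe, Finset.mem_filter] at hS
      rw [Finset.mem_coe, Nat.mem_divisors]
      exact ⟨hS.2.1, hk⟩
    · intro S hS T hT h
      rw [Finset.mem_coe, Finset.mem_filter, mem_SF] at hS hT
      rw [← primeFactors_pr hQ hS.1.1, ← primeFactors_pr hQ hT.1.1, h]
  exact_mod_cast h2

variable {q : ℕ} [hq : Fact q.Prime]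

/-- the mollifier -/
noncomputable def Mo (Q : Finset ℕ) (w : ℕ) (χ : DirichletCharacter ℂ q) : ℂ :=
  ∑ S ∈ SF Q w, ((((-1) ^ S.card * ((pr S : ℕ) : ℝ) ^ (-(1 / 2) : ℝ) : ℝ)) : ℂ) *
    χ ((pr S : ℕ) : ZMod q)

/-- the mollified truncated series -/
theorem D_mul_Mo {Q : Finset ℕ} (hQ : ∀ p ∈ Q, p.Prime) (w X U : ℕ)
    (hU : ∀ S ∈ SF Q w, X * pr S ≤ U) (χ : DirichletCharacter ℂ q) :
    Approx.D χ X * Mo Q w χ = ∑ k ∈ Finset.Icc 1 U,
      (((gam Q w X k : ℝ) * (k : ℝ) ^ (-(1 / 2) : ℝ) : ℝ) : ℂ) * χ (k : ZMod q) := by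
  unfold Approx.D Mo
  rw [Finset.mul_sum]
  have h1 : ∀ S ∈ SF Q w, (∑ n ∈ Finset.Icc 1 X, χ (n : ZMod q) * (((n : ℝ) ^ (-(1 / 2) : ℝ) : ℝ) : ℂ)) *
      (((((-1) ^ S.card * ((pr S : ℕ) : ℝ) ^ (-(1 / 2) : ℝ) : ℝ)) : ℂ) * χ ((pr S : ℕ) : ZMod q))
      = ∑ k ∈ Finset.Icc 1 U, (if pr S ∣ k ∧ k / pr S ≤ X then
        ((((-1) ^ S.card * (k : ℝ) ^ (-(1 / 2) : ℝ) : ℝ)) : ℂ) * χ (k : ZMod q) else 0) := by
    intro S hS
    have hS' := mem_SF.1 hS
    have hpos : 0 < pr S := pr_pos hQ hS'.1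
    rw [← Finset.sum_filter, Finset.sum_mul]
    refine Finset.sum_nbij' (fun n => n * pr S) (fun k => k / pr S) ?_ ?_ ?_ ?_ ?_
    · intro n hn
      rw [Finset.mem_Icc] at hn
      rw [Finset.mem_filter, Finset.mem_Icc, Nat.mul_div_cancel _ hpos]
      refine ⟨⟨Nat.mul_pos hn.1 hpos, ?_⟩, Dvd.intro_left _ rfl, hn.2⟩
      exact (Nat.mul_le_mul_right _ hn.2).trans (hU S hS)
    · intro k hk
      rw [Finset.mem_filter, Finset.mem_Icc] at hk
      rw [Finset.mem_Icc]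
      refine ⟨?_, hk.2.2⟩
      exact Nat.div_pos (Nat.le_of_dvd hk.1.1 hk.2.1) hpos
    · intro n _
      exact Nat.mul_div_cancel _ hpos
    · intro k hk
      rw [Finset.mem_filter] at hk
      exact Nat.div_mul_cancel hk.2.1
    · intro n _
      push_cast
      rw [map_mul, Real.mul_rpow (Nat.cast_nonneg _) (Nat.cast_nonneg _)]
      push_cast
      ring
  rw [Finset.sum_congr rfl h1, Finset.sum_comm]
  apply Finset.sum_congr rfl
  intro k _
  rw [← Finset.sum_filter, ← Finset.sum_mul]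
  congr 1
  unfold gam
  push_cast
  rw [Finset.sum_mul]

end Pool.Agent.H.MP_3e6494_nt.T6Mo
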