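import Mathlib
import Pool.Agent.H.MP_3e6494_nt.helper50.T6Mo
import Pool.Agent.H.MP_3e6494_nt.helper50.T6Par
import Pool.Agent.H.MP_3e6494_nt.helper50.T6Loc
import Pool.Agent.H.MP_3e6494_nt.helper50.CosetMain

/-!
The averaged mollified resonance inequality.
-/

open Finset

set_option linter.unusedSectionVars false
set_option linter.unusedVariables false

namespace Pool.Agent.H.MP_3e6494_nt.T6Main

open LocalProd Coset T6Mo T6Par
open Pool.Agent.H.MP_3e6494_nt.Class (mem K mem_mem card_mem)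

variable {q : ℕ} [hq : Fact q.Prime] {P Q : Finset ℕ} {f : ℕ → ℝ} {N X Z U w : ℕ}

/-- a Dirichlet polynomial with real coefficients -/
noncomputable def PG (𝒦 : Finset ℕ) (g : ℕ → ℝ) (χ : DirichletCharacter ℂ q) : ℂ :=
  ∑ k ∈ 𝒦, ((g k : ℝ) : ℂ) * χ (k : ZMod q)

/-- the square of the resonator -/
noncomputable def R2 (P : Finset ℕ) (f : ℕ → ℝ) (N : ℕ) (χ : DirichletCharacter ℂ q) : ℝ :=
  ‖RR P f N χ‖ ^ 2

lemma R2_nonneg (χ : DirichletCharacter ℂ q) : 0 ≤ R2 P f N χ := sq_nonneg _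

open scoped Classical in
lemma expand (hP : ∀ p ∈ P, p.Prime ∧ p < q) (𝒦 : Finset ℕ) (g : ℕ → ℝ)
    (χ : DirichletCharacter ℂ q) :
    PG 𝒦 g χ * ((R2 P f N χ : ℝ) : ℂ)
      = ∑ t ∈ (𝒦.filter (fun k => k.Coprime q)) ×ˢ (Fam P N ×ˢ Fam P N),
          ((g t.1 * (fS f t.2.1 * fS f t.2.2) : ℝ) : ℂ) * χ (zt q t : (ZMod q)ˣ) := by
  unfold R2
  rw [normSq_RR hP, Finset.sum_product]
  have h2 : PG 𝒦 g χ = ∑ k ∈ 𝒦.filter (fun k => k.Coprime q), ((g k : ℝ) : ℂ) * χ (k : ZMod q) := by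
    unfold PG
    symm
    apply Finset.sum_subset (Finset.filter_subset _ _)
    intro m hm hm'
    rw [Finset.mem_filter, not_and] at hm'
    have h3 := hm' hm
    have : ¬ IsUnit (m : ZMod q) := by
      rw [ZMod.isUnit_iff_coprime]; exact h3
    rw [MulChar.map_nonunit _ this, mul_zero]
  rw [h2, Finset.sum_mul]
  apply Finset.sum_congr rfl; intro m hm
  rw [Finset.mem_filter] at hm
  rw [Finset.sum_product, Finset.mul_sum]
  apply Finset.sum_congr rfl; intro A _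
  rw [Finset.mul_sum]
  apply Finset.sum_congr rfl; intro B _
  unfold zt
  simp only
  have h5 : ∀ y : (ZMod q)ˣ, χ ((un q m * y : (ZMod q)ˣ) : ZMod q)
      = χ (m : ZMod q) * χ (y : ZMod q) := by
    intro y
    rw [Units.val_mul, map_mul, un_val hm.2]
  rw [h5]
  push_cast
  ring

lemma sum_ff_eq : ∑ x ∈ Fam P N ×ˢ Fam P N, fS f x.1 * fS f x.2 = (∑ S ∈ Fam P N, fS f S) ^ 2 := by
  rw [sq, Finset.sum_mul_sum, ← Finset.sum_product']

open scoped Classical in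
/-- second moment over the cosets of a long polynomial -/
theorem S3_bound (H : Subgroup (DirichletCharacter ℂ q)) (hP : ∀ p ∈ P, p.Prime ∧ p < q)
    (hf : ∀ p ∈ P, 0 ≤ f p) (g : ℕ → ℝ) (D τ : ℝ) (hD : 0 ≤ D) (hτ0 : 0 ≤ τ)
    (hg : ∀ k ∈ Finset.Ioc Z U, g k ^ 2 ≤ D ^ 2 * (1 / (k : ℝ)))
    (hτ : ∀ c : (ZMod q)ˣ,
      ∑ m ∈ (Finset.Ioc Z U).filter (fun m => m.Coprime q ∧ un q m * c ∈ K H), 1 / (m : ℝ) ≤ τ) :
    ∑ χ₀ ∈ XX q, ‖∑ ψ ∈ mem H, PG (Finset.Ioc Z U) g (χ₀ * ψ) * ((R2 P f N (χ₀ * ψ) : ℝ) : ℂ)‖ ^ 2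
      ≤ ((mem H).card : ℝ) ^ 2 * ((XX q).card *
        ((N * Fin P f) ^ 2 * (((U / q + 1 : ℕ) : ℝ) * D ^ 2 * τ))) := by
  have hP' : ∀ p ∈ P, p.Prime := fun p hp => (hP p hp).1
  set T := ((Finset.Ioc Z U).filter (fun k => k.Coprime q)) ×ˢ (Fam P N ×ˢ Fam P N) with hT
  set wf : ℕ × Finset ℕ × Finset ℕ → ℝ := fun t => g t.1 * (fS f t.2.1 * fS f t.2.2) with hwf
  have hmean : ∀ χ₀ : DirichletCharacter ℂ q,
      ∑ ψ ∈ mem H, PG (Finset.Ioc Z U) g (χ₀ * ψ) * ((R2 P f N (χ₀ * ψ) : ℝ) : ℂ)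
      = ((mem H).card : ℂ) * ∑ t ∈ T.filter (fun t => zt q t ∈ K H),
          ((wf t : ℝ) : ℂ) * χ₀ (zt q t : (ZMod q)ˣ) := by
    intro χ₀
    rw [← coset_mean]
    apply Finset.sum_congr rfl; intro ψ _
    rw [expand hP]
  have h1 : ∀ χ₀ ∈ XX q,
      ‖∑ ψ ∈ mem H, PG (Finset.Ioc Z U) g (χ₀ * ψ) * ((R2 P f N (χ₀ * ψ) : ℝ) : ℂ)‖ ^ 2
      = ((mem H).card : ℝ) ^ 2 * ‖∑ t ∈ T.filter (fun t => zt q t ∈ K H),
          ((wf t : ℝ) : ℂ) * χ₀ (zt q t : (ZMod q)ˣ)‖ ^ 2 := by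
    intro χ₀ _
    rw [hmean, norm_mul, mul_pow, Complex.norm_natCast]
  rw [Finset.sum_congr rfl h1, ← Finset.mul_sum, coset_second]
  apply mul_le_mul_of_nonneg_left _ (by positivity)
  apply mul_le_mul_of_nonneg_left _ (by positivity)
  set UQ : ℝ := ((U / q + 1 : ℕ) : ℝ) with hUQ
  set F2 := Fam P N ×ˢ Fam P N with hF2
  have hff : ∀ x ∈ F2, 0 ≤ fS f x.1 * fS f x.2 := by
    intro x hx
    rw [hF2, Finset.mem_product] at hx
    exact mul_nonneg (fS_nonneg hf (mem_Fam.1 hx.1).1) (fS_nonneg hf (mem_Fam.1 hx.2).1)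
  set cc : Finset ℕ × Finset ℕ → (ZMod q)ˣ := fun x => un q (pr x.1) * (un q (pr x.2))⁻¹ with hcc
  set γ : (ZMod q)ˣ → Finset ℕ × Finset ℕ → ℝ := fun κ x =>
    ∑ k ∈ ((Finset.Ioc Z U).filter (fun k => k.Coprime q)).filter (fun k => un q k * cc x = κ), g k
    with hγ
  have hcls : ∀ κ : (ZMod q)ˣ, ∑ t ∈ T.filter (fun t => zt q t = κ), wf t
      = ∑ x ∈ F2, (fS f x.1 * fS f x.2) * γ κ x := by
    intro κ
    rw [Finset.sum_filter, hT, Finset.sum_product, Finset.sum_comm]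
    apply Finset.sum_congr rfl; intro x _
    rw [hγ]
    simp only
    rw [Finset.mul_sum, Finset.sum_filter (s := (Finset.Ioc Z U).filter (fun k => k.Coprime q))]
    apply Finset.sum_congr rfl; intro k _
    rw [hwf, hcc]
    unfold zt
    simp only
    split_ifs
    · ring
    · rfl
  have hγ2 : ∀ κ : (ZMod q)ˣ, ∀ x ∈ F2, (γ κ x) ^ 2 ≤ UQ * D ^ 2 *
      ∑ k ∈ ((Finset.Ioc Z U).filter (fun k => k.Coprime q)).filter (fun k => un q k * cc x = κ),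
        1 / (k : ℝ) := by
    intro κ x _
    set S := ((Finset.Ioc Z U).filter (fun k => k.Coprime q)).filter (fun k => un q k * cc x = κ)
      with hS
    have hSc : (S.card : ℝ) ≤ UQ := by
      have : S.card ≤ U / q + 1 := by
        refine le_trans (Finset.card_le_card ?_) (T3Cnt.residue_count ((κ * (cc x)⁻¹ : (ZMod q)ˣ) : ZMod q) U)
        intro k hk
        rw [hS, Finset.mem_filter, Finset.mem_filter, Finset.mem_Ioc] at hk
        rw [Finset.mem_filter, Finset.mem_Icc]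
        refine ⟨⟨by omega, hk.1.1.2⟩, ?_⟩
        rw [← hk.2, mul_inv_cancel_right, un_val hk.1.2]
      rw [hUQ]
      exact_mod_cast this
    calc (γ κ x) ^ 2 ≤ S.card * ∑ k ∈ S, g k ^ 2 := sq_sum_le_card_mul_sum_sq
      _ ≤ UQ * ∑ k ∈ S, D ^ 2 * (1 / (k : ℝ)) := by
          apply mul_le_mul hSc _ (Finset.sum_nonneg fun _ _ => sq_nonneg _) (by positivity)
          apply Finset.sum_le_sum
          intro k hk
          rw [hS, Finset.mem_filter, Finset.mem_filter] at hk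
          exact hg k hk.1.1
      _ = _ := by rw [← Finset.mul_sum]; ring
  have hcs : ∀ κ : (ZMod q)ˣ, (∑ x ∈ F2, (fS f x.1 * fS f x.2) * γ κ x) ^ 2
      ≤ (∑ x ∈ F2, fS f x.1 * fS f x.2) * ∑ x ∈ F2, (fS f x.1 * fS f x.2) * (γ κ x) ^ 2 := by
    intro κ
    have h := Finset.sum_mul_sq_le_sq_mul_sq F2 (fun x => Real.sqrt (fS f x.1 * fS f x.2))
      (fun x => Real.sqrt (fS f x.1 * fS f x.2) * γ κ x)
    have e1 : ∑ x ∈ F2, Real.sqrt (fS f x.1 * fS f x.2) * (Real.sqrt (fS f x.1 * fS f x.2) * γ κ x)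
        = ∑ x ∈ F2, (fS f x.1 * fS f x.2) * γ κ x := by
      apply Finset.sum_congr rfl; intro x hx
      rw [← mul_assoc, Real.mul_self_sqrt (hff x hx)]
    have e2 : ∑ x ∈ F2, Real.sqrt (fS f x.1 * fS f x.2) ^ 2 = ∑ x ∈ F2, fS f x.1 * fS f x.2 := by
      apply Finset.sum_congr rfl; intro x hx
      rw [Real.sq_sqrt (hff x hx)]
    have e3 : ∑ x ∈ F2, (Real.sqrt (fS f x.1 * fS f x.2) * γ κ x) ^ 2
        = ∑ x ∈ F2, (fS f x.1 * fS f x.2) * (γ κ x) ^ 2 := by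
      apply Finset.sum_congr rfl; intro x hx
      rw [mul_pow, Real.sq_sqrt (hff x hx)]
    rw [e1, e2, e3] at h
    exact h
  have hsumff : ∑ x ∈ F2, fS f x.1 * fS f x.2 ≤ N * Fin P f := by
    rw [hF2, sum_ff_eq]
    exact sum_fS_sq_le hP' hf
  have hsumff0 : 0 ≤ ∑ x ∈ F2, fS f x.1 * fS f x.2 := Finset.sum_nonneg hff
  calc ∑ κ ∈ (Finset.univ : Finset (ZMod q)ˣ).filter (fun κ => κ ∈ K H),
          (∑ t ∈ T.filter (fun t => zt q t = κ), wf t) ^ 2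
      ≤ ∑ κ ∈ (Finset.univ : Finset (ZMod q)ˣ).filter (fun κ => κ ∈ K H),
          (∑ x ∈ F2, fS f x.1 * fS f x.2) * ∑ x ∈ F2, (fS f x.1 * fS f x.2) * (γ κ x) ^ 2 := by
        apply Finset.sum_le_sum; intro κ _
        rw [hcls]; exact hcs κ
    _ = (∑ x ∈ F2, fS f x.1 * fS f x.2) * ∑ x ∈ F2, (fS f x.1 * fS f x.2) *
          ∑ κ ∈ (Finset.univ : Finset (ZMod q)ˣ).filter (fun κ => κ ∈ K H), (γ κ x) ^ 2 := by
        rw [← Finset.mul_sum, Finset.sum_comm]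
        congr 1
        apply Finset.sum_congr rfl; intro x _
        rw [Finset.mul_sum]
    _ ≤ (∑ x ∈ F2, fS f x.1 * fS f x.2) * ∑ x ∈ F2, (fS f x.1 * fS f x.2) *
          (UQ * D ^ 2 * τ) := by
        apply mul_le_mul_of_nonneg_left _ hsumff0
        apply Finset.sum_le_sum; intro x hx
        apply mul_le_mul_of_nonneg_left _ (hff x hx)
        calc ∑ κ ∈ (Finset.univ : Finset (ZMod q)ˣ).filter (fun κ => κ ∈ K H), (γ κ x) ^ 2
            ≤ ∑ κ ∈ (Finset.univ : Finset (ZMod q)ˣ).filter (fun κ => κ ∈ K H), UQ * D ^ 2 *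
              ∑ k ∈ ((Finset.Ioc Z U).filter (fun k => k.Coprime q)).filter
                (fun k => un q k * cc x = κ), 1 / (k : ℝ) :=
              Finset.sum_le_sum fun κ _ => hγ2 κ x hx
          _ = UQ * D ^ 2 * ∑ κ ∈ (Finset.univ : Finset (ZMod q)ˣ).filter (fun κ => κ ∈ K H),
              ∑ k ∈ ((Finset.Ioc Z U).filter (fun k => k.Coprime q)).filter
                (fun k => un q k * cc x = κ), 1 / (k : ℝ) := by rw [← Finset.mul_sum]
          _ ≤ UQ * D ^ 2 * τ := by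
              apply mul_le_mul_of_nonneg_left _ (by positivity)
              refine le_trans (le_of_eq ?_) (hτ (cc x))
              rw [← Finset.filter_filter]
              rw [← Finset.sum_fiberwise_of_maps_to (s := ((Finset.Ioc Z U).filter
                (fun k => k.Coprime q)).filter (fun k => un q k * cc x ∈ K H))
                (t := (Finset.univ : Finset (ZMod q)ˣ).filter (fun κ => κ ∈ K H))
                (g := fun k => un q k * cc x)]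
              · apply Finset.sum_congr rfl
                intro κ hκ
                rw [Finset.mem_filter] at hκ
                apply Finset.sum_congr _ (fun _ _ => rfl)
                ext k
                simp only [Finset.mem_filter]
                constructor
                · rintro ⟨a, b⟩; exact ⟨⟨a, b ▸ hκ.2⟩, b⟩
                · rintro ⟨⟨a, _⟩, b⟩; exact ⟨a, b⟩
              · intro k hk
                rw [Finset.mem_filter] at hk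
                rw [Finset.mem_filter]
                exact ⟨Finset.mem_univ _, hk.2⟩
    _ = (∑ x ∈ F2, fS f x.1 * fS f x.2) ^ 2 * (UQ * D ^ 2 * τ) := by
        rw [← Finset.sum_mul]; ring
    _ ≤ (N * Fin P f) ^ 2 * (UQ * D ^ 2 * τ) := by
        apply mul_le_mul_of_nonneg_right _ (by positivity)
        exact pow_le_pow_left₀ hsumff0 hsumff 2

/-- second moment of a short polynomial -/
theorem S2_bound (H : Subgroup (DirichletCharacter ℂ q)) (hP : ∀ p ∈ P, p.Prime ∧ p < q)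
    (hf : ∀ p ∈ P, 0 ≤ f p) (𝒦 : Finset ℕ) (h𝒦 : ∀ k ∈ 𝒦, 1 ≤ k ∧ k < q) (g : ℕ → ℝ) :
    ∑ χ₀ ∈ XX q, ‖∑ ψ ∈ mem H, PG 𝒦 g (χ₀ * ψ) * ((R2 P f N (χ₀ * ψ) : ℝ) : ℂ)‖ ^ 2
      ≤ ((mem H).card : ℝ) ^ 2 * ((XX q).card * ((N * Fin P f) ^ 2 * ∑ k ∈ 𝒦, g k ^ 2)) := by
  classical
  have hP' : ∀ p ∈ P, p.Prime := fun p hp => (hP p hp).1
  have hFin0 : 0 ≤ Fin P f := le_trans zero_le_one one_le_Fin
  have h1 : ∀ χ₀ ∈ XX q, ‖∑ ψ ∈ mem H, PG 𝒦 g (χ₀ * ψ) * ((R2 P f N (χ₀ * ψ) : ℝ) : ℂ)‖ ^ 2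
      ≤ (mem H).card * ∑ ψ ∈ mem H, ((N * Fin P f) ^ 2 * ‖PG 𝒦 g (χ₀ * ψ)‖ ^ 2) := by
    intro χ₀ _
    calc ‖∑ ψ ∈ mem H, PG 𝒦 g (χ₀ * ψ) * ((R2 P f N (χ₀ * ψ) : ℝ) : ℂ)‖ ^ 2
        ≤ (∑ ψ ∈ mem H, ‖PG 𝒦 g (χ₀ * ψ) * ((R2 P f N (χ₀ * ψ) : ℝ) : ℂ)‖) ^ 2 :=
          pow_le_pow_left₀ (norm_nonneg _) (norm_sum_le _ _) 2
      _ ≤ (mem H).card * ∑ ψ ∈ mem H, ‖PG 𝒦 g (χ₀ * ψ) * ((R2 P f N (χ₀ * ψ) : ℝ) : ℂ)‖ ^ 2 :=
          sq_sum_le_card_mul_sum_sq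
      _ ≤ _ := by
          apply mul_le_mul_of_nonneg_left _ (Nat.cast_nonneg _)
          apply Finset.sum_le_sum; intro ψ _
          rw [norm_mul, mul_pow, Complex.norm_real, Real.norm_of_nonneg (R2_nonneg _), mul_comm]
          apply mul_le_mul_of_nonneg_right _ (sq_nonneg _)
          exact pow_le_pow_left₀ (R2_nonneg _) (CosetMain.norm_RR_sq_le hP' hf _) 2
  refine (Finset.sum_le_sum h1).trans ?_
  rw [← Finset.mul_sum, shift_sum H (fun χ => (N * Fin P f) ^ 2 * ‖PG 𝒦 g χ‖ ^ 2), ← Finset.mul_sum]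
  have hcop : ∀ k ∈ 𝒦, k.Coprime q := by
    intro k hk
    have h2 := h𝒦 k hk
    rw [Nat.coprime_comm, Nat.Prime.coprime_iff_not_dvd hq.out]
    intro hd
    exact absurd (Nat.le_of_dvd (by omega) hd) (by omega)
  have h2 : ∑ χ ∈ XX q, ‖PG 𝒦 g χ‖ ^ 2 = (XX q).card * ∑ k ∈ 𝒦, g k ^ 2 := by
    rw [← parseval_inj 𝒦 g (un q)]
    · apply Finset.sum_congr rfl; intro χ _
      congr 2
      unfold PG
      apply Finset.sum_congr rfl; intro k hk
      rw [un_val (hcop k hk)]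
    · intro a ha b hb h
      have h3 : ((un q a : (ZMod q)ˣ) : ZMod q) = ((un q b : (ZMod q)ˣ) : ZMod q) := by rw [h]
      rw [un_val (hcop a ha), un_val (hcop b hb)] at h3
      exact eq_of_cast_eq (h𝒦 a ha).2 (h𝒦 b hb).2 h3
  rw [h2]
  apply le_of_eq; ring

/-- the mean of the resonator against the mollifier -/
theorem mean_RMo (hP : ∀ p ∈ P, p.Prime ∧ p < q) (hPQ : Disjoint P Q)
    (hQ : ∀ p ∈ Q, p.Prime ∧ p < q) (hf : ∀ p ∈ P, 0 ≤ f p) (W : ℕ)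
    (hW : ∀ S ∈ SF Q w, pr S ≤ W) (hNW : N * W < q) (hN1 : 1 ≤ N) (hW1 : 1 ≤ W) (c : ℝ) (hc : 0 < c)
    (hc2 : ∑ S ∈ SF Q w, 1 / ((pr S : ℕ) : ℝ) ≤ c ^ 2) :
    ∑ χ ∈ XX q, R2 P f N χ * ‖Mo Q w χ‖ ≤ (XX q).card * (Fin P f * c) := by
  classical
  have hP' : ∀ p ∈ P, p.Prime := fun p hp => (hP p hp).1
  have hQ' : ∀ p ∈ Q, p.Prime := fun p hp => (hQ p hp).1
  have hFin0 : 0 ≤ Fin P f := le_trans zero_le_one one_le_Fin
  have hNq : N < q := lt_of_le_of_lt (Nat.le_mul_of_pos_right _ hW1) hNW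
  have hFle : ∑ S ∈ Fam P N, fS f S ^ 2 ≤ Fin P f := by
    rw [← sum_sq_eq]
    exact Finset.sum_le_sum_of_subset_of_nonneg (Finset.filter_subset _ _)
      (fun _ _ _ => sq_nonneg _)
  -- the plain second moment
  have h1 : ∑ χ ∈ XX q, R2 P f N χ ≤ (XX q).card * Fin P f := by
    have e : ∑ χ ∈ XX q, R2 P f N χ = (XX q).card * ∑ S ∈ Fam P N, fS f S ^ 2 := by
      rw [← parseval_inj (Fam P N) (fun S => fS f S) (fun S => un q (pr S))]
      · apply Finset.sum_congr rfl; intro χ _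
        unfold R2 RR
        congr 2
        apply Finset.sum_congr rfl; intro S hS
        rw [un_val (pr_coprime hP (mem_Fam.1 hS).1)]
      · intro a ha b hb h
        have ha' := mem_Fam.1 ha
        have hb' := mem_Fam.1 hb
        have h3 : ((un q (pr a) : (ZMod q)ˣ) : ZMod q) = ((un q (pr b) : (ZMod q)ˣ) : ZMod q) := by
          rw [h]
        rw [un_val (pr_coprime hP ha'.1), un_val (pr_coprime hP hb'.1)] at h3
        have h4 := eq_of_cast_eq (lt_of_le_of_lt ha'.2 hNq) (lt_of_le_of_lt hb'.2 hNq) h3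
        rw [← primeFactors_pr hP' ha'.1, ← primeFactors_pr hP' hb'.1, h4]
    rw [e]
    exact mul_le_mul_of_nonneg_left hFle (Nat.cast_nonneg _)
  -- the mollified second moment
  have h2 : ∑ χ ∈ XX q, R2 P f N χ * ‖Mo Q w χ‖ ^ 2 ≤ (XX q).card * (Fin P f * c ^ 2) := by
    set T := Fam P N ×ˢ SF Q w with hT
    set wf : Finset ℕ × Finset ℕ → ℝ := fun x =>
      fS f x.1 * ((-1) ^ x.2.card * ((pr x.2 : ℕ) : ℝ) ^ (-(1 / 2) : ℝ)) with hwf
    have e : ∑ χ ∈ XX q, R2 P f N χ * ‖Mo Q w χ‖ ^ 2 = (XX q).card * ∑ x ∈ T, wf x ^ 2 := by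
      rw [← parseval_inj T wf (fun x => un q (pr x.1) * un q (pr x.2))]
      · apply Finset.sum_congr rfl; intro χ _
        unfold R2
        rw [← mul_pow, ← norm_mul]
        congr 2
        unfold RR Mo
        rw [Finset.sum_mul_sum, ← Finset.sum_product']
        apply Finset.sum_congr rfl; intro x hx
        rw [Finset.mem_product] at hx
        rw [Units.val_mul, map_mul, un_val (pr_coprime hP (mem_Fam.1 hx.1).1),
          un_val (pr_coprime hQ (mem_SF.1 hx.2).1), hwf]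
        push_cast
        ring
      · intro a ha b hb h
        rw [hT, Finset.mem_product] at ha hb
        have ha1 := mem_Fam.1 ha.1
        have hb1 := mem_Fam.1 hb.1
        have ha2 := mem_SF.1 ha.2
        have hb2 := mem_SF.1 hb.2
        have h3 : ((un q (pr a.1) * un q (pr a.2) : (ZMod q)ˣ) : ZMod q)
            = ((un q (pr b.1) * un q (pr b.2) : (ZMod q)ˣ) : ZMod q) := by rw [h]
        rw [Units.val_mul, Units.val_mul, un_val (pr_coprime hP ha1.1),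
          un_val (pr_coprime hP hb1.1), un_val (pr_coprime hQ ha2.1),
          un_val (pr_coprime hQ hb2.1), ← Nat.cast_mul, ← Nat.cast_mul] at h3
        have h4 := eq_of_cast_eq
          (lt_of_le_of_lt (Nat.mul_le_mul ha1.2 (hW _ ha.2)) hNW)
          (lt_of_le_of_lt (Nat.mul_le_mul hb1.2 (hW _ hb.2)) hNW) h3
        have hmem : ∀ (A B : Finset ℕ), A ⊆ P → B ⊆ Q → ∀ p : ℕ, p.Prime →
            ((p ∈ A ↔ (p ∣ pr A * pr B ∧ p ∈ P)) ∧ (p ∈ B ↔ (p ∣ pr A * pr B ∧ p ∈ Q))) := by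
          intro A B hA hB p hp
          constructor
          · constructor
            · intro h; exact ⟨((prime_dvd_pr hP' hA hp).2 h).mul_right _, hA h⟩
            · rintro ⟨h5, h6⟩
              rcases hp.dvd_mul.1 h5 with h7 | h7
              · exact (prime_dvd_pr hP' hA hp).1 h7
              · exact absurd (hB ((prime_dvd_pr hQ' hB hp).1 h7)) (Finset.disjoint_left.1 hPQ h6)
          · constructor
            · intro h; exact ⟨((prime_dvd_pr hQ' hB hp).2 h).mul_left _, hB h⟩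
            · rintro ⟨h5, h6⟩
              rcases hp.dvd_mul.1 h5 with h7 | h7
              · exact absurd h6 (Finset.disjoint_left.1 hPQ (hA ((prime_dvd_pr hP' hA hp).1 h7)))
              · exact (prime_dvd_pr hQ' hB hp).1 h7
        apply Prod.ext
        · ext p
          constructor
          · intro h5
            have hp := hP' p (ha1.1 h5)
            rw [(hmem _ _ hb1.1 hb2.1 p hp).1, ← h4]
            exact (hmem _ _ ha1.1 ha2.1 p hp).1.1 h5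
          · intro h5
            have hp := hP' p (hb1.1 h5)
            rw [(hmem _ _ ha1.1 ha2.1 p hp).1, h4]
            exact (hmem _ _ hb1.1 hb2.1 p hp).1.1 h5
        · ext p
          constructor
          · intro h5
            have hp := hQ' p (ha2.1 h5)
            rw [(hmem _ _ hb1.1 hb2.1 p hp).2, ← h4]
            exact (hmem _ _ ha1.1 ha2.1 p hp).2.1 h5
          · intro h5
            have hp := hQ' p (hb2.1 h5)
            rw [(hmem _ _ ha1.1 ha2.1 p hp).2, h4]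
            exact (hmem _ _ hb1.1 hb2.1 p hp).2.1 h5
    rw [e]
    apply mul_le_mul_of_nonneg_left _ (Nat.cast_nonneg _)
    have e2 : ∑ x ∈ T, wf x ^ 2 = (∑ S ∈ Fam P N, fS f S ^ 2) * ∑ S ∈ SF Q w, 1 / ((pr S : ℕ) : ℝ) := by
      rw [hT, Finset.sum_mul_sum, ← Finset.sum_product']
      apply Finset.sum_congr rfl; intro x hx
      rw [Finset.mem_product] at hx
      have hpos : (0 : ℝ) < ((pr x.2 : ℕ) : ℝ) := by exact_mod_cast pr_pos hQ' (mem_SF.1 hx.2).1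
      have e3 : (((pr x.2 : ℕ) : ℝ) ^ (-(1 / 2) : ℝ)) ^ 2 = 1 / ((pr x.2 : ℕ) : ℝ) := by
        rw [← Real.rpow_natCast, ← Real.rpow_mul hpos.le]
        have e4 : (-(1 / 2) * ((2 : ℕ) : ℝ) : ℝ) = -1 := by push_cast; ring
        rw [e4, Real.rpow_neg_one, one_div]
      rw [hwf]
      simp only
      rw [mul_pow, mul_pow, e3, ← pow_mul, mul_comm x.2.card 2, pow_mul]
      norm_num
    rw [e2]
    exact mul_le_mul hFle hc2 (Finset.sum_nonneg fun _ _ => by positivity) hFin0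
  have h3 : ∀ χ ∈ XX q, R2 P f N χ * ‖Mo Q w χ‖
      ≤ (c / 2) * R2 P f N χ + (1 / (2 * c)) * (R2 P f N χ * ‖Mo Q w χ‖ ^ 2) := by
    intro χ _
    have h4 : ‖Mo Q w χ‖ ≤ c / 2 + (1 / (2 * c)) * ‖Mo Q w χ‖ ^ 2 := by
      have h5 : 0 ≤ (c - ‖Mo Q w χ‖) ^ 2 := sq_nonneg _
      have h6 : c / 2 + (1 / (2 * c)) * ‖Mo Q w χ‖ ^ 2 - ‖Mo Q w χ‖
          = (1 / (2 * c)) * (c - ‖Mo Q w χ‖) ^ 2 := by
        field_simp; ring
      have h7 : 0 ≤ (1 / (2 * c)) * (c - ‖Mo Q w χ‖) ^ 2 := by positivity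
      linarith
    have h5 := mul_le_mul_of_nonneg_left h4 (R2_nonneg (P := P) (f := f) (N := N) χ)
    linarith
  refine (Finset.sum_le_sum h3).trans ?_
  rw [Finset.sum_add_distrib, ← Finset.mul_sum, ← Finset.mul_sum]
  calc (c / 2) * ∑ χ ∈ XX q, R2 P f N χ + (1 / (2 * c)) * ∑ χ ∈ XX q, R2 P f N χ * ‖Mo Q w χ‖ ^ 2
      ≤ (c / 2) * ((XX q).card * Fin P f) + (1 / (2 * c)) * ((XX q).card * (Fin P f * c ^ 2)) := by
        gcongr
    _ = _ := by field_simp; ring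

/-- the coefficients of the mollified series -/
noncomputable def gk (Q : Finset ℕ) (w X : ℕ) (k : ℕ) : ℝ :=
  (gam Q w X k : ℝ) * (k : ℝ) ^ (-(1 / 2) : ℝ)

/-- splitting of the mollified series -/
lemma split (hQ : ∀ p ∈ Q, p.Prime) (hZX : Z ≤ X) (hZU : Z ≤ U) (χ : DirichletCharacter ℂ q) :
    PG (Finset.Icc 1 U) (gk Q w X) χ = ApproxQ.DQ Q χ Z
      + PG ((Finset.Icc 1 Z).filter (fun k => w < (Q.filter (fun p => p ∣ k)).card)) (gk Q w X) χ
      + PG (Finset.Ioc Z U) (gk Q w X) χ := by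
  have hsplit : Finset.Icc 1 U = Finset.Icc 1 Z ∪ Finset.Ioc Z U := by
    ext m; simp only [Finset.mem_Icc, Finset.mem_union, Finset.mem_Ioc]; omega
  have hdisj : Disjoint (Finset.Icc 1 Z) (Finset.Ioc Z U) := by
    rw [Finset.disjoint_left]; intro m h1 h2
    rw [Finset.mem_Icc] at h1; rw [Finset.mem_Ioc] at h2; omega
  unfold PG
  rw [hsplit, Finset.sum_union hdisj]
  congr 1
  unfold ApproxQ.DQ
  rw [Nat.floor_natCast, Finset.sum_filter, Finset.sum_filter, ← Finset.sum_add_distrib]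
  apply Finset.sum_congr rfl
  intro k hk
  rw [Finset.mem_Icc] at hk
  by_cases h1 : ∀ p ∈ Q, ¬ p ∣ k
  · have h2 : ¬ w < (Q.filter (fun p => p ∣ k)).card := by
      have : Q.filter (fun p => p ∣ k) = ∅ := by
        rw [Finset.filter_eq_empty_iff]; exact fun p hp => h1 p hp
      rw [this]; simp
    rw [if_pos h1, if_neg h2, add_zero]
    unfold gk
    rw [gam_one hQ (hk.2.trans hZX) h1]
    push_cast
    ring
  · rw [if_neg h1, zero_add]
    by_cases h2 : w < (Q.filter (fun p => p ∣ k)).card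
    · rw [if_pos h2]
    · rw [if_neg h2]
      unfold gk
      rw [gam_zero hQ (hk.2.trans hZX) _ (not_lt.1 h2)]
      · push_cast; ring
      · push Not at h1
        obtain ⟨p, hp, hpk⟩ := h1
        exact ⟨p, Finset.mem_filter.2 ⟨hp, hpk⟩⟩

lemma gk_sq_le (hQ : ∀ p ∈ Q, p.Prime) {k : ℕ} (hk : 0 < k) {D : ℝ}
    (hD : ((k.divisors).card : ℝ) ≤ D) : gk Q w X k ^ 2 ≤ D ^ 2 * (1 / (k : ℝ)) := by
  have hk0 : (0 : ℝ) < k := by exact_mod_cast hk
  unfold gk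
  rw [mul_pow]
  have e3 : ((k : ℝ) ^ (-(1 / 2) : ℝ)) ^ 2 = 1 / (k : ℝ) := by
    rw [← Real.rpow_natCast, ← Real.rpow_mul hk0.le]
    have e4 : (-(1 / 2) * ((2 : ℕ) : ℝ) : ℝ) = -1 := by push_cast; ring
    rw [e4, Real.rpow_neg_one, one_div]
  rw [e3]
  apply mul_le_mul_of_nonneg_right _ (by positivity)
  have h1 : |((gam Q w X k : ℤ) : ℝ)| ≤ D := by
    have h2 := abs_gam_le hQ w X hk.ne'
    have h3 : |((gam Q w X k : ℤ) : ℝ)| ≤ ((k.divisors.card : ℕ) : ℝ) := by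
      rw [← Int.cast_abs]
      exact_mod_cast h2
    exact h3.trans hD
  rw [← sq_abs]
  exact pow_le_pow_left₀ (abs_nonneg _) h1 2

lemma norm_Mo_le (χ : DirichletCharacter ℂ q) :
    ‖Mo Q w χ‖ ≤ ∑ S ∈ SF Q w, ((pr S : ℕ) : ℝ) ^ (-(1 / 2) : ℝ) := by
  unfold Mo
  refine norm_sum_le_of_le _ ?_
  intro S _
  rw [norm_mul, Complex.norm_real, Real.norm_eq_abs, abs_mul, abs_pow, abs_neg, abs_one, one_pow,
    one_mul, abs_of_nonneg (by positivity)]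
  calc ((pr S : ℕ) : ℝ) ^ (-(1 / 2) : ℝ) * ‖χ ((pr S : ℕ) : ZMod q)‖
      ≤ ((pr S : ℕ) : ℝ) ^ (-(1 / 2) : ℝ) * 1 :=
        mul_le_mul_of_nonneg_left (DirichletCharacter.norm_le_one _ _) (by positivity)
    _ = _ := mul_one _

/-- Cauchy-Schwarz over a set of characters -/
lemma cs_set (𝔅 : Finset (DirichletCharacter ℂ q)) (h𝔅 : 𝔅 ⊆ XX q) (F : DirichletCharacter ℂ q → ℝ)
    (hF : ∀ χ, 0 ≤ F χ) (s : ℝ) (hs : 0 ≤ s) (h : ∑ χ ∈ XX q, F χ ^ 2 ≤ s ^ 2) :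
    ∑ χ ∈ 𝔅, F χ ≤ Real.sqrt 𝔅.card * s := by
  have h1 : (∑ χ ∈ 𝔅, F χ) ^ 2 ≤ 𝔅.card * ∑ χ ∈ 𝔅, F χ ^ 2 := sq_sum_le_card_mul_sum_sq
  have h2 : ∑ χ ∈ 𝔅, F χ ^ 2 ≤ s ^ 2 :=
    (Finset.sum_le_sum_of_subset_of_nonneg h𝔅 (fun _ _ _ => sq_nonneg _)).trans h
  have h3 : (∑ χ ∈ 𝔅, F χ) ^ 2 ≤ (Real.sqrt 𝔅.card * s) ^ 2 := by
    rw [mul_pow, Real.sq_sqrt (Nat.cast_nonneg _)]
    exact h1.trans (mul_le_mul_of_nonneg_left h2 (Nat.cast_nonneg _))
  exact (pow_le_pow_iff_left₀ (Finset.sum_nonneg fun _ _ => hF _) (by positivity) (by norm_num)).1 h3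

open scoped Classical in
/-- the averaged inequality -/
theorem main_ineq (H : Subgroup (DirichletCharacter ℂ q))
    (hP : ∀ p ∈ P, p.Prime ∧ p < q) (hPQ : Disjoint P Q)
    (hQ : ∀ p ∈ Q, p.Prime ∧ p < q) (hf : ∀ p ∈ P, 0 ≤ f p) (W : ℕ)
    (hW : ∀ S ∈ SF Q w, pr S ≤ W) (hNW : N * W < q) (hN1 : 1 ≤ N) (hW1 : 1 ≤ W)
    (hNZ : N ≤ Z) (hZq : Z < q) (hZX : Z ≤ X) (c : ℝ) (hc : 0 < c)
    (hc2 : ∑ S ∈ SF Q w, 1 / ((pr S : ℕ) : ℝ) ≤ c ^ 2)
    (α : ℝ) (hα : 0 ≤ α)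
    (hR : ∏ p ∈ P, (1 + (p : ℝ) ^ α * (f p ^ 2 + f p / Real.sqrt p)) ≤ (N : ℝ) ^ α * (Main P f / 2))
    (s₁ s₂ s₃ : ℝ) (hs₁ : 0 ≤ s₁) (hs₂ : 0 ≤ s₂) (hs₃ : 0 ≤ s₃)
    (h1 : ∑ κ ∈ (Finset.univ : Finset (ZMod q)ˣ).filter (fun κ => κ ∈ K H ∧ κ ≠ 1),
        (∑ t ∈ (Idx q P Q N Z).filter (fun t => zt q t = κ), wt f t) ^ 2 ≤ s₁ ^ 2)
    (h2 : (N * Fin P f) ^ 2 * ∑ k ∈ (Finset.Icc 1 Z).filter
        (fun k => w < (Q.filter (fun p => p ∣ k)).card), gk Q w X k ^ 2 ≤ s₂ ^ 2)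
    (D τ : ℝ) (hD : 0 ≤ D) (hτ0 : 0 ≤ τ)
    (hDU : ∀ k ∈ Finset.Ioc Z (X * W), ((k.divisors).card : ℝ) ≤ D)
    (hτ : ∀ c : (ZMod q)ˣ,
      ∑ m ∈ (Finset.Ioc Z (X * W)).filter (fun m => m.Coprime q ∧ un q m * c ∈ K H),
        1 / (m : ℝ) ≤ τ)
    (h3 : (N * Fin P f) ^ 2 * (((X * W / q + 1 : ℕ) : ℝ) * D ^ 2 * τ) ≤ s₃ ^ 2)
    (V : ℝ) (hV0 : 0 ≤ V) (𝔅 : Finset (DirichletCharacter ℂ q))
    (hV : ∀ χ₀ ∈ 𝔅, ∀ ψ ∈ H, χ₀ * ψ ≠ 1 → ‖(χ₀ * ψ).LFunction (1 / 2)‖ ≤ V) :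
    (𝔅.card : ℝ) * (Main P f / 2) ≤ (V + 2 * Approx.B q / Real.sqrt X) * ((XX q).card * (Fin P f * c))
      + 2 * Real.sqrt X * (N * Fin P f) * (∑ S ∈ SF Q w, ((pr S : ℕ) : ℝ) ^ (-(1 / 2) : ℝ))
      + Real.sqrt (𝔅.card * (XX q).card) * (s₁ + s₂ + s₃) := by
  have hP' : ∀ p ∈ P, p.Prime := fun p hp => (hP p hp).1
  have hQ' : ∀ p ∈ Q, p.Prime := fun p hp => (hQ p hp).1
  have hFin0 : 0 ≤ Fin P f := le_trans zero_le_one one_le_Fin
  have hX1 : 1 ≤ X := by omega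
  have hZU : Z ≤ X * W := hZX.trans (Nat.le_mul_of_pos_right _ hW1)
  have h𝔅 : 𝔅 ⊆ XX q := fun χ _ => mem_XX χ
  set h : ℝ := ((mem H).card : ℝ) with hh
  have hhpos : 0 < h := by
    rw [hh]
    have : (mem H).Nonempty := ⟨1, mem_mem.2 H.one_mem⟩
    exact_mod_cast this.card_pos
  set n : ℝ := ((XX q).card : ℝ) with hn
  have hn0 : 0 ≤ n := Nat.cast_nonneg _
  -- the weights
  have hwt0 : ∀ t ∈ Idx q P Q N Z, 0 ≤ wt f t := by
    intro t ht
    unfold Idx at ht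
    rw [Finset.mem_product, Finset.mem_product] at ht
    unfold wt
    have := fS_nonneg hf (mem_Fam.1 ht.2.1).1
    have := fS_nonneg hf (mem_Fam.1 ht.2.2).1
    positivity
  set c1 : ℝ := ∑ t ∈ (Idx q P Q N Z).filter (fun t => zt q t = 1), wt f t with hc1
  have hc1M : Main P f / 2 ≤ c1 := main_class hP hPQ hQ' hf hN1 hNZ α hα hR
  have hc10 : 0 ≤ c1 := Finset.sum_nonneg fun t ht => hwt0 t (Finset.mem_filter.1 ht).1
  -- the error of the short range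
  set E1 : DirichletCharacter ℂ q → ℂ := fun χ₀ =>
    ∑ t ∈ (Idx q P Q N Z).filter (fun t => zt q t ∈ K H ∧ zt q t ≠ 1),
      ((wt f t : ℝ) : ℂ) * χ₀ (zt q t : (ZMod q)ˣ) with hE1
  set T1 : DirichletCharacter ℂ q → ℂ := fun χ₀ =>
    ∑ ψ ∈ mem H, ApproxQ.DQ Q (χ₀ * ψ) Z * ((R2 P f N (χ₀ * ψ) : ℝ) : ℂ) with hT1
  have hT1eq : ∀ χ₀, T1 χ₀ = (h : ℂ) * ((c1 : ℂ) + E1 χ₀) := by
    intro χ₀
    rw [hT1]
    simp only
    have e := total_eq H χ₀ hP Q f N Z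
    unfold R2
    rw [e, hh]
    push_cast
    congr 1
    rw [hc1, hE1]
    simp only
    push_cast
    have hsub : (Idx q P Q N Z).filter (fun t => zt q t ∈ K H)
        = (Idx q P Q N Z).filter (fun t => zt q t = 1)
          ∪ (Idx q P Q N Z).filter (fun t => zt q t ∈ K H ∧ zt q t ≠ 1) := by
      ext t
      simp only [Finset.mem_filter, Finset.mem_union]
      constructor
      · rintro ⟨a, b⟩
        by_cases hz : zt q t = 1
        · left; exact ⟨a, hz⟩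
        · right; exact ⟨a, b, hz⟩
      · rintro (⟨a, b⟩ | ⟨a, b, _⟩)
        · exact ⟨a, by rw [b]; exact (K H).one_mem⟩
        · exact ⟨a, b⟩
    have hdis : Disjoint ((Idx q P Q N Z).filter (fun t => zt q t = 1))
        ((Idx q P Q N Z).filter (fun t => zt q t ∈ K H ∧ zt q t ≠ 1)) := by
      rw [Finset.disjoint_left]
      intro t ht ht'
      exact (Finset.mem_filter.1 ht').2.2 (Finset.mem_filter.1 ht).2
    rw [hsub, Finset.sum_union hdis]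
    congr 1
    apply Finset.sum_congr rfl
    intro t ht
    rw [(Finset.mem_filter.1 ht).2, Units.val_one, map_one, mul_one]
  -- second moments
  have hm1 : ∑ χ₀ ∈ XX q, ‖E1 χ₀‖ ^ 2 ≤ (Real.sqrt n * s₁) ^ 2 := by
    rw [mul_pow, Real.sq_sqrt hn0]
    have e := coset_second H ((Idx q P Q N Z).filter (fun t => zt q t ≠ 1)) (wt f) (zt q)
    have e1 : ∀ χ₀ ∈ XX q, ‖E1 χ₀‖ ^ 2
        = ‖∑ t ∈ ((Idx q P Q N Z).filter (fun t => zt q t ≠ 1)).filter (fun t => zt q t ∈ K H),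
            (wt f t : ℂ) * χ₀ (zt q t : ZMod q)‖ ^ 2 := by
      intro χ₀ _
      rw [hE1]
      simp only
      congr 2
      apply Finset.sum_congr _ (fun _ _ => rfl)
      ext t
      simp only [Finset.mem_filter]
      tauto
    rw [Finset.sum_congr rfl e1, e]
    apply mul_le_mul_of_nonneg_left _ hn0
    refine le_trans ?_ h1
    have e2 : ∀ κ ∈ (Finset.univ : Finset (ZMod q)ˣ).filter (fun κ => κ ∈ K H),
        (∑ t ∈ ((Idx q P Q N Z).filter (fun t => zt q t ≠ 1)).filter (fun t => zt q t = κ), wt f t) ^ 2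
        = if κ ≠ 1 then (∑ t ∈ (Idx q P Q N Z).filter (fun t => zt q t = κ), wt f t) ^ 2 else 0 := by
      intro κ _
      split_ifs with hκ
      · congr 1
        apply Finset.sum_congr _ (fun _ _ => rfl)
        ext t
        simp only [Finset.mem_filter]
        constructor
        · rintro ⟨⟨a, _⟩, b⟩; exact ⟨a, b⟩
        · rintro ⟨a, b⟩; exact ⟨⟨a, by rw [b]; exact hκ⟩, b⟩
      · push Not at hκ
        have : ((Idx q P Q N Z).filter (fun t => zt q t ≠ 1)).filter (fun t => zt q t = κ) = ∅ := by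
          rw [Finset.filter_eq_empty_iff]
          intro t ht hz
          exact (Finset.mem_filter.1 ht).2 (by rw [hz, hκ])
        rw [this, Finset.sum_empty]; norm_num
    rw [Finset.sum_congr rfl e2, ← Finset.sum_filter, Finset.filter_filter]
  set T2 : DirichletCharacter ℂ q → ℂ := fun χ₀ => ∑ ψ ∈ mem H,
    PG ((Finset.Icc 1 Z).filter (fun k => w < (Q.filter (fun p => p ∣ k)).card)) (gk Q w X) (χ₀ * ψ)
      * ((R2 P f N (χ₀ * ψ) : ℝ) : ℂ) with hT2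
  set T3 : DirichletCharacter ℂ q → ℂ := fun χ₀ => ∑ ψ ∈ mem H,
    PG (Finset.Ioc Z (X * W)) (gk Q w X) (χ₀ * ψ) * ((R2 P f N (χ₀ * ψ) : ℝ) : ℂ) with hT3
  set T0 : DirichletCharacter ℂ q → ℂ := fun χ₀ => ∑ ψ ∈ mem H,
    (Approx.D (χ₀ * ψ) X * Mo Q w (χ₀ * ψ)) * ((R2 P f N (χ₀ * ψ) : ℝ) : ℂ) with hT0
  have hsqe : ∀ s : ℝ, (h * Real.sqrt n * s) ^ 2 = h ^ 2 * (n * s ^ 2) := by
    intro s
    rw [mul_pow, mul_pow, Real.sq_sqrt hn0]; ring
  have hm2 : ∑ χ₀ ∈ XX q, ‖T2 χ₀‖ ^ 2 ≤ (h * Real.sqrt n * s₂) ^ 2 := by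
    refine (S2_bound H hP hf _ (fun k hk => ?_) (gk Q w X)).trans ?_
    · rw [Finset.mem_filter, Finset.mem_Icc] at hk
      exact ⟨hk.1.1, lt_of_le_of_lt hk.1.2 hZq⟩
    · rw [hsqe]
      apply mul_le_mul_of_nonneg_left _ (by positivity)
      exact mul_le_mul_of_nonneg_left h2 hn0
  have hm3 : ∑ χ₀ ∈ XX q, ‖T3 χ₀‖ ^ 2 ≤ (h * Real.sqrt n * s₃) ^ 2 := by
    refine (S3_bound (U := X * W) H hP hf (gk Q w X) D τ hD hτ0 (fun k hk => ?_) hτ).trans ?_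
    · have hk0 : 0 < k := by rw [Finset.mem_Ioc] at hk; omega
      exact gk_sq_le hQ' hk0 (hDU k hk)
    · rw [hsqe]
      apply mul_le_mul_of_nonneg_left _ (by positivity)
      exact mul_le_mul_of_nonneg_left h3 hn0
  -- decomposition
  have hdec : ∀ χ₀, T0 χ₀ = T1 χ₀ + T2 χ₀ + T3 χ₀ := by
    intro χ₀
    rw [hT0, hT1, hT2, hT3]
    simp only
    rw [← Finset.sum_add_distrib, ← Finset.sum_add_distrib]
    apply Finset.sum_congr rfl
    intro ψ _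
    have e1 : Approx.D (χ₀ * ψ) X * Mo Q w (χ₀ * ψ) = PG (Finset.Icc 1 (X * W)) (gk Q w X) (χ₀ * ψ) := by
      rw [D_mul_Mo hQ' w X (X * W) (fun S hS => Nat.mul_le_mul_left _ (hW S hS))]
      rfl
    rw [e1, split hQ' hZX hZU]
    ring
  have hpt : ∀ χ₀ ∈ 𝔅, h * c1 ≤ ‖T0 χ₀‖ + ‖T2 χ₀‖ + ‖T3 χ₀‖ + h * ‖E1 χ₀‖ := by
    intro χ₀ _
    have e1 : ((h * c1 : ℝ) : ℂ) = T0 χ₀ - T2 χ₀ - T3 χ₀ - (h : ℂ) * E1 χ₀ := by
      rw [hdec, hT1eq]; push_cast; ring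
    have e2 : h * c1 = ‖((h * c1 : ℝ) : ℂ)‖ := by
      rw [Complex.norm_real, Real.norm_of_nonneg (by positivity)]
    rw [e2, e1]
    refine (norm_sub_le _ _).trans ?_
    have a1 := norm_sub_le (T0 χ₀ - T2 χ₀) (T3 χ₀)
    have a2 := norm_sub_le (T0 χ₀) (T2 χ₀)
    have a3 : ‖(h : ℂ) * E1 χ₀‖ = h * ‖E1 χ₀‖ := by
      rw [norm_mul, Complex.norm_real, Real.norm_of_nonneg hhpos.le]
    rw [a3]
    linarith
  -- sums over the exceptional set
  have hb1 := cs_set 𝔅 h𝔅 (fun χ => ‖E1 χ‖) (fun _ => norm_nonneg _) (Real.sqrt n * s₁)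
    (by positivity) hm1
  have hb2 := cs_set 𝔅 h𝔅 (fun χ => ‖T2 χ‖) (fun _ => norm_nonneg _) (h * Real.sqrt n * s₂)
    (by positivity) hm2
  have hb3 := cs_set 𝔅 h𝔅 (fun χ => ‖T3 χ‖) (fun _ => norm_nonneg _) (h * Real.sqrt n * s₃)
    (by positivity) hm3
  set A := V + 2 * Approx.B q / Real.sqrt X with hA
  have hA0 : 0 ≤ A := by
    have := Approx.B_nonneg (q := q)
    positivity
  set M1 : ℝ := ∑ S ∈ SF Q w, ((pr S : ℕ) : ℝ) ^ (-(1 / 2) : ℝ) with hM1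
  have hM10 : 0 ≤ M1 := Finset.sum_nonneg fun _ _ => by positivity
  set cst : ℝ := 2 * Real.sqrt X * (N * Fin P f) * M1 with hcst
  have hcst0 : 0 ≤ cst := by rw [hcst]; positivity
  have hb0 : ∑ χ₀ ∈ 𝔅, ‖T0 χ₀‖ ≤ h * (A * (n * (Fin P f * c)) + cst) := by
    have a1 : ∀ χ₀ ∈ 𝔅, ‖T0 χ₀‖ ≤ ∑ ψ ∈ mem H, (A * (R2 P f N (χ₀ * ψ) * ‖Mo Q w (χ₀ * ψ)‖)
        + (if χ₀ * ψ = 1 then cst else 0)) := by
      intro χ₀ hχ₀
      rw [hT0]
      simp only
      refine norm_sum_le_of_le _ ?_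
      intro ψ hψ
      rw [norm_mul, norm_mul, Complex.norm_real, Real.norm_of_nonneg (R2_nonneg _)]
      have b0 := R2_nonneg (P := P) (f := f) (N := N) (χ₀ * ψ)
      have b1 : 0 ≤ A * (R2 P f N (χ₀ * ψ) * ‖Mo Q w (χ₀ * ψ)‖) := by positivity
      split_ifs with hone
      · have b2 : ‖Approx.D (χ₀ * ψ) X‖ ≤ 2 * Real.sqrt X := by
          rw [hone]; exact Class.norm_D_one X
        have b3 : ‖Mo Q w (χ₀ * ψ)‖ ≤ M1 := norm_Mo_le _
        have b4 : R2 P f N (χ₀ * ψ) ≤ N * Fin P f := CosetMain.norm_RR_sq_le hP' hf _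
        have b5 : ‖Approx.D (χ₀ * ψ) X‖ * ‖Mo Q w (χ₀ * ψ)‖ * R2 P f N (χ₀ * ψ) ≤ cst := by
          calc ‖Approx.D (χ₀ * ψ) X‖ * ‖Mo Q w (χ₀ * ψ)‖ * R2 P f N (χ₀ * ψ)
              ≤ (2 * Real.sqrt X * M1) * (N * Fin P f) := by
                apply mul_le_mul _ b4 b0 (by positivity)
                exact mul_le_mul b2 b3 (norm_nonneg _) (by positivity)
            _ = cst := by rw [hcst]; ring
        linarith
      · rw [add_zero]
        have b2 := Approx.approx (χ := χ₀ * ψ) hone X hX1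
        have b3 := hV χ₀ hχ₀ ψ (mem_mem.1 hψ) hone
        have b4 : ‖Approx.D (χ₀ * ψ) X‖ ≤ A := by
          have : Approx.D (χ₀ * ψ) X = (χ₀ * ψ).LFunction (1 / 2)
              - ((χ₀ * ψ).LFunction (1 / 2) - Approx.D (χ₀ * ψ) X) := by ring
          rw [this]
          refine (norm_sub_le _ _).trans ?_
          rw [hA]; linarith
        calc ‖Approx.D (χ₀ * ψ) X‖ * ‖Mo Q w (χ₀ * ψ)‖ * R2 P f N (χ₀ * ψ)
            ≤ A * ‖Mo Q w (χ₀ * ψ)‖ * R2 P f N (χ₀ * ψ) := by gcongr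
          _ = _ := by ring
    have a2 : ∀ χ₀ : DirichletCharacter ℂ q, 0 ≤ ∑ ψ ∈ mem H,
        (A * (R2 P f N (χ₀ * ψ) * ‖Mo Q w (χ₀ * ψ)‖) + (if χ₀ * ψ = 1 then cst else 0)) := by
      intro χ₀
      apply Finset.sum_nonneg
      intro ψ _
      have b0 := R2_nonneg (P := P) (f := f) (N := N) (χ₀ * ψ)
      have b1 : 0 ≤ A * (R2 P f N (χ₀ * ψ) * ‖Mo Q w (χ₀ * ψ)‖) := by positivity
      split_ifs
      · linarith
      · linarith
    calc ∑ χ₀ ∈ 𝔅, ‖T0 χ₀‖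
        ≤ ∑ χ₀ ∈ 𝔅, ∑ ψ ∈ mem H, (A * (R2 P f N (χ₀ * ψ) * ‖Mo Q w (χ₀ * ψ)‖)
        + (if χ₀ * ψ = 1 then cst else 0)) := Finset.sum_le_sum a1
      _ ≤ ∑ χ₀ ∈ XX q, ∑ ψ ∈ mem H, (A * (R2 P f N (χ₀ * ψ) * ‖Mo Q w (χ₀ * ψ)‖)
        + (if χ₀ * ψ = 1 then cst else 0)) :=
          Finset.sum_le_sum_of_subset_of_nonneg h𝔅 (fun χ₀ _ _ => a2 χ₀)
      _ = h * ∑ χ ∈ XX q, (A * (R2 P f N χ * ‖Mo Q w χ‖) + (if χ = 1 then cst else 0)) := by
          rw [shift_sum H (fun χ => A * (R2 P f N χ * ‖Mo Q w χ‖) + (if χ = 1 then cst else 0))]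
      _ ≤ _ := by
          apply mul_le_mul_of_nonneg_left _ hhpos.le
          rw [Finset.sum_add_distrib, ← Finset.mul_sum]
          apply add_le_add
          · exact mul_le_mul_of_nonneg_left
              (mean_RMo hP hPQ hQ hf W hW hNW hN1 hW1 c hc hc2) hA0
          · rw [Finset.sum_ite_eq']
            split_ifs
            · exact le_rfl
            · exact hcst0
  have hsum := Finset.sum_le_sum hpt
  rw [Finset.sum_const, nsmul_eq_mul, Finset.sum_add_distrib, Finset.sum_add_distrib,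
    Finset.sum_add_distrib, ← Finset.mul_sum] at hsum
  have hsq : Real.sqrt (𝔅.card * n) = Real.sqrt 𝔅.card * Real.sqrt n :=
    Real.sqrt_mul (Nat.cast_nonneg _) _
  rw [hsq]
  set bs := Real.sqrt (𝔅.card : ℝ) with hbs
  set ns := Real.sqrt n with hns
  have hfin : h * ((𝔅.card : ℝ) * (Main P f / 2))
      ≤ h * (A * (n * (Fin P f * c)) + cst + bs * ns * (s₁ + s₂ + s₃)) := by
    have hbc : (0 : ℝ) ≤ 𝔅.card := Nat.cast_nonneg _
    calc h * ((𝔅.card : ℝ) * (Main P f / 2)) ≤ h * ((𝔅.card : ℝ) * c1) := by gcongr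
      _ = (𝔅.card : ℝ) * (h * c1) := by ring
      _ ≤ _ := hsum
      _ ≤ h * (A * (n * (Fin P f * c)) + cst) + bs * (h * ns * s₂) + bs * (h * ns * s₃)
          + h * (bs * (ns * s₁)) := by
          have := mul_le_mul_of_nonneg_left hb1 hhpos.le
          linarith
      _ = _ := by ring
  exact le_of_mul_le_mul_left hfin hhpos

end Pool.Agent.H.MP_3e6494_nt.T6Main
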