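import Mathlib
import Pool.Agent.H.MP_3e6494_nt.helper50.Sums

/-!
The resonator weights at the primes in `(L'^2, L'^4]`.
-/

open Finset Filter Topology

set_option linter.unusedSectionVars false
set_option linter.unusedVariables false

namespace Pool.Agent.H.MP_3e6494_nt.T6Res

open LocalProd

/-- the weights -/
noncomputable def ff (lam : ℝ) (p : ℕ) : ℝ := lam / Real.sqrt p

lemma ff_nonneg {lam : ℝ} (h : 0 ≤ lam) (p : ℕ) : 0 ≤ ff lam p := by
  unfold ff; positivity

variable {L' lam : ℝ}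

lemma ratio (p : ℕ) : ff lam p / Real.sqrt p = lam / p := by
  unfold ff
  rw [div_div, Real.mul_self_sqrt (by positivity)]

lemma sq_eq (p : ℕ) : ff lam p ^ 2 = lam ^ 2 / p := by
  unfold ff; rw [div_pow, Real.sq_sqrt (Nat.cast_nonneg _)]

/-- the first local condition -/
lemma cond1 (hL : Sums.Good L') (hlam : 0 ≤ lam) (b : ℝ) {p : ℕ} (hp : p ∈ Sums.P0 L')
    (h : lam ≤ (p : ℝ) ^ (1 / 2 - b)) : ff lam p ≤ (p : ℝ) ^ (-b) := by
  have hp0 : (0 : ℝ) < p := by exact_mod_cast (hL.mem_P0 hp).1.pos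
  unfold ff
  rw [div_le_iff₀ (Real.sqrt_pos.2 hp0), Real.sqrt_eq_rpow, ← Real.rpow_add hp0]
  refine h.trans (le_of_eq ?_)
  congr 1; ring

/-- the second local condition -/
lemma cond2 (hL : Sums.Good L') (hlam : 0 ≤ lam) (b : ℝ) {p : ℕ} (hp : p ∈ Sums.P0 L')
    (hlp : lam ≤ p) (h : 2 * (1 + lam) ≤ (p : ℝ) ^ (1 / 2 - b)) :
    (1 + ff lam p * Real.sqrt p) * (1 + ff lam p / Real.sqrt p) ≤ (p : ℝ) ^ (1 / 2 - b) := by
  have hp0 : (0 : ℝ) < p := by exact_mod_cast (hL.mem_P0 hp).1.pos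
  have h1 : 0 < Real.sqrt p := Real.sqrt_pos.2 hp0
  rw [ratio]
  have h2 : ff lam p * Real.sqrt p = lam := by
    unfold ff; field_simp
  rw [h2]
  have h3 : lam / p ≤ 1 := by rw [div_le_one hp0]; exact hlp
  have h4 : 0 ≤ lam / p := by positivity
  calc (1 + lam) * (1 + lam / p) ≤ (1 + lam) * 2 := by gcongr; linarith
    _ ≤ _ := by linarith

/-- Rankin's condition -/
lemma rankin (hL : Sums.Good L') (hlam : 1 ≤ lam) (N : ℕ) (x : ℝ)
    (hN : Real.exp x / 2 ≤ N) (hx : 12 * lam ^ 2 + Real.log 4 ≤ x / (4 * Real.log L')) :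
    ∏ p ∈ Sums.P0 L', (1 + (p : ℝ) ^ (1 / (4 * Real.log L')) *
        (ff lam p ^ 2 + ff lam p / Real.sqrt p))
      ≤ (N : ℝ) ^ (1 / (4 * Real.log L')) * (Main (Sums.P0 L') (ff lam) / 2) := by
  set P := Sums.P0 L' with hP
  set α := 1 / (4 * Real.log L') with hα
  have hl : 0 < Real.log L' := by linarith [hL.l3]
  have hlam0 : 0 ≤ lam := by linarith
  have hα0 : 0 < α := by rw [hα]; positivity
  have hα1 : α ≤ 1 := by
    rw [hα, div_le_one (by positivity)]
    linarith [hL.l3]
  have hMain0 : 0 ≤ Main P (ff lam) := Finset.prod_nonneg fun p hp => by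
    have := ff_nonneg hlam0 p; positivity
  -- local inequality
  have hloc : ∀ p ∈ P, 1 + (p : ℝ) ^ α * (ff lam p ^ 2 + ff lam p / Real.sqrt p)
      ≤ (1 + ff lam p ^ 2 + ff lam p / Real.sqrt p) *
        Real.exp (4 * α * lam ^ 2 * (Real.log p / p)) := by
    intro p hp
    have hmem := hL.mem_P0 hp
    have hp0 : (0 : ℝ) < p := by exact_mod_cast hmem.1.pos
    have hp1 : (1 : ℝ) ≤ p := by exact_mod_cast hmem.1.one_lt.le
    have hlogp : 0 ≤ Real.log p := Real.log_nonneg hp1
    set e := ff lam p ^ 2 + ff lam p / Real.sqrt p with he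
    have he0 : 0 ≤ e := by
      have := ff_nonneg hlam0 p; rw [he]; positivity
    have he2 : e ≤ 2 * lam ^ 2 / p := by
      rw [he, sq_eq, ratio, ← add_div]
      apply div_le_div_of_nonneg_right _ hp0.le
      nlinarith
    have hpow : (p : ℝ) ^ α = Real.exp (Real.log p * α) := by rw [Real.rpow_def_of_pos hp0]
    have hx1 : Real.log p * α ≤ 1 := by
      have h1 : Real.log p ≤ 4 * Real.log L' := by
        calc Real.log p ≤ Real.log (L' ^ 4) := Real.log_le_log hp0 hmem.2.2
          _ = 4 * Real.log L' := by rw [Real.log_pow]; norm_num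
      rw [hα, mul_one_div, div_le_one (by positivity)]
      exact h1
    have hx0 : 0 ≤ Real.log p * α := by positivity
    have hexp : Real.exp (Real.log p * α) - 1 ≤ 2 * (Real.log p * α) := by
      have := Real.exp_bound' hx0 hx1 (n := 2) (by norm_num)
      norm_num [Finset.sum_range_succ] at this
      nlinarith
    have ht1 : 1 ≤ (p : ℝ) ^ α := by rw [hpow]; exact Real.one_le_exp hx0
    set T := (p : ℝ) ^ α with hT
    have h2 : 1 + T * e ≤ (1 + e) * (1 + (T - 1) * e) := by
      nlinarith [mul_nonneg (sub_nonneg.2 ht1) (mul_nonneg he0 he0)]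
    have h3 : 1 + (T - 1) * e ≤ Real.exp ((T - 1) * e) := by
      have := Real.add_one_le_exp ((T - 1) * e); linarith
    have h4 : (T - 1) * e ≤ 4 * α * lam ^ 2 * (Real.log p / p) := by
      calc (T - 1) * e ≤ (2 * (Real.log p * α)) * (2 * lam ^ 2 / p) := by
            apply mul_le_mul _ he2 he0 (by positivity)
            rw [hpow]; exact hexp
        _ = _ := by ring
    have h5 : (1 + e) = 1 + ff lam p ^ 2 + ff lam p / Real.sqrt p := by rw [he]; ring
    rw [← h5]
    calc 1 + T * e ≤ (1 + e) * (1 + (T - 1) * e) := h2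
      _ ≤ (1 + e) * Real.exp (4 * α * lam ^ 2 * (Real.log p / p)) := by
          apply mul_le_mul_of_nonneg_left _ (by linarith)
          exact h3.trans (Real.exp_le_exp.2 h4)
  have h1 : ∏ p ∈ P, (1 + (p : ℝ) ^ α * (ff lam p ^ 2 + ff lam p / Real.sqrt p))
      ≤ Main P (ff lam) * Real.exp (4 * α * lam ^ 2 * (12 * Real.log L')) := by
    calc ∏ p ∈ P, (1 + (p : ℝ) ^ α * (ff lam p ^ 2 + ff lam p / Real.sqrt p))
        ≤ ∏ p ∈ P, ((1 + ff lam p ^ 2 + ff lam p / Real.sqrt p) *
        Real.exp (4 * α * lam ^ 2 * (Real.log p / p))) := by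
          apply Finset.prod_le_prod _ hloc
          intro p _
          have := ff_nonneg hlam0 p; positivity
      _ = Main P (ff lam) * Real.exp (4 * α * lam ^ 2 * ∑ p ∈ P, Real.log p / p) := by
          rw [Finset.prod_mul_distrib, Finset.mul_sum, Real.exp_sum]; rfl
      _ ≤ _ := by
          apply mul_le_mul_of_nonneg_left _ hMain0
          apply Real.exp_le_exp.2
          apply mul_le_mul_of_nonneg_left _ (by positivity)
          exact hL.sum_log_le
  refine h1.trans ?_
  have hre : (N : ℝ) ^ α * (Main P (ff lam) / 2) = Main P (ff lam) * ((N : ℝ) ^ α / 2) := by ring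
  rw [hre]
  apply mul_le_mul_of_nonneg_left _ hMain0
  have e1 : 4 * α * lam ^ 2 * (12 * Real.log L') = 12 * lam ^ 2 := by
    rw [hα]; field_simp
  rw [e1]
  have h2 : (Real.exp x / 2) ^ α ≤ (N : ℝ) ^ α :=
    Real.rpow_le_rpow (by positivity) hN hα0.le
  have h3 : Real.exp (x * α) / 2 ≤ (Real.exp x / 2) ^ α := by
    rw [Real.div_rpow (Real.exp_pos _).le (by norm_num), ← Real.exp_mul]
    apply div_le_div_of_nonneg_left (Real.exp_pos _).le (by positivity)
    calc (2 : ℝ) ^ α ≤ (2 : ℝ) ^ (1 : ℝ) := Real.rpow_le_rpow_of_exponent_le (by norm_num) hα1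
      _ = 2 := Real.rpow_one 2
  have h4 : Real.exp (12 * lam ^ 2) * 4 ≤ Real.exp (x * α) := by
    rw [show (4 : ℝ) = Real.exp (Real.log 4) from (Real.exp_log (by norm_num)).symm, ← Real.exp_add]
    apply Real.exp_le_exp.2
    rw [hα, mul_one_div]
    exact hx
  linarith

/-- `exp (x / 2) ≤ 1 + x` on the unit interval -/
lemma exp_half_le {x : ℝ} (hx0 : 0 ≤ x) (hx1 : x ≤ 1) : Real.exp (x / 2) ≤ 1 + x := by
  have h1 := Real.exp_bound' (show 0 ≤ x / 2 by linarith) (show x / 2 ≤ 1 by linarith) (n := 2) (by norm_num)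
  norm_num [Finset.sum_range_succ] at h1
  nlinarith

/-- the ratio of the main term and the square norm of the resonator -/
lemma main_ge (hL : Sums.Good L') (hlam : 1 ≤ lam) (hlL : lam ≤ L') :
    Fin (Sums.P0 L') (ff lam) * Real.exp (lam / 128) ≤ Main (Sums.P0 L') (ff lam) := by
  set P := Sums.P0 L' with hP
  have hlam0 : 0 ≤ lam := by linarith
  have h1 : Fin P (ff lam) * Real.exp ((lam / 4) * ∑ p ∈ P, 1 / (p : ℝ)) ≤ Main P (ff lam) := by
    rw [Finset.mul_sum, Real.exp_sum]
    unfold LocalProd.Fin Main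
    rw [← Finset.prod_mul_distrib]
    apply Finset.prod_le_prod
    · intro p _; positivity
    · intro p hp
      have hmem := hL.mem_P0 hp
      have hp0 : (0 : ℝ) < p := by exact_mod_cast hmem.1.pos
      rw [ratio]
      have hlp : lam ^ 2 ≤ p := by
        have : lam ^ 2 ≤ L' ^ 2 := pow_le_pow_left₀ hlam0 hlL 2
        linarith [hmem.2.1]
      have hlp1 : lam ≤ p := by nlinarith
      have hf1 : ff lam p ^ 2 ≤ 1 := by
        rw [sq_eq, div_le_one hp0]; exact hlp
      have hx0 : 0 ≤ lam / p := by positivity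
      have hx1 : lam / p ≤ 1 := by
        rw [div_le_one hp0]; exact hlp1
      have h4 : Real.exp (lam / 4 * (1 / (p : ℝ))) ≤ 1 + (lam / p) / 2 := by
        have h5 := exp_half_le (x := (lam / p) / 2) (by linarith) (by linarith)
        have h6 : (lam / p) / 2 / 2 = lam / 4 * (1 / (p : ℝ)) := by
          field_simp; ring
        rw [h6] at h5; exact h5
      calc (1 + ff lam p ^ 2) * Real.exp (lam / 4 * (1 / (p : ℝ)))
          ≤ (1 + ff lam p ^ 2) * (1 + (lam / p) / 2) := by
            apply mul_le_mul_of_nonneg_left h4 (by positivity)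
        _ ≤ 1 + ff lam p ^ 2 + lam / p := by nlinarith
  refine le_trans ?_ h1
  apply mul_le_mul_of_nonneg_left _ (le_trans zero_le_one one_le_Fin)
  apply Real.exp_le_exp.2
  have h2 := hL.sum_inv_ge
  have h3 : (lam / 4) * (1 / 32) ≤ (lam / 4) * ∑ p ∈ P, 1 / (p : ℝ) :=
    mul_le_mul_of_nonneg_left h2 (by linarith)
  linarith

end Pool.Agent.H.MP_3e6494_nt.T6Res
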