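import Mathlib
import Pool.Agent.H.MP_3e6494_nt.helper50.T6Main
import Pool.Agent.H.MP_3e6494_nt.helper50.T6Res
import Pool.Agent.H.MP_3e6494_nt.helper50.Final

/-!
Counting bounds with explicit parameters.
-/

open Finset Filter Topology

set_option linter.unusedSectionVars false
set_option linter.unusedVariables false

namespace Pool.Agent.H.MP_3e6494_nt.T6Fin

open LocalProd Coset T6Mo T6Par
open Pool.Agent.H.MP_3e6494_nt.Class (mem K mem_mem card_mem)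

variable {q : ℕ} [hq : Fact q.Prime]

open scoped ArithmeticFunction.Omega

/-- the count of rough integers in a coset -/
lemma count_rough (θ : ℝ) (hθ0 : 0 < θ) (hθ1 : θ ≤ 1) (a : ℕ) (ha : 16 / θ ≤ a)
    (hL2 : 2 ≤ Real.log q) (K : Subgroup (ZMod q)ˣ)
    (hK : ((Nat.card K : ℕ) : ℝ) ≤ Real.exp ((1 - θ) * Real.log q)) (Q : Finset ℕ)
    (hQ : ∀ p ∈ Q, p.Prime)
    (hyQ : ∀ p : ℕ, p.Prime → (p : ℝ) ≤ (Real.log q ^ a) ^ 2 → p ∈ Q) (c : (ZMod q)ˣ) (Y : ℕ)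
    (hY1 : 1 ≤ Y) (hY : (Y : ℝ) ≤ Real.exp (θ / 8 * Real.log q)) :
    ((T6Cnt.Ar K (un q) Q c Y).card : ℝ) ≤ (Y : ℝ) ^ (1 - θ / 2) := by
  classical
  set L := Real.log q with hL
  have hq0 : (0 : ℝ) < q := by exact_mod_cast hq.out.pos
  have hexpL : Real.exp L = q := Real.exp_log hq0
  have hL0 : 0 < L := by linarith
  have ha0 : (0 : ℝ) < a := lt_of_lt_of_le (by positivity) ha
  rcases Nat.lt_or_ge Y 2 with hY2 | hY2
  · have hY1' : Y = 1 := by omega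
    rw [hY1']
    have h1 : (T6Cnt.Ar K (un q) Q c 1).card ≤ 1 := by
      calc (T6Cnt.Ar K (un q) Q c 1).card ≤ (Finset.Icc 1 1).card := by
            unfold T6Cnt.Ar
            exact Finset.card_le_card (Finset.filter_subset _ _)
        _ = 1 := by simp
    rw [Nat.cast_one, Real.one_rpow]
    exact_mod_cast h1
  have hY2' : (2 : ℝ) ≤ Y := by exact_mod_cast hY2
  have hY0 : (0 : ℝ) < Y := by linarith
  set ℓ := Real.log Y with hℓ
  have hexpℓ : Real.exp ℓ = Y := Real.exp_log hY0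
  have hℓ1 : 1 / 2 ≤ ℓ := by
    have h1 : Real.log 2 ≤ ℓ := Real.log_le_log (by norm_num) hY2'
    linarith [Real.log_two_gt_d9]
  have hℓ0 : 0 < ℓ := by linarith
  have hℓL : ℓ ≤ θ / 8 * L := by
    rw [hℓ, Real.log_le_iff_le_exp hY0]; exact hY
  set s := ⌊L / ℓ⌋₊ with hs
  have hs1 : (s : ℝ) ≤ L / ℓ := Nat.floor_le (by positivity)
  have hs2 : L / ℓ < s + 1 := Nat.lt_floor_add_one _
  have hLℓ : 8 / θ ≤ L / ℓ := by
    rw [div_le_div_iff₀ hθ0 hℓ0]; nlinarith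
  have h8 : 1 / θ ≥ 1 := by rw [ge_iff_le, le_div_iff₀ hθ0]; linarith
  have hs7 : 7 / θ ≤ s := by
    have : 8 / θ = 7 / θ + 1 / θ := by ring
    linarith
  have hs0 : (0 : ℝ) < s := lt_of_lt_of_le (by positivity) hs7
  have hsℓ : (s : ℝ) * ℓ ≤ L := by rwa [le_div_iff₀ hℓ0] at hs1
  have hYs : Y ^ s ≤ q := by
    have h1 : (Y : ℝ) ^ s ≤ q := by
      rw [← hexpℓ, ← hexpL, ← Real.exp_nat_mul]
      exact Real.exp_le_exp.2 hsℓ
    exact_mod_cast h1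
  have hsL : (s : ℝ) ≤ L ^ 2 := by
    have h1 : L / ℓ ≤ L ^ 2 := by
      rw [div_le_iff₀ hℓ0]
      nlinarith
    linarith
  set M := ⌊Real.exp (L / a)⌋₊ with hM
  have hMb : ∀ n : ℕ, n ≠ 0 → n ≤ q → (∀ p ∈ Q, ¬ p ∣ n) → s ^ (Ω n) ≤ M := by
    intro n hn hnq hnQ
    apply Nat.le_floor
    push_cast
    set y := (L ^ a) ^ 2 with hy
    have hy0 : 0 ≤ y := by positivity
    have h1 : (⌊y⌋₊ + 1) ^ (Ω n) ≤ n := by
      apply T6Cnt.pow_Omega_le _ n hn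
      intro p hp hpn
      by_contra hc
      push Not at hc
      apply hnQ p _ hpn
      apply hyQ p hp
      have h2 : p ≤ ⌊y⌋₊ := by omega
      exact (Nat.le_floor_iff hy0).1 h2
    have h2 : y ^ (Ω n) ≤ q := by
      calc y ^ (Ω n) ≤ ((⌊y⌋₊ + 1 : ℕ) : ℝ) ^ (Ω n) := by
            apply pow_le_pow_left₀ hy0
            push_cast
            exact (Nat.lt_floor_add_one y).le
        _ ≤ (n : ℝ) := by exact_mod_cast h1
        _ ≤ q := by exact_mod_cast hnq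
    have h3 : ((s : ℝ) ^ (Ω n)) ^ a ≤ Real.exp L := by
      rw [hexpL]
      calc ((s : ℝ) ^ (Ω n)) ^ a ≤ ((L ^ 2) ^ (Ω n)) ^ a := by gcongr
        _ = y ^ (Ω n) := by rw [hy, ← pow_mul, ← pow_mul, ← pow_mul, ← pow_mul]; congr 1; ring
        _ ≤ q := h2
    have h4 : (s : ℝ) ^ (Ω n) ≤ Real.exp (L / a) := by
      have ha1 : a ≠ 0 := by
        intro h; rw [h] at ha0; simp at ha0
      have h5 : Real.exp (L / a) ^ a = Real.exp L := by
        rw [← Real.exp_nat_mul]; congr 1; field_simp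
      rw [← h5] at h3
      exact (pow_le_pow_iff_left₀ (by positivity) (Real.exp_pos _).le ha1).1 h3
    exact h4
  have hmain := T6Cnt.card_Ar_pow_le K (un q) (fun m hm => un_val hm) Q hQ c Y s M hYs hMb
  have h1 : ((T6Cnt.Ar K (un q) Q c Y).card : ℝ) ^ s ≤ Real.exp ((1 - θ + 1 / a) * L) := by
    have h2 : ((T6Cnt.Ar K (un q) Q c Y).card : ℝ) ^ s ≤ (M : ℝ) * Nat.card K := by
      exact_mod_cast hmain
    refine h2.trans ?_
    have h3 : (M : ℝ) ≤ Real.exp (L / a) := Nat.floor_le (Real.exp_pos _).le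
    calc (M : ℝ) * Nat.card K ≤ Real.exp (L / a) * Real.exp ((1 - θ) * L) := by gcongr
      _ = _ := by rw [← Real.exp_add]; congr 1; ring
  have hsne : s ≠ 0 := by
    intro h; rw [h] at hs0; simp at hs0
  have h2 : Real.exp ((1 - θ + 1 / a) * L) ≤ (Real.exp ((1 - θ / 2) * ℓ)) ^ s := by
    rw [← Real.exp_nat_mul]
    apply Real.exp_le_exp.2
    have ha' : 1 / (a : ℝ) ≤ θ / 16 := by
      rw [div_le_div_iff₀ ha0 (by norm_num)]
      rw [div_le_iff₀ hθ0] at ha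
      linarith
    have h3 : L ≤ (s + 1) * ℓ := by
      have := hs2
      rw [div_lt_iff₀ hℓ0] at this
      exact this.le
    have h4 : 0 ≤ 1 - θ + 1 / (a : ℝ) := by
      have : 0 < 1 / (a : ℝ) := by positivity
      linarith
    have h5 : 1 ≤ θ / 7 * s := by
      rw [div_le_iff₀ hθ0] at hs7
      linarith
    calc (1 - θ + 1 / (a : ℝ)) * L ≤ (1 - θ + 1 / (a : ℝ)) * ((s + 1) * ℓ) :=
          mul_le_mul_of_nonneg_left h3 h4
      _ ≤ (1 - θ + θ / 16) * ((s + 1) * ℓ) := by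
          apply mul_le_mul_of_nonneg_right _ (by positivity)
          linarith
      _ ≤ (s : ℝ) * ((1 - θ / 2) * ℓ) := by
          have h6 : (1 - θ + θ / 16) * (s + 1) ≤ s * (1 - θ / 2) := by nlinarith
          nlinarith
  have h3 := h1.trans h2
  have h4 := (pow_le_pow_iff_left₀ (Nat.cast_nonneg _) (Real.exp_pos _).le hsne).1 h3
  refine h4.trans (le_of_eq ?_)
  rw [Real.rpow_def_of_pos hY0, mul_comm]

open scoped Classical in
/-- the tail of the harmonic sum over a coset -/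
lemma tail_tau (θ ζ : ℝ) (i : ℕ) (hζ : 1 ≤ ζ * (2 : ℝ) ^ i) (K : Subgroup (ZMod q)ˣ)
    (hK : ((Nat.card K : ℕ) : ℝ) ≤ Real.exp ((1 - θ) * Real.log q)) (Z U D₂ : ℕ) (hD1 : 1 ≤ D₂)
    (hD : ∀ n ∈ Finset.Icc 1 (U ^ 2 ^ i), (n.divisors).card ≤ D₂)
    (hZ : ∀ Y : ℕ, Z < Y → Real.exp (ζ * Real.log q) ≤ Y) (c : (ZMod q)ˣ) :
    ∑ m ∈ (Finset.Ioc Z U).filter (fun m => m.Coprime q ∧ un q m * c ∈ K), 1 / (m : ℝ)
      ≤ (2 * D₂ * Real.exp (-(θ * Real.log q / 2 ^ i))) * (1 + Real.log U) := by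
  have hq0 : (0 : ℝ) < q := by exact_mod_cast hq.out.pos
  have hq1 : (1 : ℝ) ≤ q := by exact_mod_cast hq.out.one_lt.le
  set L := Real.log q with hL
  have hexpL : Real.exp L = q := Real.exp_log hq0
  have hL0 : 0 ≤ L := Real.log_nonneg hq1
  set s : ℕ := 2 ^ i with hs
  have hs0 : s ≠ 0 := by positivity
  have hsR : (s : ℝ) = 2 ^ i := by rw [hs]; push_cast; rfl
  apply T6Cnt.tail1 K (un q) c Z U _ (by positivity)
  intro Y hY1 hY2
  have hY0 : (0 : ℝ) < Y := by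
    have : 0 < Y := by omega
    exact_mod_cast this
  have h1 := T6Cnt.card_A_pow_le K (un q) (fun m hm => un_val hm) D₂ hD1 i c Y (by
    intro n hn
    apply hD n
    rw [Finset.mem_Icc] at hn ⊢
    exact ⟨hn.1, hn.2.trans (Nat.pow_le_pow_left hY2 _)⟩)
  rw [← hs] at h1
  have h2 : (q : ℝ) ≤ (Y : ℝ) ^ s := by
    calc (q : ℝ) = Real.exp L := hexpL.symm
      _ ≤ Real.exp (s * (ζ * L)) := by
          apply Real.exp_le_exp.2
          rw [hsR]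
          nlinarith
      _ = Real.exp (ζ * L) ^ s := by rw [Real.exp_nat_mul]
      _ ≤ (Y : ℝ) ^ s := pow_le_pow_left₀ (Real.exp_pos _).le (hZ Y hY1) _
  have h3 : ((Y ^ s / q + 1 : ℕ) : ℝ) ≤ 2 * ((Y : ℝ) ^ s / q) := by
    have h4 : ((Y ^ s / q : ℕ) : ℝ) ≤ ((Y ^ s : ℕ) : ℝ) / q := Nat.cast_div_le
    push_cast at h4 ⊢
    have h5 : 1 ≤ (Y : ℝ) ^ s / q := by rw [le_div_iff₀ hq0, one_mul]; exact h2
    linarith
  have h4 : ((T3Cnt.A K (un q) c Y).card : ℝ) ^ s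
      ≤ ((2 * D₂ * Real.exp (-(θ * L / 2 ^ i))) * Y) ^ s := by
    have h5 : ((T3Cnt.A K (un q) c Y).card : ℝ) ^ s
        ≤ (D₂ : ℝ) ^ s * (Nat.card K * ((Y ^ s / q + 1 : ℕ) : ℝ)) := by exact_mod_cast h1
    refine h5.trans ?_
    have h6 : Real.exp (-(θ * L / 2 ^ i)) ^ s = Real.exp (-(θ * L)) := by
      rw [← Real.exp_nat_mul, hsR]; congr 1; field_simp
    have h7 : (2 : ℝ) ≤ 2 ^ s := by
      calc (2 : ℝ) = 2 ^ 1 := (pow_one 2).symm
        _ ≤ 2 ^ s := pow_le_pow_right₀ (by norm_num) (Nat.one_le_iff_ne_zero.2 hs0)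
    have h8 : Real.exp ((1 - θ) * L) / q = Real.exp (-(θ * L)) := by
      rw [← hexpL, ← Real.exp_sub]; congr 1; ring
    calc (D₂ : ℝ) ^ s * (Nat.card K * ((Y ^ s / q + 1 : ℕ) : ℝ))
        ≤ (D₂ : ℝ) ^ s * (Real.exp ((1 - θ) * L) * (2 * ((Y : ℝ) ^ s / q))) := by gcongr
      _ = (D₂ : ℝ) ^ s * (2 * (Real.exp ((1 - θ) * L) / q) * (Y : ℝ) ^ s) := by ring
      _ = (D₂ : ℝ) ^ s * (2 * Real.exp (-(θ * L)) * (Y : ℝ) ^ s) := by rw [h8]
      _ ≤ (D₂ : ℝ) ^ s * (2 ^ s * Real.exp (-(θ * L)) * (Y : ℝ) ^ s) := by gcongr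
      _ = _ := by rw [mul_pow, mul_pow, mul_pow, h6]; ring
  exact (pow_le_pow_iff_left₀ (Nat.cast_nonneg _) (by positivity) hs0).1 h4

end Pool.Agent.H.MP_3e6494_nt.T6Fin
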