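import Mathlib
import Pool.Agent.H.MP_3e6494_nt.helper50.T6Fin
import Pool.Agent.H.MP_3e6494_nt.helper50.T6Cond

/-!
The argument for one prime.
-/

open Finset Filter Topology

set_option linter.unusedSectionVars false
set_option linter.unusedVariables false

namespace Pool.Agent.H.MP_3e6494_nt.T6One

open LocalProd Coset T6Mo T6Par T6Cond
open Pool.Agent.H.MP_3e6494_nt.Class (mem K mem_mem card_mem)

/-- numerics for the smooth part -/
lemma num2 {θ η ν ε C c₀ : ℝ} {B a i : ℕ} {L : ℝ} (h : Cnd θ η ν C c₀ B a i L) (ha : 0 < a)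
    (hη : 0 < η) (hθ1 : θ ≤ 1) (hθ0 : 0 < θ)
    (hν : ν = η / (128 * a)) (hε : ε ≤ η / (128 * a)) (hC : 1 ≤ C) (F : ℝ) (hF : 0 ≤ F)
    (N Z : ℕ) (hN : (N : ℝ) ≤ Real.exp (ν * L)) (hZ1 : 1 ≤ Z) (hZ : (Z : ℝ) ≤ Real.exp (θ / 16 * L)) :
    (N * F) ^ 2 * ((C * Real.exp (ε * L)) ^ 2 * ((1 + Real.log Z) ^ ⌊Real.sqrt L⌋₊ /
      ((⌊Real.sqrt L⌋₊ : ℕ) : ℝ) ^ ⌊η * L / (2 * a * Real.log L)⌋₊))
      ≤ (F * Real.exp (-(η / (32 * a) * L))) ^ 2 := by
  have ha' : (0 : ℝ) < a := by exact_mod_cast ha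
  have hL16 := h.L16
  have hL0 : 0 < L := by linarith
  set t := ⌊Real.sqrt L⌋₊ with ht
  set w := ⌊η * L / (2 * a * Real.log L)⌋₊ with hw
  have hlog1 : 1 ≤ Real.log L := by
    rw [Real.le_log_iff_exp_le hL0]; linarith [Real.exp_one_lt_d9]
  have hlog0 : 0 < Real.log L := by linarith
  have hZ0 : (0 : ℝ) < Z := by exact_mod_cast hZ1
  have hlogZ : Real.log Z ≤ L := by
    have h1 : Real.log Z ≤ θ / 16 * L := by rw [Real.log_le_iff_le_exp hZ0]; exact hZ
    nlinarith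
  have hlogZ0 : 0 ≤ Real.log Z := Real.log_natCast_nonneg Z
  -- t
  set r := Real.exp (Real.log L / 4) with hr
  have hr2 : r * r = Real.sqrt L := by
    rw [hr, ← Real.exp_add, Real.sqrt_eq_rpow, Real.rpow_def_of_pos hL0]; congr 1; ring
  have hr0 : 0 < r := Real.exp_pos _
  have hr4 : 2 ≤ r := by
    have h1 : (4 : ℝ) ≤ Real.sqrt L := Real.le_sqrt_of_sq_le (by norm_num; linarith)
    nlinarith
  have htr : r ≤ (t : ℝ) := by
    have h1 := Nat.lt_floor_add_one (Real.sqrt L)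
    rw [← ht, ← hr2] at h1
    nlinarith
  have ht_le : (t : ℝ) ≤ Real.sqrt L := Nat.floor_le (Real.sqrt_nonneg _)
  have h1 : (1 + Real.log Z) ^ t ≤ Real.exp (Real.sqrt L * Real.log (1 + L)) := by
    calc (1 + Real.log Z) ^ t ≤ (1 + L) ^ t := by gcongr
      _ = Real.exp (t * Real.log (1 + L)) := by
          rw [Real.exp_nat_mul, Real.exp_log (by linarith)]
      _ ≤ _ := by
          apply Real.exp_le_exp.2
          apply mul_le_mul_of_nonneg_right ht_le
          exact Real.log_nonneg (by linarith)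
  have h2 : Real.exp (η * L / (8 * a) - 1 / 4 * Real.log L) ≤ (t : ℝ) ^ w := by
    calc Real.exp (η * L / (8 * a) - 1 / 4 * Real.log L) ≤ Real.exp (w * (Real.log L / 4)) := by
          apply Real.exp_le_exp.2
          have h3 := Nat.lt_floor_add_one (η * L / (2 * a * Real.log L))
          rw [← hw] at h3
          have h4 : (η * L / (2 * a * Real.log L)) * (Real.log L / 4) = η * L / (8 * a) := by
            field_simp; ring
          nlinarith
      _ = r ^ w := by rw [Real.exp_nat_mul]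
      _ ≤ _ := by gcongr
  have h3 : (1 + Real.log Z) ^ t / (t : ℝ) ^ w
      ≤ Real.exp (Real.sqrt L * Real.log (1 + L) - η * L / (8 * a) + 1 / 4 * Real.log L) := by
    rw [div_le_iff₀ (lt_of_lt_of_le (Real.exp_pos _) h2)]
    refine h1.trans ?_
    calc Real.exp (Real.sqrt L * Real.log (1 + L))
        = Real.exp (Real.sqrt L * Real.log (1 + L) - η * L / (8 * a) + 1 / 4 * Real.log L) *
          Real.exp (η * L / (8 * a) - 1 / 4 * Real.log L) := by
          rw [← Real.exp_add]; congr 1; ring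
      _ ≤ _ := by gcongr
  have h4 : 0 ≤ (1 + Real.log Z) ^ t / (t : ℝ) ^ w := by positivity
  have hCe : C = Real.exp (Real.log C) := (Real.exp_log (by linarith)).symm
  calc (N * F) ^ 2 * ((C * Real.exp (ε * L)) ^ 2 * ((1 + Real.log Z) ^ t / (t : ℝ) ^ w))
      ≤ (Real.exp (ν * L) * F) ^ 2 * ((C * Real.exp (ε * L)) ^ 2 *
          Real.exp (Real.sqrt L * Real.log (1 + L) - η * L / (8 * a) + 1 / 4 * Real.log L)) := by
        gcongr
    _ = F ^ 2 * Real.exp (2 * (ν * L) + (2 * Real.log C + 2 * (ε * L)) +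
          (Real.sqrt L * Real.log (1 + L) - η * L / (8 * a) + 1 / 4 * Real.log L)) := by
        rw [Real.exp_add (2 * (ν * L) + (2 * Real.log C + 2 * (ε * L))), Real.exp_add (2 * (ν * L)),
          Real.exp_add (2 * Real.log C), mul_pow, mul_pow]
        have e1 : Real.exp (ν * L) ^ 2 = Real.exp (2 * (ν * L)) := by
          rw [← Real.exp_nat_mul]; push_cast; rfl
        have e2 : Real.exp (ε * L) ^ 2 = Real.exp (2 * (ε * L)) := by
          rw [← Real.exp_nat_mul]; push_cast; rfl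
        have e3 : C ^ 2 = Real.exp (2 * Real.log C) := by
          have : Real.exp (Real.log C) ^ 2 = Real.exp (2 * Real.log C) := by
            rw [← Real.exp_nat_mul]; push_cast; rfl
          rw [← this, ← hCe]
        rw [e1, e2, e3]; ring
    _ ≤ F ^ 2 * Real.exp (2 * (-(η / (32 * a) * L))) := by
        apply mul_le_mul_of_nonneg_left _ (sq_nonneg _)
        apply Real.exp_le_exp.2
        have h5 := h.s2
        have h6 : ν * L = η * L / (128 * a) := by rw [hν]; ring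
        have h7 : ε * L ≤ η * L / (128 * a) := by
          calc ε * L ≤ η / (128 * a) * L := by gcongr
            _ = _ := by ring
        have h8 : η / (32 * a) * L = 4 * (η * L / (128 * a)) := by field_simp; norm_num
        have h9 : η * L / (8 * a) = 16 * (η * L / (128 * a)) := by field_simp; norm_num
        rw [h8] at h5 ⊢
        rw [h6, h9]
        linarith
    _ = _ := by
        rw [mul_pow]
        congr 1
        rw [← Real.exp_nat_mul]; push_cast; rfl

/-- numerics for the long range -/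
lemma num3 {θ η ν ε C c₀ : ℝ} {B a i : ℕ} {L : ℝ} (h : Cnd θ η ν C c₀ B a i L) (ha : 0 < a)
    (hθ0 : 0 < θ) (hη : η = θ / (32 * 2 ^ i))
    (hν : ν = η / (128 * a)) (hε : ε = η / (128 * a * 2 ^ i)) (hC : 1 ≤ C) (F : ℝ) (hF : 0 ≤ F)
    (N : ℕ) (hN : (N : ℝ) ≤ Real.exp (ν * L)) (UQ lU D₂ : ℝ) (hUQ0 : 0 ≤ UQ) (hlU0 : 0 ≤ lU)
    (hUQ : UQ ≤ 3 * (1 + L) ^ 2 * Real.exp (η * L)) (hlU : lU ≤ 3 * L) (hD₂0 : 0 ≤ D₂)
    (hD₂ : D₂ ≤ C * Real.exp (3 * 2 ^ i * ε * L)) :
    (N * F) ^ 2 * (UQ * (C * Real.exp (3 * ε * L)) ^ 2 *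
        ((2 * D₂ * Real.exp (-(θ * L / 2 ^ i))) * (1 + lU)))
      ≤ (F * Real.exp (-(θ / (8 * 2 ^ i) * L))) ^ 2 := by
  have ha' : (1 : ℝ) ≤ a := by exact_mod_cast ha
  have hL16 := h.L16
  have hL0 : 0 < L := by linarith
  have h2i : (1 : ℝ) ≤ 2 ^ i := one_le_pow₀ (by norm_num)
  have hη0 : 0 < η := by rw [hη]; positivity
  calc (N * F) ^ 2 * (UQ * (C * Real.exp (3 * ε * L)) ^ 2 *
        ((2 * D₂ * Real.exp (-(θ * L / 2 ^ i))) * (1 + lU)))
      ≤ (Real.exp (ν * L) * F) ^ 2 * ((3 * (1 + L) ^ 2 * Real.exp (η * L)) *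
        (C * Real.exp (3 * ε * L)) ^ 2 *
        ((2 * (C * Real.exp (3 * 2 ^ i * ε * L)) * Real.exp (-(θ * L / 2 ^ i))) * (1 + 3 * L))) := by
        gcongr
    _ = F ^ 2 * ((3 * (1 + L) ^ 2 * C ^ 2 * (2 * C) * (1 + 3 * L)) *
          Real.exp (2 * (ν * L) + η * L + 2 * (3 * ε * L) + 3 * 2 ^ i * ε * L
            + -(θ * L / 2 ^ i))) := by
        rw [Real.exp_add, Real.exp_add, Real.exp_add, Real.exp_add, mul_pow, mul_pow]
        have e1 : Real.exp (ν * L) ^ 2 = Real.exp (2 * (ν * L)) := by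
          rw [← Real.exp_nat_mul]; push_cast; rfl
        have e2 : Real.exp (3 * ε * L) ^ 2 = Real.exp (2 * (3 * ε * L)) := by
          rw [← Real.exp_nat_mul]; push_cast; rfl
        rw [e1, e2]; ring
    _ ≤ F ^ 2 * (Real.exp (5 * θ / (8 * 2 ^ i) * L) *
          Real.exp (2 * (ν * L) + η * L + 2 * (3 * ε * L) + 3 * 2 ^ i * ε * L
            + -(θ * L / 2 ^ i))) := by
        have := h.s3
        gcongr
    _ ≤ F ^ 2 * Real.exp (2 * (-(θ / (8 * 2 ^ i) * L))) := by
        apply mul_le_mul_of_nonneg_left _ (sq_nonneg _)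
        rw [← Real.exp_add]
        apply Real.exp_le_exp.2
        have hθη : θ = 32 * 2 ^ i * η := by rw [hη]; field_simp
        have e1 : 5 * θ / (8 * 2 ^ i) * L = 20 * (η * L) := by rw [hθη]; field_simp; ring
        have e2 : θ * L / 2 ^ i = 32 * (η * L) := by rw [hθη]; field_simp
        have e3 : θ / (8 * 2 ^ i) * L = 4 * (η * L) := by rw [hθη]; field_simp; ring
        have hηL : 0 ≤ η * L := by positivity
        have e4 : ν * L ≤ η * L / 128 := by
          have : ν * L = (η * L / 128) / a := by rw [hν]; field_simp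
          rw [this]
          exact div_le_self (by positivity) ha'
        have e5 : 3 * 2 ^ i * ε * L ≤ 3 * (η * L / 128) := by
          have : 3 * 2 ^ i * ε * L = 3 * ((η * L / 128) / a) := by rw [hε]; field_simp
          rw [this]
          exact mul_le_mul_of_nonneg_left (div_le_self (by positivity) ha') (by norm_num)
        have e6 : 3 * ε * L ≤ 3 * (η * L / 128) := by
          refine le_trans ?_ e5
          have hε0 : 0 ≤ ε := by rw [hε]; positivity
          have : 3 * ε * L = 3 * 1 * ε * L := by ring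
          rw [this]
          gcongr
        rw [e1, e2, e3]
        linarith
    _ = _ := by
        rw [mul_pow]
        congr 1
        rw [← Real.exp_nat_mul]; push_cast; rfl

/-- numerics for the classes of the short range -/
lemma num1 {θ L : ℝ} {B a : ℕ} (hL16 : 16 ≤ L) (hθ0 : 0 < θ) (ha : (2 * B + 16) / θ ≤ a)
    (M : ℝ) (lZ : ℝ) (hlZ0 : 0 ≤ lZ) (hlZ : lZ ≤ L) :
    M ^ 2 * (2 * ((1 + lZ) ^ 2 * ((L ^ a) ^ 2) ^ (1 + (1 - θ / 2) - 4 * (1 / 2 - 1 / (2 * a : ℝ)))))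
      ≤ (M / (8 * L ^ B)) ^ 2 := by
  have hL0 : 0 < L := by linarith
  have ha0 : (0 : ℝ) < a := lt_of_lt_of_le (by positivity) ha
  have haθ : 2 * B + 16 ≤ a * θ := by rwa [div_le_iff₀ hθ0] at ha
  have hlog1 : 1 ≤ Real.log L := by
    rw [Real.le_log_iff_exp_le hL0]; linarith [Real.exp_one_lt_d9]
  have h1 : ((L ^ a) ^ 2) ^ (1 + (1 - θ / 2) - 4 * (1 / 2 - 1 / (2 * a : ℝ)))
      ≤ 1 / L ^ (2 * B + 12) := by
    have e1 : ((L ^ a) ^ 2 : ℝ) = Real.exp (2 * a * Real.log L) := by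
      rw [← pow_mul]
      have : (2 * (a : ℝ) * Real.log L) = ((a * 2 : ℕ) : ℝ) * Real.log L := by push_cast; ring
      rw [this, Real.exp_nat_mul, Real.exp_log hL0]
    have e2 : (1 : ℝ) / L ^ (2 * B + 12) = Real.exp (-((2 * B + 12) * Real.log L)) := by
      rw [Real.exp_neg]
      have : ((2 * (B : ℝ) + 12) * Real.log L) = ((2 * B + 12 : ℕ) : ℝ) * Real.log L := by
        push_cast; ring
      rw [this, Real.exp_nat_mul, Real.exp_log hL0, one_div]
    rw [e1, e2, ← Real.exp_mul]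
    apply Real.exp_le_exp.2
    have e3 : 2 * (a : ℝ) * Real.log L * (1 + (1 - θ / 2) - 4 * (1 / 2 - 1 / (2 * a : ℝ)))
        = (4 - a * θ) * Real.log L := by field_simp; ring
    rw [e3]
    nlinarith
  have h2 : 2 * ((1 + lZ) ^ 2 * ((L ^ a) ^ 2) ^ (1 + (1 - θ / 2) - 4 * (1 / 2 - 1 / (2 * a : ℝ))))
      ≤ 1 / (64 * L ^ (2 * B)) := by
    calc 2 * ((1 + lZ) ^ 2 * ((L ^ a) ^ 2) ^ (1 + (1 - θ / 2) - 4 * (1 / 2 - 1 / (2 * a : ℝ))))
        ≤ 2 * ((2 * L) ^ 2 * (1 / L ^ (2 * B + 12))) := by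
          gcongr
          linarith
      _ = 8 * L ^ 2 / (L ^ (2 * B) * L ^ 12) := by rw [pow_add]; ring
      _ ≤ 1 / (64 * L ^ (2 * B)) := by
          rw [div_le_div_iff₀ (by positivity) (by positivity)]
          have h3 : (512 : ℝ) ≤ L ^ 10 := by
            calc (512 : ℝ) ≤ 16 ^ 10 := by norm_num
              _ ≤ L ^ 10 := by gcongr
          have h4 : 0 < L ^ (2 * B) := by positivity
          have h5 : 0 < L ^ 2 := by positivity
          have e : 8 * L ^ 2 * (64 * L ^ (2 * B)) = (512 * L ^ 2) * L ^ (2 * B) := by ring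
          have e' : 1 * (L ^ (2 * B) * L ^ 12) = (L ^ 10 * L ^ 2) * L ^ (2 * B) := by
            rw [← pow_add]; ring
          rw [e, e']
          gcongr
  calc M ^ 2 * (2 * ((1 + lZ) ^ 2 * ((L ^ a) ^ 2) ^ (1 + (1 - θ / 2) - 4 * (1 / 2 - 1 / (2 * a : ℝ)))))
      ≤ M ^ 2 * (1 / (64 * L ^ (2 * B))) := mul_le_mul_of_nonneg_left h2 (sq_nonneg _)
    _ = _ := by rw [div_pow, mul_pow, ← pow_mul, mul_comm B 2]; ring

end Pool.Agent.H.MP_3e6494_nt.T6One
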