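import Mathlib
import Pool.Agent.H.MP_3e6494_nt.helper50.T6One
import Pool.Agent.H.MP_3e6494_nt.helper50.T3Prime

/-!
One prime: the number of exceptional characters.
-/

open Finset Filter Topology

set_option linter.unusedSectionVars false
set_option linter.unusedVariables false

namespace Pool.Agent.H.MP_3e6494_nt.T6Last

open LocalProd Coset T6Mo T6Par T6Cond
open Pool.Agent.H.MP_3e6494_nt.Class (mem K mem_mem card_mem)

variable {q : ℕ} [hq : Fact q.Prime]

/-- the basic relations between the constants -/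
structure Bas (θ η ν ε c₀ : ℝ) (B a i : ℕ) : Prop where
  hθ0 : 0 < θ
  hθ1 : θ ≤ 1
  ha : (2 * B + 16) / θ ≤ a
  hi : 16 / θ ≤ 2 ^ i
  hη : η = θ / (32 * 2 ^ i)
  hν : ν = η / (128 * a)
  hε : ε = η / (128 * a * 2 ^ i)
  hc₀ : c₀ = Real.sqrt (ν / (96 * a))

section

variable {θ η ν ε c₀ : ℝ} {B a i : ℕ}

lemma Bas.ha0 (h : Bas θ η ν ε c₀ B a i) : (0 : ℝ) < a := by
  have := h.hθ0
  exact lt_of_lt_of_le (by positivity) h.ha

lemma Bas.haN (h : Bas θ η ν ε c₀ B a i) : 0 < a := by exact_mod_cast h.ha0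

lemma Bas.ha16 (h : Bas θ η ν ε c₀ B a i) : 16 / θ ≤ a := by
  have h0 := h.hθ0
  refine le_trans ?_ h.ha
  gcongr
  have : (0 : ℝ) ≤ B := Nat.cast_nonneg B
  linarith

lemma Bas.ha16' (h : Bas θ η ν ε c₀ B a i) : (16 : ℝ) ≤ a := by
  refine le_trans ?_ h.ha16
  rw [le_div_iff₀ h.hθ0]; linarith [h.hθ1]

lemma Bas.h2i (h : Bas θ η ν ε c₀ B a i) : (16 : ℝ) ≤ 2 ^ i := by
  refine le_trans ?_ h.hi
  rw [le_div_iff₀ h.hθ0]; linarith [h.hθ1]

lemma Bas.hη0 (h : Bas θ η ν ε c₀ B a i) : 0 < η := by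
  have := h.hθ0
  rw [h.hη]; positivity

lemma Bas.hηle (h : Bas θ η ν ε c₀ B a i) : η ≤ θ / 512 := by
  rw [h.hη]
  apply div_le_div_of_nonneg_left h.hθ0.le (by norm_num)
  linarith [h.h2i]

lemma Bas.hν0 (h : Bas θ η ν ε c₀ B a i) : 0 < ν := by
  have := h.hη0; have := h.ha0
  rw [h.hν]; positivity

lemma Bas.hνle (h : Bas θ η ν ε c₀ B a i) : ν ≤ η := by
  rw [h.hν]
  exact div_le_self h.hη0.le (by linarith [h.ha16'])

lemma Bas.hε0 (h : Bas θ η ν ε c₀ B a i) : 0 < ε := by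
  have := h.hη0; have := h.ha0
  rw [h.hε]; positivity

lemma Bas.hε1 (h : Bas θ η ν ε c₀ B a i) : ε ≤ η / (128 * a) := by
  have h0 := h.ha0
  rw [h.hε]
  apply div_le_div_of_nonneg_left h.hη0.le (by positivity)
  have : (1 : ℝ) ≤ 2 ^ i := by linarith [h.h2i]
  nlinarith

lemma Bas.hc₀0 (h : Bas θ η ν ε c₀ B a i) : 0 < c₀ := by
  have := h.hν0; have := h.ha0
  rw [h.hc₀]; exact Real.sqrt_pos.2 (by positivity)

lemma Bas.hν1 (h : Bas θ η ν ε c₀ B a i) : ν ≤ 1 / 512 := by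
  linarith [h.hνle, h.hηle, h.hθ1]

lemma Bas.hc₀1 (h : Bas θ η ν ε c₀ B a i) : c₀ ≤ 1 := by
  rw [h.hc₀, Real.sqrt_le_left (by norm_num)]
  have := h.ha0
  rw [div_le_iff₀ (by positivity)]
  linarith [h.hν1, h.ha16']

lemma Bas.h2νa (h : Bas θ η ν ε c₀ B a i) (x : ℝ) (hx : 0 ≤ x) :
    12 * (c₀ ^ 2 * x) = ν * x / (8 * a) := by
  have := h.ha0; have := h.hν0
  rw [h.hc₀, Real.sq_sqrt (by positivity)]
  field_simp; ring

lemma Bas.h1a (h : Bas θ η ν ε c₀ B a i) : 1 / (a : ℝ) ≤ θ / 16 := by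
  have h1 := h.ha16
  rw [div_le_iff₀ h.hθ0] at h1
  rw [div_le_div_iff₀ h.ha0 (by norm_num)]; linarith

end

/-- the size of the resonator weights -/
lemma lam_facts {L c₀ : ℝ} (hL16 : 16 ≤ L) (hc₀0 : 0 < c₀) (hc₀1 : c₀ ≤ 1) :
    1 ≤ Real.log L ∧ Real.sqrt (L / Real.log L) ^ 2 = L / Real.log L ∧
    c₀ * Real.sqrt (L / Real.log L) ≤ L ∧ 2 * (1 + c₀ * Real.sqrt (L / Real.log L)) ≤ L := by
  have hL0 : 0 < L := by linarith
  have hlog1 : 1 ≤ Real.log L := by
    rw [Real.le_log_iff_exp_le hL0]; linarith [Real.exp_one_lt_d9]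
  have hσL : Real.sqrt (L / Real.log L) ≤ Real.sqrt L := by
    apply Real.sqrt_le_sqrt
    exact div_le_self hL0.le hlog1
  have hsL4 : 4 ≤ Real.sqrt L := Real.le_sqrt_of_sq_le (by norm_num; linarith)
  have hsLL : Real.sqrt L * Real.sqrt L = L := Real.mul_self_sqrt hL0.le
  have hlamL : c₀ * Real.sqrt (L / Real.log L) ≤ Real.sqrt L := by
    calc c₀ * Real.sqrt (L / Real.log L) ≤ 1 * Real.sqrt (L / Real.log L) :=
          mul_le_mul_of_nonneg_right hc₀1 (Real.sqrt_nonneg _)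
      _ ≤ _ := by rw [one_mul]; exact hσL
  refine ⟨hlog1, Real.sq_sqrt (by positivity), by nlinarith, by nlinarith⟩

/-- the final numerical contradiction -/
lemma final_num {bc n q L F M A₁ T s₂ s₃ E S : ℝ} {B : ℕ} (hbc : 0 < bc) (hn0 : 0 ≤ n)
    (hn : n ≤ q) (hL : 16 ≤ L) (hqb : q ≤ bc * L ^ B) (hF : 0 < F) (hM : F * (E * E) ≤ M)
    (hs₂0 : 0 ≤ s₂) (hs₃0 : 0 ≤ s₃)
    (hEG : 32 * (L ^ B * S) ≤ E) (hS : 1 ≤ S) (hA₁ : A₁ ≤ 2) (hA₁0 : 0 ≤ A₁)
    (hT : T ≤ bc * F) (hs₂ : L ^ B * s₂ ≤ F) (hs₃ : L ^ B * s₃ ≤ F)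
    (hmain : bc * (M / 2) ≤ (E + A₁) * (n * (F * S)) + T
      + Real.sqrt (bc * n) * (M / (8 * L ^ B) + s₂ + s₃)) : False := by
  have hL0 : 0 < L := by linarith
  have hLB0 : 0 < L ^ B := by positivity
  have hLB1 : 1 ≤ L ^ B := one_le_pow₀ (by linarith)
  have hG1 : 1 ≤ L ^ B * S := by nlinarith
  have hE32 : 32 ≤ E := by linarith
  have hM0 : 0 ≤ M := le_trans (by positivity) hM
  have hsq : Real.sqrt (bc * n) ≤ bc * L ^ B := by
    rw [Real.sqrt_le_left (by positivity)]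
    calc bc * n ≤ bc * (bc * L ^ B) := by gcongr; linarith
      _ ≤ bc * (bc * L ^ B) * L ^ B := le_mul_of_one_le_right (by positivity) hLB1
      _ = _ := by ring
  have hterm3 : Real.sqrt (bc * n) * (M / (8 * L ^ B) + s₂ + s₃) ≤ bc * (M / 8 + F + F) := by
    calc Real.sqrt (bc * n) * (M / (8 * L ^ B) + s₂ + s₃)
        ≤ (bc * L ^ B) * (M / (8 * L ^ B) + s₂ + s₃) := by
          apply mul_le_mul_of_nonneg_right hsq (by positivity)
      _ = bc * (L ^ B * (M / (8 * L ^ B)) + L ^ B * s₂ + L ^ B * s₃) := by ring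
      _ ≤ _ := by
          apply mul_le_mul_of_nonneg_left _ hbc.le
          have hs11 : L ^ B * (M / (8 * L ^ B)) = M / 8 := by field_simp
          linarith
  have hterm1 : (E + A₁) * (n * (F * S)) ≤ bc * ((E + 2) * (L ^ B * S) * F) := by
    calc (E + A₁) * (n * (F * S)) ≤ (E + 2) * ((bc * L ^ B) * (F * S)) := by
          apply mul_le_mul _ _ (by positivity) (by linarith)
          · linarith
          · apply mul_le_mul_of_nonneg_right _ (by positivity)
            linarith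
      _ = _ := by ring
  have hall : bc * (M / 2) ≤ bc * ((E + 2) * (L ^ B * S) * F + F + (M / 8 + F + F)) := by
    refine hmain.trans ?_
    have := add_le_add (add_le_add hterm1 hT) hterm3
    refine this.trans (le_of_eq ?_)
    ring
  have hall2 := le_of_mul_le_mul_left hall hbc
  set G := L ^ B * S with hG
  have h38 : 3 / 8 * (F * (E * E)) ≤ ((E + 2) * G + 3) * F := by linarith
  have h39 : 3 / 8 * (E * E) ≤ (E + 2) * G + 3 := by
    have h1 : (3 / 8 * (E * E)) * F ≤ ((E + 2) * G + 3) * F := by linarith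
    exact le_of_mul_le_mul_right h1 hF
  have h40 : (E + 2) * G ≤ (E + 2) * (E / 32) := by
    apply mul_le_mul_of_nonneg_left _ (by linarith)
    linarith
  nlinarith

/-- the contribution of the principal character -/
lemma term2_num {bc q L ν η N W : ℝ} {X : ℝ} {B : ℕ} (hexpL : Real.exp L = q)
    (hL0 : 0 < L) (hqb : q ≤ bc * L ^ B) (htr : 3 * (1 + L) * L ^ B ≤ Real.exp (L / 4))
    (hX : X ≤ (3 / 2) * (Real.sqrt q * (1 + L))) (hX0 : 0 ≤ X) (hN0 : 0 ≤ N) (hW0 : 0 ≤ W)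
    (hN : N ≤ Real.exp (ν * L)) (hW : W ≤ Real.exp (η * L)) (hνη : ν + η ≤ 1 / 4) :
    2 * X * N * W ≤ bc := by
  have hLB0 : 0 < L ^ B := by positivity
  have h4 : Real.sqrt q = Real.exp (L / 2) := by rw [← hexpL, Real.exp_half]
  rw [h4] at hX
  have h6 : 3 * Real.exp (L / 2) * (1 + L) * Real.exp (ν * L) * Real.exp (η * L) * L ^ B ≤ q := by
    calc 3 * Real.exp (L / 2) * (1 + L) * Real.exp (ν * L) * Real.exp (η * L) * L ^ B
        = (3 * (1 + L) * L ^ B) * (Real.exp (L / 2) * Real.exp (ν * L) * Real.exp (η * L)) := by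
          ring
      _ ≤ Real.exp (L / 4) * (Real.exp (L / 2) * Real.exp (ν * L) * Real.exp (η * L)) := by gcongr
      _ = Real.exp ((3 / 4 + ν + η) * L) := by
          rw [← Real.exp_add, ← Real.exp_add, ← Real.exp_add]; congr 1; ring
      _ ≤ Real.exp (1 * L) := by
          apply Real.exp_le_exp.2
          apply mul_le_mul_of_nonneg_right _ hL0.le
          linarith
      _ = q := by rw [one_mul, hexpL]
  have h7 : (2 * X * N * W) * L ^ B ≤ bc * L ^ B := by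
    calc (2 * X * N * W) * L ^ B
        ≤ (2 * ((3 / 2) * (Real.exp (L / 2) * (1 + L))) * Real.exp (ν * L)
            * Real.exp (η * L)) * L ^ B := by gcongr
      _ = 3 * Real.exp (L / 2) * (1 + L) * Real.exp (ν * L) * Real.exp (η * L) * L ^ B := by ring
      _ ≤ q := h6
      _ ≤ _ := hqb
  exact le_of_mul_le_mul_right h7 hLB0

lemma exp_small {B' F e : ℝ} (hF : 0 ≤ F) (h : B' ≤ Real.exp e) :
    B' * (F * Real.exp (-e)) ≤ F := by
  rw [Real.exp_neg]
  calc B' * (F * (Real.exp e)⁻¹) = F * (B' / Real.exp e) := by rw [div_eq_mul_inv]; ring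
    _ ≤ F * 1 := by
        apply mul_le_mul_of_nonneg_left _ hF
        rw [div_le_one (Real.exp_pos _)]; exact h
    _ = _ := mul_one _

theorem one_prime {θ η ν ε C c₀ : ℝ} {B a i : ℕ} (bs : Bas θ η ν ε c₀ B a i)
    (hC1 : 1 ≤ C) (hC : ∀ n : ℕ, n ≠ 0 → ((n.divisors).card : ℝ) ≤ C * (n : ℝ) ^ ε)
    (h : Cnd θ η ν C c₀ B a i (Real.log q))
    (H : Subgroup (DirichletCharacter ℂ q)) (hH : (q : ℝ) ^ θ ≤ Nat.card H)
    (𝔅 : Finset (DirichletCharacter ℂ q))
    (h𝔅 : ∀ χ₀ ∈ 𝔅, ∀ ψ ∈ H, χ₀ * ψ ≠ 1 → ‖(χ₀ * ψ).LFunction (1 / 2)‖ ≤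
      Real.exp (c₀ * Real.sqrt (Real.log q / Real.log (Real.log q)) / 256)) :
    (𝔅.card : ℝ) ≤ q / Real.log q ^ B := by
  classical
  by_contra hcon
  push Not at hcon
  set L := Real.log q with hL
  have hq0 : (0 : ℝ) < q := by exact_mod_cast hq.out.pos
  have hexpL : Real.exp L = q := Real.exp_log hq0
  have hL16 := h.L16
  have hL0 : 0 < L := by linarith
  have hL1 : 1 ≤ L := by linarith
  have hθ0 := bs.hθ0
  have hθ1 := bs.hθ1
  have ha := bs.ha
  have hi := bs.hi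
  have ha0 := bs.ha0
  have haN := bs.haN
  have ha16 := bs.ha16
  have hη0 := bs.hη0
  have hν0 := bs.hν0
  have hε0 := bs.hε0
  have hηle := bs.hηle
  have hνle := bs.hνle
  have hε1 := bs.hε1
  obtain ⟨hlog1, hσ2, hlamL, h2lam⟩ := lam_facts hL16 bs.hc₀0 bs.hc₀1
  set σ := Real.sqrt (L / Real.log L) with hσ
  set lam := c₀ * σ with hlam
  have hlam1 : 1 ≤ lam := h.lam1
  have hlam0 : 0 ≤ lam := by linarith
  -- the sets of primes
  set P := Sums.P0 (L ^ a) with hP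
  set y : ℝ := (L ^ a) ^ 2 with hy
  have hy1 : 1 ≤ y := by
    rw [hy]
    exact one_le_pow₀ (one_le_pow₀ (by linarith))
  have hy0 : 0 < y := by linarith
  have hLy : L ≤ y := by
    rw [hy, ← pow_mul]
    calc L = L ^ 1 := (pow_one L).symm
      _ ≤ L ^ (a * 2) := pow_le_pow_right₀ (by linarith) (by omega)
  set Q := (Finset.Icc 1 ⌊y⌋₊).filter Nat.Prime with hQ
  have hgood := h.good
  have hyq : y < q := by
    rw [← hexpL]
    refine lt_of_le_of_lt ?_ h.pq
    rw [hy]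
    exact pow_le_pow_right₀ (one_le_pow₀ (by linarith)) (by norm_num)
  have hPq : ∀ p ∈ P, p.Prime ∧ p < q := by
    intro p hp
    have h1 := hgood.mem_P0 hp
    refine ⟨h1.1, ?_⟩
    have h2 := lt_of_le_of_lt h1.2.2 h.pq
    rw [hexpL] at h2
    exact_mod_cast h2
  have hP' : ∀ p ∈ P, p.Prime := fun p hp => (hPq p hp).1
  have hQmem : ∀ p ∈ Q, p.Prime ∧ (p : ℝ) ≤ y := by
    intro p hp
    rw [hQ, Finset.mem_filter, Finset.mem_Icc] at hp
    exact ⟨hp.2, (Nat.le_floor_iff hy0.le).1 hp.1.2⟩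
  have hQq : ∀ p ∈ Q, p.Prime ∧ p < q := by
    intro p hp
    have h1 := hQmem p hp
    exact ⟨h1.1, by exact_mod_cast lt_of_le_of_lt h1.2 hyq⟩
  have hQ' : ∀ p ∈ Q, p.Prime := fun p hp => (hQq p hp).1
  have hyQ : ∀ p : ℕ, p.Prime → (p : ℝ) ≤ y → p ∈ Q := by
    intro p hp hpy
    rw [hQ, Finset.mem_filter, Finset.mem_Icc]
    exact ⟨⟨hp.one_lt.le, Nat.le_floor hpy⟩, hp⟩
  have hPQ : Disjoint P Q := by
    rw [Finset.disjoint_left]
    intro p hp hp'
    have h1 := (hgood.mem_P0 hp).2.1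
    have h2 := (hQmem p hp').2
    linarith
  -- the weights
  set f := T6Res.ff lam with hf
  have hf0 : ∀ p ∈ P, 0 ≤ f p := fun p _ => T6Res.ff_nonneg hlam0 p
  set b : ℝ := 1 / 2 - 1 / (2 * a) with hb
  have hb12 : b ≤ 1 / 2 := by
    have : 0 < 1 / (2 * (a : ℝ)) := by positivity
    linarith
  have hpow : ∀ p ∈ P, L ≤ (p : ℝ) ^ (1 / 2 - b) := by
    intro p hp
    have h1 := (hgood.mem_P0 hp).2.1
    have e1 : (1 / 2 - b : ℝ) = 1 / (2 * a) := by rw [hb]; ring
    rw [e1]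
    have e2 : L = y ^ (1 / (2 * a) : ℝ) := by
      rw [hy, ← pow_mul, ← Real.rpow_natCast, ← Real.rpow_mul hL0.le]
      have : (((a * 2 : ℕ) : ℝ) * (1 / (2 * a) : ℝ)) = 1 := by push_cast; field_simp
      rw [this, Real.rpow_one]
    calc L = y ^ (1 / (2 * a) : ℝ) := e2
      _ ≤ (p : ℝ) ^ (1 / (2 * a) : ℝ) := Real.rpow_le_rpow hy0.le h1.le (by positivity)
  have hf1 : ∀ p ∈ P, f p ≤ (p : ℝ) ^ (-b) := by
    intro p hp
    exact T6Res.cond1 hgood hlam0 b hp (hlamL.trans (hpow p hp))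
  have hf2 : ∀ p ∈ P, (1 + f p * Real.sqrt p) * (1 + f p / Real.sqrt p) ≤ (p : ℝ) ^ (1 / 2 - b) := by
    intro p hp
    refine T6Res.cond2 hgood hlam0 b hp ?_ (h2lam.trans (hpow p hp))
    have h1 := (hgood.mem_P0 hp).2.1
    linarith
  -- the parameters
  set N := ⌊Real.exp (ν * L)⌋₊ with hN
  set Z := ⌊Real.exp (θ / 16 * L)⌋₊ with hZ
  set W := ⌊Real.exp (η * L)⌋₊ with hW
  set w := ⌊η * L / (2 * a * Real.log L)⌋₊ with hw
  set X := Final.len q with hX
  have hNle : (N : ℝ) ≤ Real.exp (ν * L) := Nat.floor_le (Real.exp_pos _).le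
  have hZle : (Z : ℝ) ≤ Real.exp (θ / 16 * L) := Nat.floor_le (Real.exp_pos _).le
  have hWle : (W : ℝ) ≤ Real.exp (η * L) := Nat.floor_le (Real.exp_pos _).le
  have hN1 : 1 ≤ N := by
    apply Nat.le_floor
    rw [Nat.cast_one]
    exact Real.one_le_exp (by positivity)
  have hZ1 : 1 ≤ Z := by
    apply Nat.le_floor
    rw [Nat.cast_one]
    exact Real.one_le_exp (by positivity)
  have hW1 : 1 ≤ W := by
    apply Nat.le_floor
    rw [Nat.cast_one]
    exact Real.one_le_exp (by positivity)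
  have hNhalf : Real.exp (ν * L) / 2 ≤ N := by
    have h1 := Nat.sub_one_lt_floor (Real.exp (ν * L))
    have h2 := h.nu2
    linarith
  have hNZ : N ≤ Z := by
    apply Nat.floor_le_floor
    apply Real.exp_le_exp.2
    apply mul_le_mul_of_nonneg_right _ hL0.le
    linarith
  have hcast : ∀ (x : ℝ) (n : ℕ), (n : ℝ) ≤ Real.exp (x * L) → x < 1 → n < q := by
    intro x n h1 h2
    have h3 : Real.exp (x * L) < Real.exp L := by
      apply Real.exp_lt_exp.2
      have := mul_lt_mul_of_pos_right h2 hL0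
      linarith only [this]
    rw [hexpL] at h3
    exact_mod_cast lt_of_le_of_lt h1 h3
  have hZNN : Z * N * N < q := by
    apply hcast (θ / 16 + 2 * ν) _ _ (by linarith)
    push_cast
    calc (Z : ℝ) * N * N ≤ Real.exp (θ / 16 * L) * Real.exp (ν * L) * Real.exp (ν * L) := by gcongr
      _ = _ := by rw [← Real.exp_add, ← Real.exp_add]; congr 1; ring
  have hNW : N * W < q := by
    apply hcast (ν + η) _ _ (by linarith)
    push_cast
    calc (N : ℝ) * W ≤ Real.exp (ν * L) * Real.exp (η * L) := by gcongr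
      _ = _ := by rw [← Real.exp_add]; congr 1; ring
  have hZq : Z < q := hcast (θ / 16) Z hZle (by linarith)
  have hqX : q ≤ X := by exact_mod_cast Final.q_le_len (q := q)
  have hZX : Z ≤ X := hZq.le.trans hqX
  have hX0 : (0 : ℝ) < X := by linarith [Final.q_le_len (q := q)]
  have hXle : (X : ℝ) ≤ 9 / 4 * (q * (1 + L) ^ 2) := by
    have h3 := Final.sqrt_len_le (q := q)
    calc (X : ℝ) = Real.sqrt X ^ 2 := (Real.sq_sqrt hX0.le).symm
      _ ≤ ((3 / 2) * (Real.sqrt q * (1 + Real.log q))) ^ 2 := by gcongr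
      _ = 9 / 4 * (q * (1 + L) ^ 2) := by
          rw [mul_pow, mul_pow, Real.sq_sqrt hq0.le]; ring
  have hXq2 : (X : ℝ) ≤ Real.exp (2 * L) := by
    have h1 := h.xq
    calc (X : ℝ) ≤ 9 / 4 * (q * (1 + L) ^ 2) := hXle
      _ = q * (9 / 4 * (1 + L) ^ 2) := by ring
      _ ≤ Real.exp L * Real.exp L := by
          rw [hexpL] at h1 ⊢
          gcongr
      _ = _ := by rw [← Real.exp_add]; congr 1; ring
  have hXW : ((X * W : ℕ) : ℝ) ≤ Real.exp (3 * L) := by
    push_cast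
    calc (X : ℝ) * W ≤ Real.exp (2 * L) * Real.exp (η * L) := by gcongr
      _ = Real.exp ((2 + η) * L) := by rw [← Real.exp_add]; congr 1; ring
      _ ≤ _ := by
          apply Real.exp_le_exp.2
          apply mul_le_mul_of_nonneg_right _ hL0.le
          linarith
  have hXW1 : 1 ≤ X * W := Nat.mul_pos (by omega) hW1
  have hlogXW : Real.log ((X * W : ℕ) : ℝ) ≤ 3 * L := by
    rw [Real.log_le_iff_le_exp (by exact_mod_cast hXW1)]
    exact hXW
  -- the mollifier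
  have hprW : ∀ S ∈ SF Q w, pr S ≤ W := by
    intro S hS
    have hS' := mem_SF.1 hS
    apply Nat.le_floor
    have h1 : ((pr S : ℕ) : ℝ) ≤ y ^ S.card := by
      unfold pr
      push_cast
      calc ∏ p ∈ S, (p : ℝ) ≤ ∏ _p ∈ S, y := by
            apply Finset.prod_le_prod
            · intro p _; exact Nat.cast_nonneg p
            · intro p hp; exact (hQmem p (hS'.1 hp)).2
        _ = y ^ S.card := by rw [Finset.prod_const]
    refine h1.trans ?_
    calc y ^ S.card ≤ y ^ w := pow_le_pow_right₀ hy1 hS'.2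
      _ = Real.exp (w * (2 * a * Real.log L)) := by
          rw [Real.exp_nat_mul]
          congr 1
          rw [hy, ← pow_mul]
          have : (2 * (a : ℝ) * Real.log L) = ((a * 2 : ℕ) : ℝ) * Real.log L := by push_cast; ring
          rw [this, Real.exp_nat_mul, Real.exp_log hL0]
      _ ≤ Real.exp (η * L) := by
          apply Real.exp_le_exp.2
          have h2 : (w : ℝ) ≤ η * L / (2 * a * Real.log L) := Nat.floor_le (by positivity)
          rw [le_div_iff₀ (by positivity)] at h2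
          exact h2
  have hprinj : Set.InjOn pr ((SF Q w : Finset (Finset ℕ)) : Set (Finset ℕ)) := by
    intro S hS T hT hST
    rw [Finset.mem_coe, mem_SF] at hS hT
    rw [← primeFactors_pr hQ' hS.1, ← primeFactors_pr hQ' hT.1, hST]
  have hprimage : (SF Q w).image pr ⊆ Finset.Icc 1 W := by
    intro n hn
    rw [Finset.mem_image] at hn
    obtain ⟨S, hS, rfl⟩ := hn
    exact Finset.mem_Icc.2 ⟨pr_pos hQ' (mem_SF.1 hS).1, hprW S hS⟩
  have hlogW : Real.log W ≤ L := by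
    rw [Real.log_le_iff_le_exp (by exact_mod_cast hW1)]
    refine hWle.trans (Real.exp_le_exp.2 ?_)
    have h1 : η ≤ 1 := by linarith only [hηle, hθ1]
    have := mul_le_mul_of_nonneg_right h1 hL0.le
    linarith only [this]
  have hc2 : ∑ S ∈ SF Q w, 1 / ((pr S : ℕ) : ℝ) ≤ Real.sqrt (1 + L) ^ 2 := by
    rw [Real.sq_sqrt (by linarith), ← Finset.sum_image (f := fun n : ℕ => 1 / (n : ℝ)) hprinj]
    calc ∑ n ∈ (SF Q w).image pr, 1 / (n : ℝ) ≤ ∑ n ∈ Finset.Icc 1 W, 1 / (n : ℝ) := by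
          apply Finset.sum_le_sum_of_subset_of_nonneg hprimage
          intro n _ _; positivity
      _ ≤ 1 + Real.log W := T6Cnt.harmonic_le W
      _ ≤ 1 + L := by linarith
  have hM1 : ∑ S ∈ SF Q w, ((pr S : ℕ) : ℝ) ^ (-(1 / 2) : ℝ) ≤ W := by
    calc ∑ S ∈ SF Q w, ((pr S : ℕ) : ℝ) ^ (-(1 / 2) : ℝ) ≤ ∑ S ∈ SF Q w, (1 : ℝ) := by
          apply Finset.sum_le_sum
          intro S hS
          apply Real.rpow_le_one_of_one_le_of_nonpos
          · exact_mod_cast pr_pos hQ' (mem_SF.1 hS).1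
          · norm_num
      _ = ((SF Q w).card : ℝ) := by simp
      _ = (((SF Q w).image pr).card : ℝ) := by rw [Finset.card_image_of_injOn hprinj]
      _ ≤ ((Finset.Icc 1 W).card : ℝ) := by exact_mod_cast Finset.card_le_card hprimage
      _ = W := by simp
  -- Rankin
  have hlogLa : Real.log (L ^ a) = a * Real.log L := Real.log_pow _ _
  have hRk := T6Res.rankin (L' := L ^ a) hgood hlam1 N (ν * L) hNhalf (by
    rw [hlogLa]
    have e1 : ν * L / (4 * (a * Real.log L)) = 2 * (ν * (L / Real.log L) / (8 * a)) := by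
      field_simp; norm_num
    have e2 : 12 * lam ^ 2 = ν * (L / Real.log L) / (8 * a) := by
      rw [hlam, mul_pow, hσ2]
      exact bs.h2νa _ (div_nonneg hL0.le (by linarith only [hlog1]))
    rw [e1, e2]
    linarith [h.rk])
  -- the common kernel
  have hKc : ((Nat.card (K H) : ℕ) : ℝ) ≤ Real.exp ((1 - θ) * L) := by
    have h1 := T3Prime.index_le (κ := 1 - θ) H (by rw [sub_sub_cancel]; exact hH)
    rw [Real.rpow_def_of_pos hq0] at h1
    rw [mul_comm (1 - θ)]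
    exact h1
  -- first bound
  have hρ : (0 : ℝ) ≤ 1 - θ / 2 := by linarith
  have h1a := bs.h1a
  have h2b : 2 * b = 1 - 1 / a := by rw [hb]; field_simp
  have hZNle : ((Z * N : ℕ) : ℝ) ≤ Real.exp (θ / 8 * L) := by
    push_cast
    calc (Z : ℝ) * N ≤ Real.exp (θ / 16 * L) * Real.exp (ν * L) := by gcongr
      _ = Real.exp ((θ / 16 + ν) * L) := by rw [← Real.exp_add]; congr 1; ring
      _ ≤ _ := by
          apply Real.exp_le_exp.2
          apply mul_le_mul_of_nonneg_right _ hL0.le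
          linarith
  have hS1 := T6Loc.S1_bound (K H) b hb12 hPq hPQ hQ' hf0 hf1 hf2 hZNN hN1 hZ1 y hy1 hyQ
    (1 - θ / 2) hρ (by rw [h2b]; linarith) (by
      have : 4 * b = 2 * (2 * b) := by ring
      rw [this, h2b]; linarith) (by
      intro c Y hY1 hY2
      refine T6Fin.count_rough θ hθ0 hθ1 a ha16 (by rw [← hL]; linarith) (K H) hKc Q hQ' hyQ c Y hY1 ?_
      refine le_trans ?_ hZNle
      exact_mod_cast hY2)
  have hlogZN0 : 0 ≤ Real.log ((Z * N : ℕ) : ℝ) := Real.log_natCast_nonneg _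
  have hlogZN : Real.log ((Z * N : ℕ) : ℝ) ≤ L := by
    have h1 : Real.log ((Z * N : ℕ) : ℝ) ≤ θ / 8 * L := by
      rw [Real.log_le_iff_le_exp]
      · exact hZNle
      · exact_mod_cast Nat.mul_pos hZ1 hN1
    have h2 := mul_le_mul_of_nonneg_right hθ1 hL0.le
    linarith only [h1, h2, hL0]
  have hMain0 : 0 ≤ Main P f := Finset.prod_nonneg fun p hp => by
    have := hf0 p hp; positivity
  have hLB0 : 0 < L ^ B := by positivity
  have hLB1 : 1 ≤ L ^ B := one_le_pow₀ (by linarith)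
  have hs1 := hS1.trans (T6One.num1 (L := L) hL16 hθ0 ha (Main P f) _ hlogZN0 hlogZN)
  -- second bound
  have hFin1 : 1 ≤ Fin P f := one_le_Fin
  have hFin0 : 0 ≤ Fin P f := by linarith
  have hs2 : (N * Fin P f) ^ 2 * ∑ k ∈ (Finset.Icc 1 Z).filter
        (fun k => w < (Q.filter (fun p => p ∣ k)).card), T6Main.gk Q w X k ^ 2
      ≤ (Fin P f * Real.exp (-(η / (32 * a) * L))) ^ 2 := by
    refine le_trans ?_ (T6One.num2 h haN hη0 hθ1 hθ0 bs.hν hε1 hC1 (Fin P f) hFin0 N Z hNle hZ1 hZle)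
    apply mul_le_mul_of_nonneg_left _ (sq_nonneg _)
    have hmany := T6Cnt.sum_many_le Q hQ' ⌊Real.sqrt L⌋₊ Z w
      (Nat.floor_pos.2 (Real.one_le_sqrt.2 hL1))
    have hpt : ∀ k ∈ (Finset.Icc 1 Z).filter (fun k => w < (Q.filter (fun p => p ∣ k)).card),
        T6Main.gk Q w X k ^ 2 ≤ (C * Real.exp (ε * L)) ^ 2 * (1 / (k : ℝ)) := by
      intro k hk
      rw [Finset.mem_filter, Finset.mem_Icc] at hk
      apply T6Main.gk_sq_le hQ' (by omega : 0 < k)
      refine (hC k (by omega)).trans ?_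
      apply mul_le_mul_of_nonneg_left _ (by linarith)
      rw [mul_comm ε L, Real.exp_mul, hexpL]
      apply Real.rpow_le_rpow (Nat.cast_nonneg _) _ hε0.le
      exact_mod_cast hk.1.2.trans hZq.le
    refine (Finset.sum_le_sum hpt).trans ?_
    rw [← Finset.mul_sum]
    exact mul_le_mul_of_nonneg_left hmany (sq_nonneg _)
  -- third bound
  have hdivU : ∀ (m : ℕ) (x : ℝ), m ≠ 0 → (m : ℝ) ≤ Real.exp x →
      ((m.divisors).card : ℝ) ≤ C * Real.exp (ε * x) := by
    intro m x hm hmx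
    refine (hC m hm).trans ?_
    apply mul_le_mul_of_nonneg_left _ (by linarith)
    rw [mul_comm ε x, Real.exp_mul]
    exact Real.rpow_le_rpow (Nat.cast_nonneg _) hmx hε0.le
  set D₂ := ⌊C * Real.exp (3 * 2 ^ i * ε * L)⌋₊ with hD₂
  have hD₂le : (D₂ : ℝ) ≤ C * Real.exp (3 * 2 ^ i * ε * L) := Nat.floor_le (by positivity)
  have hD₂1 : 1 ≤ D₂ := by
    apply Nat.le_floor
    rw [Nat.cast_one]
    exact one_le_mul_of_one_le_of_one_le hC1 (Real.one_le_exp (by positivity))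
  have hτ := T6Fin.tail_tau (q := q) θ (θ / 16) i (by
      rw [div_le_iff₀ hθ0] at hi
      linarith) (K H) hKc Z (X * W) D₂ hD₂1 (by
      intro n hn
      rw [Finset.mem_Icc] at hn
      apply Nat.le_floor
      refine (hdivU n (3 * 2 ^ i * L) (by omega) ?_).trans (le_of_eq ?_)
      · have h1 : (n : ℝ) ≤ ((X * W : ℕ) : ℝ) ^ (2 ^ i) := by exact_mod_cast hn.2
        calc (n : ℝ) ≤ ((X * W : ℕ) : ℝ) ^ (2 ^ i) := h1
          _ ≤ Real.exp (3 * L) ^ (2 ^ i) := pow_le_pow_left₀ (Nat.cast_nonneg _) hXW _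
          _ = Real.exp (3 * 2 ^ i * L) := by
              rw [← Real.exp_nat_mul]; push_cast; congr 1; ring
      · congr 2; ring) (by
      intro Y hY
      rw [← hL]
      exact (Nat.lt_of_floor_lt hY).le)
  set UQ : ℝ := ((X * W / q + 1 : ℕ) : ℝ) with hUQ
  have hUQle : UQ ≤ 3 * (1 + L) ^ 2 * Real.exp (η * L) := by
    have h1 : ((X * W / q : ℕ) : ℝ) ≤ ((X * W : ℕ) : ℝ) / q := Nat.cast_div_le
    have h2 : ((X * W : ℕ) : ℝ) / q ≤ 9 / 4 * (1 + L) ^ 2 * Real.exp (η * L) := by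
      rw [div_le_iff₀ hq0]
      push_cast
      calc (X : ℝ) * W ≤ (9 / 4 * (q * (1 + L) ^ 2)) * Real.exp (η * L) := by gcongr
        _ = _ := by ring
    have h3 : 1 ≤ 3 / 4 * (1 + L) ^ 2 * Real.exp (η * L) := by
      have h4 : 1 ≤ Real.exp (η * L) := Real.one_le_exp (by positivity)
      have h5 : (4 : ℝ) ≤ (1 + L) ^ 2 := by
        calc (4 : ℝ) = 2 ^ 2 := by norm_num
          _ ≤ (1 + L) ^ 2 := pow_le_pow_left₀ (by norm_num) (by linarith only [hL1]) 2
      exact one_le_mul_of_one_le_of_one_le (by linarith only [h5]) h4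
    rw [hUQ]
    push_cast
    linarith
  have hs3 : (N * Fin P f) ^ 2 * (UQ * (C * Real.exp (3 * ε * L)) ^ 2 *
      ((2 * D₂ * Real.exp (-(θ * L / 2 ^ i))) * (1 + Real.log ((X * W : ℕ) : ℝ))))
      ≤ (Fin P f * Real.exp (-(θ / (8 * 2 ^ i) * L))) ^ 2 :=
    T6One.num3 h haN hθ0 bs.hη bs.hν bs.hε hC1 (Fin P f) hFin0 N hNle UQ _ D₂ (Nat.cast_nonneg _)
      (Real.log_natCast_nonneg _) hUQle hlogXW (Nat.cast_nonneg _) hD₂le
  -- the averaged inequality
  have hmain := T6Main.main_ineq H hPq hPQ hQq hf0 W hprW hNW hN1 hW1 hNZ hZq hZX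
    (Real.sqrt (1 + L)) (Real.sqrt_pos.2 (by linarith)) hc2 (1 / (4 * Real.log (L ^ a)))
    (by rw [hlogLa]; positivity) hRk
    (Main P f / (8 * L ^ B)) (Fin P f * Real.exp (-(η / (32 * a) * L)))
    (Fin P f * Real.exp (-(θ / (8 * 2 ^ i) * L))) (by positivity) (by positivity) (by positivity)
    hs1 hs2 (C * Real.exp (3 * ε * L))
    ((2 * D₂ * Real.exp (-(θ * L / 2 ^ i))) * (1 + Real.log ((X * W : ℕ) : ℝ)))
    (by positivity) (by
      have := Real.log_natCast_nonneg (X * W)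
      positivity) (by
      intro k hk
      rw [Finset.mem_Ioc] at hk
      have h1 := hdivU k (3 * L) (by omega) (by
        refine le_trans ?_ hXW
        exact_mod_cast hk.2)
      refine h1.trans (le_of_eq ?_)
      congr 2; ring) hτ hs3 (Real.exp (lam / 256)) (Real.exp_pos _).le 𝔅 h𝔅
  -- numerics
  have hqb : (q : ℝ) ≤ (𝔅.card : ℝ) * L ^ B := by
    rw [div_lt_iff₀ hLB0] at hcon; exact hcon.le
  have hbc0 : (0 : ℝ) < 𝔅.card := lt_of_le_of_lt (div_nonneg hq0.le hLB0.le) hcon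
  have hn : ((XX q).card : ℝ) ≤ q := by
    rw [card_XX]
    exact_mod_cast Nat.sub_le q 1
  have hBdiv := Final.B_div (q := q)
  have hBdiv0 : 0 ≤ 2 * Approx.B q / Real.sqrt X := by
    have := Approx.B_nonneg (q := q)
    positivity
  have hT : 2 * Real.sqrt X * (N * Fin P f) * ∑ S ∈ SF Q w, ((pr S : ℕ) : ℝ) ^ (-(1 / 2) : ℝ)
      ≤ 𝔅.card * Fin P f := by
    have h1 : 2 * Real.sqrt X * N * W ≤ 𝔅.card :=
      term2_num hexpL hL0 hqb h.tr (Final.sqrt_len_le (q := q)) (Real.sqrt_nonneg _)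
        (Nat.cast_nonneg _) (Nat.cast_nonneg _) hNle hWle (by linarith only [hηle, hνle, hθ1])
    calc 2 * Real.sqrt X * (N * Fin P f) * ∑ S ∈ SF Q w, ((pr S : ℕ) : ℝ) ^ (-(1 / 2) : ℝ)
        ≤ 2 * Real.sqrt X * (N * Fin P f) * W := by gcongr
      _ = (2 * Real.sqrt X * N * W) * Fin P f := by ring
      _ ≤ _ := by gcongr
  have hmg := T6Res.main_ge (L' := L ^ a) hgood hlam1 (by
    have h1 : L ≤ L ^ a := by
      calc L = L ^ 1 := (pow_one L).symm
        _ ≤ L ^ a := pow_le_pow_right₀ hL1 haN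
    linarith only [h1, hlamL])
  have hE2 : Real.exp (lam / 128) = Real.exp (lam / 256) * Real.exp (lam / 256) := by
    rw [← Real.exp_add]; congr 1; ring
  rw [hE2] at hmg
  exact final_num hbc0 (Nat.cast_nonneg _) hn hL16 hqb (by linarith only [hFin1] : 0 < Fin P f) hmg
    (by positivity) (by positivity) h.E (Real.one_le_sqrt.2 (by linarith only [hL0])) hBdiv hBdiv0 hT
    (exp_small hFin0 h.d2) (exp_small hFin0 h.d3) hmain

end Pool.Agent.H.MP_3e6494_nt.T6Last
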